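import Mathlib

set_option autoImplicit false

/-! Shared definitions for MP_4aaa5f_an (S04589): planar Monge–Ampère, weak integrability of the
Hessian.  See PLAN.md for the proof. -/

namespace Pool.Agent.MP_4aaa5f_an

open MeasureTheory Set Filter Topology

/-! ### One-dimensional notions -/

/-- Linear interpolation of `F` between `a` and `b`, evaluated at `p` (affine in `p`). -/
noncomputable def interp (F : ℝ → ℝ) (a b p : ℝ) : ℝ := ((b - p) * F a + (p - a) * F b) / (b - a)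

/-- `p` is a bad point of `F` at level `ε` (window `[-A,A]`): some chord of `x ↦ F x - ε x²/2` over
`[a,b] ⊆ [-A,A]`, `a < p < b`, lies strictly below the function at `p`. -/
def Bad (A ε : ℝ) (F : ℝ → ℝ) (p : ℝ) : Prop :=
  ∃ a b, -A ≤ a ∧ a < p ∧ p < b ∧ b ≤ A ∧ interp F a b p - F p < ε * (p - a) * (b - p) / 2

/-- `(a,b)` is a connected component of `V ⊆ ℝ`. -/
structure IsComp (V : Set ℝ) (a b : ℝ) : Prop where
  lt : a < b
  sub : Ioo a b ⊆ V
  left : a ∉ V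
  right : b ∉ V

/-- left end of the component of `V` containing `p` -/
noncomputable def lft (V : Set ℝ) (p : ℝ) : ℝ := sSup {q | q ≤ p ∧ q ∉ V}
/-- right end of the component of `V` containing `p` -/
noncomputable def rgt (V : Set ℝ) (p : ℝ) : ℝ := sInf {q | p ≤ q ∧ q ∉ V}
/-- interpolation of `F` between the ends of the component of `V` containing `p` -/
noncomputable def hat (V : Set ℝ) (F : ℝ → ℝ) (p : ℝ) : ℝ := interp F (lft V p) (rgt V p) p

/-! ### Two-dimensional notions; `G p y` -/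

/-- the bad set of `G` -/
def BadSet (A ε : ℝ) (G : ℝ → ℝ → ℝ) : Set (ℝ × ℝ) := {z | Bad A ε (fun p => G p z.2) z.1}

/-- the open square of half-side `r` centred at `0` -/
def Sq (r : ℝ) : Set (ℝ × ℝ) := Ioo (-r) r ×ˢ Ioo (-r) r

/-- `hat` in the first variable -/
noncomputable def hat2 (V : Set (ℝ × ℝ)) (F : ℝ → ℝ → ℝ) (z : ℝ × ℝ) : ℝ :=
  hat {p | (p, z.2) ∈ V} (fun p => F p z.2) z.1

/-- `G` is a `C²` function on the plane with `∂_pp G = w`, `∂_yy G = -φ`, and `l w ≤ φ ≤ w/l`,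
`w > 0` on the square `|p|,|y| ≤ R`. -/
structure Sol (l R : ℝ) (G Gp w Gy φ : ℝ → ℝ → ℝ) : Prop where
  dG : ∀ p y, HasDerivAt (fun p => G p y) (Gp p y) p
  dGp : ∀ p y, HasDerivAt (fun p => Gp p y) (w p y) p
  dGy : ∀ p y, HasDerivAt (fun y => G p y) (Gy p y) y
  dGyy : ∀ p y, HasDerivAt (fun y => Gy p y) (-φ p y) y
  cG : Continuous (fun z : ℝ × ℝ => G z.1 z.2)
  cw : Continuous (fun z : ℝ × ℝ => w z.1 z.2)
  cφ : Continuous (fun z : ℝ × ℝ => φ z.1 z.2)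
  pos : ∀ p y, |p| ≤ R → |y| ≤ R → 0 < w p y
  lo : ∀ p y, |p| ≤ R → |y| ≤ R → l * w p y ≤ φ p y
  hi : ∀ p y, |p| ≤ R → |y| ≤ R → φ p y ≤ l⁻¹ * w p y

/-- integral of `w` over the square of half-side `r` centred at `(p0,y0)` -/
noncomputable def mass (w : ℝ → ℝ → ℝ) (p0 y0 r : ℝ) : ℝ :=
  ∫ y in (y0 - r)..(y0 + r), ∫ p in (p0 - r)..(p0 + r), w p y

/-- a `C²` cutoff function on `ℝ` -/
structure Cut (ρ1 ρ2 C : ℝ) (a a1 a2 : ℝ → ℝ) : Prop where
  d1 : ∀ t, HasDerivAt a (a1 t) t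
  d2 : ∀ t, HasDerivAt a1 (a2 t) t
  c2 : Continuous a2
  nonneg : ∀ t, 0 ≤ a t
  le_one : ∀ t, a t ≤ 1
  eq_one : ∀ t, |t| ≤ ρ1 → a t = 1
  eq_zero : ∀ t, ρ2 ≤ |t| → a t = 0
  b1 : ∀ t, |a1 t| ≤ C
  b2 : ∀ t, |a2 t| ≤ C

/-- tent-averaged second difference in `p` -/
noncomputable def starA (G : ℝ → ℝ → ℝ) (p y h : ℝ) : ℝ :=
  ∫ t in (-h)..h, (h - |t|) * (G (p + h) (y + t) + G (p - h) (y + t) - 2 * G p (y + t))
/-- minus the tent-averaged second difference in `y` -/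
noncomputable def starB (G : ℝ → ℝ → ℝ) (p y h : ℝ) : ℝ :=
  ∫ s in (-h)..h, (h - |s|) * (2 * G (p + s) y - G (p + s) (y + h) - G (p + s) (y - h))

/-- The weak form of `l G_pp ≤ -G_yy ≤ G_pp / l` on the square `|p|,|y| ≤ R`, steps `≤ H`. -/
def Star (l R H : ℝ) (G : ℝ → ℝ → ℝ) : Prop :=
  ∀ p y h, |p| ≤ R → |y| ≤ R → 0 < h → h ≤ H →
    l * starA G p y h ≤ starB G p y h ∧ starB G p y h ≤ l⁻¹ * starA G p y h

/-! ### Convex functions on open convex `U ⊆ ℝ × ℝ`; points are `z = (x,y)` -/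

/-- the subdifferential of `u` at `z` (relative to `U`) -/
def sub (U : Set (ℝ × ℝ)) (u : ℝ × ℝ → ℝ) (z : ℝ × ℝ) : Set (ℝ × ℝ) :=
  {P | ∀ v ∈ U, u z + P.1 * (v.1 - z.1) + P.2 * (v.2 - z.2) ≤ u v}

/-- the image of `B` under the subdifferential of `u` -/
def subim (U : Set (ℝ × ℝ)) (u : ℝ × ℝ → ℝ) (B : Set (ℝ × ℝ)) : Set (ℝ × ℝ) :=
  ⋃ z ∈ B, sub U u z

/-- `u` is convex on the open convex set `U` with Monge–Ampère measure between `l` and `1/l`. -/
structure MA (l : ℝ) (U : Set (ℝ × ℝ)) (u : ℝ × ℝ → ℝ) : Prop where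
  isOpen : IsOpen U
  convex : Convex ℝ U
  convexOn : ConvexOn ℝ U u
  lo : ∀ B, MeasurableSet B → B ⊆ U → ENNReal.ofReal l * volume B ≤ volume (subim U u B)
  hi : ∀ B, MeasurableSet B → B ⊆ U → volume (subim U u B) ≤ ENNReal.ofReal l⁻¹ * volume B

/-- `u` is a `C¹` convex function on the open convex set `U` with gradient `(P,Q)`, strictly convex
along horizontal lines. -/
structure Nice (U : Set (ℝ × ℝ)) (u P Q : ℝ × ℝ → ℝ) : Prop where
  isOpen : IsOpen U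
  convex : Convex ℝ U
  convexOn : ConvexOn ℝ U u
  diff : ∀ z ∈ U, HasFDerivAt u
    (P z • ContinuousLinearMap.fst ℝ ℝ ℝ + Q z • ContinuousLinearMap.snd ℝ ℝ ℝ) z
  cP : ContinuousOn P U
  cQ : ContinuousOn Q U
  sub_eq : ∀ z ∈ U, sub U u z = {(P z, Q z)}
  strict : ∀ y, StrictConvexOn ℝ {x | (x, y) ∈ U} (fun x => u (x, y))

/-- rotation by the angle with cosine `c`, sine `s` -/
def rot (c s : ℝ) (z : ℝ × ℝ) : ℝ × ℝ := (c * z.1 - s * z.2, s * z.1 + c * z.2)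

/-- partial Legendre transform of `u` in `x` over `[a,b]` -/
noncomputable def PL (u : ℝ × ℝ → ℝ) (a b p y : ℝ) : ℝ :=
  sSup ((fun x => p * x - u (x, y)) '' Icc a b)
/-- the maximiser, as the `p`-derivative of `PL` -/
noncomputable def Xm (u : ℝ × ℝ → ℝ) (a b p y : ℝ) : ℝ := deriv (fun p => PL u a b p y) p
/-- minus the `y`-derivative of `PL`; equals `u_y` at the maximiser -/
noncomputable def Hm (u : ℝ × ℝ → ℝ) (a b p y : ℝ) : ℝ := -deriv (fun y => PL u a b p y) y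

/-- the points `(p,y)` where the maximiser is interior -/
def Dom (P : ℝ × ℝ → ℝ) (a b c d : ℝ) : Set (ℝ × ℝ) :=
  {z | z.2 ∈ Ioo c d ∧ P (a, z.2) < z.1 ∧ z.1 < P (b, z.2)}

end Pool.Agent.MP_4aaa5f_an
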