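import Pool.Agent.MP_4aaa5f_an.Defs

set_option autoImplicit false

namespace Pool.Agent.MP_4aaa5f_an

open MeasureTheory Set Filter Topology

namespace T01

/-- a box around a segment inside an open set -/
lemma exists_tube {U : Set (ℝ × ℝ)} (hU : IsOpen U) {m : ℝ}
    (hseg : ∀ x ∈ Icc (-m) m, (x, (0 : ℝ)) ∈ U) :
    ∃ s0 > 0, ∀ x ∈ Icc (-m) m, ∀ s, |s| ≤ s0 → (x, s) ∈ U := by
  have hK : IsCompact (Icc (-m) m ×ˢ ({0} : Set ℝ)) := isCompact_Icc.prod isCompact_singleton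
  have hKU : Icc (-m) m ×ˢ ({0} : Set ℝ) ⊆ U := by
    rintro ⟨x, s⟩ ⟨hx, hs⟩
    simp only [mem_singleton_iff] at hs
    subst hs
    exact hseg x hx
  obtain ⟨δ, hδ, hsub⟩ := hK.exists_thickening_subset_open hU hKU
  refine ⟨δ / 2, by positivity, fun x hx s hs => hsub ?_⟩
  rw [Metric.mem_thickening_iff]
  refine ⟨(x, 0), ⟨hx, rfl⟩, ?_⟩
  rw [Prod.dist_eq]
  simp only [dist_self, Real.dist_eq, sub_zero]
  rw [max_eq_right (abs_nonneg _)]
  linarith

lemma conv2 {U : Set (ℝ × ℝ)} {v : ℝ × ℝ → ℝ} (hv : ConvexOn ℝ U v) {x1 y1 x2 y2 θ x y : ℝ}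
    (h1 : (x1, y1) ∈ U) (h2 : (x2, y2) ∈ U) (hθ : 0 ≤ θ) (hθ1 : θ ≤ 1)
    (hx : x = θ * x1 + (1 - θ) * x2) (hy : y = θ * y1 + (1 - θ) * y2) :
    v (x, y) ≤ θ * v (x1, y1) + (1 - θ) * v (x2, y2) := by
  have := hv.2 h1 h2 hθ (by linarith : 0 ≤ 1 - θ) (by ring)
  simp only [smul_eq_mul, Prod.smul_mk, Prod.mk_add_mk] at this
  rw [hx, hy]
  exact this

lemma flat_core {U : Set (ℝ × ℝ)} {v : ℝ × ℝ → ℝ} (hU : IsOpen U) (hv : ConvexOn ℝ U v)
    {m : ℝ} (hm : 0 < m) (hseg : ∀ x ∈ Icc (-m) m, (x, (0 : ℝ)) ∈ U)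
    (hzero : ∀ x ∈ Icc (-m) m, v (x, 0) = 0) {ε : ℝ} (hε : 0 < ε) :
    ∃ q t, 0 < t ∧ Icc (-(m / 4)) (m / 4) ×ˢ Ioc 0 t ⊆ U ∧
      subim U v (Icc (-(m / 4)) (m / 4) ×ˢ Ioc 0 t) ⊆
        Icc (-(4 * ε * t / m)) (4 * ε * t / m) ×ˢ Icc q (q + 2 * ε) := by
  obtain ⟨s0, hs0, hB⟩ := exists_tube hU hseg
  set f : ℝ → ℝ := fun s => v (0, s) with hf
  have h0m : (0 : ℝ) ∈ Icc (-m) m := by constructor <;> linarith
  have hf0 : f 0 = 0 := hzero 0 h0m
  have hU0 : ∀ s, |s| ≤ s0 → ((0 : ℝ), s) ∈ U := fun s hs => hB 0 h0m s hs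
  set T : Set ℝ := (fun s => f s / s) '' Ioc 0 s0 with hT
  have hlb : ∀ s ∈ Ioc 0 s0, -(f (-s0) / s0) ≤ f s / s := by
    intro s hs
    have h1 : (0 : ℝ) ≤ s0 / (s + s0) := by have := hs.1; positivity
    have h2 : s0 / (s + s0) ≤ 1 := by
      rw [div_le_one (by linarith [hs.1])]; linarith [hs.1]
    have hpos : 0 < s + s0 := by linarith [hs.1]
    have := conv2 hv (x := 0) (y := 0) (hU0 s (by rw [abs_of_pos hs.1]; exact hs.2))
      (hU0 (-s0) (by rw [abs_neg, abs_of_pos hs0])) h1 h2 (by ring) (by field_simp; ring)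
    have e0 : v (0, 0) = 0 := hf0
    rw [e0] at this
    have e1 : 1 - s0 / (s + s0) = s / (s + s0) := by field_simp; ring
    rw [e1] at this
    have e2 : 0 ≤ s0 * f s + s * f (-s0) := by
      have h3 : s0 / (s + s0) * v (0, s) + s / (s + s0) * v (0, -s0) =
        (s0 * f s + s * f (-s0)) / (s + s0) := by simp only [hf]; ring
      rw [h3] at this
      by_contra hcon
      push Not at hcon
      have := div_neg_of_neg_of_pos hcon hpos
      linarith
    have h4 : f s / s - -(f (-s0) / s0) = (s0 * f s + s * f (-s0)) / (s * s0) := by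
      have := hs.1.ne'
      field_simp
      ring
    have h5 : 0 ≤ (s0 * f s + s * f (-s0)) / (s * s0) :=
      div_nonneg e2 (mul_pos hs.1 hs0).le
    linarith
  have hTne : T.Nonempty := ⟨_, ⟨s0, ⟨hs0, le_rfl⟩, rfl⟩⟩
  have hTbdd : BddBelow T := by
    refine ⟨-(f (-s0) / s0), ?_⟩
    rintro _ ⟨s, hs, rfl⟩
    exact hlb s hs
  set q := sInf T with hq
  have hqle : ∀ s, 0 < s → s ≤ s0 → q * s ≤ f s := by
    intro s hs hs'
    have : q ≤ f s / s := csInf_le hTbdd ⟨s, ⟨hs, hs'⟩, rfl⟩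
    rwa [le_div_iff₀ hs] at this
  obtain ⟨_, ⟨s1, hs1, rfl⟩, hs1q⟩ := exists_lt_of_csInf_lt hTne (show sInf T < q + ε by linarith)
  have hs1q' : f s1 ≤ (q + ε) * s1 := by
    have h1 : f s1 / s1 < q + ε := hs1q
    rw [div_lt_iff₀ hs1.1] at h1
    exact h1.le
  have hupf : ∀ s, 0 < s → s ≤ s1 → f s ≤ (q + ε) * s := by
    intro s hs hs'
    have h1 : 0 ≤ s / s1 := (div_pos hs hs1.1).le
    have h2 : s / s1 ≤ 1 := by rw [div_le_one hs1.1]; exact hs'
    have h3 := conv2 hv (x := 0) (y := s) (hU0 s1 (by rw [abs_of_pos hs1.1]; exact hs1.2))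
      (hU0 0 (by simpa using hs0.le)) h1 h2 (by ring) (by have := hs1.1.ne'; field_simp; ring)
    have e0 : v (0, 0) = 0 := hf0
    rw [e0, mul_zero, add_zero] at h3
    have h4 : s / s1 * f s1 ≤ s / s1 * ((q + ε) * s1) := mul_le_mul_of_nonneg_left hs1q' h1
    have h5 : s / s1 * ((q + ε) * s1) = (q + ε) * s := by
      have := hs1.1.ne'
      field_simp
    simp only [hf] at h4 ⊢
    linarith
  have hlow : ∀ x, |x| ≤ m / 2 → ∀ s, 0 < s → s ≤ s0 → q * s ≤ v (x, s) := by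
    intro x hx s hs hs'
    have hx' := abs_le.1 hx
    have h1 := conv2 hv (x := 0) (y := s / 2) (θ := 1 / 2)
      (hB x ⟨by linarith [hx'.1], by linarith [hx'.2]⟩ s (by rw [abs_of_pos hs]; exact hs'))
      (hseg (-x) ⟨by linarith [hx'.2], by linarith [hx'.1]⟩) (by norm_num) (by norm_num)
      (by ring) (by ring)
    rw [hzero (-x) ⟨by linarith [hx'.2], by linarith [hx'.1]⟩] at h1
    have h2 := hqle (s / 2) (by positivity) (by linarith)
    simp only [hf] at h2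
    linarith
  have hup : ∀ x, |x| ≤ m / 2 → ∀ s, 0 < s → s ≤ s1 / 2 → v (x, s) ≤ (q + ε) * s := by
    intro x hx s hs hs'
    have hx' := abs_le.1 hx
    have h1 := conv2 hv (x := x) (y := s) (θ := 1 / 2)
      (hU0 (2 * s) (by rw [abs_of_pos (by positivity)]; linarith [hs1.2]))
      (hseg (2 * x) ⟨by linarith [hx'.1], by linarith [hx'.2]⟩) (by norm_num) (by norm_num)
      (by ring) (by ring)
    rw [hzero (2 * x) ⟨by linarith [hx'.1], by linarith [hx'.2]⟩] at h1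
    have h2 := hupf (2 * s) (by positivity) (by linarith)
    simp only [hf] at h2
    linarith
  refine ⟨q, s1 / 4, by linarith [hs1.1], ?_, ?_⟩
  · rintro ⟨x, s⟩ ⟨hx, hs⟩
    simp only [mem_Icc, mem_Ioc] at hx hs
    exact hB x ⟨by linarith, by linarith⟩ s (by rw [abs_of_pos hs.1]; linarith [hs1.2])
  · intro P hP
    obtain ⟨⟨x, y⟩, ⟨hx, hy⟩, hsub⟩ := mem_iUnion₂.1 hP
    simp only [mem_Icc, mem_Ioc] at hx hy
    have hs1' := hs1.1
    have hs1s := hs1.2
    have hyy : |y| ≤ s0 := by rw [abs_of_pos hy.1]; linarith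
    have hxabs : |x| ≤ m / 2 := by rw [abs_le]; constructor <;> linarith
    have hvz := hlow x hxabs y hy.1 (by linarith)
    -- test points
    have t1 := hsub (x + m / 4, y) (hB _ ⟨by linarith, by linarith⟩ y hyy)
    have t2 := hsub (x - m / 4, y) (hB _ ⟨by linarith, by linarith⟩ y hyy)
    have t3 := hsub (x, 0) (hB _ ⟨by linarith, by linarith⟩ 0 (by simpa using hs0.le))
    have t4 := hsub (x, s1 / 2) (hB _ ⟨by linarith, by linarith⟩ (s1 / 2)
      (by rw [abs_of_pos (by positivity)]; linarith))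
    have u1 := hup (x + m / 4) (by rw [abs_le]; constructor <;> linarith) y hy.1 (by linarith)
    have u2 := hup (x - m / 4) (by rw [abs_le]; constructor <;> linarith) y hy.1 (by linarith)
    have u4 := hup x hxabs (s1 / 2) (by linarith) le_rfl
    have u3 := hzero x ⟨by linarith, by linarith⟩
    simp only [add_sub_cancel_left, sub_self, mul_zero, add_zero] at t1 t2 t3 t4
    rw [u3] at t3
    have hεy : ε * y ≤ ε * (s1 / 4) := mul_le_mul_of_nonneg_left hy.2 hε.le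
    have k1 : P.1 * (m / 4) ≤ ε * (s1 / 4) := by linarith
    have k2 : P.1 * (x - m / 4 - x) ≤ ε * (s1 / 4) := by linarith
    have k2' : -(ε * (s1 / 4)) ≤ P.1 * (m / 4) := by nlinarith
    have k3 : q ≤ P.2 := by
      by_contra hcon
      push Not at hcon
      nlinarith [hy.1]
    have k4 : (P.2 - q) * (s1 / 2 - y) ≤ ε * (s1 / 2) := by nlinarith
    have k5 : P.2 ≤ q + 2 * ε := by
      by_contra hcon
      push Not at hcon
      have : s1 / 4 ≤ s1 / 2 - y := by linarith [hy.2]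
      nlinarith
    refine ⟨⟨?_, ?_⟩, ⟨k3, k5⟩⟩
    · rw [neg_le, le_div_iff₀ hm]; linarith
    · rw [le_div_iff₀ hm]; linarith

end T01

/-- [T01] No flat horizontal segments.  Only `h.lo` and convexity are needed. -/
theorem noflat {l : ℝ} {U : Set (ℝ × ℝ)} {u : ℝ × ℝ → ℝ} (hl : 0 < l) (h : MA l U u)
    {x1 x2 y m : ℝ} (hx : x1 < x2) (hU : ∀ x ∈ Icc x1 x2, (x, y) ∈ U)
    (hflat : ∀ x ∈ Icc x1 x2, u (x, y) = u (x1, y) + m * (x - x1)) : False := by
  set r : ℝ := (x2 - x1) / 2 with hr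
  set m0 : ℝ := (x1 + x2) / 2 with hm0
  have hrpos : 0 < r := by rw [hr]; linarith
  set U' : Set (ℝ × ℝ) := (fun w : ℝ × ℝ => (m0 + w.1, y + w.2)) ⁻¹' U with hU'
  set v : ℝ × ℝ → ℝ := fun w => u (m0 + w.1, y + w.2) - u (x1, y) - m * (m0 + w.1 - x1) with hv
  have htr : Continuous (fun w : ℝ × ℝ => (m0 + w.1, y + w.2)) := by fun_prop
  have hU'o : IsOpen U' := h.isOpen.preimage htr
  have hvconv : ConvexOn ℝ U' v := by
    have key : ∀ (a b : ℝ × ℝ) (s s' : ℝ), s + s' = 1 →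
        (m0 + (s • a + s' • b).1, y + (s • a + s' • b).2) =
        s • (m0 + a.1, y + a.2) + s' • (m0 + b.1, y + b.2) := by
      intro a b s s' hss
      have hs' : s' = 1 - s := by linarith
      subst hs'
      ext <;> simp <;> ring
    constructor
    · intro a ha b hb s s' hs hs' hss
      simp only [hU', mem_preimage] at ha hb ⊢
      rw [key a b s s' hss]
      exact h.convex ha hb hs hs' hss
    · intro a ha b hb s s' hs hs' hss
      simp only [hU', mem_preimage] at ha hb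
      simp only [hv]
      rw [key a b s s' hss]
      have h5 := h.convexOn.2 ha hb hs hs' hss
      have hs' : s' = 1 - s := by linarith
      subst hs'
      simp only [smul_eq_mul, Prod.fst_add, Prod.smul_fst, Prod.snd_add, Prod.smul_snd] at h5 ⊢
      nlinarith
  have hseg : ∀ x ∈ Icc (-r) r, (x, (0 : ℝ)) ∈ U' := by
    intro x hx'
    simp only [hU', mem_preimage, add_zero]
    apply hU
    constructor <;> rw [hm0] <;> rw [hr] at hx' <;> linarith [hx'.1, hx'.2]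
  have hzero : ∀ x ∈ Icc (-r) r, v (x, 0) = 0 := by
    intro x hx'
    have hmem : m0 + x ∈ Icc x1 x2 := by
      constructor <;> rw [hm0] <;> rw [hr] at hx' <;> linarith [hx'.1, hx'.2]
    have := hflat _ hmem
    simp only [hv, add_zero]
    rw [this]; ring
  set ε : ℝ := min 1 (l * r ^ 2 / 64) with hε
  have hεpos : 0 < ε := lt_min one_pos (by positivity)
  have hε1 : ε ≤ 1 := min_le_left _ _
  have hε2 : ε ≤ l * r ^ 2 / 64 := min_le_right _ _
  obtain ⟨q, t, ht, hEU, hsub⟩ := T01.flat_core hU'o hvconv hrpos hseg hzero hεpos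
  set E : Set (ℝ × ℝ) := Icc (m0 - r / 4) (m0 + r / 4) ×ˢ Ioc y (y + t) with hE
  set R : Set (ℝ × ℝ) := Icc (m - 4 * ε * t / r) (m + 4 * ε * t / r) ×ˢ Icc q (q + 2 * ε) with hR
  have hEm : MeasurableSet E := measurableSet_Icc.prod measurableSet_Ioc
  have hEsub : E ⊆ U := by
    intro w hw
    have hw' : (w.1 - m0, w.2 - y) ∈ U' := by
      apply hEU
      refine ⟨⟨?_, ?_⟩, ⟨?_, ?_⟩⟩ <;> simp only <;>
        linarith [hw.1.1, hw.1.2, hw.2.1, hw.2.2]
    simpa [hU'] using hw'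
  have hsubR : subim U u E ⊆ R := by
    intro P hP
    obtain ⟨w, hw, hPw⟩ := mem_iUnion₂.1 hP
    have hmem : (P.1 - m, P.2) ∈ subim U' v (Icc (-(r / 4)) (r / 4) ×ˢ Ioc 0 t) := by
      refine mem_iUnion₂.2 ⟨(w.1 - m0, w.2 - y), ?_, ?_⟩
      · refine ⟨⟨?_, ?_⟩, ⟨?_, ?_⟩⟩ <;> simp only <;>
          linarith [hw.1.1, hw.1.2, hw.2.1, hw.2.2]
      · intro x hx'
        have h6 := hPw _ hx'
        simp only [hv, add_sub_cancel]
        simp only at h6
        have : (w.1, w.2) = w := rfl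
        rw [this]
        nlinarith
    have := hsub hmem
    obtain ⟨⟨a1, a2⟩, ⟨b1, b2⟩⟩ := this
    simp only at a1 a2 b1 b2
    refine ⟨⟨?_, ?_⟩, ⟨b1, b2⟩⟩ <;> linarith
  have hvolE : volume E = ENNReal.ofReal (r / 2 * t) := by
    have e1 : m0 + r / 4 - (m0 - r / 4) = r / 2 := by ring
    have e2 : y + t - y = t := by ring
    rw [hE, Measure.volume_eq_prod, Measure.prod_prod, Real.volume_Icc, Real.volume_Ioc,
      e1, e2, ← ENNReal.ofReal_mul (by positivity)]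
  have hvolR : volume R = ENNReal.ofReal (8 * ε * t / r * (2 * ε)) := by
    have e1 : m + 4 * ε * t / r - (m - 4 * ε * t / r) = 8 * ε * t / r := by ring
    have e2 : q + 2 * ε - q = 2 * ε := by ring
    rw [hR, Measure.volume_eq_prod, Measure.prod_prod, Real.volume_Icc, Real.volume_Icc,
      e1, e2, ← ENNReal.ofReal_mul (by positivity)]
  have hfin : ENNReal.ofReal (l * (r / 2 * t)) ≤ ENNReal.ofReal (8 * ε * t / r * (2 * ε)) := by
    rw [ENNReal.ofReal_mul hl.le, ← hvolR, ← hvolE]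
    exact (h.lo E hEm hEsub).trans (measure_mono hsubR)
  rw [ENNReal.ofReal_le_ofReal_iff (by positivity)] at hfin
  have h8 : l * (r / 2 * t) * r ≤ 8 * ε * t / r * (2 * ε) * r :=
    mul_le_mul_of_nonneg_right hfin hrpos.le
  have h9 : 8 * ε * t / r * (2 * ε) * r = 16 * ε ^ 2 * t := by
    field_simp; ring
  rw [h9] at h8
  have h10 : l * r ^ 2 / 2 ≤ 16 * ε ^ 2 := by
    by_contra hcon
    push Not at hcon
    nlinarith
  have h11 : ε ^ 2 ≤ ε := by nlinarith
  have h12 : 0 < l * r ^ 2 := by positivity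
  nlinarith

end Pool.Agent.MP_4aaa5f_an
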