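import Pool.Agent.MP_4aaa5f_an.Defs

set_option autoImplicit false

namespace Pool.Agent.MP_4aaa5f_an

open MeasureTheory Set Filter Topology

namespace T02

/-- a box around the origin inside an open set -/
lemma exists_box {U : Set (ℝ × ℝ)} (hU : IsOpen U) (h0 : ((0 : ℝ), (0 : ℝ)) ∈ U) :
    ∃ r > 0, Icc (-r) r ×ˢ Icc (-r) r ⊆ U := by
  obtain ⟨ε, hε, hb⟩ := Metric.isOpen_iff.1 hU _ h0
  refine ⟨ε / 2, by positivity, fun w hw => hb ?_⟩
  obtain ⟨⟨a1, a2⟩, ⟨b1, b2⟩⟩ := hw
  rw [Metric.mem_ball, Prod.dist_eq]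
  simp only [Real.dist_eq, sub_zero]
  apply max_lt
  · rw [abs_lt]; constructor <;> linarith
  · rw [abs_lt]; constructor <;> linarith

/-- the minimiser of `v - c x - η y` gives the subgradient `(c, η)` -/
lemma mem_subim {U : Set (ℝ × ℝ)} {v : ℝ × ℝ → ℝ} (hv : ConvexOn ℝ U v)
    (hcont : ContinuousOn v U) {J r Y t c η : ℝ} (hJ : 0 < J) (hr : 0 < r) (hY : 0 < Y)
    (hbox : Icc (-r) r ×ˢ Icc (-Y) Y ⊆ U) (h0 : v (0, 0) = 0)
    (hlow : ∀ w ∈ U, J * |w.1| ≤ v w) (hc : |c| ≤ J / 2)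
    (ht : ∀ x, (x, Y) ∈ U → t ≤ v (x, Y) - c * x)
    (hη : 0 < η) (hηt : η * Y < t) (htr : 2 * t / J < r) :
    (c, η) ∈ subim U v (Icc (-(2 * t / J)) (2 * t / J) ×ˢ Icc 0 Y) := by
  have hcomp : IsCompact (Icc (-r) r ×ˢ Icc (-Y) Y) := isCompact_Icc.prod isCompact_Icc
  have h0box : ((0 : ℝ), (0 : ℝ)) ∈ Icc (-r) r ×ˢ Icc (-Y) Y := by
    constructor <;> constructor <;> simp <;> linarith
  set f : ℝ × ℝ → ℝ := fun w => v w - c * w.1 - η * w.2 with hf
  have hfc : ContinuousOn f (Icc (-r) r ×ˢ Icc (-Y) Y) := by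
    apply ContinuousOn.sub (ContinuousOn.sub (hcont.mono hbox) _) _
    · exact (continuous_const.mul continuous_fst).continuousOn
    · exact (continuous_const.mul continuous_snd).continuousOn
  obtain ⟨w, hw, hmin⟩ := hcomp.exists_isMinOn ⟨_, h0box⟩ hfc
  have hwU : w ∈ U := hbox hw
  have hval : v w - c * w.1 - η * w.2 ≤ 0 := by
    have := hmin h0box
    simp only [hf, mem_setOf_eq] at this
    simpa [h0] using this
  have hge : ∀ w ∈ U, J / 2 * |w.1| ≤ v w - c * w.1 := by
    intro w hw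
    have h1 := hlow w hw
    have h2 : c * w.1 ≤ J / 2 * |w.1| := by
      calc c * w.1 ≤ |c * w.1| := le_abs_self _
        _ = |c| * |w.1| := abs_mul _ _
        _ ≤ J / 2 * |w.1| := by gcongr
    linarith
  have hg := hge w hwU
  have hnn : 0 ≤ J / 2 * |w.1| := by positivity
  have hw2 : 0 ≤ w.2 := by
    by_contra hneg
    push_neg at hneg
    nlinarith
  have hw2Y : w.2 < Y := by
    rcases lt_or_eq_of_le hw.2.2 with hlt | heq
    · exact hlt
    · exfalso
      have hmem : (w.1, Y) ∈ U := by rw [← heq]; exact hwU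
      have := ht w.1 hmem
      have hww : (w.1, Y) = w := by rw [← heq]
      rw [hww] at this
      rw [heq] at hval
      linarith
  have hw1 : |w.1| ≤ 2 * t / J := by
    rw [le_div_iff₀ hJ]
    have : η * w.2 ≤ η * Y := by
      exact mul_le_mul_of_nonneg_left hw2Y.le hη.le
    nlinarith
  have hw1' : |w.1| < r := lt_of_le_of_lt hw1 htr
  have hnhds : Icc (-r) r ×ˢ Icc (-Y) Y ∈ 𝓝 w := by
    apply prod_mem_nhds
    · exact Icc_mem_nhds (abs_lt.1 hw1').1 (abs_lt.1 hw1').2
    · exact Icc_mem_nhds (by linarith) hw2Y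
  have hloc : IsLocalMinOn f U w := by
    have : IsLocalMin f w := by
      filter_upwards [hnhds] with w' hw'
      exact hmin hw'
    exact this.on U
  have hfconv : ConvexOn ℝ U f := by
    refine ⟨hv.1, ?_⟩
    intro a ha b hb s s' hs hs' hss
    have := hv.2 ha hb hs hs' hss
    simp only [hf, smul_eq_mul, Prod.fst_add, Prod.smul_fst, Prod.snd_add, Prod.smul_snd] at this ⊢
    nlinarith
  have hglob := IsMinOn.of_isLocalMinOn_of_convexOn hwU hloc hfconv
  refine mem_iUnion₂.2 ⟨w, ⟨abs_le.1 hw1, ⟨hw2, hw2Y.le⟩⟩, ?_⟩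
  intro v' hv'
  have := hglob hv'
  simp only [hf, mem_setOf_eq] at this
  simp only
  nlinarith

/-- main alternative -/
lemma core {U : Set (ℝ × ℝ)} {v : ℝ × ℝ → ℝ} (hU : IsOpen U) (hv : ConvexOn ℝ U v)
    (hcont : ContinuousOn v U) {J : ℝ} (hJ : 0 < J)
    (h0U : ((0 : ℝ), (0 : ℝ)) ∈ U) (h0 : v (0, 0) = 0)
    (hlow : ∀ w ∈ U, J * |w.1| ≤ v w) :
    ∃ Y0 > 0, (∀ y ∈ Icc 0 Y0, ((0 : ℝ), y) ∈ U) ∧ ∀ Y, 0 < Y → Y ≤ Y0 → v (0, Y) = 0 ∨
      ∃ t cs : ℝ, 0 < t ∧ (Icc (-(2 * t / J)) (2 * t / J) ×ˢ Icc 0 Y ⊆ U) ∧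
        Ioo (cs - J / 4) (cs + J / 4) ×ˢ Ioo 0 (t / Y) ⊆
          subim U v (Icc (-(2 * t / J)) (2 * t / J) ×ˢ Icc 0 Y) := by
  obtain ⟨r, hr, hbox⟩ := exists_box hU h0U
  have h0cont : ContinuousAt v (0, 0) := hcont.continuousAt (hU.mem_nhds h0U)
  have hcy : ContinuousAt (fun y : ℝ => v (0, y)) 0 := by
    have : ContinuousAt (fun y : ℝ => ((0 : ℝ), y)) 0 := by fun_prop
    exact ContinuousAt.comp (f := fun y : ℝ => ((0 : ℝ), y)) (x := 0) h0cont this
  have hev : ∀ᶠ y in 𝓝 (0 : ℝ), v (0, y) < J * r / 2 := by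
    have : (fun y : ℝ => v (0, y)) 0 < J * r / 2 := by
      simp only [h0]; positivity
    exact hcy.eventually_lt_const this
  obtain ⟨δ, hδ, hδv⟩ := Metric.eventually_nhds_iff.1 hev
  refine ⟨min (r) (δ / 2), lt_min hr (by positivity), ?_, ?_⟩
  · intro y hy
    apply hbox
    refine ⟨⟨by simp; linarith, by simp; linarith⟩, ⟨by simp; linarith [hy.1], ?_⟩⟩
    exact hy.2.trans (min_le_left _ _)
  intro Y hY hY0
  have hYr : Y ≤ r := hY0.trans (min_le_left _ _)
  have hYδ : Y ≤ δ / 2 := hY0.trans (min_le_right _ _)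
  have hvY : v (0, Y) < J * r / 2 := by
    apply hδv
    rw [Real.dist_eq, sub_zero, abs_of_pos hY]; linarith
  have h0Y : ((0 : ℝ), Y) ∈ U := by
    apply hbox
    exact ⟨⟨by simp; linarith, by simp; linarith⟩, ⟨by simp; linarith, by simpa using hYr⟩⟩
  -- the set of feasible values
  set T : Set ℝ := {t | ∃ c, |c| ≤ J / 2 ∧ ∀ x, (x, Y) ∈ U → t ≤ v (x, Y) - c * x} with hT
  have hge : ∀ c, |c| ≤ J / 2 → ∀ w ∈ U, J / 2 * |w.1| ≤ v w - c * w.1 := by
    intro c hc w hw
    have h1 := hlow w hw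
    have h2 : c * w.1 ≤ J / 2 * |w.1| := by
      calc c * w.1 ≤ |c * w.1| := le_abs_self _
        _ = |c| * |w.1| := abs_mul _ _
        _ ≤ J / 2 * |w.1| := by gcongr
    linarith
  have hT0 : (0 : ℝ) ∈ T := by
    refine ⟨0, by simp; positivity, ?_⟩
    intro x hx
    have := hlow _ hx
    have h3 : 0 ≤ J * |x| := by positivity
    simp only at this
    linarith
  have hTb : ∀ t ∈ T, t ≤ v (0, Y) := by
    rintro t ⟨c, _, h⟩
    have := h 0 h0Y
    simpa using this
  have hTbdd : BddAbove T := ⟨_, hTb⟩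
  by_cases hM : sSup T ≤ 0
  · left
    -- minimise v(x,Y) over |x| ≤ r
    have hcompx : IsCompact (Icc (-r) r) := isCompact_Icc
    have hgc : ContinuousOn (fun x : ℝ => v (x, Y)) (Icc (-r) r) := by
      have h1 : ContinuousOn (fun x : ℝ => (x, Y)) (Icc (-r) r) := by fun_prop
      refine ContinuousOn.comp (t := U) hcont h1 ?_
      intro x hx
      apply hbox
      exact ⟨hx, ⟨by simp only; linarith, hYr⟩⟩
    obtain ⟨x0, hx0, hmin⟩ := hcompx.exists_isMinOn ⟨0, by constructor <;> linarith⟩ hgc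
    have hx0U : (x0, Y) ∈ U := by
      apply hbox
      exact ⟨hx0, ⟨by simp only; linarith, hYr⟩⟩
    have hmem : v (x0, Y) ∈ T := by
      refine ⟨0, by simp; positivity, ?_⟩
      intro x hx
      by_cases hxr : |x| ≤ r
      · have := hmin (abs_le.1 hxr)
        simp only [mem_setOf_eq] at this
        linarith
      · push_neg at hxr
        have h1 := hlow _ hx
        have h2 : v (x0, Y) ≤ v (0, Y) := by
          have := hmin (show (0 : ℝ) ∈ Icc (-r) r by constructor <;> linarith)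
          simpa only [mem_setOf_eq] using this
        simp only at h1
        nlinarith
    have hle : v (x0, Y) ≤ 0 := (le_csSup hTbdd hmem).trans hM
    have h1 := hlow _ hx0U
    simp only at h1
    have h2 : |x0| ≤ 0 := by
      by_contra hcon
      push_neg at hcon
      nlinarith
    have h3 : x0 = 0 := abs_eq_zero.1 (le_antisymm h2 (abs_nonneg _))
    subst h3
    have h4 := hlow _ h0Y
    simp only [abs_zero, mul_zero] at h4
    exact le_antisymm hle h4
  · right
    push_neg at hM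
    set M := sSup T with hMdef
    have hMv : M ≤ v (0, Y) := csSup_le ⟨_, hT0⟩ hTb
    obtain ⟨t, ⟨c, hc, htc⟩, htM⟩ := exists_lt_of_lt_csSup ⟨_, hT0⟩ (show M / 2 < M by linarith)
    have ht : 0 < t := by linarith
    have htv : t ≤ v (0, Y) := hTb t ⟨c, hc, htc⟩
    have hradius : 2 * (t / 2) / J < r := by
      rw [div_lt_iff₀ hJ]
      nlinarith
    refine ⟨t / 2, c / 2, by positivity, ?_, ?_⟩
    · intro w hw
      apply hbox
      refine ⟨⟨by linarith [hw.1.1], by linarith [hw.1.2]⟩, ⟨by linarith [hw.2.1], by linarith [hw.2.2]⟩⟩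
    · rintro ⟨c', η⟩ ⟨hc', hη⟩
      simp only [mem_Ioo] at hc' hη
      have hc2 := abs_le.1 hc
      have hc'' : |2 * c' - c| ≤ J / 2 := by rw [abs_le]; constructor <;> linarith
      refine mem_subim hv hcont hJ hr hY ?_ h0 hlow ?_ ?_ hη.1 ?_ hradius
      · intro w hw
        exact hbox ⟨hw.1, ⟨by linarith [hw.2.1], by linarith [hw.2.2]⟩⟩
      · have h2 := abs_le.1 hc''
        rw [abs_le]; constructor <;> linarith
      · intro x hx
        have h1 := htc x hx
        have h2 := hge _ hc'' _ hx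
        have h3 : 0 ≤ J / 2 * |x| := by positivity
        simp only at h2
        nlinarith
      · rw [lt_div_iff₀ hY] at hη
        exact hη.2

end T02

/-- [T02] No horizontal kinks, given that there are no flat vertical segments.
Only `h.hi` and convexity are needed. -/
theorem nokink {l : ℝ} {U : Set (ℝ × ℝ)} {u : ℝ × ℝ → ℝ} (hl : 0 < l) (h : MA l U u)
    (hflat : ∀ x y1 y2 m : ℝ, y1 < y2 → (∀ y ∈ Icc y1 y2, (x, y) ∈ U) →
      (∀ y ∈ Icc y1 y2, u (x, y) = u (x, y1) + m * (y - y1)) → False)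
    {z : ℝ × ℝ} (hz : z ∈ U) {q c1 c2 : ℝ} (hc : c1 < c2)
    (h1 : (c1, q) ∈ sub U u z) (h2 : (c2, q) ∈ sub U u z) : False := by
  have hcontu : ContinuousOn u U := h.convexOn.continuousOn h.isOpen
  set J : ℝ := (c2 - c1) / 2 with hJdef
  set c0 : ℝ := (c1 + c2) / 2 with hc0def
  have hJ : 0 < J := by rw [hJdef]; linarith
  set U' : Set (ℝ × ℝ) := (fun w : ℝ × ℝ => (z.1 + w.1, z.2 + w.2)) ⁻¹' U with hU'
  set v : ℝ × ℝ → ℝ := fun w => u (z.1 + w.1, z.2 + w.2) - u z - c0 * w.1 - q * w.2 with hv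
  have htr : Continuous (fun w : ℝ × ℝ => (z.1 + w.1, z.2 + w.2)) := by fun_prop
  have hU'o : IsOpen U' := h.isOpen.preimage htr
  have hvconv : ConvexOn ℝ U' v := by
    have key : ∀ (a b : ℝ × ℝ) (s s' : ℝ), s + s' = 1 →
        (z.1 + (s • a + s' • b).1, z.2 + (s • a + s' • b).2) =
        s • (z.1 + a.1, z.2 + a.2) + s' • (z.1 + b.1, z.2 + b.2) := by
      intro a b s s' hss
      have hs' : s' = 1 - s := by linarith
      subst hs'
      ext <;> simp <;> ring
    constructor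
    · intro a ha b hb s s' hs hs' hss
      simp only [hU', mem_preimage] at ha hb ⊢
      rw [key a b s s' hss]
      exact h.convex ha hb hs hs' hss
    · intro a ha b hb s s' hs hs' hss
      simp only [hU', mem_preimage] at ha hb
      simp only [hv]
      rw [key a b s s' hss]
      have h5 := h.convexOn.2 ha hb hs hs' hss
      have hs' : s' = 1 - s := by linarith
      subst hs'
      simp only [smul_eq_mul, Prod.fst_add, Prod.smul_fst, Prod.snd_add, Prod.smul_snd] at h5 ⊢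
      nlinarith
  have hvcont : ContinuousOn v U' := hvconv.continuousOn hU'o
  have h0U : ((0 : ℝ), (0 : ℝ)) ∈ U' := by
    simp only [hU', mem_preimage, add_zero]; exact hz
  have h0 : v (0, 0) = 0 := by simp [hv]
  have hlow : ∀ w ∈ U', J * |w.1| ≤ v w := by
    intro w hw
    have e1 := h1 _ hw
    have e2 := h2 _ hw
    simp only [add_sub_cancel_left] at e1 e2
    simp only [hv]
    rcases abs_cases w.1 with ⟨ha, _⟩ | ⟨ha, _⟩
    · rw [ha, hJdef, hc0def]; nlinarith
    · rw [ha, hJdef, hc0def]; nlinarith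
  obtain ⟨Y0, hY0, hY0U, halt⟩ := T02.core hU'o hvconv hvcont hJ h0U h0 hlow
  -- choose Y1 small
  set Y1 : ℝ := min Y0 (min 1 (l * J ^ 2 / 16)) with hY1
  have hY1pos : 0 < Y1 := lt_min hY0 (lt_min one_pos (by positivity))
  have hzero : ∀ Y, 0 < Y → Y ≤ Y1 → v (0, Y) = 0 := by
    intro Y hY hYle
    have hYY0 : Y ≤ Y0 := hYle.trans (min_le_left _ _)
    have hYl : Y ≤ 1 := hYle.trans ((min_le_right _ _).trans (min_le_left _ _))
    have hYl' : Y ≤ l * J ^ 2 / 16 := hYle.trans ((min_le_right _ _).trans (min_le_right _ _))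
    rcases halt Y hY hYY0 with h3 | ⟨t, cs, ht, hEU, hR⟩
    · exact h3
    · exfalso
      set E : Set (ℝ × ℝ) := Icc (z.1 - 2 * t / J) (z.1 + 2 * t / J) ×ˢ Icc z.2 (z.2 + Y) with hE
      set R : Set (ℝ × ℝ) := Ioo (c0 + (cs - J / 4)) (c0 + (cs + J / 4)) ×ˢ Ioo q (q + t / Y) with hRdef
      have hEm : MeasurableSet E := measurableSet_Icc.prod measurableSet_Icc
      have hEsub : E ⊆ U := by
        intro w hw
        have hw' : (w.1 - z.1, w.2 - z.2) ∈ U' := by
          apply hEU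
          refine ⟨⟨?_, ?_⟩, ⟨?_, ?_⟩⟩ <;> simp only <;>
            linarith [hw.1.1, hw.1.2, hw.2.1, hw.2.2]
        simpa [hU'] using hw'
      have hRsub : R ⊆ subim U u E := by
        intro P hP
        have hP' : (P.1 - c0, P.2 - q) ∈ Ioo (cs - J / 4) (cs + J / 4) ×ˢ Ioo 0 (t / Y) := by
          refine ⟨⟨?_, ?_⟩, ⟨?_, ?_⟩⟩ <;> simp only <;>
            linarith [hP.1.1, hP.1.2, hP.2.1, hP.2.2]
        obtain ⟨w, hw, hsub⟩ := mem_iUnion₂.1 (hR hP')
        refine mem_iUnion₂.2 ⟨(z.1 + w.1, z.2 + w.2), ?_, ?_⟩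
        · refine ⟨⟨?_, ?_⟩, ⟨?_, ?_⟩⟩ <;> simp only <;>
            linarith [hw.1.1, hw.1.2, hw.2.1, hw.2.2]
        · intro x hx
          have hx' : (x.1 - z.1, x.2 - z.2) ∈ U' := by
            simp only [hU', mem_preimage, add_sub_cancel]; exact hx
          have h6 := hsub _ hx'
          simp only [hv, add_sub_cancel] at h6
          simp only
          have : (x.1, x.2) = x := rfl
          rw [this] at h6
          nlinarith
      have hvolR : volume R = ENNReal.ofReal (J / 2 * (t / Y)) := by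
        rw [hRdef, Measure.volume_eq_prod, Measure.prod_prod, Real.volume_Ioo, Real.volume_Ioo,
          ← ENNReal.ofReal_mul (by linarith)]
        congr 1
        ring
      have hvolE : volume E = ENNReal.ofReal (4 * t / J * Y) := by
        have h7 : 0 ≤ 4 * t / J := by positivity
        have e1 : z.1 + 2 * t / J - (z.1 - 2 * t / J) = 4 * t / J := by ring
        have e2 : z.2 + Y - z.2 = Y := by ring
        rw [hE, Measure.volume_eq_prod, Measure.prod_prod, Real.volume_Icc, Real.volume_Icc,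
          e1, e2, ← ENNReal.ofReal_mul h7]
      have hfin : ENNReal.ofReal (J / 2 * (t / Y)) ≤ ENNReal.ofReal (l⁻¹ * (4 * t / J * Y)) := by
        rw [ENNReal.ofReal_mul (by positivity : (0 : ℝ) ≤ l⁻¹), ← hvolR, ← hvolE]
        exact (measure_mono hRsub).trans (h.hi E hEm hEsub)
      rw [ENNReal.ofReal_le_ofReal_iff (by positivity)] at hfin
      -- J/2 * t/Y ≤ 4 t Y/(l J)
      have h8 : J / 2 * (t / Y) * (l * J * Y) ≤ l⁻¹ * (4 * t / J * Y) * (l * J * Y) := by
        apply mul_le_mul_of_nonneg_right hfin (by positivity)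
      have h9 : J / 2 * (t / Y) * (l * J * Y) = l * J ^ 2 * t / 2 := by
        field_simp
      have h10 : l⁻¹ * (4 * t / J * Y) * (l * J * Y) = 4 * t * Y ^ 2 := by
        field_simp
      rw [h9, h10] at h8
      have h11 : l * J ^ 2 / 2 ≤ 4 * Y ^ 2 := by
        by_contra hcon
        push_neg at hcon
        nlinarith
      have h12 : Y ^ 2 ≤ Y := by nlinarith
      have h13 : 0 < l * J ^ 2 := by positivity
      nlinarith
  refine hflat z.1 z.2 (z.2 + Y1) q (by linarith) ?_ ?_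
  · intro y hy
    have := hY0U (y - z.2) ⟨by linarith [hy.1], by
      have : Y1 ≤ Y0 := min_le_left _ _
      linarith [hy.2]⟩
    simpa [hU'] using this
  · intro y hy
    rcases eq_or_lt_of_le hy.1 with heq | hlt
    · rw [← heq]; simp
    · have := hzero (y - z.2) (by linarith) (by linarith [hy.2])
      simp only [hv, add_sub_cancel, mul_zero, sub_zero, add_zero] at this
      have h14 : u (z.1, z.2) = u z := rfl
      rw [h14]
      linarith

end Pool.Agent.MP_4aaa5f_an
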