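import Pool.Agent.MP_4aaa5f_an.Defs

set_option autoImplicit false

namespace Pool.Agent.MP_4aaa5f_an

open MeasureTheory Set Filter Topology

/-- `rot` as a linear map. -/
noncomputable def rotL (c s : ℝ) : (ℝ × ℝ) →ₗ[ℝ] (ℝ × ℝ) :=
  Matrix.toLin (.finTwoProd ℝ) (.finTwoProd ℝ) !![c, -s; s, c]

theorem rotL_apply (c s : ℝ) (z : ℝ × ℝ) : rotL c s z = rot c s z := by
  unfold rotL rot
  rw [Matrix.toLin_finTwoProd_apply]
  ext
  · simp only
    ring
  · simp only

theorem det_rotL (c s : ℝ) : LinearMap.det (rotL c s) = c ^ 2 + s ^ 2 := by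
  unfold rotL
  rw [LinearMap.det_toLin, Matrix.det_fin_two_of]
  ring

theorem rot_eq_rotL (c s : ℝ) : rot c s = rotL c s := by
  funext z
  exact (rotL_apply c s z).symm

theorem rot_neg_rot {c s : ℝ} (hcs : c ^ 2 + s ^ 2 = 1) (z : ℝ × ℝ) :
    rot c (-s) (rot c s z) = z := by
  unfold rot
  ext
  · simp only
    linear_combination z.1 * hcs
  · simp only
    linear_combination z.2 * hcs

theorem rot_rot_neg {c s : ℝ} (hcs : c ^ 2 + s ^ 2 = 1) (z : ℝ × ℝ) :
    rot c s (rot c (-s) z) = z := by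
  unfold rot
  ext
  · simp only
    linear_combination z.1 * hcs
  · simp only
    linear_combination z.2 * hcs

theorem rot_injective {c s : ℝ} (hcs : c ^ 2 + s ^ 2 = 1) : Function.Injective (rot c s) :=
  Function.LeftInverse.injective (rot_neg_rot hcs)

theorem rot_surjective {c s : ℝ} (hcs : c ^ 2 + s ^ 2 = 1) : Function.Surjective (rot c s) :=
  Function.RightInverse.surjective (rot_rot_neg hcs)

theorem volume_preimage_rot {c s : ℝ} (hcs : c ^ 2 + s ^ 2 = 1) (X : Set (ℝ × ℝ)) :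
    volume (rot c s ⁻¹' X) = volume X := by
  rw [rot_eq_rotL, Measure.addHaar_preimage_linearMap volume
    (by rw [det_rotL, hcs]; exact one_ne_zero), det_rotL, hcs]
  simp

theorem volume_image_rot {c s : ℝ} (hcs : c ^ 2 + s ^ 2 = 1) (X : Set (ℝ × ℝ)) :
    volume (rot c s '' X) = volume X := by
  rw [rot_eq_rotL, Measure.addHaar_image_linearMap, det_rotL, hcs]
  simp

theorem continuous_rot (c s : ℝ) : Continuous (rot c s) := by
  unfold rot
  fun_prop

/-- [T03] Rotations. -/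
theorem mem_sub_rot {c s : ℝ} (hcs : c ^ 2 + s ^ 2 = 1) {U : Set (ℝ × ℝ)} {u : ℝ × ℝ → ℝ}
    (z P : ℝ × ℝ) :
    P ∈ sub (rot c s ⁻¹' U) (fun v => u (rot c s v)) z ↔ rot c s P ∈ sub U u (rot c s z) := by
  have key : ∀ v : ℝ × ℝ, (rot c s P).1 * ((rot c s v).1 - (rot c s z).1) +
      (rot c s P).2 * ((rot c s v).2 - (rot c s z).2) =
      P.1 * (v.1 - z.1) + P.2 * (v.2 - z.2) := by
    intro v
    unfold rot
    simp only
    linear_combination (P.1 * (v.1 - z.1) + P.2 * (v.2 - z.2)) * hcs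
  constructor
  · intro h v hv
    obtain ⟨w, rfl⟩ := rot_surjective hcs v
    have h1 : u (rot c s z) + P.1 * (w.1 - z.1) + P.2 * (w.2 - z.2) ≤ u (rot c s w) := h w hv
    have h2 := key w
    linarith
  · intro h v hv
    have h1 := h (rot c s v) hv
    have h2 := key v
    show u (rot c s z) + P.1 * (v.1 - z.1) + P.2 * (v.2 - z.2) ≤ u (rot c s v)
    linarith

theorem subim_rot {c s : ℝ} (hcs : c ^ 2 + s ^ 2 = 1) {U : Set (ℝ × ℝ)} {u : ℝ × ℝ → ℝ}
    (B : Set (ℝ × ℝ)) :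
    subim (rot c s ⁻¹' U) (fun v => u (rot c s v)) B =
      rot c s ⁻¹' (subim U u (rot c s '' B)) := by
  ext P
  unfold subim
  simp only [mem_iUnion, mem_preimage, exists_prop]
  constructor
  · rintro ⟨z, hz, hP⟩
    exact ⟨rot c s z, mem_image_of_mem _ hz, (mem_sub_rot hcs z P).1 hP⟩
  · rintro ⟨_, ⟨z, hz, rfl⟩, hP⟩
    exact ⟨z, hz, (mem_sub_rot hcs z P).2 hP⟩

theorem measurableSet_image_rot {c s : ℝ} (hcs : c ^ 2 + s ^ 2 = 1) {B : Set (ℝ × ℝ)}
    (hB : MeasurableSet B) : MeasurableSet (rot c s '' B) := by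
  have : rot c s '' B = rot c (-s) ⁻¹' B := by
    ext v
    constructor
    · rintro ⟨z, hz, rfl⟩
      rw [mem_preimage, rot_neg_rot hcs]
      exact hz
    · intro hv
      exact ⟨rot c (-s) v, hv, rot_rot_neg hcs v⟩
  rw [this]
  exact (continuous_rot c (-s)).measurable hB

theorem MA_rot {l c s : ℝ} (hcs : c ^ 2 + s ^ 2 = 1) {U : Set (ℝ × ℝ)} {u : ℝ × ℝ → ℝ}
    (h : MA l U u) :
    MA l (rot c s ⁻¹' U) (fun v => u (rot c s v)) := by
  have hsub : ∀ B : Set (ℝ × ℝ), B ⊆ rot c s ⁻¹' U → rot c s '' B ⊆ U := fun B hB =>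
    image_subset_iff.2 hB
  refine ⟨h.isOpen.preimage (continuous_rot c s), ?_, ?_, ?_, ?_⟩
  · rw [rot_eq_rotL]
    exact h.convex.linear_preimage _
  · have := h.convexOn.comp_linearMap (rotL c s)
    rw [← rot_eq_rotL] at this
    exact this
  · intro B hB hBU
    rw [subim_rot hcs, volume_preimage_rot hcs, ← volume_image_rot hcs B]
    exact h.lo _ (measurableSet_image_rot hcs hB) (hsub B hBU)
  · intro B hB hBU
    rw [subim_rot hcs, volume_preimage_rot hcs, ← volume_image_rot hcs B]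
    exact h.hi _ (measurableSet_image_rot hcs hB) (hsub B hBU)

end Pool.Agent.MP_4aaa5f_an
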