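import Pool.Agent.MP_4aaa5f_an.Defs

set_option autoImplicit false

namespace Pool.Agent.MP_4aaa5f_an

open MeasureTheory Set Filter Topology

/-- [T04] Existence of subgradients. -/
theorem exists_sub {U : Set (ℝ × ℝ)} {u : ℝ × ℝ → ℝ} (hU : IsOpen U)
    (hu : ConvexOn ℝ U u) {z : ℝ × ℝ} (hz : z ∈ U) : (sub U u z).Nonempty := by
  classical
  have hcont : ContinuousOn u U := hu.continuousOn hU
  set E : Set ((ℝ × ℝ) × ℝ) := {p | p.1 ∈ U ∧ u p.1 < p.2} with hE
  have hEconv : Convex ℝ E := hu.convex_strict_epigraph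
  have hEopen : IsOpen E := by
    have h1 : IsOpen (Prod.fst ⁻¹' U : Set ((ℝ × ℝ) × ℝ)) := hU.preimage continuous_fst
    have h2 : ContinuousOn (fun p : (ℝ × ℝ) × ℝ => p.2 - u p.1) (Prod.fst ⁻¹' U) := by
      apply ContinuousOn.sub continuous_snd.continuousOn
      exact hcont.comp continuous_fst.continuousOn (fun p hp => hp)
    have h3 := h2.isOpen_inter_preimage h1 (isOpen_Ioi (a := (0:ℝ)))
    have : E = Prod.fst ⁻¹' U ∩ (fun p : (ℝ × ℝ) × ℝ => p.2 - u p.1) ⁻¹' Ioi 0 := by
      ext p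
      simp only [hE, mem_ofPred_eq, mem_inter_iff, mem_preimage, mem_Ioi, sub_pos]
    rw [this]
    exact h3
  have hnot : (z, u z) ∉ E := by
    simp [hE]
  obtain ⟨f, hf⟩ := geometric_hahn_banach_point_open hEconv hEopen hnot
  set c : ℝ := f (((0:ℝ), (0:ℝ)), (1:ℝ)) with hc
  set A : ℝ := f (((1:ℝ), (0:ℝ)), (0:ℝ)) with hA
  set B : ℝ := f (((0:ℝ), (1:ℝ)), (0:ℝ)) with hB
  have hform : ∀ (v : ℝ × ℝ) (t : ℝ), f (v, t) = v.1 * A + v.2 * B + t * c := by
    intro v t
    have : ((v, t) : (ℝ × ℝ) × ℝ) = v.1 • (((1:ℝ), (0:ℝ)), (0:ℝ)) + v.2 • (((0:ℝ), (1:ℝ)), (0:ℝ))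
        + t • (((0:ℝ), (0:ℝ)), (1:ℝ)) := by
      ext <;> simp
    rw [this, map_add, map_add, map_smul, map_smul, map_smul]
    simp [hA, hB, hc]
  have hcpos : 0 < c := by
    have h := hf (z, u z + 1) ⟨hz, by simp⟩
    rw [hform, hform] at h
    linarith
  refine ⟨(-A / c, -B / c), ?_⟩
  intro v hv
  have hkey : z.1 * A + z.2 * B + u z * c ≤ v.1 * A + v.2 * B + u v * c := by
    apply le_of_forall_pos_le_add
    intro e he
    have h := hf (v, u v + e / c) ⟨hv, by simp; positivity⟩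
    rw [hform, hform] at h
    have : (u v + e / c) * c = u v * c + e := by
      field_simp
    linarith
  have : (u z + -A / c * (v.1 - z.1) + -B / c * (v.2 - z.2)) * c ≤ u v * c := by
    have e1 : (u z + -A / c * (v.1 - z.1) + -B / c * (v.2 - z.2)) * c
        = u z * c - A * (v.1 - z.1) - B * (v.2 - z.2) := by
      field_simp
      ring
    rw [e1]
    linarith
  exact le_of_mul_le_mul_right this hcpos

/-- local boundedness of subgradients -/
theorem sub_bdd {U : Set (ℝ × ℝ)} {u : ℝ × ℝ → ℝ} (hU : IsOpen U)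
    (hu : ConvexOn ℝ U u) {z0 : ℝ × ℝ} (hz : z0 ∈ U) :
    ∃ K : ℝ, ∃ V ∈ 𝓝 z0, V ⊆ U ∧ ∀ z ∈ V, ∀ P ∈ sub U u z, |P.1| ≤ K ∧ |P.2| ≤ K := by
  have hcont : ContinuousOn u U := hu.continuousOn hU
  obtain ⟨r, hr, hball⟩ := Metric.nhds_basis_closedBall.mem_iff.1 (hU.mem_nhds hz)
  have hcomp : IsCompact (Metric.closedBall z0 r) := isCompact_closedBall z0 r
  obtain ⟨M, hM⟩ := hcomp.exists_bound_of_continuousOn (hcont.mono hball)
  have hr2 : 0 < r / 2 := by positivity
  refine ⟨(2 * M) / (r / 2), Metric.closedBall z0 (r / 2), Metric.closedBall_mem_nhds z0 hr2, ?_, ?_⟩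
  · exact (Metric.closedBall_subset_closedBall (by linarith)).trans hball
  · intro z hz P hP
    have hzz : z ∈ Metric.closedBall z0 r := Metric.closedBall_subset_closedBall (by linarith) hz
    have hd : ∀ w : ℝ × ℝ, dist w z ≤ r / 2 → w ∈ Metric.closedBall z0 r := by
      intro w hw
      rw [Metric.mem_closedBall] at hz ⊢
      calc dist w z0 ≤ dist w z + dist z z0 := dist_triangle _ _ _
        _ ≤ r / 2 + r / 2 := add_le_add hw hz
        _ = r := by ring
    have hMz := hM z hzz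
    rw [Real.norm_eq_abs, abs_le] at hMz
    have key : ∀ w : ℝ × ℝ, dist w z ≤ r / 2 → P.1 * (w.1 - z.1) + P.2 * (w.2 - z.2) ≤ 2 * M := by
      intro w hw
      have h1 := hP w (hball (hd w hw))
      have h2 := hM w (hd w hw)
      rw [Real.norm_eq_abs, abs_le] at h2
      linarith
    have ha : ∀ s : ℝ, |s| ≤ r / 2 → P.1 * s ≤ 2 * M := by
      intro s hs
      have := key (z.1 + s, z.2) (by
        rw [Prod.dist_eq]
        simp only [dist_self, Real.dist_eq, add_sub_cancel_left]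
        exact max_le hs hr2.le)
      simpa using this
    have hb : ∀ s : ℝ, |s| ≤ r / 2 → P.2 * s ≤ 2 * M := by
      intro s hs
      have := key (z.1, z.2 + s) (by
        rw [Prod.dist_eq]
        simp only [dist_self, Real.dist_eq, add_sub_cancel_left]
        exact max_le hr2.le hs)
      simpa using this
    constructor
    · rw [le_div_iff₀ hr2]
      rcases abs_cases P.1 with ⟨h, _⟩ | ⟨h, _⟩
      · rw [h]; exact ha (r / 2) (by rw [abs_of_pos hr2])
      · rw [h]
        have := ha (-(r / 2)) (by rw [abs_neg, abs_of_pos hr2])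
        linarith
    · rw [le_div_iff₀ hr2]
      rcases abs_cases P.2 with ⟨h, _⟩ | ⟨h, _⟩
      · rw [h]; exact hb (r / 2) (by rw [abs_of_pos hr2])
      · rw [h]
        have := hb (-(r / 2)) (by rw [abs_neg, abs_of_pos hr2])
        linarith

/-- A convex function on an open set with unique subgradients is `C¹`. -/
theorem c1_of_unique {U : Set (ℝ × ℝ)} {u : ℝ × ℝ → ℝ} (hU : IsOpen U)
    (hu : ConvexOn ℝ U u) (huniq : ∀ z ∈ U, (sub U u z).Subsingleton) :
    ∃ P Q : ℝ × ℝ → ℝ,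
      (∀ z ∈ U, HasFDerivAt u
        (P z • ContinuousLinearMap.fst ℝ ℝ ℝ + Q z • ContinuousLinearMap.snd ℝ ℝ ℝ) z) ∧
      ContinuousOn P U ∧ ContinuousOn Q U ∧ (∀ z ∈ U, sub U u z = {(P z, Q z)}) := by
  classical
  have hcont : ContinuousOn u U := hu.continuousOn hU
  have hex : ∀ z : ℝ × ℝ, ∃ g : ℝ × ℝ, z ∈ U → g ∈ sub U u z := by
    intro z
    by_cases hz : z ∈ U
    · obtain ⟨g, hg⟩ := exists_sub hU hu hz
      exact ⟨g, fun _ => hg⟩
    · exact ⟨0, fun h => absurd h hz⟩
  choose g hg using hex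
  have hsing : ∀ z ∈ U, sub U u z = {g z} := by
    intro z hz
    exact (huniq z hz).eq_singleton_of_mem (hg z hz)
  have htend : ∀ z0 ∈ U, Tendsto g (𝓝 z0) (𝓝 (g z0)) := by
    intro z0 hz0
    obtain ⟨K, V, hV, hVU, hK⟩ := sub_bdd hU hu hz0
    have hcomp : IsCompact (Icc (-K) K ×ˢ Icc (-K) K : Set (ℝ × ℝ)) :=
      isCompact_Icc.prod isCompact_Icc
    apply hcomp.tendsto_nhds_of_unique_mapClusterPt
    · filter_upwards [hV] with z hz
      have := hK z hz (g z) (hg z (hVU hz))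
      exact ⟨abs_le.1 this.1, abs_le.1 this.2⟩
    · intro y _ hy
      apply huniq z0 hz0 _ (hg z0 hz0)
      intro v hv
      by_contra hcon
      push Not at hcon
      have hca : ContinuousAt (fun q : (ℝ × ℝ) × (ℝ × ℝ) =>
          u q.1 + q.2.1 * (v.1 - q.1.1) + q.2.2 * (v.2 - q.1.2)) (z0, y) := by
        have hcu : ContinuousAt u z0 := hcont.continuousAt (hU.mem_nhds hz0)
        have h1 : ContinuousAt (fun q : (ℝ × ℝ) × (ℝ × ℝ) => u q.1) (z0, y) :=
          ContinuousAt.comp (x := ((z0, y) : (ℝ × ℝ) × (ℝ × ℝ))) (f := Prod.fst) (g := u) hcu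
            continuousAt_fst
        have h2 : ContinuousAt (fun q : (ℝ × ℝ) × (ℝ × ℝ) => q.2.1 * (v.1 - q.1.1)) (z0, y) := by
          apply Continuous.continuousAt; fun_prop
        have h3 : ContinuousAt (fun q : (ℝ × ℝ) × (ℝ × ℝ) => q.2.2 * (v.2 - q.1.2)) (z0, y) := by
          apply Continuous.continuousAt; fun_prop
        exact (h1.add h2).add h3
      have hev := hca.eventually (lt_mem_nhds hcon)
      rw [nhds_prod_eq, eventually_prod_iff] at hev
      obtain ⟨pa, hpa, pb, hpb, hab⟩ := hev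
      have hfr : ∃ᶠ z in 𝓝 z0, pb (g z) := by
        have := mapClusterPt_iff_frequently.1 hy {y | pb y} hpb
        exact this
      obtain ⟨z, hz1, hz2, hz3⟩ := (hfr.and_eventually (hpa.and (hU.mem_nhds hz0))).exists
      have h4 := hab hz2 hz1
      have h5 := hg z hz3 v hv
      simp only at h4
      linarith
  refine ⟨fun z => (g z).1, fun z => (g z).2, ?_, ?_, ?_, ?_⟩
  · intro z hz
    rw [hasFDerivAt_iff_isLittleO, Asymptotics.isLittleO_iff]
    intro c hc
    have ht := htend z hz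
    have h1 : ∀ᶠ v in 𝓝 z, |(g v).1 - (g z).1| ≤ c / 2 := by
      have := (continuous_fst.tendsto _).comp ht
      have := this.eventually (Metric.closedBall_mem_nhds _ (half_pos hc))
      filter_upwards [this] with v hv
      simpa [Real.dist_eq] using hv
    have h2 : ∀ᶠ v in 𝓝 z, |(g v).2 - (g z).2| ≤ c / 2 := by
      have := (continuous_snd.tendsto _).comp ht
      have := this.eventually (Metric.closedBall_mem_nhds _ (half_pos hc))
      filter_upwards [this] with v hv
      simpa [Real.dist_eq] using hv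
    filter_upwards [h1, h2, hU.mem_nhds hz] with v hv1 hv2 hvU
    have hlow := hg z hz v hvU
    have hup := hg v hvU z hz
    have hn1 : |v.1 - z.1| ≤ ‖v - z‖ := by
      have := norm_fst_le (v - z)
      simpa using this
    have hn2 : |v.2 - z.2| ≤ ‖v - z‖ := by
      have := norm_snd_le (v - z)
      simpa using this
    have heq : u v - u z - ((g z).1 • ContinuousLinearMap.fst ℝ ℝ ℝ +
        (g z).2 • ContinuousLinearMap.snd ℝ ℝ ℝ) (v - z)
        = u v - u z - (g z).1 * (v.1 - z.1) - (g z).2 * (v.2 - z.2) := by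
      simp
      ring
    rw [heq, Real.norm_eq_abs, abs_of_nonneg (by linarith)]
    have hA : ((g v).1 - (g z).1) * (v.1 - z.1) ≤ c / 2 * ‖v - z‖ := by
      calc ((g v).1 - (g z).1) * (v.1 - z.1) ≤ |((g v).1 - (g z).1) * (v.1 - z.1)| := le_abs_self _
        _ = |(g v).1 - (g z).1| * |v.1 - z.1| := abs_mul _ _
        _ ≤ c / 2 * ‖v - z‖ := mul_le_mul hv1 hn1 (abs_nonneg _) (by positivity)
    have hB : ((g v).2 - (g z).2) * (v.2 - z.2) ≤ c / 2 * ‖v - z‖ := by
      calc ((g v).2 - (g z).2) * (v.2 - z.2) ≤ |((g v).2 - (g z).2) * (v.2 - z.2)| := le_abs_self _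
        _ = |(g v).2 - (g z).2| * |v.2 - z.2| := abs_mul _ _
        _ ≤ c / 2 * ‖v - z‖ := mul_le_mul hv2 hn2 (abs_nonneg _) (by positivity)
    nlinarith [hA, hB]
  · intro z hz
    exact ((continuous_fst.tendsto _).comp (htend z hz)).mono_left nhdsWithin_le_nhds
  · intro z hz
    exact ((continuous_snd.tendsto _).comp (htend z hz)).mono_left nhdsWithin_le_nhds
  · intro z hz
    exact hsing z hz

end Pool.Agent.MP_4aaa5f_an
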