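import Pool.Agent.MP_4aaa5f_an.Defs

set_option autoImplicit false

namespace Pool.Agent.MP_4aaa5f_an

open MeasureTheory Set Filter Topology

section
variable {U : Set (ℝ × ℝ)} {u P Q : ℝ × ℝ → ℝ} {a b c d : ℝ}

theorem t5_sub (hN : Nice U u P Q) {z v : ℝ × ℝ} (hz : z ∈ U) (hv : v ∈ U) :
    u z + P z * (v.1 - z.1) + Q z * (v.2 - z.2) ≤ u v := by
  have h : (P z, Q z) ∈ sub U u z := by rw [hN.sub_eq z hz]; exact mem_singleton _
  exact h v hv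

theorem t5_cu (hN : Nice U u P Q) : ContinuousOn u U := fun z hz =>
  (hN.diff z hz).continuousAt.continuousWithinAt

theorem t5_mono (hN : Nice U u P Q) (hR : Icc a b ×ˢ Icc c d ⊆ U)
    {y : ℝ} (hy : y ∈ Icc c d) : StrictMonoOn (fun x => P (x, y)) (Icc a b) := by
  intro x hx x' hx' hlt
  have hm : (x + x') / 2 ∈ Icc a b := ⟨by linarith [hx.1, hx'.1], by linarith [hx.2, hx'.2]⟩
  have hzU : (x, y) ∈ U := hR ⟨hx, hy⟩
  have hzU' : (x', y) ∈ U := hR ⟨hx', hy⟩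
  have hmU : ((x + x') / 2, y) ∈ U := hR ⟨hm, hy⟩
  have h1 := (hN.strict y).2 hzU hzU' hlt.ne (show (0 : ℝ) < 1 / 2 by norm_num)
    (show (0 : ℝ) < 1 / 2 by norm_num) (by norm_num)
  simp only [smul_eq_mul] at h1
  have e : 1 / 2 * x + 1 / 2 * x' = (x + x') / 2 := by ring
  rw [e] at h1
  have h2 := t5_sub hN hzU hmU
  have h3 := t5_sub hN hzU' hmU
  simp only [sub_self, mul_zero, add_zero] at h2 h3
  have h4 : (P (x, y) - P (x', y)) * ((x' - x) / 2) < 0 := by nlinarith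
  have h5 : 0 < (x' - x) / 2 := by linarith
  by_contra hcon
  push Not at hcon
  have : 0 ≤ (P (x, y) - P (x', y)) * ((x' - x) / 2) := mul_nonneg (by linarith) h5.le
  linarith

theorem t5_exists (hN : Nice U u P Q) (hab : a < b) (hR : Icc a b ×ˢ Icc c d ⊆ U)
    {p y : ℝ} (h : (p, y) ∈ Dom P a b c d) : ∃ X ∈ Ioo a b, P (X, y) = p := by
  have hy : y ∈ Icc c d := ⟨h.1.1.le, h.1.2.le⟩
  have hc : ContinuousOn (fun x => P (x, y)) (Icc a b) :=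
    hN.cP.comp (by fun_prop) (fun x hx => hR ⟨hx, hy⟩)
  obtain ⟨X, hX, hXp⟩ := intermediate_value_Ioo hab.le hc ⟨h.2.1, h.2.2⟩
  exact ⟨X, hX, hXp⟩

theorem t5_le (hN : Nice U u P Q) (hR : Icc a b ×ˢ Icc c d ⊆ U)
    {p y X x : ℝ} (hy : y ∈ Icc c d) (hX : X ∈ Icc a b) (hXp : P (X, y) = p) (hx : x ∈ Icc a b) :
    p * x - u (x, y) ≤ p * X - u (X, y) := by
  have h2 := t5_sub hN (z := (X, y)) (v := (x, y)) (hR ⟨hX, hy⟩) (hR ⟨hx, hy⟩)
  simp only [sub_self, mul_zero, add_zero, hXp] at h2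
  linarith

theorem t5_bdd (hN : Nice U u P Q) (hR : Icc a b ×ˢ Icc c d ⊆ U) {y : ℝ} (hy : y ∈ Icc c d)
    (p : ℝ) : BddAbove ((fun x => p * x - u (x, y)) '' Icc a b) := by
  have hc : ContinuousOn (fun x => p * x - u (x, y)) (Icc a b) :=
    (by fun_prop : ContinuousOn (fun x => p * x) (Icc a b)).sub
      ((t5_cu hN).comp (by fun_prop) (fun x hx => hR ⟨hx, hy⟩))
  exact (isCompact_Icc.image_of_continuousOn hc).bddAbove

theorem t5_PL_ge (hN : Nice U u P Q) (hR : Icc a b ×ˢ Icc c d ⊆ U) {p y x : ℝ}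
    (hy : y ∈ Icc c d) (hx : x ∈ Icc a b) : p * x - u (x, y) ≤ PL u a b p y :=
  le_csSup (t5_bdd hN hR hy p) ⟨x, hx, rfl⟩

theorem t5_PL_eq (hN : Nice U u P Q) (hR : Icc a b ×ˢ Icc c d ⊆ U)
    {p y X : ℝ} (hy : y ∈ Icc c d) (hX : X ∈ Icc a b) (hXp : P (X, y) = p) :
    PL u a b p y = p * X - u (X, y) := by
  refine le_antisymm ?_ (t5_PL_ge hN hR hy hX)
  refine csSup_le ⟨_, ⟨X, hX, rfl⟩⟩ ?_
  rintro _ ⟨x, hx, rfl⟩
  exact t5_le hN hR hy hX hXp hx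

theorem isOpen_Dom (hN : Nice U u P Q) (hab : a < b) (hR : Icc a b ×ˢ Icc c d ⊆ U) :
    IsOpen (Dom P a b c d) := by
  have hW : IsOpen (univ ×ˢ Ioo c d : Set (ℝ × ℝ)) := isOpen_univ.prod isOpen_Ioo
  have c1 : ContinuousOn (fun z : ℝ × ℝ => z.1 - P (a, z.2)) (univ ×ˢ Ioo c d) :=
    continuousOn_fst.sub (hN.cP.comp (by fun_prop)
      (fun z hz => hR ⟨⟨le_rfl, hab.le⟩, ⟨hz.2.1.le, hz.2.2.le⟩⟩))
  have c2 : ContinuousOn (fun z : ℝ × ℝ => P (b, z.2) - z.1) (univ ×ˢ Ioo c d) :=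
    (hN.cP.comp (by fun_prop)
      (fun z hz => hR ⟨⟨hab.le, le_rfl⟩, ⟨hz.2.1.le, hz.2.2.le⟩⟩)).sub continuousOn_fst
  have o1 := c1.isOpen_inter_preimage hW (isOpen_Ioi (a := (0 : ℝ)))
  have o2 := c2.isOpen_inter_preimage hW (isOpen_Ioi (a := (0 : ℝ)))
  have e : Dom P a b c d = ((univ ×ˢ Ioo c d) ∩ (fun z : ℝ × ℝ => z.1 - P (a, z.2)) ⁻¹' Ioi 0) ∩
      ((univ ×ˢ Ioo c d) ∩ (fun z : ℝ × ℝ => P (b, z.2) - z.1) ⁻¹' Ioi 0) := by
    ext z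
    simp only [Dom, mem_ofPred_eq, mem_inter_iff, mem_prod, mem_univ, true_and, mem_preimage,
      mem_Ioi, sub_pos]
    tauto
  rw [e]
  exact o1.inter o2

/-- the point of the slope `p` depends continuously on `(p, y)` -/
theorem t5_near (hN : Nice U u P Q) (hab : a < b) (hR : Icc a b ×ˢ Icc c d ⊆ U)
    {p y X : ℝ} (h : (p, y) ∈ Dom P a b c d) (hX : X ∈ Ioo a b) (hXp : P (X, y) = p)
    {ε : ℝ} (hε : 0 < ε) :
    ∀ᶠ z : ℝ × ℝ in 𝓝 (p, y), z ∈ Dom P a b c d ∧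
      ∀ X' ∈ Ioo a b, P (X', z.2) = z.1 → |X' - X| < ε := by
  obtain ⟨δ, hδ0, hδε, hδa, hδb⟩ : ∃ δ, 0 < δ ∧ δ < ε ∧ a < X - δ ∧ X + δ < b := by
    refine ⟨min ε (min (X - a) (b - X)) / 2, ?_, ?_, ?_, ?_⟩
    · have := hX.1; have := hX.2
      have : 0 < min ε (min (X - a) (b - X)) :=
        lt_min hε (lt_min (by linarith) (by linarith))
      linarith
    · have : min ε (min (X - a) (b - X)) ≤ ε := min_le_left _ _
      linarith
    · have h1 : min ε (min (X - a) (b - X)) ≤ X - a := (min_le_right _ _).trans (min_le_left _ _)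
      linarith [hX.1]
    · have h1 : min ε (min (X - a) (b - X)) ≤ b - X := (min_le_right _ _).trans (min_le_right _ _)
      linarith [hX.2]
  have hy : y ∈ Icc c d := ⟨h.1.1.le, h.1.2.le⟩
  have hm := t5_mono hN hR hy
  have hXI : X ∈ Icc a b := ⟨hX.1.le, hX.2.le⟩
  have hA : X - δ ∈ Icc a b := ⟨hδa.le, by linarith [hX.2]⟩
  have hB : X + δ ∈ Icc a b := ⟨by linarith [hX.1], hδb.le⟩
  have l1 : P (X - δ, y) < p := by
    rw [← hXp]; exact hm hA hXI (by linarith)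
  have l2 : p < P (X + δ, y) := by
    rw [← hXp]; exact hm hXI hB (by linarith)
  have cat : ∀ x ∈ Icc a b, ContinuousAt (fun z : ℝ × ℝ => P (x, z.2)) (p, y) := by
    intro x hx
    have h1 : ContinuousAt P (x, y) := hN.cP.continuousAt (hN.isOpen.mem_nhds (hR ⟨hx, hy⟩))
    exact ContinuousAt.comp (f := fun z : ℝ × ℝ => (x, z.2)) (g := P) h1 (by fun_prop)
  have e1 : ∀ᶠ z : ℝ × ℝ in 𝓝 (p, y), P (X - δ, z.2) < z.1 :=
    (cat _ hA).eventually_lt continuousAt_fst l1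
  have e2 : ∀ᶠ z : ℝ × ℝ in 𝓝 (p, y), z.1 < P (X + δ, z.2) :=
    continuousAt_fst.eventually_lt (cat _ hB) l2
  have e3 : ∀ᶠ z : ℝ × ℝ in 𝓝 (p, y), z ∈ Dom P a b c d := (isOpen_Dom hN hab hR).mem_nhds h
  filter_upwards [e1, e2, e3] with z z1 z2 z3
  refine ⟨z3, fun X' hX' hXz => ?_⟩
  have hy' : z.2 ∈ Icc c d := ⟨z3.1.1.le, z3.1.2.le⟩
  have hm' := t5_mono hN hR hy'
  have hXI' : X' ∈ Icc a b := ⟨hX'.1.le, hX'.2.le⟩
  rw [← hXz] at z1 z2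
  have m1 := (hm'.lt_iff_lt hA hXI').1 z1
  have m2 := (hm'.lt_iff_lt hXI' hB).1 z2
  rw [abs_lt]
  constructor <;> linarith

theorem t5_deriv_of_le {f : ℝ → ℝ} {L t : ℝ}
    (h : ∀ ε : ℝ, 0 < ε → ∀ᶠ s in 𝓝 t, |f s - f t - L * (s - t)| ≤ ε * |s - t|) :
    HasDerivAt f L t := by
  rw [hasDerivAt_iff_isLittleO, Asymptotics.isLittleO_iff]
  intro ε hε
  filter_upwards [h ε hε] with s hs
  simp only [smul_eq_mul, Real.norm_eq_abs]
  rw [mul_comm]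
  exact hs

theorem t5_dp (hN : Nice U u P Q) (hab : a < b) (hR : Icc a b ×ˢ Icc c d ⊆ U)
    {p y X : ℝ} (h : (p, y) ∈ Dom P a b c d) (hX : X ∈ Ioo a b) (hXp : P (X, y) = p) :
    HasDerivAt (fun p => PL u a b p y) X p := by
  apply t5_deriv_of_le
  intro ε hε
  have hy : y ∈ Icc c d := ⟨h.1.1.le, h.1.2.le⟩
  have hc : ContinuousAt (fun s : ℝ => (s, y)) p := by fun_prop
  have := hc.eventually (t5_near hN hab hR h hX hXp hε)
  filter_upwards [this] with s hs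
  obtain ⟨hs1, hs2⟩ := hs
  obtain ⟨X', hX', hXp'⟩ := t5_exists hN hab hR hs1
  have hd := hs2 X' hX' hXp'
  have i1 := t5_PL_ge hN hR (p := s) hy ⟨hX.1.le, hX.2.le⟩
  have i2 := t5_PL_ge hN hR (p := p) hy ⟨hX'.1.le, hX'.2.le⟩
  have q1 := t5_PL_eq hN hR hy ⟨hX.1.le, hX.2.le⟩ hXp
  have q2 := t5_PL_eq hN hR hy ⟨hX'.1.le, hX'.2.le⟩ hXp'
  show |PL u a b s y - PL u a b p y - X * (s - p)| ≤ ε * |s - p|
  have k1 : 0 ≤ PL u a b s y - PL u a b p y - X * (s - p) := by rw [q1]; linarith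
  have k2 : PL u a b s y - PL u a b p y - X * (s - p) ≤ (X' - X) * (s - p) := by
    rw [q2]; linarith
  rw [abs_of_nonneg k1]
  refine k2.trans ((le_abs_self _).trans ?_)
  rw [abs_mul]
  exact mul_le_mul_of_nonneg_right hd.le (abs_nonneg _)

theorem t5_dy (hN : Nice U u P Q) (hab : a < b) (hR : Icc a b ×ˢ Icc c d ⊆ U)
    {p y X : ℝ} (h : (p, y) ∈ Dom P a b c d) (hX : X ∈ Ioo a b) (hXp : P (X, y) = p) :
    HasDerivAt (fun y => PL u a b p y) (-Q (X, y)) y := by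
  apply t5_deriv_of_le
  intro ε hε
  have hy : y ∈ Icc c d := ⟨h.1.1.le, h.1.2.le⟩
  have hXI : X ∈ Icc a b := ⟨hX.1.le, hX.2.le⟩
  have hU : (X, y) ∈ U := hR ⟨hXI, hy⟩
  have cQ : ContinuousAt Q (X, y) := hN.cQ.continuousAt (hN.isOpen.mem_nhds hU)
  have cQ1 : ContinuousAt (fun s : ℝ => Q (X, s)) y :=
    ContinuousAt.comp (f := fun s : ℝ => (X, s)) (g := Q) cQ (by fun_prop)
  have cQ2 : ContinuousAt (fun s : ℝ => Q (s, y)) X :=
    ContinuousAt.comp (f := fun s : ℝ => (s, y)) (g := Q) cQ (by fun_prop)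
  obtain ⟨η, hη, hQη⟩ := Metric.continuousAt_iff.1 cQ2 ε hε
  have ev1 : ∀ᶠ s in 𝓝 y, |Q (X, s) - Q (X, y)| < ε := by
    have := Metric.continuousAt_iff'.1 cQ1 ε hε
    simpa [Real.dist_eq] using this
  have hc : ContinuousAt (fun s : ℝ => (p, s)) y := by fun_prop
  have ev2 := hc.eventually (t5_near hN hab hR h hX hXp hη)
  filter_upwards [ev1, ev2] with s hs0 hs
  obtain ⟨hs1, hs2⟩ := hs
  obtain ⟨X', hX', hXp'⟩ := t5_exists hN hab hR hs1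
  have hXI' : X' ∈ Icc a b := ⟨hX'.1.le, hX'.2.le⟩
  have hd := hs2 X' hX' hXp'
  have hys : s ∈ Icc c d := ⟨hs1.1.1.le, hs1.1.2.le⟩
  have i1 := t5_PL_ge hN hR (p := p) hys hXI
  have i2 := t5_PL_ge hN hR (p := p) hy hXI'
  have q1 := t5_PL_eq hN hR hy hXI hXp
  have q2 := t5_PL_eq hN hR hys hXI' hXp'
  have g1 := t5_sub hN (z := (X, s)) (v := (X, y)) (hR ⟨hXI, hys⟩) hU
  have g2 := t5_sub hN (z := (X', y)) (v := (X', s)) (hR ⟨hXI', hy⟩) (hR ⟨hXI', hys⟩)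
  simp only [sub_self, mul_zero, add_zero] at g1 g2
  have hQ2 : |Q (X', y) - Q (X, y)| < ε := by
    have := hQη (x := X') (by rw [Real.dist_eq]; exact hd)
    rwa [Real.dist_eq] at this
  show |PL u a b p s - PL u a b p y - -Q (X, y) * (s - y)| ≤ ε * |s - y|
  have k1 : PL u a b p s - PL u a b p y - -Q (X, y) * (s - y) ≤
      -((Q (X', y) - Q (X, y)) * (s - y)) := by
    rw [q2]; nlinarith
  have k2 : -((Q (X, s) - Q (X, y)) * (s - y)) ≤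
      PL u a b p s - PL u a b p y - -Q (X, y) * (s - y) := by
    rw [q1]; nlinarith
  have m1 : |(Q (X', y) - Q (X, y)) * (s - y)| ≤ ε * |s - y| := by
    rw [abs_mul]; exact mul_le_mul_of_nonneg_right hQ2.le (abs_nonneg _)
  have m2 : |(Q (X, s) - Q (X, y)) * (s - y)| ≤ ε * |s - y| := by
    rw [abs_mul]; exact mul_le_mul_of_nonneg_right hs0.le (abs_nonneg _)
  rw [abs_le] at m1 m2 ⊢
  constructor <;> linarith [m1.1, m1.2, m2.1, m2.2]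

/-- [T05] Basic facts on the partial Legendre transform. -/
theorem PL_continuousOn (hN : Nice U u P Q) (hab : a < b) (hR : Icc a b ×ˢ Icc c d ⊆ U) :
    ContinuousOn (fun z : ℝ × ℝ => PL u a b z.1 z.2) (univ ×ˢ Icc c d) := by
  rw [continuousOn_iff_continuous_domRestrict]
  have hf : Continuous (fun w : (univ ×ˢ Icc c d : Set (ℝ × ℝ)) × (Icc a b) =>
      w.1.1.1 * w.2.1 - u (w.2.1, w.1.1.2)) := by
    have h1 : Continuous (fun w : (univ ×ˢ Icc c d : Set (ℝ × ℝ)) × (Icc a b) =>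
      u (w.2.1, w.1.1.2)) :=
      (t5_cu hN).comp_continuous (by fun_prop) (fun w => hR ⟨w.2.2, w.1.2.2⟩)
    exact (by fun_prop : Continuous (fun w : (univ ×ˢ Icc c d : Set (ℝ × ℝ)) × (Icc a b) =>
      w.1.1.1 * w.2.1)).sub h1
  have h2 := (isCompact_univ (X := Icc a b)).continuous_sSup
    (f := fun (z : (univ ×ˢ Icc c d : Set (ℝ × ℝ))) (x : Icc a b) =>
      z.1.1 * x.1 - u (x.1, z.1.2)) hf
  convert h2 using 1
  ext z
  show sSup ((fun x => z.1.1 * x - u (x, z.1.2)) '' Icc a b) = _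
  congr 1
  ext t
  constructor
  · rintro ⟨x, hx, rfl⟩
    exact ⟨⟨x, hx⟩, mem_univ _, rfl⟩
  · rintro ⟨x, -, rfl⟩
    exact ⟨x.1, x.2, rfl⟩

/-- The maximiser is `Xm`, it is interior and `P (Xm p y, y) = p`. -/
theorem PL_point (hN : Nice U u P Q) (hab : a < b) (hR : Icc a b ×ˢ Icc c d ⊆ U)
    {p y : ℝ} (h : (p, y) ∈ Dom P a b c d) :
    Xm u a b p y ∈ Ioo a b ∧ P (Xm u a b p y, y) = p ∧
      PL u a b p y = p * Xm u a b p y - u (Xm u a b p y, y) ∧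
      Hm u a b p y = Q (Xm u a b p y, y) := by
  obtain ⟨X, hX, hXp⟩ := t5_exists hN hab hR h
  have e1 : Xm u a b p y = X := (t5_dp hN hab hR h hX hXp).deriv
  have e2 : Hm u a b p y = Q (X, y) := by
    unfold Hm
    rw [(t5_dy hN hab hR h hX hXp).deriv, neg_neg]
  rw [e1, e2]
  exact ⟨hX, hXp, t5_PL_eq hN hR ⟨h.1.1.le, h.1.2.le⟩ ⟨hX.1.le, hX.2.le⟩ hXp, rfl⟩

theorem PL_hasDerivAt_p (hN : Nice U u P Q) (hab : a < b) (hR : Icc a b ×ˢ Icc c d ⊆ U)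
    {p y : ℝ} (h : (p, y) ∈ Dom P a b c d) :
    HasDerivAt (fun p => PL u a b p y) (Xm u a b p y) p := by
  obtain ⟨h1, h2, -, -⟩ := PL_point hN hab hR h
  exact t5_dp hN hab hR h h1 h2

theorem PL_hasDerivAt_y (hN : Nice U u P Q) (hab : a < b) (hR : Icc a b ×ˢ Icc c d ⊆ U)
    {p y : ℝ} (h : (p, y) ∈ Dom P a b c d) :
    HasDerivAt (fun y => PL u a b p y) (-Hm u a b p y) y := by
  obtain ⟨h1, h2, -, h4⟩ := PL_point hN hab hR h
  rw [h4]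
  exact t5_dy hN hab hR h h1 h2

theorem Xm_continuousOn (hN : Nice U u P Q) (hab : a < b) (hR : Icc a b ×ˢ Icc c d ⊆ U) :
    ContinuousOn (fun z : ℝ × ℝ => Xm u a b z.1 z.2) (Dom P a b c d) := by
  rintro ⟨p, y⟩ h
  apply ContinuousAt.continuousWithinAt
  rw [Metric.continuousAt_iff']
  intro ε hε
  obtain ⟨h1, h2, -, -⟩ := PL_point hN hab hR h
  filter_upwards [t5_near hN hab hR h h1 h2 hε] with z hz
  obtain ⟨k1, k2, -, -⟩ := PL_point hN hab hR (p := z.1) (y := z.2) hz.1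
  rw [Real.dist_eq]
  exact hz.2 _ k1 k2

theorem Hm_continuousOn (hN : Nice U u P Q) (hab : a < b) (hR : Icc a b ×ˢ Icc c d ⊆ U) :
    ContinuousOn (fun z : ℝ × ℝ => Hm u a b z.1 z.2) (Dom P a b c d) := by
  have h1 : ContinuousOn (fun z : ℝ × ℝ => Q (Xm u a b z.1 z.2, z.2)) (Dom P a b c d) := by
    apply hN.cQ.comp ((Xm_continuousOn hN hab hR).prodMk continuousOn_snd)
    rintro ⟨p, y⟩ h
    obtain ⟨k1, -, -, -⟩ := PL_point hN hab hR h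
    exact hR ⟨⟨k1.1.le, k1.2.le⟩, ⟨h.1.1.le, h.1.2.le⟩⟩
  refine h1.congr ?_
  rintro ⟨p, y⟩ h
  exact (PL_point hN hab hR h).2.2.2

/-- `P` is strictly increasing in `x`. -/
theorem P_strictMonoOn (hN : Nice U u P Q) (hab : a < b) (hR : Icc a b ×ˢ Icc c d ⊆ U)
    {y : ℝ} (hy : y ∈ Icc c d) : StrictMonoOn (fun x => P (x, y)) (Icc a b) :=
  t5_mono hN hR hy

/-- `Xm` is strictly increasing in `p`. -/
theorem Xm_lt (hN : Nice U u P Q) (hab : a < b) (hR : Icc a b ×ˢ Icc c d ⊆ U)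
    {p p' y : ℝ} (h : (p, y) ∈ Dom P a b c d) (h' : (p', y) ∈ Dom P a b c d) (hp : p < p') :
    Xm u a b p y < Xm u a b p' y := by
  obtain ⟨h1, h2, -, -⟩ := PL_point hN hab hR h
  obtain ⟨h1', h2', -, -⟩ := PL_point hN hab hR h'
  have hy : y ∈ Icc c d := ⟨h.1.1.le, h.1.2.le⟩
  refine ((t5_mono hN hR hy).lt_iff_lt ⟨h1.1.le, h1.2.le⟩ ⟨h1'.1.le, h1'.2.le⟩).1 ?_
  show P (_, y) < P (_, y)
  rw [h2, h2']
  exact hp

/-- `Hm` is nondecreasing in `y` (concavity of `PL` in `y`). -/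
theorem Hm_le (hN : Nice U u P Q) (hab : a < b) (hR : Icc a b ×ˢ Icc c d ⊆ U)
    {p y y' : ℝ} (h : (p, y) ∈ Dom P a b c d) (h' : (p, y') ∈ Dom P a b c d) (hy : y ≤ y') :
    Hm u a b p y ≤ Hm u a b p y' := by
  rcases eq_or_lt_of_le hy with rfl | hy
  · exact le_rfl
  obtain ⟨h1, h2, -, h4⟩ := PL_point hN hab hR h
  obtain ⟨h1', h2', -, h4'⟩ := PL_point hN hab hR h'
  rw [h4, h4']
  have hz : (Xm u a b p y, y) ∈ U := hR ⟨⟨h1.1.le, h1.2.le⟩, ⟨h.1.1.le, h.1.2.le⟩⟩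
  have hz' : (Xm u a b p y', y') ∈ U := hR ⟨⟨h1'.1.le, h1'.2.le⟩, ⟨h'.1.1.le, h'.1.2.le⟩⟩
  have g1 := t5_sub hN hz hz'
  have g2 := t5_sub hN hz' hz
  simp only [h2, h2'] at g1 g2
  have : 0 ≤ (Q (Xm u a b p y', y') - Q (Xm u a b p y, y)) * (y' - y) := by nlinarith
  have hpos : 0 < y' - y := by linarith
  have := nonneg_of_mul_nonneg_left this hpos
  linarith

end

end Pool.Agent.MP_4aaa5f_an
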