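import Pool.Agent.MP_4aaa5f_an.Defs
import Pool.Agent.MP_4aaa5f_an.T05

set_option autoImplicit false

namespace Pool.Agent.MP_4aaa5f_an

open MeasureTheory Set Filter Topology

/-- a continuous extension of a function continuous on a compact interval -/
theorem exists_cont_ext {f : ℝ → ℝ} {s t : ℝ} (hst : s ≤ t) (hf : ContinuousOn f (Icc s t)) :
    ∃ F : ℝ → ℝ, Continuous F ∧ ∀ x ∈ Icc s t, F x = f x := by
  refine ⟨IccExtend hst (fun x : Icc s t => f x), ?_, ?_⟩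
  · exact Continuous.Icc_extend' (continuousOn_iff_continuous_domRestrict.1 hf)
  · intro x hx
    rw [IccExtend_of_mem hst _ hx]

theorem region_vol {f g : ℝ → ℝ} {s t : ℝ} (hst : s ≤ t) (hf : ContinuousOn f (Icc s t))
    (hg : ContinuousOn g (Icc s t)) (hfg : ∀ x ∈ Ioo s t, f x ≤ g x) :
    MeasurableSet (regionBetween f g (Ioo s t)) ∧
    volume (regionBetween f g (Ioo s t)) = ENNReal.ofReal (∫ y in s..t, (g y - f y)) ∧
    volume {p : ℝ × ℝ | p.1 ∈ Ioo s t ∧ p.2 ∈ Icc (f p.1) (g p.1)} =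
      ENNReal.ofReal (∫ y in s..t, (g y - f y)) := by
  obtain ⟨F, hF, hFf⟩ := exists_cont_ext hst hf
  obtain ⟨G, hG, hGg⟩ := exists_cont_ext hst hg
  have e1 : regionBetween f g (Ioo s t) = regionBetween F G (Ioo s t) := by
    ext p
    simp only [regionBetween, mem_ofPred_eq]
    constructor
    · rintro ⟨h1, h2⟩
      rw [← hFf _ (Ioo_subset_Icc_self h1), ← hGg _ (Ioo_subset_Icc_self h1)] at h2
      exact ⟨h1, h2⟩
    · rintro ⟨h1, h2⟩
      rw [hFf _ (Ioo_subset_Icc_self h1), hGg _ (Ioo_subset_Icc_self h1)] at h2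
      exact ⟨h1, h2⟩
  have e2 : {p : ℝ × ℝ | p.1 ∈ Ioo s t ∧ p.2 ∈ Icc (f p.1) (g p.1)} =
      {p : ℝ × ℝ | p.1 ∈ Ioo s t ∧ p.2 ∈ Icc (F p.1) (G p.1)} := by
    ext p
    simp only [mem_ofPred_eq]
    constructor
    · rintro ⟨h1, h2⟩
      rw [← hFf _ (Ioo_subset_Icc_self h1), ← hGg _ (Ioo_subset_Icc_self h1)] at h2
      exact ⟨h1, h2⟩
    · rintro ⟨h1, h2⟩
      rw [hFf _ (Ioo_subset_Icc_self h1), hGg _ (Ioo_subset_Icc_self h1)] at h2
      exact ⟨h1, h2⟩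
  have e3 : ∫ y in s..t, (g y - f y) = ∫ y in Ioo s t, (G y - F y) := by
    rw [intervalIntegral.integral_of_le hst, integral_Ioc_eq_integral_Ioo]
    refine setIntegral_congr_fun measurableSet_Ioo ?_
    intro x hx
    simp only
    rw [hFf _ (Ioo_subset_Icc_self hx), hGg _ (Ioo_subset_Icc_self hx)]
  have hint : IntegrableOn F (Ioo s t) :=
    (hF.integrableOn_Icc).mono_set Ioo_subset_Icc_self
  have hint' : IntegrableOn G (Ioo s t) :=
    (hG.integrableOn_Icc).mono_set Ioo_subset_Icc_self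
  have hFG : ∀ x ∈ Ioo s t, F x ≤ G x := by
    intro x hx
    rw [hFf _ (Ioo_subset_Icc_self hx), hGg _ (Ioo_subset_Icc_self hx)]
    exact hfg x hx
  have hv := volume_regionBetween_eq_integral (μ := (volume : Measure ℝ)) hint hint'
    measurableSet_Ioo hFG
  have hv2 := volume_regionBetween_eq_lintegral' (μ := (volume : Measure ℝ)) hF.measurable
    hG.measurable (measurableSet_Ioo (a := s) (b := t))
  have hvv : volume (regionBetween F G (Ioo s t)) = ENNReal.ofReal (∫ y in s..t, (g y - f y)) := by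
    rw [e3]
    exact hv
  refine ⟨?_, ?_, ?_⟩
  · rw [e1]
    exact measurableSet_regionBetween hF.measurable hG.measurable measurableSet_Ioo
  · rw [e1]; exact hvv
  · rw [e2, ← hvv]
    have hm := measurableSet_region_between_cc hF.measurable hG.measurable
      (measurableSet_Ioo (a := s) (b := t))
    have hlhs : volume {p : ℝ × ℝ | p.1 ∈ Ioo s t ∧ p.2 ∈ Icc (F p.1) (G p.1)} =
        ∫⁻ y in Ioo s t, ENNReal.ofReal ((G - F) y) := by
      rw [Measure.volume_eq_prod, Measure.prod_apply hm]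
      have h :
        (fun x => volume (Prod.mk x ⁻¹' {p : ℝ × ℝ | p.1 ∈ Ioo s t ∧ p.2 ∈ Icc (F p.1) (G p.1)})) =
          (Ioo s t).indicator fun x => ENNReal.ofReal (G x - F x) := by
        funext x
        rw [indicator_apply]
        split_ifs with h
        · have hx : (Prod.mk x ⁻¹' {p : ℝ × ℝ | p.1 ∈ Ioo s t ∧ p.2 ∈ Icc (F p.1) (G p.1)})
              = Icc (F x) (G x) := by
            ext a
            simp only [mem_preimage, mem_ofPred_eq]
            exact ⟨fun h2 => h2.2, fun h2 => ⟨h, h2⟩⟩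
          simp only [hx, Real.volume_Icc]
        · have hx : (Prod.mk x ⁻¹' {p : ℝ × ℝ | p.1 ∈ Ioo s t ∧ p.2 ∈ Icc (F p.1) (G p.1)})
              = ∅ := by
            ext a
            simp only [mem_preimage, mem_ofPred_eq, mem_empty_iff_false, iff_false]
            exact fun h2 => h h2.1
          simp only [hx, measure_empty]
      rw [h, lintegral_indicator measurableSet_Ioo]
      rfl
    rw [hlhs]
    exact hv2.symm

/-- [T06] The rectangle inequality. -/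
theorem rect_ineq {l : ℝ} {U : Set (ℝ × ℝ)} {u P Q : ℝ × ℝ → ℝ} {a b c d : ℝ} (hl : 0 < l)
    (hM : MA l U u) (hN : Nice U u P Q) (hab : a < b) (hR : Icc a b ×ˢ Icc c d ⊆ U)
    {p0 p1 y0 y1 : ℝ} (hp : p0 < p1) (hy : y0 < y1) (hD : Icc p0 p1 ×ˢ Icc y0 y1 ⊆ Dom P a b c d) :
    l * (∫ y in y0..y1, (Xm u a b p1 y - Xm u a b p0 y)) ≤
        ∫ p in p0..p1, (Hm u a b p y1 - Hm u a b p y0) ∧
      (∫ p in p0..p1, (Hm u a b p y1 - Hm u a b p y0)) ≤
        l⁻¹ * (∫ y in y0..y1, (Xm u a b p1 y - Xm u a b p0 y)) := by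
  have hDm : ∀ p ∈ Icc p0 p1, ∀ y ∈ Icc y0 y1, (p, y) ∈ Dom P a b c d :=
    fun p hp y hy => hD ⟨hp, hy⟩
  have hp0 : p0 ∈ Icc p0 p1 := left_mem_Icc.2 hp.le
  have hp1 : p1 ∈ Icc p0 p1 := right_mem_Icc.2 hp.le
  have hy0 : y0 ∈ Icc y0 y1 := left_mem_Icc.2 hy.le
  have hy1 : y1 ∈ Icc y0 y1 := right_mem_Icc.2 hy.le
  -- continuity
  have cX : ∀ p ∈ Icc p0 p1, ContinuousOn (fun y => Xm u a b p y) (Icc y0 y1) := by
    intro p hpp
    have h1 := Xm_continuousOn hN hab hR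
    have h2 : ContinuousOn (fun y : ℝ => ((p, y) : ℝ × ℝ)) (Icc y0 y1) := by fun_prop
    exact h1.comp h2 (fun y hyy => hDm p hpp y hyy)
  have cHy : ∀ p ∈ Icc p0 p1, ContinuousOn (fun y => Hm u a b p y) (Icc y0 y1) := by
    intro p hpp
    have h1 := Hm_continuousOn hN hab hR
    have h2 : ContinuousOn (fun y : ℝ => ((p, y) : ℝ × ℝ)) (Icc y0 y1) := by fun_prop
    exact h1.comp h2 (fun y hyy => hDm p hpp y hyy)
  have cHp : ∀ y ∈ Icc y0 y1, ContinuousOn (fun p => Hm u a b p y) (Icc p0 p1) := by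
    intro y hyy
    have h1 := Hm_continuousOn hN hab hR
    have h2 : ContinuousOn (fun p : ℝ => ((p, y) : ℝ × ℝ)) (Icc p0 p1) := by fun_prop
    exact h1.comp h2 (fun p hpp => hDm p hpp y hyy)
  -- the set `E`
  obtain ⟨mE, vE, -⟩ := region_vol hy.le (cX p0 hp0) (cX p1 hp1) (fun y hyy =>
    (Xm_lt hN hab hR (hDm p0 hp0 y (Ioo_subset_Icc_self hyy))
      (hDm p1 hp1 y (Ioo_subset_Icc_self hyy)) hp).le)
  obtain ⟨-, vI, vI'⟩ := region_vol hp.le (cHp y0 hy0) (cHp y1 hy1) (fun p hpp =>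
    Hm_le hN hab hR (hDm p (Ioo_subset_Icc_self hpp) y0 hy0)
      (hDm p (Ioo_subset_Icc_self hpp) y1 hy1) hy.le)
  set R := regionBetween (fun y => Xm u a b p0 y) (fun y => Xm u a b p1 y) (Ioo y0 y1) with hRdef
  set E : Set (ℝ × ℝ) := Prod.swap ⁻¹' R with hE
  have mE' : MeasurableSet E := measurable_swap mE
  have vE' : volume E = ENNReal.ofReal (∫ y in y0..y1, (Xm u a b p1 y - Xm u a b p0 y)) := by
    rw [← vE, hE]
    exact (Measure.measurePreserving_swap (μ := (volume : Measure ℝ)) (ν := (volume : Measure ℝ))).measure_preimage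
      mE.nullMeasurableSet
  have hEmem : ∀ x y, (x, y) ∈ E ↔ (y ∈ Ioo y0 y1 ∧ Xm u a b p0 y < x ∧ x < Xm u a b p1 y) := by
    intro x y
    rfl
  have hEU : ∀ x y, (x, y) ∈ E → x ∈ Ioo a b ∧ y ∈ Icc c d := by
    intro x y h
    obtain ⟨h1, h2, h3⟩ := (hEmem x y).1 h
    have hd0 := hDm p0 hp0 y (Ioo_subset_Icc_self h1)
    have hd1 := hDm p1 hp1 y (Ioo_subset_Icc_self h1)
    have a1 := (PL_point hN hab hR hd0).1
    have a2 := (PL_point hN hab hR hd1).1
    exact ⟨⟨a1.1.trans h2, h3.trans a2.2⟩, Ioo_subset_Icc_self hd0.1⟩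
  have hEU' : E ⊆ U := by
    rintro ⟨x, y⟩ h
    obtain ⟨h1, h2⟩ := hEU x y h
    exact hR ⟨Ioo_subset_Icc_self h1, h2⟩
  -- the image
  have hup : subim U u E ⊆
      {p : ℝ × ℝ | p.1 ∈ Ioo p0 p1 ∧ p.2 ∈ Icc (Hm u a b p.1 y0) (Hm u a b p.1 y1)} := by
    intro q hq
    obtain ⟨z, hz, hqz⟩ := mem_iUnion₂.1 hq
    obtain ⟨x, y⟩ := z
    rw [hN.sub_eq _ (hEU' hz), mem_singleton_iff] at hqz
    obtain ⟨h1, h2, h3⟩ := (hEmem x y).1 hz
    obtain ⟨hxab, hycd⟩ := hEU x y hz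
    have h1c := Ioo_subset_Icc_self h1
    have hmono := P_strictMonoOn hN hab hR hycd
    obtain ⟨a1, a2, -, -⟩ := PL_point hN hab hR (hDm p0 hp0 y h1c)
    obtain ⟨b1, b2, -, -⟩ := PL_point hN hab hR (hDm p1 hp1 y h1c)
    have c1 : p0 < P (x, y) := by
      have := hmono (Ioo_subset_Icc_self a1) (Ioo_subset_Icc_self hxab) h2
      simp only at this
      rwa [a2] at this
    have c2 : P (x, y) < p1 := by
      have := hmono (Ioo_subset_Icc_self hxab) (Ioo_subset_Icc_self b1) h3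
      simp only at this
      rwa [b2] at this
    have hPm : P (x, y) ∈ Icc p0 p1 := ⟨c1.le, c2.le⟩
    obtain ⟨d1, d2, -, d4⟩ := PL_point hN hab hR (hDm (P (x, y)) hPm y h1c)
    have hx : Xm u a b (P (x, y)) y = x :=
      hmono.injOn (Ioo_subset_Icc_self d1) (Ioo_subset_Icc_self hxab) d2
    rw [hx] at d4
    rw [hqz]
    refine ⟨⟨c1, c2⟩, ?_, ?_⟩
    · simp only
      rw [← d4]
      exact Hm_le hN hab hR (hDm _ hPm _ hy0) (hDm _ hPm _ h1c) h1.1.le
    · simp only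
      rw [← d4]
      exact Hm_le hN hab hR (hDm _ hPm _ h1c) (hDm _ hPm _ hy1) h1.2.le
  have hlow : regionBetween (fun p => Hm u a b p y0) (fun p => Hm u a b p y1) (Ioo p0 p1) ⊆
      subim U u E := by
    rintro ⟨p, η⟩ ⟨hpp, hη⟩
    simp only at hpp hη
    have hpc := Ioo_subset_Icc_self hpp
    obtain ⟨y, hyy, hyη⟩ := intermediate_value_Ioo hy.le (cHy p hpc) hη
    simp only at hyη
    have hyc := Ioo_subset_Icc_self hyy
    obtain ⟨d1, d2, -, d4⟩ := PL_point hN hab hR (hDm p hpc y hyc)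
    have hz : (Xm u a b p y, y) ∈ E := by
      rw [hEmem]
      exact ⟨hyy, Xm_lt hN hab hR (hDm _ hp0 _ hyc) (hDm _ hpc _ hyc) hpp.1,
        Xm_lt hN hab hR (hDm _ hpc _ hyc) (hDm _ hp1 _ hyc) hpp.2⟩
    refine mem_iUnion₂.2 ⟨(Xm u a b p y, y), hz, ?_⟩
    rw [hN.sub_eq _ (hEU' hz), mem_singleton_iff, d2, ← d4, hyη]
  have I1 : 0 ≤ ∫ p in p0..p1, (Hm u a b p y1 - Hm u a b p y0) := by
    refine intervalIntegral.integral_nonneg hp.le (fun p hpp => ?_)
    exact sub_nonneg.2 (Hm_le hN hab hR (hDm _ hpp _ hy0) (hDm _ hpp _ hy1) hy.le)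
  have I2 : 0 ≤ ∫ y in y0..y1, (Xm u a b p1 y - Xm u a b p0 y) := by
    refine intervalIntegral.integral_nonneg hy.le (fun y hyy => ?_)
    exact sub_nonneg.2 (Xm_lt hN hab hR (hDm _ hp0 _ hyy) (hDm _ hp1 _ hyy) hp).le
  constructor
  · have h1 := (hM.lo E mE' hEU').trans ((measure_mono hup).trans_eq vI')
    rw [vE', ← ENNReal.ofReal_mul hl.le] at h1
    exact (ENNReal.ofReal_le_ofReal_iff I1).1 h1
  · have h1 := ((vI.symm.trans_le (measure_mono hlow)).trans (hM.hi E mE' hEU'))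
    rw [vE', ← ENNReal.ofReal_mul (inv_nonneg.2 hl.le)] at h1
    exact (ENNReal.ofReal_le_ofReal_iff (mul_nonneg (inv_nonneg.2 hl.le) I2)).1 h1

end Pool.Agent.MP_4aaa5f_an
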