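import Pool.Agent.MP_4aaa5f_an.Defs

set_option autoImplicit false

namespace Pool.Agent.MP_4aaa5f_an

open MeasureTheory Set Filter Topology

theorem T07_prim {F : ℝ → ℝ} (hF : Continuous F) (x : ℝ) :
    HasDerivAt (fun x => ∫ t in (0:ℝ)..x, F t) (F x) x :=
  intervalIntegral.integral_hasDerivAt_right (hF.intervalIntegrable _ _)
    (hF.stronglyMeasurableAtFilter _ _) hF.continuousAt

theorem T07_tent {F : ℝ → ℝ} (hF : Continuous F) {h : ℝ} (hh : 0 < h) :
    ∫ t in (-h)..h, (h - |t|) * F t = ∫ τ in (0:ℝ)..h, ∫ u in (0:ℝ)..h, F (τ - h + u) := by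
  set Φ : ℝ → ℝ := fun x => ∫ t in (0:ℝ)..x, F t with hΦdef
  have hΦ : ∀ x, HasDerivAt Φ (F x) x := T07_prim hF
  have cΦ : Continuous Φ := continuous_iff_continuousAt.2 fun x => (hΦ x).continuousAt
  have hΦ0 : Φ 0 = 0 := by simp [hΦdef]
  have h1 : ∀ τ, ∫ u in (0:ℝ)..h, F (τ - h + u) = Φ τ - Φ (τ - h) := by
    intro τ
    rw [intervalIntegral.integral_comp_add_left (fun x => F x)]
    have : ∫ x in (τ - h)..τ, F x = Φ τ - Φ (τ - h) :=
      (intervalIntegral.integral_interval_sub_left (hF.intervalIntegrable _ _)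
        (hF.intervalIntegrable _ _)).symm
    rw [← this]
    congr 1 <;> ring
  have h2 : ∫ τ in (0:ℝ)..h, ∫ u in (0:ℝ)..h, F (τ - h + u)
      = (∫ τ in (0:ℝ)..h, Φ τ) - ∫ τ in (-h)..0, Φ τ := by
    simp_rw [h1]
    have cΦ' : Continuous (fun τ => Φ (τ - h)) := cΦ.comp (by fun_prop)
    rw [intervalIntegral.integral_sub (cΦ.intervalIntegrable _ _)
      (cΦ'.intervalIntegrable _ _)]
    congr 1
    have := intervalIntegral.integral_comp_sub_right (a := 0) (b := h) (fun x => Φ x) h
    rw [this]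
    congr 1 <;> ring
  have h3 : ∫ t in (0:ℝ)..h, (h - |t|) * F t = ∫ τ in (0:ℝ)..h, Φ τ := by
    have e1 : ∫ t in (0:ℝ)..h, (h - |t|) * F t = ∫ t in (0:ℝ)..h, (h - t) * F t := by
      apply intervalIntegral.integral_congr
      intro t ht
      rw [uIcc_of_le hh.le] at ht
      simp only [abs_of_nonneg ht.1]
    rw [e1]
    have := intervalIntegral.integral_mul_deriv_eq_deriv_mul (a := 0) (b := h)
      (u := fun t => h - t) (v := Φ) (u' := fun _ => -1) (v' := F)
      (fun x _ => by simpa using (hasDerivAt_id x).const_sub h) (fun x _ => hΦ x)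
      (continuous_const.intervalIntegrable _ _) (hF.intervalIntegrable _ _)
    rw [this]
    simp [hΦ0]
  have h4 : ∫ t in (-h)..0, (h - |t|) * F t = - ∫ τ in (-h)..0, Φ τ := by
    have e1 : ∫ t in (-h)..0, (h - |t|) * F t = ∫ t in (-h)..0, (h + t) * F t := by
      apply intervalIntegral.integral_congr
      intro t ht
      rw [uIcc_of_le (by linarith)] at ht
      simp only [abs_of_nonpos ht.2, sub_neg_eq_add]
    rw [e1]
    have := intervalIntegral.integral_mul_deriv_eq_deriv_mul (a := -h) (b := 0)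
      (u := fun t => h + t) (v := Φ) (u' := fun _ => 1) (v' := F)
      (fun x _ => by simpa using (hasDerivAt_id x).const_add h) (fun x _ => hΦ x)
      (continuous_const.intervalIntegrable _ _) (hF.intervalIntegrable _ _)
    rw [this]
    simp [hΦ0]
  have hc : Continuous fun t => (h - |t|) * F t :=
    (continuous_const.sub continuous_abs).mul hF
  rw [h2, ← intervalIntegral.integral_add_adjacent_intervals
    (hc.intervalIntegrable (-h) 0) (hc.intervalIntegrable 0 h), h3, h4]
  ring

theorem T07_swap {K : ℝ → ℝ → ℝ} (hK : Continuous (Function.uncurry K)) (h : ℝ) :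
    ∫ x in (0:ℝ)..h, ∫ y in (0:ℝ)..h, K x y = ∫ y in (0:ℝ)..h, ∫ x in (0:ℝ)..h, K x y := by
  apply intervalIntegral_intervalIntegral_swap
  exact (hK.continuousOn.integrableOn_compact (isCompact_uIcc.prod isCompact_uIcc)).mono_set
    (prod_mono uIoc_subset_uIcc uIoc_subset_uIcc)

/-- clamp to `[p-h,p+h]` -/
noncomputable def T07_cl (p h x : ℝ) : ℝ := max (p - h) (min (p + h) x)

theorem T07_cl_cont (p h : ℝ) : Continuous (T07_cl p h) := by
  unfold T07_cl; fun_prop

theorem T07_cl_mem {p h : ℝ} (hh : 0 < h) (x : ℝ) : T07_cl p h x ∈ Icc (p - h) (p + h) := by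
  unfold T07_cl
  refine ⟨le_max_left _ _, max_le (by linarith) (min_le_left _ _)⟩

theorem T07_cl_eq {p h x : ℝ} (hx : x ∈ Icc (p - h) (p + h)) : T07_cl p h x = x := by
  unfold T07_cl
  rw [min_eq_right hx.2, max_eq_right hx.1]

/-- the core identity: tent-average of second differences. -/
theorem T07_core {G X : ℝ → ℝ → ℝ} {p y h : ℝ} (hh : 0 < h)
    (hX : ∀ p' ∈ Icc (p - h) (p + h), ∀ y' ∈ Icc (y - h) (y + h),
      HasDerivAt (fun t => G t y') (X p' y') p')
    (cX : ContinuousOn (fun z : ℝ × ℝ => X z.1 z.2) (Icc (p - h) (p + h) ×ˢ Icc (y - h) (y + h))) :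
    ∃ A : ℝ → ℝ → ℝ, Continuous (Function.uncurry A) ∧
      (∀ s ∈ Icc (0:ℝ) h, ∀ τ ∈ Icc (0:ℝ) h,
        A s τ = ∫ y' in (y + τ - h)..(y + τ), (X (p + s) y' - X (p + s - h) y')) ∧
      starA G p y h = ∫ s in (0:ℝ)..h, ∫ τ in (0:ℝ)..h, A s τ := by
  set Xc : ℝ → ℝ → ℝ := fun a b => X (T07_cl p h a) (T07_cl y h b) with hXc
  have cXc : Continuous (fun z : ℝ × ℝ => Xc z.1 z.2) := by
    have : ContinuousOn ((fun z : ℝ × ℝ => X z.1 z.2) ∘
        (fun z : ℝ × ℝ => (T07_cl p h z.1, T07_cl y h z.2))) univ :=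
      cX.comp (((T07_cl_cont p h).comp continuous_fst).prodMk
        ((T07_cl_cont y h).comp continuous_snd)).continuousOn
        (fun z _ => ⟨T07_cl_mem hh _, T07_cl_mem hh _⟩)
    exact continuousOn_univ.1 this
  have eXc : ∀ a ∈ Icc (p - h) (p + h), ∀ b ∈ Icc (y - h) (y + h), Xc a b = X a b := by
    intro a ha b hb
    simp only [hXc, T07_cl_eq ha, T07_cl_eq hb]
  -- the second difference as an integral
  set D : ℝ → ℝ := fun t => ∫ s in (0:ℝ)..h, (Xc (p + s) (y + t) - Xc (p + s - h) (y + t)) with hD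
  have cXc' : ∀ (a b : ℝ × ℝ → ℝ), Continuous a → Continuous b →
      Continuous (fun z => Xc (a z) (b z)) := fun a b ha hb => cXc.comp (ha.prodMk hb)
  have cD : Continuous D := by
    apply intervalIntegral.continuous_parametric_intervalIntegral_of_continuous'
    exact (cXc' (fun z => p + z.2) (fun z => y + z.1) (by fun_prop) (by fun_prop)).sub
      (cXc' (fun z => p + z.2 - h) (fun z => y + z.1) (by fun_prop) (by fun_prop))
  have cXs : ∀ b, Continuous (fun x => Xc x b) := fun b =>
    cXc.comp (continuous_id.prodMk continuous_const)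
  have hDeq : ∀ t ∈ Icc (-h) h, G (p + h) (y + t) + G (p - h) (y + t) - 2 * G p (y + t) = D t := by
    intro t ht
    have hyt : y + t ∈ Icc (y - h) (y + h) := ⟨by linarith [ht.1], by linarith [ht.2]⟩
    have i1 : ∫ x in p..(p + h), Xc x (y + t) = G (p + h) (y + t) - G p (y + t) := by
      apply intervalIntegral.integral_eq_sub_of_hasDerivAt (f := fun x => G x (y + t))
      · intro x hx
        rw [uIcc_of_le (by linarith)] at hx
        have hx' : x ∈ Icc (p - h) (p + h) := ⟨by linarith [hx.1], hx.2⟩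
        rw [eXc x hx' _ hyt]
        exact hX x hx' _ hyt
      · exact (cXs _).intervalIntegrable _ _
    have i2 : ∫ x in (p - h)..p, Xc x (y + t) = G p (y + t) - G (p - h) (y + t) := by
      apply intervalIntegral.integral_eq_sub_of_hasDerivAt (f := fun x => G x (y + t))
      · intro x hx
        rw [uIcc_of_le (by linarith)] at hx
        have hx' : x ∈ Icc (p - h) (p + h) := ⟨hx.1, by linarith [hx.2]⟩
        rw [eXc x hx' _ hyt]
        exact hX x hx' _ hyt
      · exact (cXs _).intervalIntegrable _ _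
    have j1 : ∫ s in (0:ℝ)..h, Xc (p + s) (y + t) = ∫ x in p..(p + h), Xc x (y + t) := by
      rw [intervalIntegral.integral_comp_add_left (fun x => Xc x (y + t))]
      simp
    have j2 : ∫ s in (0:ℝ)..h, Xc (p + s - h) (y + t) = ∫ x in (p - h)..p, Xc x (y + t) := by
      have : ∀ s : ℝ, p + s - h = (p - h) + s := fun s => by ring
      simp_rw [this]
      rw [intervalIntegral.integral_comp_add_left (fun x => Xc x (y + t))]
      simp
    simp only [hD]
    rw [intervalIntegral.integral_sub, j1, j2, i1, i2]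
    · ring
    · exact ((cXs _).comp (by fun_prop)).intervalIntegrable _ _
    · exact ((cXs _).comp (by fun_prop)).intervalIntegrable _ _
  set K : ℝ → ℝ → ℝ → ℝ := fun s τ u => Xc (p + s) (y + (τ - h + u)) - Xc (p + s - h) (y + (τ - h + u))
    with hK
  have cK : Continuous (fun z : (ℝ × ℝ) × ℝ => K z.1.1 z.1.2 z.2) := by
    have a1 : Continuous (fun z : (ℝ × ℝ) × ℝ => Xc (p + z.1.1) (y + (z.1.2 - h + z.2))) :=
      cXc.comp (Continuous.prodMk (by fun_prop) (by fun_prop))
    have a2 : Continuous (fun z : (ℝ × ℝ) × ℝ => Xc (p + z.1.1 - h) (y + (z.1.2 - h + z.2))) :=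
      cXc.comp (Continuous.prodMk (by fun_prop) (by fun_prop))
    exact a1.sub a2
  refine ⟨fun s τ => ∫ u in (0:ℝ)..h, K s τ u, ?_, ?_, ?_⟩
  · exact intervalIntegral.continuous_parametric_intervalIntegral_of_continuous'
      (f := fun (z : ℝ × ℝ) u => K z.1 z.2 u) cK 0 h
  · intro s hs τ hτ
    have e1 : ∫ u in (0:ℝ)..h, K s τ u
        = ∫ y' in (y + τ - h)..(y + τ), (Xc (p + s) y' - Xc (p + s - h) y') := by
      have := intervalIntegral.integral_comp_add_left (a := 0) (b := h)
        (fun x => Xc (p + s) x - Xc (p + s - h) x) (y + τ - h)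
      have e : ∀ u : ℝ, y + τ - h + u = y + (τ - h + u) := fun u => by ring
      simp only [e] at this
      simp only [hK]
      rw [this]
      congr 1 <;> ring
    simp only
    rw [e1]
    apply intervalIntegral.integral_congr
    intro x hx
    rw [uIcc_of_le (by linarith)] at hx
    have hx' : x ∈ Icc (y - h) (y + h) := ⟨by linarith [hx.1, hτ.1], by linarith [hx.2, hτ.2]⟩
    simp only
    rw [eXc _ ⟨by linarith [hs.1], by linarith [hs.2]⟩ _ hx',
      eXc _ ⟨by linarith [hs.1], by linarith [hs.2]⟩ _ hx']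
  · have s1 : starA G p y h = ∫ t in (-h)..h, (h - |t|) * D t := by
      unfold starA
      apply intervalIntegral.integral_congr
      intro t ht
      rw [uIcc_of_le (by linarith)] at ht
      simp only
      rw [hDeq t ht]
    rw [s1, T07_tent cD hh]
    -- ∫ τ, ∫ u, ∫ s K s τ u  =  ∫ s ∫ τ ∫ u
    have s2 : ∀ τ, ∫ u in (0:ℝ)..h, D (τ - h + u) = ∫ s in (0:ℝ)..h, ∫ u in (0:ℝ)..h, K s τ u := by
      intro τ
      have := T07_swap (K := fun s u => K s τ u)
        (cK.comp (Continuous.prodMk (Continuous.prodMk continuous_fst continuous_const)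
          continuous_snd)) h
      rw [this]
    simp_rw [s2]
    have := T07_swap (K := fun s τ => ∫ u in (0:ℝ)..h, K s τ u)
      (intervalIntegral.continuous_parametric_intervalIntegral_of_continuous'
      (f := fun (z : ℝ × ℝ) u => K z.1 z.2 u) cK 0 h) h
    rw [this]

/-- [T07] From rectangle inequalities to the tent-averaged second difference inequality. -/
theorem star_of_rect {l : ℝ} (hl : 0 < l) {G X H : ℝ → ℝ → ℝ} {p y h : ℝ} (hh : 0 < h)
    (hX : ∀ p' ∈ Icc (p - h) (p + h), ∀ y' ∈ Icc (y - h) (y + h),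
      HasDerivAt (fun t => G t y') (X p' y') p')
    (hH : ∀ p' ∈ Icc (p - h) (p + h), ∀ y' ∈ Icc (y - h) (y + h),
      HasDerivAt (fun t => G p' t) (-H p' y') y')
    (cX : ContinuousOn (fun z : ℝ × ℝ => X z.1 z.2) (Icc (p - h) (p + h) ×ˢ Icc (y - h) (y + h)))
    (cH : ContinuousOn (fun z : ℝ × ℝ => H z.1 z.2) (Icc (p - h) (p + h) ×ˢ Icc (y - h) (y + h)))
    (hR : ∀ p0 p1 y0 y1, p - h ≤ p0 → p0 < p1 → p1 ≤ p + h → y - h ≤ y0 → y0 < y1 → y1 ≤ y + h →
      l * (∫ y in y0..y1, (X p1 y - X p0 y)) ≤ ∫ p in p0..p1, (H p y1 - H p y0) ∧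
      (∫ p in p0..p1, (H p y1 - H p y0)) ≤ l⁻¹ * (∫ y in y0..y1, (X p1 y - X p0 y))) :
    l * starA G p y h ≤ starB G p y h ∧ starB G p y h ≤ l⁻¹ * starA G p y h := by
  obtain ⟨A, cA, hA, sA⟩ := T07_core hh hX cX
  obtain ⟨B, cB, hB, sB⟩ := T07_core (G := fun a b => -G b a) (X := fun a b => H b a)
    (p := y) (y := p) hh
    (fun p' hp' y' hy' => by
      have := (hH y' hy' p' hp').fun_neg
      simpa using this)
    (cH.comp continuous_swap.continuousOn (fun z hz => ⟨hz.2, hz.1⟩))
  have sB' : starB G p y h = starA (fun a b => -G b a) y p h := by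
    unfold starA starB
    apply intervalIntegral.integral_congr
    intro s _
    simp only
    ring
  rw [sB', sA, sB, T07_swap cB]
  have key : ∀ s ∈ Icc (0:ℝ) h, ∀ τ ∈ Icc (0:ℝ) h, l * A s τ ≤ B τ s ∧ B τ s ≤ l⁻¹ * A s τ := by
    intro s hs τ hτ
    rw [hA s hs τ hτ, hB τ hτ s hs]
    have := hR (p + s - h) (p + s) (y + τ - h) (y + τ) (by linarith [hs.1]) (by linarith)
      (by linarith [hs.2]) (by linarith [hτ.1]) (by linarith) (by linarith [hτ.2])
    exact this
  have cAs : ∀ s, Continuous (fun τ => A s τ) := fun s =>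
    cA.comp (continuous_const.prodMk continuous_id)
  have cBs : ∀ s, Continuous (fun τ => B τ s) := fun s =>
    cB.comp (continuous_id.prodMk continuous_const)
  have cAI : Continuous (fun s => ∫ τ in (0:ℝ)..h, A s τ) :=
    intervalIntegral.continuous_parametric_intervalIntegral_of_continuous' cA 0 h
  have cBI : Continuous (fun s => ∫ τ in (0:ℝ)..h, B τ s) :=
    intervalIntegral.continuous_parametric_intervalIntegral_of_continuous'
      (f := fun s τ => B τ s) (cB.comp continuous_swap) 0 h
  constructor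
  · rw [← intervalIntegral.integral_const_mul]
    apply intervalIntegral.integral_mono_on hh.le
    · exact (continuous_const.mul cAI).intervalIntegrable _ _
    · exact cBI.intervalIntegrable _ _
    intro s hs
    rw [← intervalIntegral.integral_const_mul]
    apply intervalIntegral.integral_mono_on hh.le
    · exact (continuous_const.mul (cAs s)).intervalIntegrable _ _
    · exact (cBs s).intervalIntegrable _ _
    intro τ hτ
    exact (key s hs τ hτ).1
  · rw [← intervalIntegral.integral_const_mul]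
    apply intervalIntegral.integral_mono_on hh.le
    · exact cBI.intervalIntegrable _ _
    · exact (continuous_const.mul cAI).intervalIntegrable _ _
    intro s hs
    rw [← intervalIntegral.integral_const_mul]
    apply intervalIntegral.integral_mono_on hh.le
    · exact (cBs s).intervalIntegrable _ _
    · exact (continuous_const.mul (cAs s)).intervalIntegrable _ _
    intro τ hτ
    exact (key s hs τ hτ).2

end Pool.Agent.MP_4aaa5f_an
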