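import Pool.Agent.MP_4aaa5f_an.Defs

set_option autoImplicit false

namespace Pool.Agent.MP_4aaa5f_an

open MeasureTheory Set Filter Topology

/-- closed square -/
def cSq (p0 y0 r : ℝ) : Set (ℝ × ℝ) := Icc (p0 - r) (p0 + r) ×ˢ Icc (y0 - r) (y0 + r)

theorem isCompact_cSq (p0 y0 r : ℝ) : IsCompact (cSq p0 y0 r) :=
  isCompact_Icc.prod isCompact_Icc

theorem measurableSet_cSq (p0 y0 r : ℝ) : MeasurableSet (cSq p0 y0 r) :=
  (isCompact_cSq p0 y0 r).measurableSet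

theorem integral_cSq {w : ℝ → ℝ → ℝ} (hw : Continuous fun z : ℝ × ℝ => w z.1 z.2)
    (p0 y0 : ℝ) {r : ℝ} (hr : 0 ≤ r) :
    ∫ z in cSq p0 y0 r, w z.1 z.2
      = ∫ y in (y0 - r)..(y0 + r), ∫ p in (p0 - r)..(p0 + r), w p y := by
  have hi : IntegrableOn (fun z : ℝ × ℝ => w z.1 z.2) (cSq p0 y0 r) :=
    hw.continuousOn.integrableOn_compact (isCompact_cSq p0 y0 r)
  have h1 : ∀ y, ∫ p in (p0 - r)..(p0 + r), w p y = ∫ p in Icc (p0 - r) (p0 + r), w p y := by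
    intro y
    rw [intervalIntegral.integral_of_le (by linarith), integral_Icc_eq_integral_Ioc]
  simp_rw [h1]
  rw [intervalIntegral.integral_of_le (by linarith), ← integral_Icc_eq_integral_Ioc]
  unfold cSq at hi ⊢
  rw [IntegrableOn, Measure.volume_eq_prod, ← Measure.prod_restrict] at hi
  rw [Measure.volume_eq_prod, ← Measure.prod_restrict]
  exact integral_prod_symm _ hi

theorem integral_cSq' {w : ℝ → ℝ → ℝ} (hw : Continuous fun z : ℝ × ℝ => w z.1 z.2)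
    (p0 y0 : ℝ) {r : ℝ} (hr : 0 ≤ r) :
    ∫ z in cSq p0 y0 r, w z.1 z.2
      = ∫ p in (p0 - r)..(p0 + r), ∫ y in (y0 - r)..(y0 + r), w p y := by
  have hi : IntegrableOn (fun z : ℝ × ℝ => w z.1 z.2) (cSq p0 y0 r) :=
    hw.continuousOn.integrableOn_compact (isCompact_cSq p0 y0 r)
  have h1 : ∀ p, ∫ y in (y0 - r)..(y0 + r), w p y = ∫ y in Icc (y0 - r) (y0 + r), w p y := by
    intro y
    rw [intervalIntegral.integral_of_le (by linarith), integral_Icc_eq_integral_Ioc]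
  simp_rw [h1]
  rw [intervalIntegral.integral_of_le (by linarith), ← integral_Icc_eq_integral_Ioc]
  unfold cSq at hi ⊢
  rw [IntegrableOn, Measure.volume_eq_prod, ← Measure.prod_restrict] at hi
  rw [Measure.volume_eq_prod, ← Measure.prod_restrict]
  exact integral_prod _ hi

theorem ibp2 {g g1 g2 b b1 b2 : ℝ → ℝ} {α β : ℝ} (hg : ∀ t, HasDerivAt g (g1 t) t)
    (hg1 : ∀ t, HasDerivAt g1 (g2 t) t) (hb : ∀ t, HasDerivAt b (b1 t) t)
    (hb1 : ∀ t, HasDerivAt b1 (b2 t) t) (cg2 : Continuous g2) (cb2 : Continuous b2)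
    (e1 : b α = 0) (e2 : b β = 0) (e3 : b1 α = 0) (e4 : b1 β = 0) :
    ∫ t in α..β, g2 t * b t = ∫ t in α..β, g t * b2 t := by
  have h : ∀ t, HasDerivAt (fun t => g1 t * b t - g t * b1 t) (g2 t * b t - g t * b2 t) t := by
    intro t
    exact (((hg1 t).mul (hb t)).sub ((hg t).mul (hb1 t))).congr_deriv (by ring)
  have cg : Continuous g := continuous_iff_continuousAt.2 fun t => (hg t).continuousAt
  have cb : Continuous b := continuous_iff_continuousAt.2 fun t => (hb t).continuousAt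
  have h2 := intervalIntegral.integral_eq_sub_of_hasDerivAt (a := α) (b := β) (fun t _ => h t)
    (((cg2.mul cb).sub (cg.mul cb2)).intervalIntegrable _ _)
  have h3 : ∫ t in α..β, (g2 t * b t - g t * b2 t)
      = (∫ t in α..β, g2 t * b t) - ∫ t in α..β, g t * b2 t :=
    intervalIntegral.integral_sub ((cg2.mul cb).intervalIntegrable _ _)
      ((cg.mul cb2).intervalIntegrable _ _)
  rw [h3] at h2
  simp only [e1, e2, e3, e4] at h2
  linarith

/-- the cutoff -/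
noncomputable def bf (M : ℕ) (c ρ t : ℝ) : ℝ := (1 - ((t - c) / ρ) ^ 2) ^ (M + 2)
noncomputable def bf1 (M : ℕ) (c ρ t : ℝ) : ℝ :=
  -(2 * (M + 2) / ρ) * ((t - c) / ρ) * (1 - ((t - c) / ρ) ^ 2) ^ (M + 1)
noncomputable def bf2 (M : ℕ) (c ρ t : ℝ) : ℝ :=
  (2 * (M + 2) / ρ ^ 2) * ((1 - ((t - c) / ρ) ^ 2) ^ M * ((2 * M + 3) * ((t - c) / ρ) ^ 2 - 1))

theorem hasDerivAt_bf (M : ℕ) (c : ℝ) (ρ : ℝ) (t : ℝ) :
    HasDerivAt (bf M c ρ) (bf1 M c ρ t) t := by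
  have h0 : HasDerivAt (fun t => (t - c) / ρ) (1 / ρ) t :=
    ((hasDerivAt_id t).sub_const c).div_const ρ
  have h1 := ((h0.pow 2).const_sub 1).pow (M + 2)
  refine h1.congr_deriv ?_
  unfold bf1
  simp only [Pi.pow_apply, show M + 2 - 1 = M + 1 from rfl]
  push_cast
  ring

theorem hasDerivAt_bf1 (M : ℕ) (c : ℝ) (ρ : ℝ) (t : ℝ) :
    HasDerivAt (bf1 M c ρ) (bf2 M c ρ t) t := by
  have h0 : HasDerivAt (fun t => (t - c) / ρ) (1 / ρ) t :=
    ((hasDerivAt_id t).sub_const c).div_const ρ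
  have h1 := (h0.const_mul (-(2 * ((M : ℝ) + 2) / ρ))).mul (((h0.pow 2).const_sub 1).pow (M + 1))
  refine h1.congr_deriv ?_
  unfold bf2
  simp only [Pi.pow_apply, Nat.add_sub_cancel]
  push_cast
  ring

theorem continuous_bf (M : ℕ) (c ρ : ℝ) : Continuous (bf M c ρ) := by
  unfold bf; fun_prop

theorem continuous_bf2 (M : ℕ) (c ρ : ℝ) : Continuous (bf2 M c ρ) := by
  unfold bf2; fun_prop

theorem bf_left (M : ℕ) (c : ℝ) {ρ : ℝ} (hρ : 0 < ρ) : bf M c ρ (c - ρ) = 0 := by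
  unfold bf
  have : (c - ρ - c) / ρ = -1 := by field_simp; ring
  rw [this]; norm_num

theorem bf_right (M : ℕ) (c : ℝ) {ρ : ℝ} (hρ : 0 < ρ) : bf M c ρ (c + ρ) = 0 := by
  unfold bf
  have : (c + ρ - c) / ρ = 1 := by field_simp; ring
  rw [this]; norm_num

theorem bf1_left (M : ℕ) (c : ℝ) {ρ : ℝ} (hρ : 0 < ρ) : bf1 M c ρ (c - ρ) = 0 := by
  unfold bf1
  have : (c - ρ - c) / ρ = -1 := by field_simp; ring
  rw [this]; norm_num

theorem bf1_right (M : ℕ) (c : ℝ) {ρ : ℝ} (hρ : 0 < ρ) : bf1 M c ρ (c + ρ) = 0 := by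
  unfold bf1
  have : (c + ρ - c) / ρ = 1 := by field_simp; ring
  rw [this]; norm_num

/-- the integral identity -/
theorem integral_zero {l R : ℝ} {G Gp w Gy φ : ℝ → ℝ → ℝ} (h : Sol l R G Gp w Gy φ)
    (M : ℕ) (p0 y0 : ℝ) {ρ : ℝ} (hρ : 0 < ρ) :
    ∫ z in cSq p0 y0 ρ, (w z.1 z.2 * bf M p0 ρ z.1 * bf2 M y0 ρ z.2
      + φ z.1 z.2 * bf M y0 ρ z.2 * bf2 M p0 ρ z.1) = 0 := by
  have cw := h.cw
  have cφ := h.cφ
  have cG := h.cG
  have cb1 : Continuous fun z : ℝ × ℝ => bf M p0 ρ z.1 := (continuous_bf _ _ _).comp continuous_fst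
  have cb2 : Continuous fun z : ℝ × ℝ => bf M y0 ρ z.2 := (continuous_bf _ _ _).comp continuous_snd
  have cb3 : Continuous fun z : ℝ × ℝ => bf2 M p0 ρ z.1 :=
    (continuous_bf2 _ _ _).comp continuous_fst
  have cb4 : Continuous fun z : ℝ × ℝ => bf2 M y0 ρ z.2 :=
    (continuous_bf2 _ _ _).comp continuous_snd
  rw [integral_add]
  · have e1 : ∫ z in cSq p0 y0 ρ, w z.1 z.2 * bf M p0 ρ z.1 * bf2 M y0 ρ z.2
        = ∫ z in cSq p0 y0 ρ, G z.1 z.2 * bf2 M p0 ρ z.1 * bf2 M y0 ρ z.2 := by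
      rw [integral_cSq (w := fun p y => w p y * bf M p0 ρ p * bf2 M y0 ρ y)
        ((cw.mul cb1).mul cb4) p0 y0 hρ.le,
        integral_cSq (w := fun p y => G p y * bf2 M p0 ρ p * bf2 M y0 ρ y)
        ((cG.mul cb3).mul cb4) p0 y0 hρ.le]
      congr 1
      funext y
      rw [intervalIntegral.integral_mul_const, intervalIntegral.integral_mul_const]
      congr 1
      exact ibp2 (fun t => h.dG t y) (fun t => h.dGp t y) (hasDerivAt_bf M p0 ρ)
        (hasDerivAt_bf1 M p0 ρ) (cw.comp (by fun_prop : Continuous fun t : ℝ => (t, y)))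
        (continuous_bf2 _ _ _)
        (bf_left M p0 hρ) (bf_right M p0 hρ) (bf1_left M p0 hρ) (bf1_right M p0 hρ)
    have e2 : ∫ z in cSq p0 y0 ρ, φ z.1 z.2 * bf M y0 ρ z.2 * bf2 M p0 ρ z.1
        = -∫ z in cSq p0 y0 ρ, G z.1 z.2 * bf2 M y0 ρ z.2 * bf2 M p0 ρ z.1 := by
      rw [integral_cSq' (w := fun p y => φ p y * bf M y0 ρ y * bf2 M p0 ρ p)
        ((cφ.mul cb2).mul cb3) p0 y0 hρ.le,
        integral_cSq' (w := fun p y => G p y * bf2 M y0 ρ y * bf2 M p0 ρ p)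
        ((cG.mul cb4).mul cb3) p0 y0 hρ.le, ← intervalIntegral.integral_neg]
      congr 1
      funext p
      rw [intervalIntegral.integral_mul_const, intervalIntegral.integral_mul_const, ← neg_mul]
      congr 1
      have := ibp2 (α := y0 - ρ) (β := y0 + ρ) (fun t => h.dGy p t) (fun t => h.dGyy p t)
        (hasDerivAt_bf M y0 ρ)
        (hasDerivAt_bf1 M y0 ρ) (cφ.comp (by fun_prop : Continuous fun t : ℝ => (p, t))).neg
        (continuous_bf2 _ _ _)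
        (bf_left M y0 hρ) (bf_right M y0 hρ) (bf1_left M y0 hρ) (bf1_right M y0 hρ)
      rw [← this, ← intervalIntegral.integral_neg]
      congr 1
      funext t
      ring
    rw [e1, e2, ← sub_eq_add_neg, sub_eq_zero]
    congr 1
    funext z
    ring
  · exact ((cw.mul cb1).mul cb4).continuousOn.integrableOn_compact (isCompact_cSq _ _ _)
  · exact ((cφ.mul cb2).mul cb3).continuousOn.integrableOn_compact (isCompact_cSq _ _ _)

theorem E_ge_S {l k w f X Y : ℝ} (hl0 : 0 < l) (hl1 : l < 1) (hk : 64 / l ≤ k) (hw : 0 < w)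
    (h1 : l * w ≤ f) (h2 : f ≤ l⁻¹ * w) (hX0 : 0 ≤ X) (hX1 : X ≤ 1) (hY0 : 1 / 16 ≤ Y)
    (hY1 : Y ≤ 1) :
    0 ≤ w * (1 - X) ^ 2 * (k * Y - 1) + f * (1 - Y) ^ 2 * (k * X - 1) ∧
    (X ≤ 1 / 4 → w ≤ w * (1 - X) ^ 2 * (k * Y - 1) + f * (1 - Y) ^ 2 * (k * X - 1)) := by
  have hf : 0 < f := lt_of_lt_of_le (by positivity) h1
  have hli : 1 < l⁻¹ := (one_lt_inv₀ hl0).2 hl1
  have hk' : 64 * l⁻¹ ≤ k := by rw [← div_eq_mul_inv]; exact hk
  have hkY : 3 * l⁻¹ ≤ k * Y - 1 := by nlinarith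
  by_cases hkX : 1 ≤ k * X
  · have t1 : 0 ≤ f * (1 - Y) ^ 2 * (k * X - 1) :=
      mul_nonneg (mul_nonneg hf.le (sq_nonneg _)) (by linarith)
    constructor
    · have : 0 ≤ w * (1 - X) ^ 2 * (k * Y - 1) :=
        mul_nonneg (mul_nonneg hw.le (sq_nonneg _)) (by linarith)
      linarith
    · intro hX
      have h9 : 9 / 16 ≤ (1 - X) ^ 2 := by nlinarith
      have : w * (9 / 16) * 3 ≤ w * (1 - X) ^ 2 * (k * Y - 1) := by
        apply mul_le_mul (mul_le_mul_of_nonneg_left h9 hw.le) (by linarith) (by norm_num)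
          (by positivity)
      linarith
  · push Not at hkX
    have hX64 : X ≤ 1 / 64 := by
      by_contra hcon
      push Not at hcon
      nlinarith
    have h9 : 9 / 10 ≤ (1 - X) ^ 2 := by nlinarith
    have t1 : w * (9 / 10) * (3 * l⁻¹) ≤ w * (1 - X) ^ 2 * (k * Y - 1) := by
      apply mul_le_mul (mul_le_mul_of_nonneg_left h9 hw.le) hkY (by positivity) (by positivity)
    have hY2 : (1 - Y) ^ 2 ≤ 1 := by nlinarith
    have hkp : 0 < k := lt_of_lt_of_le (by positivity) hk'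
    have t2 : -(f * 1 * 1) ≤ f * (1 - Y) ^ 2 * (k * X - 1) := by
      have : f * (1 - Y) ^ 2 * (1 - k * X) ≤ f * 1 * 1 := by
        apply mul_le_mul (mul_le_mul_of_nonneg_left hY2 hf.le) _ (by linarith) (by positivity)
        have : 0 ≤ k * X := by positivity
        linarith
      linarith
    have t3 : w ≤ w * (9 / 10) * (3 * l⁻¹) - l⁻¹ * w := by nlinarith
    exact ⟨by linarith, fun _ => by linarith⟩

theorem E_ge_T {l k w f X Y : ℝ} (hl0 : 0 < l) (hl1 : l < 1) (hk : 64 / l ≤ k) (hw : 0 < w)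
    (h1 : l * w ≤ f) (hX0 : 1 / 16 ≤ X) (hX1 : X ≤ 1) (hY0 : 0 ≤ Y)
    (hY1 : Y ≤ 1) :
    0 ≤ w * (1 - X) ^ 2 * (k * Y - 1) + f * (1 - Y) ^ 2 * (k * X - 1) ∧
    (Y ≤ 1 / 4 → w ≤ w * (1 - X) ^ 2 * (k * Y - 1) + f * (1 - Y) ^ 2 * (k * X - 1)) := by
  have hf : 0 < f := lt_of_lt_of_le (by positivity) h1
  have hli : 1 < l⁻¹ := (one_lt_inv₀ hl0).2 hl1
  have hll : l * l⁻¹ = 1 := mul_inv_cancel₀ hl0.ne'
  have hk' : 64 * l⁻¹ ≤ k := by rw [← div_eq_mul_inv]; exact hk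
  have hkX : 3 * l⁻¹ ≤ k * X - 1 := by nlinarith
  by_cases hkY : 1 ≤ k * Y
  · have t1 : 0 ≤ w * (1 - X) ^ 2 * (k * Y - 1) :=
      mul_nonneg (mul_nonneg hw.le (sq_nonneg _)) (by linarith)
    constructor
    · have : 0 ≤ f * (1 - Y) ^ 2 * (k * X - 1) :=
        mul_nonneg (mul_nonneg hf.le (sq_nonneg _)) (by linarith)
      linarith
    · intro hY
      have h9 : 9 / 16 ≤ (1 - Y) ^ 2 := by nlinarith
      have : (l * w) * (9 / 16) * (3 * l⁻¹) ≤ f * (1 - Y) ^ 2 * (k * X - 1) := by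
        apply mul_le_mul (mul_le_mul h1 h9 (by norm_num) hf.le) hkX (by positivity)
          (by positivity)
      have e : (l * w) * (9 / 16) * (3 * l⁻¹) = w * (27 / 16) := by
        calc (l * w) * (9 / 16) * (3 * l⁻¹) = w * (27 / 16) * (l * l⁻¹) := by ring
          _ = _ := by rw [hll, mul_one]
      linarith
  · push Not at hkY
    have hY64 : Y ≤ 1 / 64 := by
      by_contra hcon
      push Not at hcon
      nlinarith
    have h9 : 9 / 10 ≤ (1 - Y) ^ 2 := by nlinarith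
    have t1 : (l * w) * (9 / 10) * (3 * l⁻¹) ≤ f * (1 - Y) ^ 2 * (k * X - 1) := by
      apply mul_le_mul (mul_le_mul h1 h9 (by norm_num) hf.le) hkX (by positivity) (by positivity)
    have e : (l * w) * (9 / 10) * (3 * l⁻¹) = w * (27 / 10) := by
      calc (l * w) * (9 / 10) * (3 * l⁻¹) = w * (27 / 10) * (l * l⁻¹) := by ring
        _ = _ := by rw [hll, mul_one]
    have hX2 : (1 - X) ^ 2 ≤ 1 := by nlinarith
    have hkp : 0 < k := lt_of_lt_of_le (by positivity) hk'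
    have t2 : -(w * 1 * 1) ≤ w * (1 - X) ^ 2 * (k * Y - 1) := by
      have : w * (1 - X) ^ 2 * (1 - k * Y) ≤ w * 1 * 1 := by
        apply mul_le_mul (mul_le_mul_of_nonneg_left hX2 hw.le) _ (by linarith) (by positivity)
        have : 0 ≤ k * Y := by positivity
        linarith
      linarith
    exact ⟨by linarith, fun _ => by linarith⟩

theorem E_ge_small {l k w f X Y : ℝ} (hl0 : 0 < l) (hk : 0 ≤ k) (hw : 0 < w)
    (h1 : l * w ≤ f) (h2 : f ≤ l⁻¹ * w) (hX0 : 0 ≤ X) (hX1 : X ≤ 1) (hY0 : 0 ≤ Y)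
    (hY1 : Y ≤ 1) :
    -((1 + l⁻¹) * w) ≤ w * (1 - X) ^ 2 * (k * Y - 1) + f * (1 - Y) ^ 2 * (k * X - 1) := by
  have hf : 0 < f := lt_of_lt_of_le (by positivity) h1
  have hY2 : (1 - Y) ^ 2 ≤ 1 := by nlinarith
  have hX2 : (1 - X) ^ 2 ≤ 1 := by nlinarith
  have a1 : 0 ≤ w * (1 - X) ^ 2 * (k * Y) := by positivity
  have a2 : 0 ≤ f * (1 - Y) ^ 2 * (k * X) := by positivity
  have a3 : w * (1 - X) ^ 2 ≤ w := by nlinarith
  have a4 : f * (1 - Y) ^ 2 ≤ f := by nlinarith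
  nlinarith

theorem key_ineq {l : ℝ} (hl0 : 0 < l) (hl1 : l < 1) {M : ℕ} (hM : 64 / l ≤ 2 * M + 3)
    {w f T S : ℝ} (hw : 0 < w) (h1 : l * w ≤ f) (h2 : f ≤ l⁻¹ * w) (hT : |T| ≤ 1)
    (hS : |S| ≤ 1) :
    (if |T| ≤ 1 / 2 ∧ |S| ≤ 1 / 2 then (9 / 16) ^ M * w else 0)
      - (if |T| ≤ 1 / 4 ∧ |S| ≤ 1 / 4 then ((9 / 16) ^ M + 1 + l⁻¹) * w else 0)
    ≤ (1 - T ^ 2) ^ M * (1 - S ^ 2) ^ M * (w * (1 - T ^ 2) ^ 2 * ((2 * M + 3) * S ^ 2 - 1)
      + f * (1 - S ^ 2) ^ 2 * ((2 * M + 3) * T ^ 2 - 1)) := by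
  have hT2 : T ^ 2 ≤ 1 := by
    rw [← sq_abs]; nlinarith [abs_nonneg T]
  have hS2 : S ^ 2 ≤ 1 := by
    rw [← sq_abs]; nlinarith [abs_nonneg S]
  have hP0 : 0 ≤ (1 - T ^ 2) ^ M * (1 - S ^ 2) ^ M :=
    mul_nonneg (pow_nonneg (by linarith) _) (pow_nonneg (by linarith) _)
  have hP1 : (1 - T ^ 2) ^ M * (1 - S ^ 2) ^ M ≤ 1 :=
    mul_le_one₀ (pow_le_one₀ (by linarith) (by nlinarith)) (pow_nonneg (by linarith) _)
      (pow_le_one₀ (by linarith) (by nlinarith))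
  have hli : 0 < l⁻¹ := inv_pos.2 hl0
  have hc0 : (0 : ℝ) ≤ (9 / 16) ^ M := by positivity
  by_cases hsm : |T| ≤ 1 / 4 ∧ |S| ≤ 1 / 4
  · have hhalf : |T| ≤ 1 / 2 ∧ |S| ≤ 1 / 2 := ⟨by linarith [hsm.1], by linarith [hsm.2]⟩
    rw [if_pos hsm, if_pos hhalf]
    have hE := E_ge_small (k := 2 * (M : ℝ) + 3) hl0 (by positivity) hw h1 h2 (sq_nonneg T) hT2
      (sq_nonneg S) hS2
    have : -((1 + l⁻¹) * w) ≤ (1 - T ^ 2) ^ M * (1 - S ^ 2) ^ M *
        (w * (1 - T ^ 2) ^ 2 * ((2 * M + 3) * S ^ 2 - 1)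
      + f * (1 - S ^ 2) ^ 2 * ((2 * M + 3) * T ^ 2 - 1)) := by
      have hpos : 0 ≤ (1 + l⁻¹) * w := by positivity
      nlinarith
    nlinarith
  · rw [if_neg hsm, sub_zero]
    have hE : 0 ≤ w * (1 - T ^ 2) ^ 2 * ((2 * M + 3) * S ^ 2 - 1)
          + f * (1 - S ^ 2) ^ 2 * ((2 * M + 3) * T ^ 2 - 1) ∧
        (|T| ≤ 1 / 2 ∧ |S| ≤ 1 / 2 → w ≤ w * (1 - T ^ 2) ^ 2 * ((2 * M + 3) * S ^ 2 - 1)
          + f * (1 - S ^ 2) ^ 2 * ((2 * M + 3) * T ^ 2 - 1)) := by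
      by_cases hS4 : |S| ≤ 1 / 4
      · have hT4 : 1 / 4 < |T| := by
          by_contra hcon
          push Not at hcon
          exact hsm ⟨hcon, hS4⟩
        have hX : 1 / 16 ≤ T ^ 2 := by rw [← sq_abs]; nlinarith
        have := E_ge_T hl0 hl1 hM hw h1 hX hT2 (sq_nonneg S) hS2
        refine ⟨this.1, fun hh => this.2 ?_⟩
        rw [← sq_abs]; nlinarith [abs_nonneg S, hh.2]
      · push Not at hS4
        have hY : 1 / 16 ≤ S ^ 2 := by rw [← sq_abs]; nlinarith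
        have := E_ge_S hl0 hl1 hM hw h1 h2 (sq_nonneg T) hT2 hY hS2
        refine ⟨this.1, fun hh => this.2 ?_⟩
        rw [← sq_abs]; nlinarith [abs_nonneg T, hh.1]
    by_cases hhalf : |T| ≤ 1 / 2 ∧ |S| ≤ 1 / 2
    · rw [if_pos hhalf]
      have hw' := hE.2 hhalf
      have hT4 : T ^ 2 ≤ 1 / 4 := by rw [← sq_abs]; nlinarith [abs_nonneg T, hhalf.1]
      have hS4 : S ^ 2 ≤ 1 / 4 := by rw [← sq_abs]; nlinarith [abs_nonneg S, hhalf.2]
      have hPP : (9 / 16 : ℝ) ^ M ≤ (1 - T ^ 2) ^ M * (1 - S ^ 2) ^ M := by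
        rw [← mul_pow]
        apply pow_le_pow_left₀ (by norm_num)
        nlinarith
      exact mul_le_mul hPP hw' hw.le hP0
    · rw [if_neg hhalf]
      exact mul_nonneg hP0 hE.1

theorem mass_eq {w : ℝ → ℝ → ℝ} (hw : Continuous fun z : ℝ × ℝ => w z.1 z.2)
    (p0 y0 : ℝ) {r : ℝ} (hr : 0 ≤ r) :
    mass w p0 y0 r = ∫ z in cSq p0 y0 r, w z.1 z.2 := (integral_cSq hw p0 y0 hr).symm

theorem mem_cSq_iff {p0 y0 r : ℝ} {z : ℝ × ℝ} :
    z ∈ cSq p0 y0 r ↔ |z.1 - p0| ≤ r ∧ |z.2 - y0| ≤ r := by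
  unfold cSq
  rw [mem_prod, mem_Icc, mem_Icc, abs_le, abs_le]
  constructor <;> rintro ⟨⟨a, b⟩, ⟨c, d⟩⟩ <;>
    exact ⟨⟨by linarith, by linarith⟩, ⟨by linarith, by linarith⟩⟩

theorem integral_ind {w : ℝ → ℝ → ℝ} (hw : Continuous fun z : ℝ × ℝ => w z.1 z.2)
    {p0 y0 r ρ : ℝ} (c : ℝ) (hr : 0 ≤ r) (hrρ : r ≤ ρ) :
    ∫ z in cSq p0 y0 ρ, (cSq p0 y0 r).indicator (fun z => c * w z.1 z.2) z
      = c * mass w p0 y0 r := by
  rw [setIntegral_indicator (measurableSet_cSq _ _ _), inter_eq_self_of_subset_right,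
    integral_const_mul, mass_eq hw _ _ hr]
  intro z hz
  rw [mem_cSq_iff] at hz ⊢
  exact ⟨hz.1.trans hrρ, hz.2.trans hrρ⟩

theorem mass_mono {w : ℝ → ℝ → ℝ} (hw : Continuous fun z : ℝ × ℝ => w z.1 z.2)
    {p0 y0 r p1 y1 r1 : ℝ} (hr : 0 ≤ r) (hr1 : 0 ≤ r1)
    (hs : cSq p0 y0 r ⊆ cSq p1 y1 r1) (h0 : ∀ z ∈ cSq p1 y1 r1, 0 ≤ w z.1 z.2) :
    mass w p0 y0 r ≤ mass w p1 y1 r1 := by
  rw [mass_eq hw _ _ hr, mass_eq hw _ _ hr1]
  apply setIntegral_mono_set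
  · exact hw.continuousOn.integrableOn_compact (isCompact_cSq _ _ _)
  · exact (ae_restrict_mem (measurableSet_cSq _ _ _)).mono fun z hz => h0 z hz
  · exact Filter.Eventually.of_forall hs

/-- [T08] Doubling. -/
theorem mass_doubling (l : ℝ) (hl0 : 0 < l) (hl1 : l < 1) : ∃ Cd : ℝ, 1 ≤ Cd ∧
    ∀ (R : ℝ) (G Gp w Gy φ : ℝ → ℝ → ℝ), Sol l R G Gp w Gy φ → ∀ p0 y0 r : ℝ, 0 < r →
      |p0| + 4 * r ≤ R → |y0| + 4 * r ≤ R → mass w p0 y0 (2 * r) ≤ Cd * mass w p0 y0 r := by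
  obtain ⟨M, hM0⟩ := exists_nat_ge (64 / l)
  have hM : 64 / l ≤ 2 * (M : ℝ) + 3 := by
    have : (0 : ℝ) ≤ M := Nat.cast_nonneg _
    linarith
  have hc : (0 : ℝ) < (9 / 16) ^ M := by positivity
  have hli : 0 < l⁻¹ := inv_pos.2 hl0
  refine ⟨((9 / 16) ^ M + 1 + l⁻¹) / (9 / 16) ^ M, ?_, ?_⟩
  · rw [le_div_iff₀ hc]; linarith
  intro R G Gp w Gy φ h p0 y0 r hr hp hy
  set ρ := 4 * r with hρ
  have hρ0 : 0 < ρ := by positivity
  have cw := h.cw
  have cφ := h.cφ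
  have cb1 : Continuous fun z : ℝ × ℝ => bf M p0 ρ z.1 := (continuous_bf _ _ _).comp continuous_fst
  have cb2 : Continuous fun z : ℝ × ℝ => bf M y0 ρ z.2 := (continuous_bf _ _ _).comp continuous_snd
  have cb3 : Continuous fun z : ℝ × ℝ => bf2 M p0 ρ z.1 :=
    (continuous_bf2 _ _ _).comp continuous_fst
  have cb4 : Continuous fun z : ℝ × ℝ => bf2 M y0 ρ z.2 :=
    (continuous_bf2 _ _ _).comp continuous_snd
  have hkey : ∀ z ∈ cSq p0 y0 ρ,
      (cSq p0 y0 (2 * r)).indicator (fun z => (9 / 16) ^ M * w z.1 z.2) z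
        - (cSq p0 y0 r).indicator (fun z => ((9 / 16) ^ M + 1 + l⁻¹) * w z.1 z.2) z
      ≤ (ρ ^ 2 / (2 * (M + 2))) * (w z.1 z.2 * bf M p0 ρ z.1 * bf2 M y0 ρ z.2
      + φ z.1 z.2 * bf M y0 ρ z.2 * bf2 M p0 ρ z.1) := by
    intro z hz
    have hz' := mem_cSq_iff.1 hz
    have hz1 : |z.1| ≤ R := by
      have := abs_add_le (z.1 - p0) p0
      rw [sub_add_cancel] at this
      linarith [hz'.1]
    have hz2 : |z.2| ≤ R := by
      have := abs_add_le (z.2 - y0) y0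
      rw [sub_add_cancel] at this
      linarith [hz'.2]
    have habs : ∀ t c : ℝ, |(t - c) / ρ| = |t - c| / ρ := fun t c => by
      rw [abs_div, abs_of_pos hρ0]
    have hT : |(z.1 - p0) / ρ| ≤ 1 := by
      rw [habs, div_le_one hρ0]; exact hz'.1
    have hS : |(z.2 - y0) / ρ| ≤ 1 := by
      rw [habs, div_le_one hρ0]; exact hz'.2
    have hk := key_ineq hl0 hl1 hM (h.pos _ _ hz1 hz2) (h.lo _ _ hz1 hz2) (h.hi _ _ hz1 hz2) hT hS
    have i1 : (cSq p0 y0 (2 * r)).indicator (fun z => (9 / 16) ^ M * w z.1 z.2) z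
        = if |(z.1 - p0) / ρ| ≤ 1 / 2 ∧ |(z.2 - y0) / ρ| ≤ 1 / 2 then (9 / 16) ^ M * w z.1 z.2
          else 0 := by
      classical
      rw [indicator_apply]
      have : z ∈ cSq p0 y0 (2 * r) ↔ |(z.1 - p0) / ρ| ≤ 1 / 2 ∧ |(z.2 - y0) / ρ| ≤ 1 / 2 := by
        rw [mem_cSq_iff, habs, habs, div_le_iff₀ hρ0, div_le_iff₀ hρ0, hρ]
        have : 1 / 2 * (4 * r) = 2 * r := by ring
        rw [this]
      simp only [this]
    have i2 : (cSq p0 y0 r).indicator (fun z => ((9 / 16) ^ M + 1 + l⁻¹) * w z.1 z.2) z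
        = if |(z.1 - p0) / ρ| ≤ 1 / 4 ∧ |(z.2 - y0) / ρ| ≤ 1 / 4 then
          ((9 / 16) ^ M + 1 + l⁻¹) * w z.1 z.2 else 0 := by
      classical
      rw [indicator_apply]
      have : z ∈ cSq p0 y0 r ↔ |(z.1 - p0) / ρ| ≤ 1 / 4 ∧ |(z.2 - y0) / ρ| ≤ 1 / 4 := by
        rw [mem_cSq_iff, habs, habs, div_le_iff₀ hρ0, div_le_iff₀ hρ0, hρ]
        have : 1 / 4 * (4 * r) = r := by ring
        rw [this]
      simp only [this]
    rw [i1, i2]
    refine hk.trans (le_of_eq ?_)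
    unfold bf bf2
    have hM2 : (M : ℝ) + 2 ≠ 0 := by positivity
    have e : ρ ^ 2 / (2 * ((M : ℝ) + 2)) * (2 * (M + 2) / ρ ^ 2) = 1 := by
      field_simp
    generalize (z.1 - p0) / ρ = T
    generalize (z.2 - y0) / ρ = S
    generalize w z.1 z.2 = W
    generalize φ z.1 z.2 = F
    calc (1 - T ^ 2) ^ M * (1 - S ^ 2) ^ M * (W * (1 - T ^ 2) ^ 2 * ((2 * M + 3) * S ^ 2 - 1)
          + F * (1 - S ^ 2) ^ 2 * ((2 * M + 3) * T ^ 2 - 1))
        = (ρ ^ 2 / (2 * ((M : ℝ) + 2)) * (2 * (M + 2) / ρ ^ 2)) * ((1 - T ^ 2) ^ M *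
          (1 - S ^ 2) ^ M * (W * (1 - T ^ 2) ^ 2 * ((2 * M + 3) * S ^ 2 - 1)
          + F * (1 - S ^ 2) ^ 2 * ((2 * M + 3) * T ^ 2 - 1))) := by rw [e, one_mul]
      _ = _ := by ring
  have hI := setIntegral_mono_on (μ := volume) ?_ ?_ (measurableSet_cSq p0 y0 ρ) hkey
  · rw [integral_const_mul, integral_zero h M p0 y0 hρ0, mul_zero, integral_sub,
      integral_ind cw _ (by positivity) (by linarith),
      integral_ind cw _ hr.le (by linarith)] at hI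
    · rw [div_mul_eq_mul_div, le_div_iff₀ hc]
      linarith
    · exact IntegrableOn.indicator ((continuous_const.mul cw).continuousOn.integrableOn_compact
        (isCompact_cSq _ _ _)) (measurableSet_cSq _ _ _)
    · exact IntegrableOn.indicator ((continuous_const.mul cw).continuousOn.integrableOn_compact
        (isCompact_cSq _ _ _)) (measurableSet_cSq _ _ _)
  · apply IntegrableOn.sub
    · exact IntegrableOn.indicator ((continuous_const.mul cw).continuousOn.integrableOn_compact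
        (isCompact_cSq _ _ _)) (measurableSet_cSq _ _ _)
    · exact IntegrableOn.indicator ((continuous_const.mul cw).continuousOn.integrableOn_compact
        (isCompact_cSq _ _ _)) (measurableSet_cSq _ _ _)
  · exact (continuous_const.mul (((cw.mul cb1).mul cb4).add
      ((cφ.mul cb2).mul cb3))).continuousOn.integrableOn_compact (isCompact_cSq _ _ _)

theorem mass_lower (l : ℝ) (hl0 : 0 < l) (hl1 : l < 1) : ∃ κ : ℕ, 1 ≤ κ ∧ ∃ c : ℝ, 0 < c ∧
    ∀ G Gp w Gy φ : ℝ → ℝ → ℝ, Sol l 50 G Gp w Gy φ → ∀ c0 : ℝ, 0 < c0 → c0 ≤ mass w 0 0 1 →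
      ∀ p0 y0 s : ℝ, |p0| ≤ 4 → |y0| ≤ 4 → 0 < s → s ≤ 1 → c * c0 * s ^ κ ≤ mass w p0 y0 s := by
  obtain ⟨Cd, hCd1, hCd⟩ := mass_doubling l hl0 hl1
  obtain ⟨κ, hκ⟩ := pow_unbounded_of_one_lt Cd (one_lt_two (α := ℝ))
  have hκ1 : 1 ≤ κ := by
    rcases Nat.eq_zero_or_pos κ with h | h
    · rw [h, pow_zero] at hκ; linarith
    · exact h
  refine ⟨κ, hκ1, (1 / 16) ^ κ, by positivity, ?_⟩
  intro G Gp w Gy φ h c0 hc0 hc0m p0 y0 s hp hy hs hs1
  obtain ⟨n, hn1, hn2⟩ := exists_nat_pow_near (x := 8 / s) (y := 2)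
    (by rw [le_div_iff₀ hs]; linarith) one_lt_two
  rw [le_div_iff₀ hs] at hn1
  rw [div_lt_iff₀ hs] at hn2
  have hpos : ∀ z ∈ cSq p0 y0 (2 ^ (n + 1) * s), 0 ≤ w z.1 z.2 := by
    intro z hz
    have hz' := mem_cSq_iff.1 hz
    have h16 : (2 : ℝ) ^ (n + 1) * s ≤ 16 := by rw [pow_succ]; linarith
    have hz1 : |z.1| ≤ 50 := by
      have := abs_add_le (z.1 - p0) p0
      rw [sub_add_cancel] at this
      linarith [hz'.1]
    have hz2 : |z.2| ≤ 50 := by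
      have := abs_add_le (z.2 - y0) y0
      rw [sub_add_cancel] at this
      linarith [hz'.2]
    exact (h.pos _ _ hz1 hz2).le
  have hind : ∀ j : ℕ, j ≤ n + 1 → mass w p0 y0 (2 ^ j * s) ≤ Cd ^ j * mass w p0 y0 s := by
    intro j
    induction j with
    | zero => intro _; simp
    | succ j ih =>
      intro hj
      have h1 := ih (by omega)
      have hj2 : (2 : ℝ) ^ j * s ≤ 8 := by
        have : (2 : ℝ) ^ j ≤ 2 ^ n := pow_le_pow_right₀ one_le_two (by omega)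
        nlinarith
      have h2 := hCd 50 G Gp w Gy φ h p0 y0 (2 ^ j * s) (by positivity) (by linarith)
        (by linarith)
      calc mass w p0 y0 (2 ^ (j + 1) * s) = mass w p0 y0 (2 * (2 ^ j * s)) := by
            congr 1; ring
        _ ≤ Cd * mass w p0 y0 (2 ^ j * s) := h2
        _ ≤ Cd * (Cd ^ j * mass w p0 y0 s) := by
            apply mul_le_mul_of_nonneg_left h1; linarith
        _ = _ := by ring
  have hbig : mass w 0 0 1 ≤ mass w p0 y0 (2 ^ (n + 1) * s) := by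
    apply mass_mono h.cw zero_le_one (by positivity) _ hpos
    intro z hz
    rw [mem_cSq_iff] at hz ⊢
    rw [sub_zero, sub_zero] at hz
    constructor
    · have := abs_sub z.1 p0
      linarith [hz.1]
    · have := abs_sub z.2 y0
      linarith [hz.2]
  have hm0 : 0 ≤ mass w p0 y0 s := by
    rw [mass_eq h.cw _ _ hs.le]
    apply setIntegral_nonneg (measurableSet_cSq _ _ _)
    intro z hz
    apply hpos
    rw [mem_cSq_iff] at hz ⊢
    have : s ≤ 2 ^ (n + 1) * s := by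
      have : (1 : ℝ) ≤ 2 ^ (n + 1) := one_le_pow₀ one_le_two
      nlinarith
    exact ⟨hz.1.trans this, hz.2.trans this⟩
  have h3 : c0 ≤ Cd ^ (n + 1) * mass w p0 y0 s := hc0m.trans (hbig.trans (hind _ le_rfl))
  have h4 : Cd ^ (n + 1) ≤ (16 / s) ^ κ := by
    calc Cd ^ (n + 1) ≤ (2 ^ κ) ^ (n + 1) := pow_le_pow_left₀ (by linarith) hκ.le _
      _ = (2 ^ (n + 1)) ^ κ := by rw [← pow_mul, ← pow_mul, mul_comm]
      _ ≤ (16 / s) ^ κ := by
          apply pow_le_pow_left₀ (by positivity)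
          rw [le_div_iff₀ hs, pow_succ]
          linarith
  have h5 : c0 ≤ (16 / s) ^ κ * mass w p0 y0 s :=
    h3.trans (mul_le_mul_of_nonneg_right h4 hm0)
  calc (1 / 16) ^ κ * c0 * s ^ κ ≤ (1 / 16) ^ κ * ((16 / s) ^ κ * mass w p0 y0 s) * s ^ κ := by
        gcongr
    _ = ((1 / 16) * (16 / s) * s) ^ κ * mass w p0 y0 s := by
        rw [mul_pow, mul_pow]; ring
    _ = mass w p0 y0 s := by
        have : (1 / 16 : ℝ) * (16 / s) * s = 1 := by field_simp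
        rw [this, one_pow, one_mul]

end Pool.Agent.MP_4aaa5f_an
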