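import Pool.Agent.MP_4aaa5f_an.Defs

set_option autoImplicit false

namespace Pool.Agent.MP_4aaa5f_an

open MeasureTheory Set Filter Topology

namespace T09

lemma swap_cont {f : ℝ → ℝ → ℝ} (hf : Continuous (fun z : ℝ × ℝ => f z.1 z.2)) (a b c d : ℝ) :
    ∫ x in a..b, ∫ y in c..d, f x y = ∫ y in c..d, ∫ x in a..b, f x y := by
  apply MeasureTheory.intervalIntegral_intervalIntegral_swap
  exact (hf.continuousOn.integrableOn_compact
    (isCompact_uIcc.prod isCompact_uIcc)).mono_set
    (Set.prod_mono uIoc_subset_uIcc uIoc_subset_uIcc)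

lemma cont_sym {f : ℝ → ℝ → ℝ} (hf : Continuous (fun z : ℝ × ℝ => f z.1 z.2)) (y0 : ℝ) :
    Continuous (fun z : ℝ × ℝ => ∫ t in (-z.2)..z.2, f z.1 (y0 + t)) := by
  have h0 : Continuous (fun q : (ℝ × ℝ) × ℝ => f q.1.1 (y0 + q.2)) :=
    hf.comp ((continuous_fst.comp continuous_fst).prodMk (continuous_const.add continuous_snd))
  have h1 : Continuous (fun z : ℝ × ℝ => ∫ t in (0:ℝ)..z.2, f z.1 (y0 + t)) :=
    intervalIntegral.continuous_parametric_intervalIntegral_of_continuous
      (f := fun z : ℝ × ℝ => fun t : ℝ => f z.1 (y0 + t)) h0 continuous_snd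
  have h2 : Continuous (fun z : ℝ × ℝ => ∫ t in (0:ℝ)..(-z.2), f z.1 (y0 + t)) :=
    intervalIntegral.continuous_parametric_intervalIntegral_of_continuous
      (f := fun z : ℝ × ℝ => fun t : ℝ => f z.1 (y0 + t)) h0 continuous_snd.neg
  have h3 : (fun z : ℝ × ℝ => ∫ t in (-z.2)..z.2, f z.1 (y0 + t)) =
      fun z : ℝ × ℝ => (∫ t in (0:ℝ)..z.2, f z.1 (y0 + t)) - ∫ t in (0:ℝ)..(-z.2), f z.1 (y0 + t) := by
    funext z
    have hc : Continuous (fun t : ℝ => f z.1 (y0 + t)) :=
      hf.comp (continuous_const.prodMk (continuous_const.add continuous_id))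
    rw [intervalIntegral.integral_interval_sub_left (hc.intervalIntegrable _ _)
      (hc.intervalIntegrable _ _)]
  rw [h3]
  exact h1.sub h2

/-- second difference in `y` -/
lemma second_diff {g g1 g2 : ℝ → ℝ} (h1 : ∀ y, HasDerivAt g (g1 y) y)
    (h2 : ∀ y, HasDerivAt g1 (-g2 y) y) (hc : Continuous g2) (y0 τ : ℝ) :
    g (y0 + τ) + g (y0 - τ) - 2 * g y0 = -∫ s in (0:ℝ)..τ, ∫ t in (-s)..s, g2 (y0 + t) := by
  have hD : ∀ s, HasDerivAt (fun s => g (y0 + s) + g (y0 - s)) (g1 (y0 + s) - g1 (y0 - s)) s := by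
    intro s
    have ha := (h1 (y0 + s)).comp_const_add y0 s
    have hb := (h1 (y0 - s)).comp_const_sub y0 s
    exact (ha.add hb).congr_deriv (by ring)
  have hE : ∀ s, ∫ t in (-s)..s, g2 (y0 + t) = -(g1 (y0 + s) - g1 (y0 - s)) := by
    intro s
    have hd : ∀ t ∈ uIcc (-s) s, HasDerivAt (fun t => g1 (y0 + t)) (-g2 (y0 + t)) t := by
      intro t _
      exact (h2 (y0 + t)).comp_const_add y0 t
    have := intervalIntegral.integral_eq_sub_of_hasDerivAt hd
      ((hc.comp (continuous_const.add continuous_id)).neg.intervalIntegrable _ _)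
    rw [intervalIntegral.integral_neg] at this
    simp only [← sub_eq_add_neg] at this
    linarith
  have hcont : Continuous (fun s => g1 (y0 + s) - g1 (y0 - s)) := by
    have : Continuous g1 := continuous_iff_continuousAt.2 fun y => (h2 y).continuousAt
    exact (this.comp (continuous_const.add continuous_id)).sub
      (this.comp (continuous_const.sub continuous_id))
  have h := intervalIntegral.integral_eq_sub_of_hasDerivAt (a := (0:ℝ)) (b := τ)
    (fun s _ => hD s) (hcont.intervalIntegrable _ _)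
  simp only [hE]
  rw [intervalIntegral.integral_neg, h]
  simp
  ring

/-- integration by parts against the sine -/
lemma by_parts {g g1 g2 : ℝ → ℝ} (h1 : ∀ p, HasDerivAt g (g1 p) p)
    (h2 : ∀ p, HasDerivAt g1 (g2 p) p) (hc : Continuous g2) {p1 p2 : ℝ} (hp : p1 < p2) :
    ∫ p in p1..p2, Real.sin (Real.pi / (p2 - p1) * (p - p1)) * g2 p =
      Real.pi / (p2 - p1) * (g p1 + g p2) -
        (Real.pi / (p2 - p1)) ^ 2 *
          ∫ p in p1..p2, Real.sin (Real.pi / (p2 - p1) * (p - p1)) * g p := by
  set k : ℝ := Real.pi / (p2 - p1) with hk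
  have hr : p2 - p1 ≠ 0 := by linarith [sub_pos.2 hp] |> fun h => h
  have hkr : k * (p2 - p1) = Real.pi := by
    rw [hk]; field_simp
  have hs : ∀ p, HasDerivAt (fun p => Real.sin (k * (p - p1))) (k * Real.cos (k * (p - p1))) p := by
    intro p
    have h0 : HasDerivAt (fun p => k * (p - p1)) k p := by
      simpa using ((hasDerivAt_id p).sub_const p1).const_mul k
    exact h0.sin.congr_deriv (by ring)
  have hco : ∀ p, HasDerivAt (fun p => k * Real.cos (k * (p - p1)))
      (-(k ^ 2 * Real.sin (k * (p - p1)))) p := by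
    intro p
    have h0 : HasDerivAt (fun p => k * (p - p1)) k p := by
      simpa using ((hasDerivAt_id p).sub_const p1).const_mul k
    exact (h0.cos.const_mul k).congr_deriv (by ring)
  have hg : Continuous g := continuous_iff_continuousAt.2 fun y => (h1 y).continuousAt
  have hg1 : Continuous g1 := continuous_iff_continuousAt.2 fun y => (h2 y).continuousAt
  have hcos : Continuous (fun p => k * Real.cos (k * (p - p1))) := by fun_prop
  have hsin : Continuous (fun p => -(k ^ 2 * Real.sin (k * (p - p1)))) := by fun_prop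
  have e1 := intervalIntegral.integral_mul_deriv_eq_deriv_mul (a := p1) (b := p2)
    (fun p _ => hs p) (fun p _ => h2 p) (hcos.intervalIntegrable _ _) (hc.intervalIntegrable _ _)
  have e2 := intervalIntegral.integral_mul_deriv_eq_deriv_mul (a := p1) (b := p2)
    (fun p _ => hco p) (fun p _ => h1 p) (hsin.intervalIntegrable _ _) (hg1.intervalIntegrable _ _)
  rw [e1, e2, hkr]
  simp only [sub_self, mul_zero, Real.sin_zero, Real.cos_zero, Real.sin_pi, Real.cos_pi, zero_mul]
  have e3 : ∫ p in p1..p2, -(k ^ 2 * Real.sin (k * (p - p1))) * g p =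
      -(k ^ 2 * ∫ p in p1..p2, Real.sin (k * (p - p1)) * g p) := by
    rw [← intervalIntegral.integral_const_mul, ← intervalIntegral.integral_neg]
    congr 1
    funext p
    ring
  rw [e3]
  ring

end T09

/-- [T09] Line lemma: small `∫ w` on a horizontal segment implies small mass of a square around
its midpoint. -/
theorem line_lemma {l R : ℝ} (hl0 : 0 < l) (hl1 : l < 1) {G Gp w Gy φ : ℝ → ℝ → ℝ}
    (hS : Sol l R G Gp w Gy φ) {p1 p2 y0 ε : ℝ} (hp : p1 < p2) (h1 : |p1| ≤ R) (h2 : |p2| ≤ R)
    (hy : |y0| + l * (p2 - p1) / 8 ≤ R) (hε : ∫ p in p1..p2, w p y0 ≤ ε * (p2 - p1)) :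
    mass w ((p1 + p2) / 2) y0 (l * (p2 - p1) / 8) ≤ ε * (p2 - p1) ^ 2 := by
  set r : ℝ := p2 - p1 with hr
  have hr0 : 0 < r := sub_pos.2 hp
  set k : ℝ := Real.pi / r with hk
  set T : ℝ := l * r / 8 with hT
  have hT0 : 0 < T := by positivity
  set σ : ℝ → ℝ := fun p => Real.sin (k * (p - p1)) with hσ
  have hσc : Continuous σ := by
    rw [hσ]; fun_prop
  have hpi := Real.pi_pos
  have hσ0 : ∀ p ∈ Icc p1 p2, 0 ≤ σ p := by
    intro p hpp
    apply Real.sin_nonneg_of_nonneg_of_le_pi
    · exact mul_nonneg (by positivity) (by linarith [hpp.1])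
    · rw [hk, div_mul_eq_mul_div, div_le_iff₀ hr0]
      exact mul_le_mul_of_nonneg_left (by linarith [hpp.2]) hpi.le
  have hσ1 : ∀ p, σ p ≤ 1 := fun p => Real.sin_le_one _
  have habs : ∀ p ∈ Icc p1 p2, |p| ≤ R := by
    intro p hpp
    rw [abs_le] at h1 h2 ⊢
    exact ⟨by linarith [hpp.1], by linarith [hpp.2]⟩
  have hyabs : ∀ t, |t| ≤ T → |y0 + t| ≤ R := by
    intro t ht
    calc |y0 + t| ≤ |y0| + |t| := abs_add_le _ _
      _ ≤ R := by linarith
  have cw := hS.cw
  have cφ := hS.cφ
  have cG := hS.cG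
  have cwp : ∀ y, Continuous (fun p => w p y) := fun y =>
    cw.comp (continuous_id.prodMk continuous_const)
  have cwy : ∀ p, Continuous (fun y => w p y) := fun p =>
    cw.comp (continuous_const.prodMk continuous_id)
  have cφy : ∀ p, Continuous (fun y => φ p y) := fun p =>
    cφ.comp (continuous_const.prodMk continuous_id)
  have cGp : ∀ y, Continuous (fun p => G p y) := fun y =>
    cG.comp (continuous_id.prodMk continuous_const)
  -- the function e
  set e : ℝ → ℝ := fun y => ∫ p in p1..p2, σ p * w p y with he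
  have hec : Continuous e := by
    apply intervalIntegral.continuous_parametric_intervalIntegral_of_continuous'
      (f := fun y p => σ p * w p y)
    exact (hσc.comp continuous_snd).mul (cw.comp (continuous_snd.prodMk continuous_fst))
  have he0 : ∀ t, |t| ≤ T → 0 ≤ e (y0 + t) := by
    intro t ht
    apply intervalIntegral.integral_nonneg hp.le
    intro p hpp
    exact mul_nonneg (hσ0 p hpp) (hS.pos p _ (habs p hpp) (hyabs t ht)).le
  have hee : ∀ y, e y = k * (G p1 y + G p2 y) - k ^ 2 * ∫ p in p1..p2, σ p * G p y := by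
    intro y
    exact T09.by_parts (fun p => hS.dG p y) (fun p => hS.dGp p y) (cwp y) hp
  -- I
  set I : ℝ → ℝ := fun s => ∫ t in (-s)..s, e (y0 + t) with hI
  have cey : Continuous (fun t => e (y0 + t)) := hec.comp (continuous_const.add continuous_id)
  have hI0 : ∀ s, 0 ≤ s → s ≤ T → 0 ≤ I s := by
    intro s hs0 hs
    apply intervalIntegral.integral_nonneg (by linarith)
    intro t ht
    exact he0 t (abs_le.2 ⟨by linarith [ht.1], by linarith [ht.2]⟩)
  have hImono : ∀ s, 0 ≤ s → s ≤ T → I s ≤ I T := by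
    intro s hs0 hs
    apply intervalIntegral.integral_mono_interval (by linarith) (by linarith) hs
    · refine (ae_restrict_iff' measurableSet_Ioc).2 (Eventually.of_forall ?_)
      intro t ht
      exact he0 t (abs_le.2 ⟨by linarith [ht.1], by linarith [ht.2]⟩)
    · exact cey.intervalIntegrable _ _
  have cI : Continuous I := by
    have := T09.cont_sym (f := fun _ y => e y) (hec.comp continuous_snd) y0
    exact this.comp ((continuous_const (y := (0:ℝ))).prodMk continuous_id)
  -- D and W
  set D : ℝ → ℝ → ℝ := fun p τ => ∫ s in (0:ℝ)..τ, ∫ t in (-s)..s, φ p (y0 + t) with hD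
  have hGd : ∀ p τ, G p (y0 + τ) + G p (y0 - τ) - 2 * G p y0 = - D p τ := by
    intro p τ
    exact T09.second_diff (fun y => hS.dGy p y) (fun y => hS.dGyy p y) (cφy p) y0 τ
  have cDs := T09.cont_sym cφ y0
  have cWs := T09.cont_sym cw y0
  have hDc : ∀ τ, Continuous (fun p => D p τ) := by
    intro τ
    exact intervalIntegral.continuous_parametric_intervalIntegral_of_continuous'
      (f := fun p s => ∫ t in (-s)..s, φ p (y0 + t)) cDs 0 τ
  have hWc : ∀ τ, Continuous (fun p => ∫ s in (0:ℝ)..τ, ∫ t in (-s)..s, w p (y0 + t)) := by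
    intro τ
    exact intervalIntegral.continuous_parametric_intervalIntegral_of_continuous'
      (f := fun p s => ∫ t in (-s)..s, w p (y0 + t)) cWs 0 τ
  have hD0 : ∀ p ∈ Icc p1 p2, ∀ τ, 0 ≤ τ → τ ≤ T → 0 ≤ D p τ := by
    intro p hpp τ hτ0 hτ
    apply intervalIntegral.integral_nonneg hτ0
    intro s hs
    apply intervalIntegral.integral_nonneg (by linarith [hs.1])
    intro t ht
    have htT : |t| ≤ T := abs_le.2 ⟨by linarith [ht.1, hs.2], by linarith [ht.2, hs.2]⟩
    have h3 := hS.lo p (y0 + t) (habs p hpp) (hyabs t htT)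
    have h4 := hS.pos p (y0 + t) (habs p hpp) (hyabs t htT)
    nlinarith
  have hDW : ∀ p ∈ Icc p1 p2, ∀ τ, 0 ≤ τ → τ ≤ T →
      D p τ ≤ l⁻¹ * ∫ s in (0:ℝ)..τ, ∫ t in (-s)..s, w p (y0 + t) := by
    intro p hpp τ hτ0 hτ
    rw [← intervalIntegral.integral_const_mul]
    apply intervalIntegral.integral_mono_on hτ0
    · exact (cDs.comp (continuous_const.prodMk continuous_id)).intervalIntegrable _ _
    · exact ((cWs.comp (continuous_const.prodMk continuous_id)).const_mul _).intervalIntegrable _ _
    intro s hs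
    rw [← intervalIntegral.integral_const_mul]
    apply intervalIntegral.integral_mono_on (by linarith [hs.1])
    · exact ((cφy p).comp (continuous_const.add continuous_id)).intervalIntegrable _ _
    · exact (((cwy p).comp (continuous_const.add continuous_id)).const_mul _).intervalIntegrable _ _
    intro t ht
    have htT : |t| ≤ T := abs_le.2 ⟨by linarith [ht.1, hs.2], by linarith [ht.2, hs.2]⟩
    exact hS.hi p (y0 + t) (habs p hpp) (hyabs t htT)
  -- Fubini
  have hFub : ∀ τ, ∫ p in p1..p2, σ p * ∫ s in (0:ℝ)..τ, ∫ t in (-s)..s, w p (y0 + t) =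
      ∫ s in (0:ℝ)..τ, I s := by
    intro τ
    have e1 : ∫ p in p1..p2, σ p * ∫ s in (0:ℝ)..τ, ∫ t in (-s)..s, w p (y0 + t) =
        ∫ p in p1..p2, ∫ s in (0:ℝ)..τ, σ p * ∫ t in (-s)..s, w p (y0 + t) := by
      congr 1
      funext p
      rw [intervalIntegral.integral_const_mul]
    rw [e1, T09.swap_cont (f := fun p s => σ p * ∫ t in (-s)..s, w p (y0 + t))
      ((hσc.comp continuous_fst).mul cWs)]
    congr 1
    funext s
    have e2 : ∫ p in p1..p2, σ p * ∫ t in (-s)..s, w p (y0 + t) =
        ∫ p in p1..p2, ∫ t in (-s)..s, σ p * w p (y0 + t) := by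
      congr 1
      funext p
      rw [intervalIntegral.integral_const_mul]
    rw [e2, T09.swap_cont (f := fun p t => σ p * w p (y0 + t))
      ((hσc.comp continuous_fst).mul
        (cw.comp (continuous_fst.prodMk (continuous_const.add continuous_snd))))]
  -- main inequality
  have hkey : ∀ τ, 0 ≤ τ → τ ≤ T → e (y0 + τ) + e (y0 - τ) ≤
      2 * e y0 + k ^ 2 * l⁻¹ * (T * I T) := by
    intro τ hτ0 hτ
    have e1 : e (y0 + τ) + e (y0 - τ) - 2 * e y0 = -(k * (D p1 τ + D p2 τ)) +
        k ^ 2 * ∫ p in p1..p2, σ p * D p τ := by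
      rw [hee, hee, hee]
      have e2 : ∫ p in p1..p2, σ p * D p τ = -((∫ p in p1..p2, σ p * G p (y0 + τ)) +
          (∫ p in p1..p2, σ p * G p (y0 - τ)) - 2 * ∫ p in p1..p2, σ p * G p y0) := by
        have i1 : IntervalIntegrable (fun p => σ p * G p (y0 + τ)) volume p1 p2 :=
          (hσc.mul (cGp _)).intervalIntegrable _ _
        have i2 : IntervalIntegrable (fun p => σ p * G p (y0 - τ)) volume p1 p2 :=
          (hσc.mul (cGp _)).intervalIntegrable _ _
        have i3 : IntervalIntegrable (fun p => 2 * (σ p * G p y0)) volume p1 p2 :=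
          ((hσc.mul (cGp _)).const_mul _).intervalIntegrable _ _
        rw [← intervalIntegral.integral_const_mul, ← intervalIntegral.integral_add i1 i2,
          ← intervalIntegral.integral_sub (i1.add i2) i3, ← intervalIntegral.integral_neg]
        congr 1
        funext p
        have := hGd p τ
        have h5 : D p τ = -(G p (y0 + τ) + G p (y0 - τ) - 2 * G p y0) := by rw [this]; ring
        rw [h5]
        ring
      rw [e2]
      have h6 := hGd p1 τ
      have h7 := hGd p2 τ
      linear_combination k * h6 + k * h7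
    have e3 : ∫ p in p1..p2, σ p * D p τ ≤ l⁻¹ * ∫ s in (0:ℝ)..τ, I s := by
      rw [← hFub τ, ← intervalIntegral.integral_const_mul]
      apply intervalIntegral.integral_mono_on hp.le
      · exact (hσc.mul (hDc τ)).intervalIntegrable _ _
      · exact ((hσc.mul (hWc τ)).const_mul _).intervalIntegrable _ _
      intro p hpp
      have := mul_le_mul_of_nonneg_left (hDW p hpp τ hτ0 hτ) (hσ0 p hpp)
      linarith
    have e4 : ∫ s in (0:ℝ)..τ, I s ≤ T * I T := by
      have : ∫ s in (0:ℝ)..τ, I s ≤ ∫ s in (0:ℝ)..τ, I T := by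
        apply intervalIntegral.integral_mono_on hτ0 (cI.intervalIntegrable _ _)
          (continuous_const.intervalIntegrable _ _)
        intro s hs
        exact hImono s hs.1 (hs.2.trans hτ)
      rw [intervalIntegral.integral_const, sub_zero, smul_eq_mul] at this
      exact this.trans (mul_le_mul_of_nonneg_right hτ (hI0 T hT0.le le_rfl))
    have e5 : 0 ≤ k * (D p1 τ + D p2 τ) := by
      have := hD0 p1 ⟨le_rfl, hp.le⟩ τ hτ0 hτ
      have := hD0 p2 ⟨hp.le, le_rfl⟩ τ hτ0 hτ
      positivity
    have e6 : k ^ 2 * ∫ p in p1..p2, σ p * D p τ ≤ k ^ 2 * (l⁻¹ * (T * I T)) := by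
      apply mul_le_mul_of_nonneg_left _ (sq_nonneg _)
      exact e3.trans (mul_le_mul_of_nonneg_left e4 (by positivity))
    linarith
  have hIT : I T ≤ T * (2 * e y0 + k ^ 2 * l⁻¹ * (T * I T)) := by
    have e1 : I T = ∫ τ in (0:ℝ)..T, (e (y0 + τ) + e (y0 - τ)) := by
      have e2 : I T = (∫ t in (0:ℝ)..T, e (y0 + t)) - ∫ t in (0:ℝ)..(-T), e (y0 + t) := by
        rw [intervalIntegral.integral_interval_sub_left (cey.intervalIntegrable _ _)
          (cey.intervalIntegrable _ _)]
      have e3 : ∫ t in (0:ℝ)..T, e (y0 - t) = - ∫ t in (0:ℝ)..(-T), e (y0 + t) := by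
        have := intervalIntegral.integral_comp_neg (a := (0:ℝ)) (b := T) (fun t => e (y0 + t))
        simp only [← sub_eq_add_neg, neg_zero] at this
        rw [this, intervalIntegral.integral_symm]
      have i1 : IntervalIntegrable (fun τ => e (y0 + τ)) volume 0 T := cey.intervalIntegrable _ _
      have i2 : IntervalIntegrable (fun τ => e (y0 - τ)) volume 0 T :=
        (hec.comp (continuous_const.sub continuous_id)).intervalIntegrable _ _
      rw [intervalIntegral.integral_add i1 i2, e3, e2]
      ring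
    calc I T = ∫ τ in (0:ℝ)..T, (e (y0 + τ) + e (y0 - τ)) := e1
      _ ≤ ∫ τ in (0:ℝ)..T, (2 * e y0 + k ^ 2 * l⁻¹ * (T * I T)) := by
        apply intervalIntegral.integral_mono_on hT0.le
        · exact (cey.add (hec.comp (continuous_const.sub continuous_id))).intervalIntegrable _ _
        · exact continuous_const.intervalIntegrable _ _
        · intro τ hτ
          exact hkey τ hτ.1 hτ.2
      _ = T * (2 * e y0 + k ^ 2 * l⁻¹ * (T * I T)) := by
        rw [intervalIntegral.integral_const, sub_zero, smul_eq_mul]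
  have hk2 : k ^ 2 * l⁻¹ * T * T ≤ 1 / 5 := by
    have e1 : k ^ 2 * l⁻¹ * T * T = Real.pi ^ 2 * l / 64 := by
      rw [hk, hT]
      field_simp
      ring
    rw [e1]
    have hpi2 : Real.pi < 3.15 := Real.pi_lt_d2
    have : Real.pi ^ 2 < 10 := by nlinarith
    nlinarith
  have hIT2 : I T ≤ 5 / 2 * (e y0 * T) := by
    have hI00 := hI0 T hT0.le le_rfl
    have : T * (k ^ 2 * l⁻¹ * (T * I T)) ≤ 1 / 5 * I T := by
      have := mul_le_mul_of_nonneg_right hk2 hI00
      linarith
    nlinarith
  have hey0 : e y0 ≤ ε * r := by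
    refine le_trans ?_ hε
    apply intervalIntegral.integral_mono_on hp.le
    · exact (hσc.mul (cwp _)).intervalIntegrable _ _
    · exact (cwp _).intervalIntegrable _ _
    intro p hpp
    have := hS.pos p y0 (habs p hpp) (by simpa using hyabs 0 (by simpa using hT0.le))
    have := hσ1 p
    nlinarith
  have hey00 : 0 ≤ e y0 := by simpa using he0 0 (by simpa using hT0.le)
  have hε0 : 0 ≤ ε := by
    have : 0 ≤ ε * r := hey00.trans hey0
    exact nonneg_of_mul_nonneg_left this hr0
  -- sigma lower bound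
  have hTr : T ≤ r / 8 := by
    rw [hT]
    have : l * r ≤ 1 * r := mul_le_mul_of_nonneg_right hl1.le hr0.le
    linarith
  have hσlow : ∀ p ∈ Icc ((p1 + p2) / 2 - T) ((p1 + p2) / 2 + T), 9 / 10 ≤ σ p := by
    intro p hpp
    have e1 : σ p = Real.cos (k * (p - (p1 + p2) / 2)) := by
      have : k * (p - p1) = k * (p - (p1 + p2) / 2) + Real.pi / 2 := by
        have : k * r = Real.pi := by rw [hk]; field_simp
        have h8 : p - p1 = p - (p1 + p2) / 2 + r / 2 := by rw [hr]; ring
        rw [h8, mul_add]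
        linarith
      rw [hσ]
      simp only
      rw [this, Real.sin_add_pi_div_two]
    rw [e1]
    have e2 := Real.one_sub_sq_div_two_le_cos (x := k * (p - (p1 + p2) / 2))
    have e3 : |p - (p1 + p2) / 2| ≤ r / 8 := abs_le.2 ⟨by linarith [hpp.1], by linarith [hpp.2]⟩
    have e4 : (k * (p - (p1 + p2) / 2)) ^ 2 ≤ (Real.pi / 8) ^ 2 := by
      rw [mul_pow, ← sq_abs (p - (p1 + p2) / 2)]
      have : k ^ 2 * |p - (p1 + p2) / 2| ^ 2 ≤ k ^ 2 * (r / 8) ^ 2 := by
        apply mul_le_mul_of_nonneg_left _ (sq_nonneg _)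
        exact pow_le_pow_left₀ (abs_nonneg _) e3 2
      refine this.trans (le_of_eq ?_)
      rw [hk]
      field_simp
    have hpi2 : Real.pi < 3.15 := Real.pi_lt_d2
    have : Real.pi ^ 2 < 10 := by nlinarith
    nlinarith
  -- mass
  have hmidIcc : ∀ p ∈ Icc ((p1 + p2) / 2 - T) ((p1 + p2) / 2 + T), p ∈ Icc p1 p2 := by
    intro p hpp
    have : r = p2 - p1 := hr
    exact ⟨by linarith [hpp.1], by linarith [hpp.2]⟩
  have hmass : mass w ((p1 + p2) / 2) y0 T ≤ 10 / 9 * I T := by
    have e1 : I T = ∫ y in (y0 - T)..(y0 + T), e y := by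
      have := intervalIntegral.integral_comp_add_left (a := -T) (b := T) (fun y => e y) y0
      rw [hI]
      simp only
      rw [this]
      rfl
    rw [e1, mass, ← intervalIntegral.integral_const_mul]
    apply intervalIntegral.integral_mono_on (by linarith)
    · apply Continuous.intervalIntegrable
      exact intervalIntegral.continuous_parametric_intervalIntegral_of_continuous'
        (f := fun y p => w p y) (cw.comp (continuous_snd.prodMk continuous_fst)) _ _
    · exact (hec.const_mul _).intervalIntegrable _ _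
    intro y hyy
    have hyR : |y| ≤ R := by
      have := hyabs (y - y0) (abs_le.2 ⟨by linarith [hyy.1], by linarith [hyy.2]⟩)
      simpa using this
    calc ∫ p in ((p1 + p2) / 2 - T)..((p1 + p2) / 2 + T), w p y
        ≤ ∫ p in ((p1 + p2) / 2 - T)..((p1 + p2) / 2 + T), 10 / 9 * (σ p * w p y) := by
          apply intervalIntegral.integral_mono_on (by linarith)
          · exact (cwp _).intervalIntegrable _ _
          · exact ((hσc.mul (cwp _)).const_mul _).intervalIntegrable _ _
          intro p hpp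
          have := hσlow p hpp
          have := hS.pos p y (habs p (hmidIcc p hpp)) hyR
          nlinarith
      _ = 10 / 9 * ∫ p in ((p1 + p2) / 2 - T)..((p1 + p2) / 2 + T), σ p * w p y := by
          rw [intervalIntegral.integral_const_mul]
      _ ≤ 10 / 9 * e y := by
          apply mul_le_mul_of_nonneg_left _ (by norm_num)
          have ha := hmidIcc ((p1 + p2) / 2 - T) ⟨le_rfl, by linarith⟩
          have hb := hmidIcc ((p1 + p2) / 2 + T) ⟨by linarith, le_rfl⟩
          apply intervalIntegral.integral_mono_interval ha.1 (by linarith) hb.2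
          · refine (ae_restrict_iff' measurableSet_Ioc).2 (Eventually.of_forall ?_)
            intro p hpp
            exact mul_nonneg (hσ0 p ⟨hpp.1.le, hpp.2⟩)
              (hS.pos p y (habs p ⟨hpp.1.le, hpp.2⟩) hyR).le
          · exact (hσc.mul (cwp _)).intervalIntegrable _ _
  calc mass w ((p1 + p2) / 2) y0 T ≤ 10 / 9 * I T := hmass
    _ ≤ 10 / 9 * (5 / 2 * (ε * r * T)) := by
      apply mul_le_mul_of_nonneg_left _ (by norm_num)
      refine hIT2.trans ?_
      apply mul_le_mul_of_nonneg_left _ (by norm_num)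
      exact mul_le_mul_of_nonneg_right hey0 hT0.le
    _ ≤ 10 / 9 * (5 / 2 * (ε * r * (r / 8))) := by
      have : 0 ≤ ε * r := by positivity
      gcongr
    _ ≤ ε * r ^ 2 := by
      have : 0 ≤ ε * r ^ 2 := by positivity
      nlinarith

end Pool.Agent.MP_4aaa5f_an
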