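import Pool.Agent.MP_4aaa5f_an.Defs

set_option autoImplicit false

namespace Pool.Agent.MP_4aaa5f_an

open MeasureTheory Set Filter Topology

section
variable {A ε : ℝ} {F : ℝ → ℝ}

/-- [T10] The one-dimensional toolkit. -/
theorem Bad.mem {p : ℝ} (h : Bad A ε F p) : p ∈ Ioo (-A) A := by
  obtain ⟨a, b, h1, h2, h3, h4, _⟩ := h
  exact ⟨by linarith, by linarith⟩

theorem Bad.mono {ε' p : ℝ} (hε : ε ≤ ε') (h : Bad A ε F p) : Bad A ε' F p := by
  obtain ⟨a, b, h1, h2, h3, h4, h5⟩ := h
  refine ⟨a, b, h1, h2, h3, h4, h5.trans_le ?_⟩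
  have h6 : 0 ≤ (p - a) * (b - p) := mul_nonneg (by linarith) (by linarith)
  nlinarith

theorem badSet_mono {ε' : ℝ} {G : ℝ → ℝ → ℝ} (hε : ε ≤ ε') : BadSet A ε G ⊆ BadSet A ε' G :=
  fun _ hz => Bad.mono hε hz

theorem Bad.exists_lt {p : ℝ} (h : Bad A ε F p) : ∃ ε' < ε, Bad A ε' F p := by
  obtain ⟨a, b, h1, h2, h3, h4, h5⟩ := h
  have h6 : 0 < (p - a) * (b - p) := mul_pos (by linarith) (by linarith)
  set D := ε * (p - a) * (b - p) / 2 - (interp F a b p - F p) with hD
  have hD0 : 0 < D := by rw [hD]; linarith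
  refine ⟨ε - D / ((p - a) * (b - p)), by
    have : 0 < D / ((p - a) * (b - p)) := div_pos hD0 h6
    linarith, a, b, h1, h2, h3, h4, ?_⟩
  have h7 : (ε - D / ((p - a) * (b - p))) * (p - a) * (b - p) / 2
      = ε * (p - a) * (b - p) / 2 - D / 2 := by
    have e1 : (p - a) ≠ 0 := by intro h; rw [h] at h6; simp at h6
    have e2 : (b - p) ≠ 0 := by intro h; rw [h] at h6; simp at h6
    field_simp
  rw [h7]
  linarith

theorem isOpen_bad (hF : Continuous F) : IsOpen {p | Bad A ε F p} := by
  have h : {p | Bad A ε F p} = ⋃ (a : ℝ) (b : ℝ) (_ : -A ≤ a) (_ : b ≤ A),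
      {p | a < p ∧ p < b ∧ interp F a b p - F p < ε * (p - a) * (b - p) / 2} := by
    ext p
    simp only [mem_ofPred_eq, mem_iUnion, exists_prop]
    constructor
    · rintro ⟨a, b, h1, h2, h3, h4, h5⟩
      exact ⟨a, b, h1, h4, h2, h3, h5⟩
    · rintro ⟨a, b, h1, h4, h2, h3, h5⟩
      exact ⟨a, b, h1, h2, h3, h4, h5⟩
  rw [h]
  refine isOpen_iUnion fun a => isOpen_iUnion fun b => isOpen_iUnion fun _ => isOpen_iUnion fun _ => ?_
  have h1 : IsOpen {p : ℝ | a < p} := isOpen_lt continuous_const continuous_id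
  have h2 : IsOpen {p : ℝ | p < b} := isOpen_lt continuous_id continuous_const
  have h3 : IsOpen {p : ℝ | interp F a b p - F p < ε * (p - a) * (b - p) / 2} := by
    refine isOpen_lt ?_ ?_
    · unfold interp
      fun_prop
    · fun_prop
  exact h1.inter (h2.inter h3)

theorem isOpen_badSet {G : ℝ → ℝ → ℝ} (hG : Continuous fun z : ℝ × ℝ => G z.1 z.2) :
    IsOpen (BadSet A ε G) := by
  have h : BadSet A ε G = ⋃ (a : ℝ) (b : ℝ) (_ : -A ≤ a) (_ : b ≤ A),
      {z : ℝ × ℝ | a < z.1 ∧ z.1 < b ∧ interp (fun p => G p z.2) a b z.1 - G z.1 z.2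
        < ε * (z.1 - a) * (b - z.1) / 2} := by
    ext z
    simp only [BadSet, Bad, mem_ofPred_eq, mem_iUnion, exists_prop]
    constructor
    · rintro ⟨a, b, h1, h2, h3, h4, h5⟩
      exact ⟨a, b, h1, h4, h2, h3, h5⟩
    · rintro ⟨a, b, h1, h4, h2, h3, h5⟩
      exact ⟨a, b, h1, h2, h3, h4, h5⟩
  rw [h]
  refine isOpen_iUnion fun a => isOpen_iUnion fun b => isOpen_iUnion fun _ => isOpen_iUnion fun _ => ?_
  have ha : Continuous fun z : ℝ × ℝ => G a z.2 :=
    hG.comp (continuous_const.prodMk continuous_snd)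
  have hb : Continuous fun z : ℝ × ℝ => G b z.2 :=
    hG.comp (continuous_const.prodMk continuous_snd)
  have h1 : IsOpen {z : ℝ × ℝ | a < z.1} := isOpen_lt continuous_const continuous_fst
  have h2 : IsOpen {z : ℝ × ℝ | z.1 < b} := isOpen_lt continuous_fst continuous_const
  have h3 : IsOpen {z : ℝ × ℝ | interp (fun p => G p z.2) a b z.1 - G z.1 z.2
        < ε * (z.1 - a) * (b - z.1) / 2} := by
    refine isOpen_lt ?_ ?_
    · unfold interp
      fun_prop
    · fun_prop
  exact h1.inter (h2.inter h3)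

/-- compact subsets of the bad set are bad at a slightly smaller level -/
theorem bad_compact (hF : Continuous F) {K : Set ℝ} (hK : IsCompact K)
    (hKb : ∀ p ∈ K, Bad A ε F p) : ∃ ε' < ε, ∀ p ∈ K, Bad A ε' F p := by
  have hdir : Directed (· ⊆ ·) fun e : Iio ε => {p | Bad A (e : ℝ) F p} := by
    intro e e'
    refine ⟨⟨max e e', show max (e : ℝ) e' < ε from max_lt e.2 e'.2⟩, fun p hp => Bad.mono (le_max_left _ _) hp,
      fun p hp => Bad.mono (le_max_right _ _) hp⟩
  have : Nonempty (Iio ε) := ⟨⟨ε - 1, by simp⟩⟩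
  obtain ⟨e, he⟩ := hK.elim_directed_cover (fun e : Iio ε => {p | Bad A (e : ℝ) F p})
    (fun e => isOpen_bad hF) (fun p hp => by
      obtain ⟨e, he, hb⟩ := (hKb p hp).exists_lt
      exact mem_iUnion.2 ⟨⟨e, he⟩, hb⟩) hdir
  exact ⟨e, e.2, fun p hp => he hp⟩

theorem comp_mem {a b : ℝ} (h : IsComp {p | Bad A ε F p} a b) : -A ≤ a ∧ b ≤ A := by
  have hsub : Ioo a b ⊆ Ioo (-A) A := fun p hp => Bad.mem (h.sub hp)
  exact (Ioo_subset_Ioo_iff h.lt).1 hsub

/-- Over a component the chord (plus parabola) supports `F` on the whole window. -/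
theorem comp_support (hF : Continuous F) {a b : ℝ} (h : IsComp {p | Bad A ε F p} a b) :
    ∀ x ∈ Icc (-A) A, interp F a b x - F x ≤ ε * (x - a) * (b - x) / 2 := by
  obtain ⟨hA, hB⟩ := comp_mem h
  have hab := h.lt
  have hab0 : 0 < b - a := by linarith
  have hleft := h.left
  have hright := h.right
  simp only [mem_ofPred_eq, Bad, not_exists, not_and, not_lt] at hleft hright
  -- `g ≥ 0` outside of `(a,b)`
  have hout : ∀ x ∈ Icc (-A) A, (x ≤ a ∨ b ≤ x) →
      interp F a b x - F x ≤ ε * (x - a) * (b - x) / 2 := by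
    intro x hx hxab
    rcases hxab with hxa | hxb
    · rcases eq_or_lt_of_le hxa with rfl | hxa
      · have : interp F x b x = F x := by
          unfold interp
          field_simp
          ring
        rw [this]
        simp
      · have h1 := hleft x b hx.1 hxa hab hB
        unfold interp at h1 ⊢
        have hbx : 0 < b - x := by linarith
        have e1 : ((b - a) * F x + (a - x) * F b) / (b - x) - F a
            = ((b - a) * F x + (a - x) * F b - (b - x) * F a) / (b - x) := by
          field_simp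
        have e2 : ((b - x) * F a + (x - a) * F b) / (b - a) - F x
            = -((b - a) * F x + (a - x) * F b - (b - x) * F a) / (b - a) := by
          field_simp
          ring
        rw [e1, le_div_iff₀ hbx] at h1
        rw [e2, div_le_iff₀ hab0]
        nlinarith
    · rcases eq_or_lt_of_le hxb with rfl | hxb
      · have : interp F a b b = F b := by
          unfold interp
          field_simp
          ring
        rw [this]
        simp
      · have h1 := hright a x hA hab hxb hx.2
        unfold interp at h1 ⊢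
        have hbx : 0 < x - a := by linarith
        have e1 : ((x - b) * F a + (b - a) * F x) / (x - a) - F b
            = ((x - b) * F a + (b - a) * F x - (x - a) * F b) / (x - a) := by
          field_simp
        have e2 : ((b - x) * F a + (x - a) * F b) / (b - a) - F x
            = -((x - b) * F a + (b - a) * F x - (x - a) * F b) / (b - a) := by
          field_simp
          ring
        rw [e1, le_div_iff₀ hbx] at h1
        rw [e2, div_le_iff₀ hab0]
        nlinarith
  -- the function `g`
  set g : ℝ → ℝ := fun x => F x - interp F a b x + ε * (x - a) * (b - x) / 2 with hg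
  have hgc : Continuous g := by
    rw [hg]
    unfold interp
    fun_prop
  obtain ⟨p1, hp1, hmin⟩ := isCompact_Icc.exists_isMinOn (nonempty_Icc.2 hab.le)
    (hgc.continuousOn (s := Icc a b))
  have hp1g : 0 ≤ g p1 := by
    by_contra hneg
    push Not at hneg
    have hp1' : p1 ∈ Ioo a b := by
      refine ⟨lt_of_le_of_ne hp1.1 ?_, lt_of_le_of_ne hp1.2 ?_⟩
      · rintro rfl
        have := hout a ⟨hA, by linarith⟩ (Or.inl le_rfl)
        simp only [hg] at hneg
        linarith
      · rintro rfl
        have := hout p1 ⟨by linarith, hB⟩ (Or.inr le_rfl)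
        simp only [hg] at hneg
        linarith
    obtain ⟨a', b', h1, h2, h3, h4, h5⟩ := h.sub hp1'
    have hge : ∀ x ∈ Icc (-A) A, g p1 ≤ g x := by
      intro x hx
      by_cases hxab : x ∈ Icc a b
      · exact hmin hxab
      · have := hout x hx (by
          simp only [mem_Icc, not_and_or, not_le] at hxab
          rcases hxab with h | h
          · exact Or.inl h.le
          · exact Or.inr h.le)
        simp only [hg] at hneg ⊢
        linarith
    have k1 := hge a' ⟨h1, by linarith⟩
    have k2 := hge b' ⟨by linarith, h4⟩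
    have hba : 0 < b' - a' := by linarith
    -- the interpolation of `g` is at least `g p1`
    have k3 : g p1 ≤ interp g a' b' p1 := by
      unfold interp
      rw [le_div_iff₀ hba]
      nlinarith [mul_nonneg (show 0 ≤ b' - p1 by linarith) (sub_nonneg.2 k1),
        mul_nonneg (show 0 ≤ p1 - a' by linarith) (sub_nonneg.2 k2)]
    have k4 : interp g a' b' p1 - g p1
        = interp F a' b' p1 - F p1 - ε * (p1 - a') * (b' - p1) / 2 := by
      simp only [hg, interp]
      field_simp
      ring
    linarith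
  intro x hx
  by_cases hxab : x ∈ Icc a b
  · have := hmin hxab
    have h2 : g p1 ≤ g x := this
    simp only [hg] at h2 hp1g
    linarith
  · exact hout x hx (by
      simp only [mem_Icc, not_and_or, not_le] at hxab
      rcases hxab with h | h
      · exact Or.inl h.le
      · exact Or.inr h.le)

theorem deriv_nonneg_right {φ : ℝ → ℝ} {a b d : ℝ} (hab : a < b) (hd : HasDerivAt φ d a)
    (h0 : φ a = 0) (hp : ∀ x ∈ Ioo a b, 0 ≤ φ x) : 0 ≤ d := by
  have h1 := (hasDerivAt_iff_tendsto_slope.1 hd).mono_left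
    (nhdsWithin_mono a (fun x (hx : x ∈ Ioi a) => ne_of_gt hx))
  refine ge_of_tendsto h1 ?_
  filter_upwards [Ioo_mem_nhdsGT hab] with x hx
  rw [slope_def_field, h0, sub_zero]
  exact div_nonneg (hp x hx) (by linarith [hx.1])

theorem deriv_nonpos_left {φ : ℝ → ℝ} {c b d : ℝ} (hcb : c < b) (hd : HasDerivAt φ d b)
    (h0 : φ b = 0) (hp : ∀ x ∈ Ioo c b, 0 ≤ φ x) : d ≤ 0 := by
  have h1 := (hasDerivAt_iff_tendsto_slope.1 hd).mono_left
    (nhdsWithin_mono b (fun x (hx : x ∈ Iio b) => ne_of_lt hx))
  refine le_of_tendsto h1 ?_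
  filter_upwards [Ioo_mem_nhdsLT hcb] with x hx
  rw [slope_def_field, h0, sub_zero]
  exact div_nonpos_of_nonneg_of_nonpos (hp x hx) (by linarith [hx.2])

theorem hasDerivAt_gap {a b d x : ℝ} (hab : a < b) (hd : HasDerivAt F d x) :
    HasDerivAt (fun x => F x - interp F a b x + ε * (x - a) * (b - x) / 2)
      (d - (F b - F a) / (b - a) + ε * (b + a - 2 * x) / 2) x := by
  have hab0 : b - a ≠ 0 := by
    intro h
    linarith
  have h1 : HasDerivAt (fun x => interp F a b x) ((F b - F a) / (b - a)) x := by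
    unfold interp
    have e1 : HasDerivAt (fun x => (b - x) * F a + (x - a) * F b) (F b - F a) x := by
      have := ((((hasDerivAt_id x).const_sub b).mul_const (F a)).add
        (((hasDerivAt_id x).sub_const a).mul_const (F b)))
      exact this.congr_deriv (by ring)
    exact e1.div_const (b - a)
  have h2 : HasDerivAt (fun x => ε * (x - a) * (b - x) / 2) (ε * (b + a - 2 * x) / 2) x := by
    have := (((((hasDerivAt_id x).sub_const a).const_mul ε).mul
      ((hasDerivAt_id x).const_sub b)).div_const 2)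
    exact this.congr_deriv (by simp only [id]; ring)
  exact (hd.sub h1).add h2

theorem interp_left {a b : ℝ} (hab : a < b) : interp F a b a = F a := by
  have : b - a ≠ 0 := by intro h; linarith
  unfold interp
  field_simp
  ring

theorem interp_right {a b : ℝ} (hab : a < b) : interp F a b b = F b := by
  have : b - a ≠ 0 := by intro h; linarith
  unfold interp
  field_simp
  ring

theorem comp_slope_left (hF : Continuous F) {a b d : ℝ} (h : IsComp {p | Bad A ε F p} a b)
    (hd : HasDerivAt F d a) : (F b - F a) / (b - a) - ε * (b - a) / 2 ≤ d := by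
  obtain ⟨hA, hB⟩ := comp_mem h
  have h1 := deriv_nonneg_right h.lt (hasDerivAt_gap (ε := ε) h.lt hd)
    (by simp [interp_left h.lt]) (fun x hx => by
      have := comp_support hF h x ⟨by linarith [hx.1], by linarith [hx.2]⟩
      linarith)
  linarith

theorem comp_slope_right (hF : Continuous F) {a b d : ℝ} (h : IsComp {p | Bad A ε F p} a b)
    (hd : HasDerivAt F d b) : d ≤ (F b - F a) / (b - a) + ε * (b - a) / 2 := by
  obtain ⟨hA, hB⟩ := comp_mem h
  have h1 := deriv_nonpos_left h.lt (hasDerivAt_gap (ε := ε) h.lt hd)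
    (by simp [interp_right h.lt]) (fun x hx => by
      have := comp_support hF h x ⟨by linarith [hx.1], by linarith [hx.2]⟩
      linarith)
  linarith

theorem comp_tangent_left (hF : Continuous F) {a b d : ℝ} (h : IsComp {p | Bad A ε F p} a b)
    (ha : -A < a) (hd : HasDerivAt F d a) : d = (F b - F a) / (b - a) - ε * (b - a) / 2 := by
  refine le_antisymm ?_ (comp_slope_left hF h hd)
  obtain ⟨hA, hB⟩ := comp_mem h
  have h1 := deriv_nonpos_left ha (hasDerivAt_gap (ε := ε) h.lt hd)
    (by simp [interp_left h.lt]) (fun x hx => by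
      have := comp_support hF h x ⟨by linarith [hx.1], by linarith [hx.2, h.lt]⟩
      linarith)
  linarith

theorem comp_tangent_right (hF : Continuous F) {a b d : ℝ} (h : IsComp {p | Bad A ε F p} a b)
    (hb : b < A) (hd : HasDerivAt F d b) : d = (F b - F a) / (b - a) + ε * (b - a) / 2 := by
  refine le_antisymm (comp_slope_right hF h hd) ?_
  obtain ⟨hA, hB⟩ := comp_mem h
  have h1 := deriv_nonneg_right hb (hasDerivAt_gap (ε := ε) h.lt hd)
    (by simp [interp_right h.lt]) (fun x hx => by
      have := comp_support hF h x ⟨by linarith [hx.1, h.lt], by linarith [hx.2]⟩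
      linarith)
  linarith

theorem second_ge {F' : ℝ → ℝ} {w0 p : ℝ} (hF : ∀ x, HasDerivAt F (F' x) x)
    (hF' : HasDerivAt F' w0 p) (hp : p ∈ Ioo (-A) A) (hb : ¬ Bad A ε F p) : ε ≤ w0 := by
  by_contra hlt
  push Not at hlt
  simp only [Bad, not_exists, not_and, not_lt] at hb
  -- second difference
  set ψ : ℝ → ℝ := fun h => F (p + h) + F (p - h) - 2 * F p - ε * h ^ 2 with hψ
  have hψd : ∀ h, HasDerivAt ψ (F' (p + h) - F' (p - h) - 2 * ε * h) h := by
    intro h
    have e1 : HasDerivAt (fun h => F (p + h)) (F' (p + h)) h := by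
      exact (hF (p + h)).comp_const_add p h
    have e2 : HasDerivAt (fun h => F (p - h)) (-F' (p - h)) h := by
      exact (hF (p - h)).comp_const_sub p h
    have e3 : HasDerivAt (fun h : ℝ => ε * h ^ 2) (ε * (2 * h)) h := by
      have := (hasDerivAt_pow 2 h).const_mul ε
      simpa using this
    have := ((e1.add e2).sub_const (2 * F p)).sub e3
    exact this.congr_deriv (by ring)
  have hψ0 : ψ 0 = 0 := by
    simp only [hψ]
    simp
    ring
  -- the derivative of `ψ` is negative near `0`
  have hder : HasDerivAt (fun h => F' (p + h) - F' (p - h) - 2 * ε * h) (2 * w0 - 2 * ε) 0 := by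
    have e1 : HasDerivAt (fun h => F' (p + h)) w0 0 := by
      exact HasDerivAt.comp_const_add p 0 (by simpa using hF')
    have e2 : HasDerivAt (fun h => F' (p - h)) (-w0) 0 := by
      exact HasDerivAt.comp_const_sub p 0 (by simpa using hF')
    have e3 : HasDerivAt (fun h : ℝ => 2 * ε * h) (2 * ε) 0 := by
      have := (hasDerivAt_id (0 : ℝ)).const_mul (2 * ε)
      simpa using this
    have := (e1.sub e2).sub e3
    exact this.congr_deriv (by ring)
  have hneg : ∀ᶠ h in 𝓝[>] (0 : ℝ), F' (p + h) - F' (p - h) - 2 * ε * h < 0 := by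
    have h1 := (hasDerivAt_iff_tendsto_slope.1 hder).mono_left
      (nhdsWithin_mono 0 (fun x (hx : x ∈ Ioi (0 : ℝ)) => ne_of_gt hx))
    have h2 := h1.eventually (gt_mem_nhds (show 2 * w0 - 2 * ε < 0 by linarith))
    filter_upwards [h2, self_mem_nhdsWithin] with h hh hpos
    have hpos' : (0 : ℝ) < h := hpos
    rw [slope_def_field] at hh
    simp only [add_zero, sub_zero, mul_zero, sub_self] at hh
    by_contra hcon
    push Not at hcon
    exact absurd hh (not_lt.2 (div_nonneg hcon hpos'.le))
  obtain ⟨δ, hδ, hδ2⟩ := mem_nhdsGT_iff_exists_Ioo_subset.1 hneg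
  have hδ0 : (0 : ℝ) < δ := hδ
  -- choose a small `h`
  set h0 := min (δ / 2) (min ((p + A) / 2) ((A - p) / 2)) with hh0
  have hpA : 0 < p + A := by linarith [hp.1]
  have hAp : 0 < A - p := by linarith [hp.2]
  have h0pos : 0 < h0 := by
    rw [hh0]
    exact lt_min (by linarith) (lt_min (by linarith) (by linarith))
  have h0δ : h0 < δ := lt_of_le_of_lt (min_le_left _ _) (by linarith)
  have h0a : h0 ≤ (p + A) / 2 := (min_le_right _ _).trans (min_le_left _ _)
  have h0b : h0 ≤ (A - p) / 2 := (min_le_right _ _).trans (min_le_right _ _)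
  have hanti : ψ h0 < ψ 0 := by
    have hsa : StrictAntiOn ψ (Icc 0 h0) := by
      refine strictAntiOn_of_deriv_neg (convex_Icc 0 h0)
        (fun x _ => (hψd x).continuousAt.continuousWithinAt) ?_
      intro x hx
      rw [interior_Icc] at hx
      rw [(hψd x).deriv]
      exact hδ2 ⟨hx.1, by linarith [hx.2]⟩
    exact hsa (left_mem_Icc.2 h0pos.le) (right_mem_Icc.2 h0pos.le) h0pos
  have hge := hb (p - h0) (p + h0) (by linarith) (by linarith) (by linarith) (by linarith)
  have e : interp F (p - h0) (p + h0) p = (F (p - h0) + F (p + h0)) / 2 := by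
    unfold interp
    have : p + h0 - (p - h0) = 2 * h0 := by ring
    rw [this]
    field_simp
    ring
  rw [e] at hge
  rw [hψ0] at hanti
  simp only [hψ] at hanti
  nlinarith

/-- a function with nonnegative second derivative on `[a,b]` lies below its chord -/
theorem le_interp {F' w : ℝ → ℝ} {a b p : ℝ} (hF : ∀ x ∈ Icc a b, HasDerivAt F (F' x) x)
    (hF' : ∀ x ∈ Icc a b, HasDerivAt F' (w x) x) (hw : ∀ x ∈ Icc a b, 0 ≤ w x) (hp : p ∈ Ioo a b) :
    F p ≤ interp F a b p := by
  obtain ⟨hap, hpb⟩ := hp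
  obtain ⟨x1, hx1, e1⟩ := exists_hasDerivAt_eq_slope F F' hap
    (fun x hx => (hF x ⟨hx.1, hx.2.trans hpb.le⟩).continuousAt.continuousWithinAt)
    (fun x hx => hF x ⟨hx.1.le, hx.2.le.trans hpb.le⟩)
  obtain ⟨x2, hx2, e2⟩ := exists_hasDerivAt_eq_slope F F' hpb
    (fun x hx => (hF x ⟨hap.le.trans hx.1, hx.2⟩).continuousAt.continuousWithinAt)
    (fun x hx => hF x ⟨hap.le.trans hx.1.le, hx.2.le⟩)
  have h12 : x1 < x2 := hx1.2.trans hx2.1
  obtain ⟨x3, hx3, e3⟩ := exists_hasDerivAt_eq_slope F' w h12
    (fun x hx => (hF' x ⟨hx1.1.le.trans hx.1, hx.2.trans hx2.2.le⟩).continuousAt.continuousWithinAt)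
    (fun x hx => hF' x ⟨hx1.1.le.trans hx.1.le, hx.2.le.trans hx2.2.le⟩)
  have h3 := hw x3 ⟨hx1.1.le.trans hx3.1.le, hx3.2.le.trans hx2.2.le⟩
  have h4 : F' x1 ≤ F' x2 := by
    rw [e3] at h3
    have h5 : 0 < x2 - x1 := by linarith
    by_contra hcon
    push Not at hcon
    have : (F' x2 - F' x1) / (x2 - x1) < 0 := div_neg_of_neg_of_pos (by linarith) h5
    linarith
  rw [e1, e2] at h4
  have p1 : 0 < p - a := by linarith
  have p2 : 0 < b - p := by linarith
  rw [div_le_div_iff₀ p1 p2] at h4
  unfold interp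
  rw [le_div_iff₀ (by linarith)]
  nlinarith

end

end Pool.Agent.MP_4aaa5f_an
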