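import Pool.Agent.MP_4aaa5f_an.Defs

set_option autoImplicit false

namespace Pool.Agent.MP_4aaa5f_an

open MeasureTheory Set Filter Topology

section
variable {A : ℝ} {V : Set ℝ}

/-! auxiliary facts -/

theorem T11.lft_greatest {V : Set ℝ} (hV : IsOpen V) {m p : ℝ} (hm : m ≤ p) (hmV : m ∉ V) :
    IsGreatest {q | q ≤ p ∧ q ∉ V} (lft V p) := by
  have hcl : IsClosed {q | q ≤ p ∧ q ∉ V} := isClosed_Iic.inter hV.isClosed_compl
  exact hcl.isGreatest_csSup ⟨m, hm, hmV⟩ ⟨p, fun q hq => hq.1⟩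

theorem T11.rgt_least {V : Set ℝ} (hV : IsOpen V) {m p : ℝ} (hm : p ≤ m) (hmV : m ∉ V) :
    IsLeast {q | p ≤ q ∧ q ∉ V} (rgt V p) := by
  have hcl : IsClosed {q | p ≤ q ∧ q ∉ V} := isClosed_Ici.inter hV.isClosed_compl
  exact hcl.isLeast_csInf ⟨m, hm, hmV⟩ ⟨p, fun q hq => hq.1⟩

/-- [T11] Components and measurability. -/
theorem isComp_lft_rgt (hV : IsOpen V) (hb : V ⊆ Ioo (-A) A) {p : ℝ} (hp : p ∈ V) :
    IsComp V (lft V p) (rgt V p) ∧ p ∈ Ioo (lft V p) (rgt V p) := by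
  have hpA := hb hp
  have h1 := T11.lft_greatest hV (m := -A) (p := p) hpA.1.le
    (fun h => lt_irrefl _ (hb h).1)
  have h2 := T11.rgt_least hV (m := A) (p := p) hpA.2.le
    (fun h => lt_irrefl _ (hb h).2)
  have hL : lft V p < p := lt_of_le_of_ne h1.1.1 (fun h => h1.1.2 (by rw [h]; exact hp))
  have hR : p < rgt V p := lt_of_le_of_ne h2.1.1 (fun h => h2.1.2 (by rw [← h]; exact hp))
  refine ⟨⟨hL.trans hR, ?_, h1.1.2, h2.1.2⟩, hL, hR⟩
  intro q hq
  by_contra hqV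
  rcases le_total q p with h | h
  · exact absurd (h1.2 ⟨h, hqV⟩) (not_le.2 hq.1)
  · exact absurd (h2.2 ⟨h, hqV⟩) (not_le.2 hq.2)

theorem IsComp.lft_eq {a b p : ℝ} (h : IsComp V a b) (hp : p ∈ Ioo a b) : lft V p = a := by
  refine IsGreatest.csSup_eq (a := a) ⟨⟨hp.1.le, h.left⟩, ?_⟩
  intro q hq
  by_contra hlt
  exact hq.2 (h.sub ⟨not_le.1 hlt, hq.1.trans_lt hp.2⟩)

theorem IsComp.rgt_eq {a b p : ℝ} (h : IsComp V a b) (hp : p ∈ Ioo a b) : rgt V p = b := by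
  refine IsLeast.csInf_eq (a := b) ⟨⟨hp.2.le, h.right⟩, ?_⟩
  intro q hq
  by_contra hlt
  exact hq.2 (h.sub ⟨hp.1.trans_le hq.1, not_le.1 hlt⟩)

/-- countable decomposition into components -/
theorem exists_comps (hV : IsOpen V) (hb : V ⊆ Ioo (-A) A) :
    ∃ S : Set (ℝ × ℝ), S.Countable ∧ (∀ I ∈ S, IsComp V I.1 I.2) ∧
      S.PairwiseDisjoint (fun I => Ioo I.1 I.2) ∧ V = ⋃ I ∈ S, Ioo I.1 I.2 := by
  have hdisj : {I : ℝ × ℝ | IsComp V I.1 I.2}.PairwiseDisjoint (fun I => Ioo I.1 I.2) := by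
    intro I hI J hJ hne
    refine Set.disjoint_left.2 ?_
    intro p hpI hpJ
    apply hne
    have h1 := IsComp.lft_eq (V := V) hI hpI
    have h2 := IsComp.lft_eq (V := V) hJ hpJ
    have h3 := IsComp.rgt_eq (V := V) hI hpI
    have h4 := IsComp.rgt_eq (V := V) hJ hpJ
    exact Prod.ext (h1.symm.trans h2) (h3.symm.trans h4)
  refine ⟨{I | IsComp V I.1 I.2}, ?_, fun I hI => hI, hdisj, ?_⟩
  · exact hdisj.countable_of_isOpen (fun I _ => isOpen_Ioo) (fun I hI => nonempty_Ioo.2 hI.lt)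
  · apply Subset.antisymm
    · intro p hp
      obtain ⟨h1, h2⟩ := isComp_lft_rgt hV hb hp
      exact mem_biUnion (x := (lft V p, rgt V p)) h1 h2
    · exact iUnion₂_subset (fun I hI => hI.sub)

/-- integrals over a bounded open set are sums over components -/
theorem T11.hasSum_comps {F : ℝ → ℝ} (hF : IntegrableOn F V) {S : Set (ℝ × ℝ)}
    (hS : S.Countable) (hd : S.PairwiseDisjoint (fun I => Ioo I.1 I.2))
    (hU : V = ⋃ I ∈ S, Ioo I.1 I.2) :
    HasSum (fun I : S => ∫ p in Ioo I.1.1 I.1.2, F p) (∫ p in V, F p) := by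
  have : Countable S := hS.to_subtype
  have hU' : V = ⋃ I : S, Ioo I.1.1 I.1.2 := by rw [hU, biUnion_eq_iUnion]
  have hd' : Pairwise (Function.onFun Disjoint (fun I : S => Ioo I.1.1 I.1.2)) := by
    intro I J hne
    exact hd I.2 J.2 (fun h => hne (Subtype.ext h))
  have := hasSum_integral_iUnion (μ := volume) (f := F) (s := fun I : S => Ioo I.1.1 I.1.2)
    (fun I => measurableSet_Ioo) hd' (by rw [← hU']; exact hF)
  rw [← hU'] at this
  exact this

theorem setIntegral_le_of_comp (hV : IsOpen V) (hb : V ⊆ Ioo (-A) A) {F H : ℝ → ℝ}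
    (hF : IntegrableOn F V) (hH : IntegrableOn H V)
    (h : ∀ a b, IsComp V a b → ∫ p in Ioo a b, F p ≤ ∫ p in Ioo a b, H p) :
    ∫ p in V, F p ≤ ∫ p in V, H p := by
  obtain ⟨S, hS, hc, hd, hU⟩ := exists_comps hV hb
  have h1 : HasSum (fun I : S => ∫ p in Ioo I.1.1 I.1.2, F p) (∫ p in V, F p) :=
    T11.hasSum_comps hF hS hd hU
  have h2 : HasSum (fun I : S => ∫ p in Ioo I.1.1 I.1.2, H p) (∫ p in V, H p) :=
    T11.hasSum_comps hH hS hd hU
  refine hasSum_le ?_ h1 h2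
  intro I
  exact h I.1.1 I.1.2 (hc I.1 I.2)

theorem setIntegral_eq_of_comp (hV : IsOpen V) (hb : V ⊆ Ioo (-A) A) {F H : ℝ → ℝ}
    (hF : IntegrableOn F V) (hH : IntegrableOn H V)
    (h : ∀ a b, IsComp V a b → ∫ p in Ioo a b, F p = ∫ p in Ioo a b, H p) :
    ∫ p in V, F p = ∫ p in V, H p :=
  le_antisymm (setIntegral_le_of_comp hV hb hF hH (fun a b hab => (h a b hab).le))
    (setIntegral_le_of_comp hV hb hH hF (fun a b hab => (h a b hab).ge))

theorem T11.isOpen_slice {V : Set (ℝ × ℝ)} (hV : IsOpen V) (y : ℝ) :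
    IsOpen {p | (p, y) ∈ V} :=
  hV.preimage (Continuous.prodMk_left y)

theorem measurable_lft {V : Set (ℝ × ℝ)} (hV : IsOpen V) (hb : V ⊆ Ioo (-A) A ×ˢ univ) :
    Measurable (fun z : ℝ × ℝ => lft {p | (p, z.2) ∈ V} z.1) := by
  apply measurable_of_Ici
  intro c
  apply IsClosed.measurableSet
  have hK : IsClosed {w : (ℝ × ℝ) × Icc (0:ℝ) 1 |
      (c + w.2.1 * (w.1.1 - c), w.1.2) ∈ Vᶜ} := by
    apply hV.isClosed_compl.preimage
    fun_prop
  have hK2 := (isClosedMap_fst_of_compactSpace (X := ℝ × ℝ) (Y := Icc (0:ℝ) 1)) _ hK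
  have hK3 : IsClosed {z : ℝ × ℝ | c ≤ z.1} := isClosed_le continuous_const continuous_fst
  convert hK3.inter hK2 using 1
  ext z
  have hg := T11.lft_greatest (T11.isOpen_slice hV z.2) (m := min (-A) z.1) (p := z.1)
    (min_le_right _ _) (fun h => absurd (hb h).1.1 (not_lt.2 (min_le_left _ _)))
  simp only [mem_preimage, mem_Ici, mem_inter_iff, mem_ofPred_eq, mem_image, mem_compl_iff]
  constructor
  · intro hc
    have hcz : c ≤ z.1 := hc.trans hg.1.1
    refine ⟨hcz, ?_⟩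
    set L := lft {p | (p, z.2) ∈ V} z.1 with hL
    rcases eq_or_lt_of_le hcz with h | h
    · refine ⟨(z, ⟨0, by simp⟩), ?_, rfl⟩
      have hLc : L = c := le_antisymm (hg.1.1.trans_eq h.symm) hc
      have := hg.1.2
      simp only [mem_ofPred_eq] at this
      simp only [zero_mul, add_zero]
      rwa [← hLc]
    · refine ⟨(z, ⟨(L - c) / (z.1 - c), ?_, ?_⟩), ?_, rfl⟩
      · exact div_nonneg (sub_nonneg.2 hc) (sub_nonneg.2 hcz)
      · rw [div_le_one (sub_pos.2 h)]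
        have := hg.1.1
        linarith
      · have hne : z.1 - c ≠ 0 := (sub_pos.2 h).ne'
        have := hg.1.2
        simp only [mem_ofPred_eq] at this
        have he : c + (L - c) / (z.1 - c) * (z.1 - c) = L := by
          rw [div_mul_cancel₀ _ hne]; ring
        simp only [he]
        exact this
  · rintro ⟨hcz, w, hw, rfl⟩
    obtain ⟨h0, h1⟩ := w.2.2
    have hmem : c + w.2.1 * (w.1.1 - c) ∈ {q | q ≤ w.1.1 ∧ q ∉ {p | (p, w.1.2) ∈ V}} := by
      refine ⟨?_, hw⟩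
      nlinarith
    have := hg.2 hmem
    have h2 : 0 ≤ w.2.1 * (w.1.1 - c) := mul_nonneg h0 (sub_nonneg.2 hcz)
    linarith

theorem measurable_rgt {V : Set (ℝ × ℝ)} (hV : IsOpen V) (hb : V ⊆ Ioo (-A) A ×ˢ univ) :
    Measurable (fun z : ℝ × ℝ => rgt {p | (p, z.2) ∈ V} z.1) := by
  apply measurable_of_Iic
  intro c
  apply IsClosed.measurableSet
  have hK : IsClosed {w : (ℝ × ℝ) × Icc (0:ℝ) 1 |
      (c - w.2.1 * (c - w.1.1), w.1.2) ∈ Vᶜ} := by
    apply hV.isClosed_compl.preimage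
    fun_prop
  have hK2 := (isClosedMap_fst_of_compactSpace (X := ℝ × ℝ) (Y := Icc (0:ℝ) 1)) _ hK
  have hK3 : IsClosed {z : ℝ × ℝ | z.1 ≤ c} := isClosed_le continuous_fst continuous_const
  convert hK3.inter hK2 using 1
  ext z
  have hg := T11.rgt_least (T11.isOpen_slice hV z.2) (m := max A z.1) (p := z.1)
    (le_max_right _ _) (fun h => absurd (hb h).1.2 (not_lt.2 (le_max_left _ _)))
  simp only [mem_preimage, mem_Iic, mem_inter_iff, mem_ofPred_eq, mem_image, mem_compl_iff]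
  constructor
  · intro hc
    have hcz : z.1 ≤ c := hg.1.1.trans hc
    refine ⟨hcz, ?_⟩
    set L := rgt {p | (p, z.2) ∈ V} z.1 with hL
    rcases eq_or_lt_of_le hcz with h | h
    · refine ⟨(z, ⟨0, by simp⟩), ?_, rfl⟩
      have hLc : L = c := le_antisymm hc (h.symm.trans_le hg.1.1)
      have := hg.1.2
      simp only [mem_ofPred_eq] at this
      simp only [zero_mul, sub_zero]
      rwa [← hLc]
    · refine ⟨(z, ⟨(c - L) / (c - z.1), ?_, ?_⟩), ?_, rfl⟩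
      · exact div_nonneg (sub_nonneg.2 hc) (sub_nonneg.2 hcz)
      · rw [div_le_one (sub_pos.2 h)]
        have := hg.1.1
        linarith
      · have hne : c - z.1 ≠ 0 := (sub_pos.2 h).ne'
        have := hg.1.2
        simp only [mem_ofPred_eq] at this
        have he : c - (c - L) / (c - z.1) * (c - z.1) = L := by
          rw [div_mul_cancel₀ _ hne]; ring
        simp only [he]
        exact this
  · rintro ⟨hcz, w, hw, rfl⟩
    obtain ⟨h0, h1⟩ := w.2.2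
    have hmem : c - w.2.1 * (c - w.1.1) ∈ {q | w.1.1 ≤ q ∧ q ∉ {p | (p, w.1.2) ∈ V}} := by
      refine ⟨?_, hw⟩
      nlinarith
    have := hg.2 hmem
    have h2 : 0 ≤ w.2.1 * (c - w.1.1) := mul_nonneg h0 (sub_nonneg.2 hcz)
    linarith

theorem measurable_hat2 {V : Set (ℝ × ℝ)} (hV : IsOpen V) (hb : V ⊆ Ioo (-A) A ×ˢ univ)
    {F : ℝ → ℝ → ℝ} (hF : Continuous fun z : ℝ × ℝ => F z.1 z.2) : Measurable (hat2 V F) := by
  have hl := measurable_lft hV hb
  have hr := measurable_rgt hV hb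
  have h1 : Measurable (fun z : ℝ × ℝ => F (lft {p | (p, z.2) ∈ V} z.1) z.2) :=
    hF.measurable.comp (hl.prodMk measurable_snd)
  have h2 : Measurable (fun z : ℝ × ℝ => F (rgt {p | (p, z.2) ∈ V} z.1) z.2) :=
    hF.measurable.comp (hr.prodMk measurable_snd)
  have : hat2 V F = fun z : ℝ × ℝ =>
      ((rgt {p | (p, z.2) ∈ V} z.1 - z.1) * F (lft {p | (p, z.2) ∈ V} z.1) z.2 +
        (z.1 - lft {p | (p, z.2) ∈ V} z.1) * F (rgt {p | (p, z.2) ∈ V} z.1) z.2) /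
        (rgt {p | (p, z.2) ∈ V} z.1 - lft {p | (p, z.2) ∈ V} z.1) := by
    funext z
    rfl
  rw [this]
  exact (((hr.sub measurable_fst).mul h1).add ((measurable_fst.sub hl).mul h2)).div (hr.sub hl)

theorem T11.ends_mem (hV : IsOpen V) (hb : V ⊆ Ioo (-A) A) {p : ℝ} (hp : p ∈ V) :
    lft V p ∈ Icc (-A) A ∧ rgt V p ∈ Icc (-A) A := by
  have hpA := hb hp
  have h1 := T11.lft_greatest hV (m := -A) (p := p) hpA.1.le
    (fun h => lt_irrefl _ (hb h).1)
  have h2 := T11.rgt_least hV (m := A) (p := p) hpA.2.le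
    (fun h => lt_irrefl _ (hb h).2)
  have hA1 : -A ≤ lft V p := h1.2 ⟨hpA.1.le, fun h => lt_irrefl _ (hb h).1⟩
  have hA2 : rgt V p ≤ A := h2.2 ⟨hpA.2.le, fun h => lt_irrefl _ (hb h).2⟩
  exact ⟨⟨hA1, h1.1.1.trans hpA.2.le⟩, ⟨hpA.1.le.trans h2.1.1, hA2⟩⟩

/-- `hat` is an average of values at points of `[-A,A]` -/
theorem abs_hat_le (hV : IsOpen V) (hb : V ⊆ Ioo (-A) A) {F : ℝ → ℝ} {M p : ℝ}
    (hM : ∀ x ∈ Icc (-A) A, |F x| ≤ M) (hp : p ∈ V) : |hat V F p| ≤ M := by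
  obtain ⟨hc, hL, hR⟩ := isComp_lft_rgt hV hb hp
  obtain ⟨hl, hr⟩ := T11.ends_mem hV hb hp
  have h1 := abs_le.1 (hM _ hl)
  have h2 := abs_le.1 (hM _ hr)
  have hpos : 0 < rgt V p - lft V p := sub_pos.2 hc.lt
  unfold hat interp
  rw [abs_le]
  constructor
  · rw [le_div_iff₀ hpos]
    nlinarith [mul_nonneg (sub_nonneg.2 hR.le) (by linarith [h1.1] : 0 ≤ F (lft V p) + M),
      mul_nonneg (sub_nonneg.2 hL.le) (by linarith [h2.1] : 0 ≤ F (rgt V p) + M)]
  · rw [div_le_iff₀ hpos]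
    nlinarith [mul_nonneg (sub_nonneg.2 hR.le) (by linarith [h1.2] : 0 ≤ M - F (lft V p)),
      mul_nonneg (sub_nonneg.2 hL.le) (by linarith [h2.2] : 0 ≤ M - F (rgt V p))]

theorem hat_mono (hV : IsOpen V) (hb : V ⊆ Ioo (-A) A) {F H : ℝ → ℝ} {p : ℝ} (hp : p ∈ V)
    (hl : F (lft V p) ≤ H (lft V p)) (hr : F (rgt V p) ≤ H (rgt V p)) : hat V F p ≤ hat V H p := by
  obtain ⟨hc, hL, hR⟩ := isComp_lft_rgt hV hb hp
  have hpos : 0 < rgt V p - lft V p := sub_pos.2 hc.lt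
  unfold hat interp
  apply div_le_div_of_nonneg_right _ hpos.le
  exact add_le_add (mul_le_mul_of_nonneg_left hl (sub_nonneg.2 hR.le))
    (mul_le_mul_of_nonneg_left hr (sub_nonneg.2 hL.le))

theorem setIntegral_slices {V : Set (ℝ × ℝ)} (hV : MeasurableSet V) {F : ℝ × ℝ → ℝ}
    (hF : IntegrableOn F V) : ∫ z in V, F z = ∫ y, ∫ p in {p | (p, y) ∈ V}, F (p, y) := by
  rw [← integral_indicator hV]
  have hi : Integrable (V.indicator F) (volume : Measure (ℝ × ℝ)) :=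
    (integrable_indicator_iff hV).2 hF
  rw [Measure.volume_eq_prod] at hi ⊢
  rw [integral_prod_symm _ hi]
  congr 1
  funext y
  have hm : MeasurableSet {p | (p, y) ∈ V} := measurable_prodMk_right hV
  rw [← integral_indicator hm]
  rfl

end

end Pool.Agent.MP_4aaa5f_an
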