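import Pool.Agent.MP_4aaa5f_an.Defs
import Pool.Agent.MP_4aaa5f_an.T08
import Pool.Agent.MP_4aaa5f_an.T09
import Pool.Agent.MP_4aaa5f_an.T10

set_option autoImplicit false

namespace Pool.Agent.MP_4aaa5f_an

open MeasureTheory Set Filter Topology

/-- [T12] Components of the bad set are short. -/
theorem short (l : ℝ) (hl0 : 0 < l) (hl1 : l < 1) : ∃ δ : ℝ, 0 < δ ∧ δ ≤ 1 ∧
    ∀ c0 : ℝ, 0 < c0 → ∃ C : ℝ, 0 < C ∧ ∀ G Gp w Gy φ : ℝ → ℝ → ℝ, Sol l 50 G Gp w Gy φ →
      c0 ≤ mass w 0 0 1 → ∀ ε : ℝ, 0 < ε → ∀ y : ℝ, |y| ≤ 4 → ∀ a b : ℝ,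
        IsComp {p | Bad 4 ε (fun p => G p y) p} a b → b - a ≤ C * ε ^ δ := by
  obtain ⟨κ, hκ, c, hc, hlow⟩ := mass_lower l hl0 hl1
  have hκ0 : (0 : ℝ) < κ := by exact_mod_cast hκ
  have hκ1 : (1 : ℝ) ≤ κ := by exact_mod_cast hκ
  refine ⟨1 / κ, by positivity, by rw [div_le_one hκ0]; exact hκ1, fun c0 hc0 => ?_⟩
  refine ⟨8 / l * (64 / (c * c0)) ^ (1 / (κ : ℝ)), by positivity,
    fun G Gp w Gy φ hS hm ε hε y hy a b hI => ?_⟩
  have hcont : Continuous (fun p => G p y) :=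
    hS.cG.comp (Continuous.prodMk continuous_id continuous_const)
  obtain ⟨ha, hb⟩ := comp_mem hI
  have hab := hI.lt
  have s1 := comp_slope_left hcont hI (hS.dG a y)
  have s2 := comp_slope_right hcont hI (hS.dG b y)
  have hcw : Continuous (fun p => w p y) :=
    hS.cw.comp (Continuous.prodMk continuous_id continuous_const)
  have hint : ∫ p in a..b, w p y = Gp b y - Gp a y :=
    intervalIntegral.integral_eq_sub_of_hasDerivAt (fun x _ => hS.dGp x y)
      (hcw.intervalIntegrable _ _)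
  have hle : ∫ p in a..b, w p y ≤ ε * (b - a) := by rw [hint]; linarith
  have hr8 : b - a ≤ 8 := by linarith
  have hr0 : 0 < b - a := sub_pos.2 hab
  have hl8 : l * (b - a) / 8 ≤ 1 := by nlinarith
  have line := line_lemma hl0 hl1 hS hab (by rw [abs_le]; constructor <;> linarith)
    (by rw [abs_le]; constructor <;> linarith) (by linarith) hle
  have low := hlow G Gp w Gy φ hS c0 hc0 hm ((a + b) / 2) y (l * (b - a) / 8)
    (by rw [abs_le]; constructor <;> linarith) hy (by positivity) hl8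
  have h1 : c * c0 * (l * (b - a) / 8) ^ κ ≤ ε * 64 := by
    refine (low.trans line).trans ?_
    exact mul_le_mul_of_nonneg_left (by nlinarith) hε.le
  have h2 : (l * (b - a) / 8) ^ κ ≤ 64 / (c * c0) * ε := by
    rw [div_mul_eq_mul_div, le_div_iff₀ (by positivity)]
    linarith
  have h3 : l * (b - a) / 8 ≤ (64 / (c * c0) * ε) ^ (1 / (κ : ℝ)) := by
    have h4 : ((l * (b - a) / 8) ^ κ) ^ (1 / (κ : ℝ)) ≤ (64 / (c * c0) * ε) ^ (1 / (κ : ℝ)) :=
      Real.rpow_le_rpow (by positivity) h2 (by positivity)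
    have h6 : ((l * (b - a) / 8) ^ κ) ^ (1 / (κ : ℝ)) = l * (b - a) / 8 := by
      rw [one_div, Real.pow_rpow_inv_natCast (by positivity) (by omega)]
    rwa [h6] at h4
  rw [Real.mul_rpow (by positivity) hε.le] at h3
  have h5 : b - a = 8 / l * (l * (b - a) / 8) := by field_simp
  rw [h5, mul_assoc]
  exact mul_le_mul_of_nonneg_left h3 (by positivity)

end Pool.Agent.MP_4aaa5f_an
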