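import Pool.Agent.MP_4aaa5f_an.Defs
import Pool.Agent.MP_4aaa5f_an.T10
import Pool.Agent.MP_4aaa5f_an.T11

set_option autoImplicit false

namespace Pool.Agent.MP_4aaa5f_an

open MeasureTheory Set Filter Topology

namespace T13

theorem slice_measurable {V : Set (ℝ × ℝ)} (hV : MeasurableSet V) (y : ℝ) :
    MeasurableSet {p : ℝ | (p, y) ∈ V} := by
  have : Measurable (fun p : ℝ => ((p, y) : ℝ × ℝ)) := by fun_prop
  exact this hV

theorem slice_integrable {V : Set (ℝ × ℝ)} (hV : MeasurableSet V) {F : ℝ × ℝ → ℝ}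
    (hF : IntegrableOn F V) : Integrable (fun y => ∫ p in {p | (p, y) ∈ V}, F (p, y)) := by
  have h := hF.integrable_indicator hV
  have h2 := Integrable.integral_prod_right (μ := (volume : Measure ℝ)) (ν := (volume : Measure ℝ)) h
  refine h2.congr (ae_of_all _ fun y => ?_)
  simp only
  rw [← integral_indicator (slice_measurable hV y)]
  rfl

theorem cut_C_nonneg {ρ1 ρ2 C : ℝ} {a a1 a2 : ℝ → ℝ} (ha : Cut ρ1 ρ2 C a a1 a2) : 0 ≤ C :=
  (abs_nonneg _).trans (ha.b1 0)

theorem cut_cont {ρ1 ρ2 C : ℝ} {a a1 a2 : ℝ → ℝ} (ha : Cut ρ1 ρ2 C a a1 a2) : Continuous a :=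
  continuous_iff_continuousAt.2 fun t => (ha.d1 t).continuousAt

theorem cut_cont1 {ρ1 ρ2 C : ℝ} {a a1 a2 : ℝ → ℝ} (ha : Cut ρ1 ρ2 C a a1 a2) : Continuous a1 :=
  continuous_iff_continuousAt.2 fun t => (ha.d2 t).continuousAt

/-- `a1 = 0` for `ρ2 < |t|` -/
theorem cut_a1_zero {ρ1 ρ2 C : ℝ} {a a1 a2 : ℝ → ℝ} (ha : Cut ρ1 ρ2 C a a1 a2) {t : ℝ}
    (ht : ρ2 < |t|) : a1 t = 0 := by
  have h1 : a =ᶠ[𝓝 t] fun _ => (0 : ℝ) := by
    have : ∀ᶠ s in 𝓝 t, ρ2 < |s| := continuous_abs.continuousAt.eventually_const_lt ht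
    filter_upwards [this] with s hs
    exact ha.eq_zero s hs.le
  have h2 : HasDerivAt a 0 t := (hasDerivAt_const t (0 : ℝ)).congr_of_eventuallyEq h1
  exact (ha.d1 t).unique h2

theorem cut_a2_zero {ρ1 ρ2 C : ℝ} {a a1 a2 : ℝ → ℝ} (ha : Cut ρ1 ρ2 C a a1 a2) {t : ℝ}
    (ht : ρ2 < |t|) : a2 t = 0 := by
  have h1 : a1 =ᶠ[𝓝 t] fun _ => (0 : ℝ) := by
    have : ∀ᶠ s in 𝓝 t, ρ2 < |s| := continuous_abs.continuousAt.eventually_const_lt ht
    filter_upwards [this] with s hs
    exact cut_a1_zero ha hs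
  have h2 : HasDerivAt a1 0 t := (hasDerivAt_const t (0 : ℝ)).congr_of_eventuallyEq h1
  exact (ha.d2 t).unique h2

theorem comp_int {l : ℝ} {G Gp w Gy φ : ℝ → ℝ → ℝ}
    (hS : Sol l 50 G Gp w Gy φ) {ε r : ℝ} (hε : 0 < ε)
    {ρ1 ρ2 C : ℝ} {a a1 a2 : ℝ → ℝ} (hρ : ρ2 ≤ 3) (ha : Cut ρ1 ρ2 C a a1 a2)
    {y : ℝ} (hy : |y| ≤ 3) {α β : ℝ} (hc : IsComp {p | Bad 4 ε (fun p => G p y) p} α β)
    (hr : β - α ≤ r) :
    |∫ p in Ioo α β, (w p y - ε) * a p| ≤
      ∫ p in Ioo α β, (Ioo (-ρ2) ρ2).indicator (fun _ => C * ε * r ^ 2) p := by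
  have hαβ := hc.lt
  have hC := cut_C_nonneg ha
  have cG : Continuous (fun p => G p y) :=
    continuous_iff_continuousAt.2 fun t => (hS.dG t y).continuousAt
  have cGp : Continuous (fun p => Gp p y) :=
    continuous_iff_continuousAt.2 fun t => (hS.dGp t y).continuousAt
  have cw : Continuous (fun p => w p y) := by
    have := hS.cw
    have h2 : Continuous (fun p : ℝ => ((p, y) : ℝ × ℝ)) := by fun_prop
    exact this.comp h2
  obtain ⟨hα4, hβ4⟩ := comp_mem hc
  have hsup := comp_support cG hc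
  -- the function ψ
  set m := (G β y - G α y) / (β - α) with hm
  set ψ : ℝ → ℝ := fun p => G p y - (G α y + m * (p - α)) + ε * (p - α) * (β - p) / 2 with hψ
  set ψ1 : ℝ → ℝ := fun p => Gp p y - m + ε * (β - p) / 2 - ε * (p - α) / 2 with hψ1
  have hint : ∀ p, interp (fun p => G p y) α β p = G α y + m * (p - α) := by
    intro p
    rw [interp, hm]
    have : β - α ≠ 0 := (sub_pos.2 hαβ).ne'
    field_simp
    ring
  have d1 : ∀ p, HasDerivAt ψ (ψ1 p) p := by
    intro p
    have e1 := (hS.dG p y)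
    have e2 : HasDerivAt (fun p => G α y + m * (p - α)) m p := by
      have := ((hasDerivAt_id p).sub_const α).const_mul m
      have := this.const_add (G α y)
      simpa using this
    have e3 : HasDerivAt (fun p => ε * (p - α) * (β - p) / 2) (ε * (β - p) / 2 - ε * (p - α) / 2) p := by
      have h1 := ((hasDerivAt_id p).sub_const α).const_mul ε
      have h2 := (hasDerivAt_id p).const_sub β
      have h3 := (h1.mul h2).div_const 2
      refine h3.congr_deriv ?_
      simp only [id]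
      ring
    have := (e1.sub e2).add e3
    refine this.congr_deriv ?_
    rw [hψ1]
    ring
  have d2 : ∀ p, HasDerivAt ψ1 (w p y - ε) p := by
    intro p
    have e1 := (hS.dGp p y)
    have e2 := e1.sub_const m
    have e3 : HasDerivAt (fun p => ε * (β - p) / 2) (-ε / 2) p := by
      have h2 := (((hasDerivAt_id p).const_sub β).const_mul ε).div_const 2
      refine h2.congr_deriv ?_
      ring
    have e4 : HasDerivAt (fun p => ε * (p - α) / 2) (ε / 2) p := by
      have h2 := (((hasDerivAt_id p).sub_const α).const_mul ε).div_const 2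
      refine h2.congr_deriv ?_
      ring
    have := (e2.add e3).sub e4
    refine this.congr_deriv ?_
    ring
  have cψ : Continuous ψ := continuous_iff_continuousAt.2 fun t => (d1 t).continuousAt
  have cψ1 : Continuous ψ1 := continuous_iff_continuousAt.2 fun t => (d2 t).continuousAt
  have hψα : ψ α = 0 := by simp [hψ]
  have hψβ : ψ β = 0 := by
    have : β - α ≠ 0 := (sub_pos.2 hαβ).ne'
    simp only [hψ, hm]
    field_simp
    ring
  have hψ0 : ∀ p ∈ Icc α β, 0 ≤ ψ p := by
    intro p hp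
    have := hsup p ⟨hα4.trans hp.1, hp.2.trans hβ4⟩
    rw [hint] at this
    simp only [hψ]
    linarith
  have hψle : ∀ p ∈ Icc α β, ψ p ≤ ε * r ^ 2 / 8 := by
    intro p hp
    have hle : G p y ≤ G α y + m * (p - α) := by
      rcases eq_or_lt_of_le hp.1 with h | h
      · rw [← h]; simp
      rcases eq_or_lt_of_le hp.2 with h' | h'
      · rw [h', hm]
        have : β - α ≠ 0 := (sub_pos.2 hαβ).ne'
        have e : G α y + (G β y - G α y) / (β - α) * (β - α) = G β y := by
          field_simp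
          ring
        rw [e]
      · have := le_interp (F := fun p => G p y) (F' := fun p => Gp p y) (w := fun p => w p y)
          (a := α) (b := β) (p := p) (fun x _ => hS.dG x y) (fun x _ => hS.dGp x y)
          (fun x hx => (hS.pos x y (by
            rw [abs_le]; constructor <;> linarith [hx.1, hx.2]) (by linarith)).le) ⟨h, h'⟩
        rw [hint] at this
        exact this
    have hq : (p - α) * (β - p) ≤ r ^ 2 / 4 := by
      have h1 : (p - α) * (β - p) ≤ (β - α) ^ 2 / 4 := by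
        nlinarith [sq_nonneg ((p - α) - (β - p))]
      have h2 : (β - α) ^ 2 ≤ r ^ 2 := by
        have : 0 ≤ β - α := (sub_pos.2 hαβ).le
        nlinarith
      linarith
    simp only [hψ]
    nlinarith
  -- integration by parts
  have bα : ψ1 α * a α = 0 := by
    rcases eq_or_lt_of_le hα4 with h | h
    · have : a α = 0 := ha.eq_zero α (by
        rw [← h]; rw [abs_neg]; rw [abs_of_pos (by norm_num : (0:ℝ) < 4)]; linarith)
      rw [this, mul_zero]
    · have := comp_tangent_left cG hc h (hS.dG α y)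
      have e : ψ1 α = 0 := by
        simp only [hψ1]
        rw [this, ← hm]
        ring
      rw [e, zero_mul]
  have bβ : ψ1 β * a β = 0 := by
    rcases eq_or_lt_of_le hβ4 with h | h
    · have : a β = 0 := ha.eq_zero β (by
        rw [h]; rw [abs_of_pos (by norm_num : (0:ℝ) < 4)]; linarith)
      rw [this, mul_zero]
    · have := comp_tangent_right cG hc h (hS.dG β y)
      have e : ψ1 β = 0 := by
        simp only [hψ1]
        rw [this, ← hm]
        ring
      rw [e, zero_mul]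
  have ip1 : ∫ p in α..β, (w p y - ε) * a p = -∫ p in α..β, ψ1 p * a1 p := by
    have := intervalIntegral.integral_mul_deriv_eq_deriv_mul (a := α) (b := β) (u := a) (v := ψ1)
      (u' := a1) (v' := fun p => w p y - ε) (fun x _ => ha.d1 x) (fun x _ => d2 x)
      ((cut_cont1 ha).intervalIntegrable _ _) ((cw.sub continuous_const).intervalIntegrable _ _)
    have e1 : ∫ p in α..β, (w p y - ε) * a p = ∫ p in α..β, a p * (w p y - ε) := by
      congr 1; ext p; ring
    have e2 : ∫ p in α..β, ψ1 p * a1 p = ∫ p in α..β, a1 p * ψ1 p := by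
      congr 1; ext p; ring
    rw [e1, e2, this]
    have b1 : a β * ψ1 β = 0 := by rw [mul_comm]; exact bβ
    have b2 : a α * ψ1 α = 0 := by rw [mul_comm]; exact bα
    rw [b1, b2]
    ring
  have ip2 : ∫ p in α..β, ψ1 p * a1 p = -∫ p in α..β, ψ p * a2 p := by
    have := intervalIntegral.integral_mul_deriv_eq_deriv_mul (a := α) (b := β) (u := a1) (v := ψ)
      (u' := a2) (v' := ψ1) (fun x _ => ha.d2 x) (fun x _ => d1 x)
      (ha.c2.intervalIntegrable _ _) (cψ1.intervalIntegrable _ _)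
    have e1 : ∫ p in α..β, ψ1 p * a1 p = ∫ p in α..β, a1 p * ψ1 p := by
      congr 1; ext p; ring
    have e2 : ∫ p in α..β, ψ p * a2 p = ∫ p in α..β, a2 p * ψ p := by
      congr 1; ext p; ring
    rw [e1, e2, this, hψα, hψβ]
    ring
  have key : ∫ p in Ioo α β, (w p y - ε) * a p = ∫ p in Ioo α β, ψ p * a2 p := by
    rw [← integral_Ioc_eq_integral_Ioo, ← intervalIntegral.integral_of_le hαβ.le, ip1, ip2, neg_neg,
      intervalIntegral.integral_of_le hαβ.le, integral_Ioc_eq_integral_Ioo]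
  rw [key, ← Real.norm_eq_abs]
  refine norm_integral_le_of_norm_le ?_ ?_
  · refine Integrable.indicator ?_ measurableSet_Ioo
    exact integrable_const _
  · have hne : ∀ᵐ p ∂(volume.restrict (Ioo α β)), p ≠ ρ2 ∧ p ≠ -ρ2 := by
      have h1 : ∀ᵐ p ∂(volume : Measure ℝ), p ≠ ρ2 := by
        exact (measure_eq_zero_iff_ae_notMem.1 (measure_singleton ρ2)).mono fun x hx => by
          simpa using hx
      have h2 : ∀ᵐ p ∂(volume : Measure ℝ), p ≠ -ρ2 := by
        exact (measure_eq_zero_iff_ae_notMem.1 (measure_singleton (-ρ2))).mono fun x hx => by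
          simpa using hx
      exact ae_restrict_of_ae (h1.and h2)
    filter_upwards [hne, ae_restrict_mem measurableSet_Ioo] with p hp hpI
    have hpc := Ioo_subset_Icc_self hpI
    by_cases hmem : p ∈ Ioo (-ρ2) ρ2
    · rw [indicator_of_mem hmem, Real.norm_eq_abs, abs_mul, abs_of_nonneg (hψ0 p hpc)]
      have h1 := hψle p hpc
      have h2 := ha.b2 p
      have h3 := hψ0 p hpc
      have h4 : 0 ≤ ε * r ^ 2 := by positivity
      calc ψ p * |a2 p| ≤ (ε * r ^ 2 / 8) * C :=
            mul_le_mul h1 h2 (abs_nonneg _) (by positivity)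
        _ ≤ C * ε * r ^ 2 := by nlinarith [mul_nonneg hC h4]
    · rw [indicator_of_notMem hmem]
      have h1 : ρ2 < |p| := by
        by_contra hcon
        rw [not_lt, abs_le] at hcon
        exact hmem ⟨lt_of_le_of_ne hcon.1 (Ne.symm hp.2), lt_of_le_of_ne hcon.2 hp.1⟩
      rw [cut_a2_zero ha h1]
      simp

end T13

open T13

/-- [T13] On the bad set `w` has average `ε`, up to `ε r²`. -/
theorem w_average {l : ℝ} (hl0 : 0 < l) (hl1 : l < 1) {G Gp w Gy φ : ℝ → ℝ → ℝ}
    (hS : Sol l 50 G Gp w Gy φ) {ε r : ℝ} (hε : 0 < ε) (hr : 0 < r)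
    {ρ1 ρ2 C : ℝ} {a a1 a2 : ℝ → ℝ} (hρ : ρ2 ≤ 3) (ha : Cut ρ1 ρ2 C a a1 a2)
    (hshort : ∀ y, |y| ≤ 3 → ∀ α β, IsComp {p | Bad 4 ε (fun p => G p y) p} α β → β - α ≤ r) :
    |∫ z in BadSet 4 ε G, (w z.1 z.2 - ε) * (a z.1 * a z.2)| ≤
      C * ε * r ^ 2 * (volume (BadSet 4 ε G ∩ Sq ρ2)).toReal := by
  have hC := cut_C_nonneg ha
  set V := BadSet 4 ε G with hV
  have oV : IsOpen V := isOpen_badSet hS.cG
  have mV : MeasurableSet V := oV.measurableSet
  have hsl : ∀ y, {p | (p, y) ∈ V} = {p | Bad 4 ε (fun p => G p y) p} := fun y => rfl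
  have hslb : ∀ y, {p | (p, y) ∈ V} ⊆ Ioo (-4) 4 := fun y p hp => Bad.mem hp
  have hslo : ∀ y, IsOpen {p | (p, y) ∈ V} := by
    intro y
    have : Continuous (fun p : ℝ => ((p, y) : ℝ × ℝ)) := by fun_prop
    exact oV.preimage this
  have mSq : MeasurableSet (Sq ρ2) := measurableSet_Ioo.prod measurableSet_Ioo
  have ca := cut_cont ha
  set F : ℝ × ℝ → ℝ := fun z => (w z.1 z.2 - ε) * (a z.1 * a z.2) with hF
  set H : ℝ × ℝ → ℝ := (Sq ρ2).indicator (fun _ => C * ε * r ^ 2) with hH
  have cF : Continuous F := by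
    have := hS.cw
    simp only [hF]
    fun_prop
  have iF : Integrable F := by
    refine cF.integrable_of_hasCompactSupport ?_
    refine HasCompactSupport.intro (K := Icc (-3) 3 ×ˢ Icc (-3) 3)
      (isCompact_Icc.prod isCompact_Icc) ?_
    intro z hz
    have : 3 < |z.1| ∨ 3 < |z.2| := by
      by_contra hcon
      rw [not_or, not_lt, not_lt, abs_le, abs_le] at hcon
      exact hz ⟨hcon.1, hcon.2⟩
    simp only [hF]
    rcases this with h | h
    · rw [ha.eq_zero z.1 (by linarith)]; simp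
    · rw [ha.eq_zero z.2 (by linarith)]; simp
  have volSq : volume (Sq ρ2) < ⊤ := by
    have : Sq ρ2 ⊆ Icc (-ρ2) ρ2 ×ˢ Icc (-ρ2) ρ2 :=
      prod_mono Ioo_subset_Icc_self Ioo_subset_Icc_self
    exact (measure_mono this).trans_lt (isCompact_Icc.prod isCompact_Icc).measure_lt_top
  have iH : Integrable H := by
    rw [hH, integrable_indicator_iff mSq]
    exact integrableOn_const volSq.ne
  have e1 : ∫ z in V, F z = ∫ y, ∫ p in {p | (p, y) ∈ V}, F (p, y) :=
    setIntegral_slices mV iF.integrableOn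
  have e2 : ∫ z in V, H z = ∫ y, ∫ p in {p | (p, y) ∈ V}, H (p, y) :=
    setIntegral_slices mV iH.integrableOn
  have e3 : ∫ z in V, H z = C * ε * r ^ 2 * (volume (V ∩ Sq ρ2)).toReal := by
    rw [hH, setIntegral_indicator mSq, setIntegral_const]
    simp only [smul_eq_mul, Measure.real]
    ring
  rw [← e3, e1, e2, ← Real.norm_eq_abs]
  refine norm_integral_le_of_norm_le (slice_integrable mV iH.integrableOn) (ae_of_all _ fun y => ?_)
  rw [Real.norm_eq_abs]
  by_cases hy : |y| < ρ2
  · -- main case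
    have hyI : y ∈ Ioo (-ρ2) ρ2 := abs_lt.1 hy
    have hy3 : |y| ≤ 3 := by linarith
    have hHy : ∀ p, H (p, y) = (Ioo (-ρ2) ρ2).indicator (fun _ => C * ε * r ^ 2) p := by
      intro p
      by_cases hp : p ∈ Ioo (-ρ2) ρ2
      · rw [indicator_of_mem hp, hH, indicator_of_mem (show (p, y) ∈ Sq ρ2 from ⟨hp, hyI⟩)]
      · rw [indicator_of_notMem hp, hH,
          indicator_of_notMem (show (p, y) ∉ Sq ρ2 from fun h => hp h.1)]
    have cwy : Continuous (fun p => w p y) := by
      have := hS.cw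
      have h2 : Continuous (fun p : ℝ => ((p, y) : ℝ × ℝ)) := by fun_prop
      exact this.comp h2
    have iFy : IntegrableOn (fun p => (w p y - ε) * a p) {p | (p, y) ∈ V} := by
      have : Continuous (fun p => (w p y - ε) * a p) := by fun_prop
      exact (this.integrableOn_Icc (a := -4) (b := 4)).mono_set
        ((hslb y).trans Ioo_subset_Icc_self)
    have iHy : IntegrableOn ((Ioo (-ρ2) ρ2).indicator (fun _ => C * ε * r ^ 2))
        {p | (p, y) ∈ V} := by
      refine Integrable.indicator ?_ measurableSet_Ioo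
      refine integrableOn_const ?_
      exact ((measure_mono (hslb y)).trans_lt (by simp)).ne
    have hcomp : ∀ α β, IsComp {p | (p, y) ∈ V} α β → |∫ p in Ioo α β, (w p y - ε) * a p| ≤
        ∫ p in Ioo α β, (Ioo (-ρ2) ρ2).indicator (fun _ => C * ε * r ^ 2) p := by
      intro α β hc
      rw [hsl] at hc
      exact comp_int hS hε hρ ha hy3 hc (hshort y hy3 α β hc)
    have up : ∫ p in {p | (p, y) ∈ V}, (w p y - ε) * a p ≤
        ∫ p in {p | (p, y) ∈ V}, (Ioo (-ρ2) ρ2).indicator (fun _ => C * ε * r ^ 2) p :=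
      setIntegral_le_of_comp (hslo y) (hslb y) iFy iHy
        (fun α β hc => (le_abs_self _).trans (hcomp α β hc))
    have dn : ∫ p in {p | (p, y) ∈ V}, -((w p y - ε) * a p) ≤
        ∫ p in {p | (p, y) ∈ V}, (Ioo (-ρ2) ρ2).indicator (fun _ => C * ε * r ^ 2) p :=
      setIntegral_le_of_comp (hslo y) (hslb y) iFy.neg iHy
        (fun α β hc => by
          rw [integral_neg]
          exact (neg_le_abs _).trans (hcomp α β hc))
    rw [integral_neg] at dn
    have hab : |∫ p in {p | (p, y) ∈ V}, (w p y - ε) * a p| ≤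
        ∫ p in {p | (p, y) ∈ V}, (Ioo (-ρ2) ρ2).indicator (fun _ => C * ε * r ^ 2) p := by
      rw [abs_le]
      constructor <;> linarith
    have e4 : ∫ p in {p | (p, y) ∈ V}, F (p, y) =
        a y * ∫ p in {p | (p, y) ∈ V}, (w p y - ε) * a p := by
      rw [← integral_const_mul]
      congr 1
      ext p
      simp only [hF]
      ring
    have e5 : ∫ p in {p | (p, y) ∈ V}, H (p, y) =
        ∫ p in {p | (p, y) ∈ V}, (Ioo (-ρ2) ρ2).indicator (fun _ => C * ε * r ^ 2) p := by
      congr 1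
      ext p
      exact hHy p
    rw [e4, e5, abs_mul, abs_of_nonneg (ha.nonneg y)]
    calc a y * |∫ p in {p | (p, y) ∈ V}, (w p y - ε) * a p|
        ≤ 1 * |∫ p in {p | (p, y) ∈ V}, (w p y - ε) * a p| :=
          mul_le_mul_of_nonneg_right (ha.le_one y) (abs_nonneg _)
      _ ≤ _ := by rw [one_mul]; exact hab
  · have h0 : a y = 0 := ha.eq_zero y (not_lt.1 hy)
    have e4 : ∫ p in {p | (p, y) ∈ V}, F (p, y) = 0 := by
      have : (fun p => F (p, y)) = fun _ => (0 : ℝ) := by
        ext p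
        simp only [hF, h0]
        ring
      rw [this]
      simp
    rw [e4, abs_zero]
    refine setIntegral_nonneg (slice_measurable mV y) fun p _ => ?_
    rw [hH]
    refine indicator_nonneg (fun _ _ => ?_) _
    positivity

end Pool.Agent.MP_4aaa5f_an
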