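import Pool.Agent.MP_4aaa5f_an.Defs
import Pool.Agent.MP_4aaa5f_an.T10
import Pool.Agent.MP_4aaa5f_an.T11

set_option autoImplicit false

namespace Pool.Agent.MP_4aaa5f_an

open MeasureTheory Set Filter Topology

namespace T14aux

/-- second difference -/
def sd (g : ℝ → ℝ) (y h : ℝ) : ℝ := g (y + h) + g (y - h) - 2 * g y

lemma sd_eq {g g1 g2 : ℝ → ℝ} (h1 : ∀ t, HasDerivAt g (g1 t) t)
    (h2 : ∀ t, HasDerivAt g1 (g2 t) t) (y : ℝ) {h : ℝ} (hh : 0 < h) :
    ∃ ξ ∈ Ioo (y - h) (y + h), sd g y h = h ^ 2 * g2 ξ := by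
  have hk : ∀ s, HasDerivAt (fun s => g (y + s) + g (y - s) - 2 * g y)
      (g1 (y + s) - g1 (y - s)) s := by
    intro s
    have ha : HasDerivAt (fun s : ℝ => y + s) 1 s := (hasDerivAt_id s).const_add y
    have hb : HasDerivAt (fun s : ℝ => y - s) (-1) s := by
      simpa using (hasDerivAt_id s).const_sub y
    have := (((h1 (y + s)).comp s ha).add ((h1 (y - s)).comp s hb)).sub_const (2 * g y)
    refine this.congr_deriv ?_
    ring
  have hq : ∀ s : ℝ, HasDerivAt (fun s : ℝ => s ^ 2) (2 * s) s := by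
    intro s
    simpa using hasDerivAt_pow 2 s
  obtain ⟨c, hc, hc'⟩ := exists_ratio_hasDerivAt_eq_ratio_slope
    (fun s => g (y + s) + g (y - s) - 2 * g y) (fun s => g1 (y + s) - g1 (y - s)) hh
    (fun s _ => (hk s).continuousAt.continuousWithinAt) (fun s _ => hk s)
    (fun s : ℝ => s ^ 2) (fun s => 2 * s)
    (fun s _ => (hq s).continuousAt.continuousWithinAt) (fun s _ => hq s)
  have hc0 : 0 < c := hc.1
  obtain ⟨ξ, hξ, hξ'⟩ := exists_hasDerivAt_eq_slope g1 g2 (show y - c < y + c by linarith)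
    (fun s _ => (h2 s).continuousAt.continuousWithinAt) (fun s _ => h2 s)
  refine ⟨ξ, ⟨by linarith [hξ.1, hc.2], by linarith [hξ.2, hc.2]⟩, ?_⟩
  have h3 : g1 (y + c) - g1 (y - c) = 2 * c * g2 ξ := by
    rw [hξ']
    have : (y + c - (y - c)) ≠ 0 := by
      have : y + c - (y - c) = 2 * c := by ring
      rw [this]; positivity
    field_simp
    ring
  simp only [add_zero, sub_zero] at hc'
  rw [h3] at hc'
  have h4 : (2 * c) * sd g y h = (2 * c) * (h ^ 2 * g2 ξ) := by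
    unfold sd
    have : g y + g y - 2 * g y = 0 := by ring
    rw [this] at hc'
    have h5 : (0 : ℝ) ^ 2 = 0 := by norm_num
    rw [h5] at hc'
    linarith
  exact mul_left_cancel₀ (by positivity) h4

lemma sd_tendsto {g g1 g2 : ℝ → ℝ} (h1 : ∀ t, HasDerivAt g (g1 t) t)
    (h2 : ∀ t, HasDerivAt g1 (g2 t) t) (h3 : Continuous g2) (y : ℝ) {h : ℕ → ℝ}
    (hh : ∀ n, 0 < h n) (hl : Tendsto h atTop (𝓝 0)) :
    Tendsto (fun n => sd g y (h n) / h n ^ 2) atTop (𝓝 (g2 y)) := by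
  choose ξ hξ hξ' using fun n => sd_eq h1 h2 y (hh n)
  have hlim : Tendsto ξ atTop (𝓝 y) := by
    have ha : Tendsto (fun n => y - h n) atTop (𝓝 y) := by simpa using hl.const_sub y
    have hb : Tendsto (fun n => y + h n) atTop (𝓝 y) := by simpa using hl.const_add y
    exact tendsto_of_tendsto_of_tendsto_of_le_of_le ha hb (fun n => (hξ n).1.le)
      (fun n => (hξ n).2.le)
  have := (h3.tendsto y).comp hlim
  refine this.congr fun n => ?_
  simp only [Function.comp_apply]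
  rw [hξ' n]
  have := hh n
  field_simp

lemma sd_abs_le {g g1 g2 : ℝ → ℝ} (h1 : ∀ t, HasDerivAt g (g1 t) t)
    (h2 : ∀ t, HasDerivAt g1 (g2 t) t) {y h M : ℝ} (hh : 0 < h)
    (hM : ∀ t ∈ Ioo (y - h) (y + h), |g2 t| ≤ M) : |sd g y h / h ^ 2| ≤ M := by
  obtain ⟨ξ, hξ, hξ'⟩ := sd_eq h1 h2 y hh
  rw [hξ']
  have : h ^ 2 * g2 ξ / h ^ 2 = g2 ξ := by field_simp
  rw [this]
  exact hM ξ hξ

lemma interp_eq (F : ℝ → ℝ) {a b : ℝ} (hab : a < b) (x : ℝ) :
    interp F a b x = F a + (F b - F a) / (b - a) * (x - a) := by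
  unfold interp
  have : b - a ≠ 0 := ne_of_gt (sub_pos.2 hab)
  field_simp
  ring

/-- comparison of chords -/
lemma chord_compare {F : ℝ → ℝ} {ε α β a b p : ℝ} (hαβ : α < β) (hap : a < p) (hpb : p < b)
    (ha : interp F α β a - F a ≤ ε * (a - α) * (β - a) / 2)
    (hb : interp F α β b - F b ≤ ε * (b - α) * (β - b) / 2) :
    ε * (p - a) * (b - p) / 2 - (interp F a b p - F p) ≤
      ε * (p - α) * (β - p) / 2 - (interp F α β p - F p) := by
  have hab : a < b := hap.trans hpb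
  have hba : 0 < b - a := sub_pos.2 hab
  rw [interp_eq F hαβ] at ha hb ⊢
  set s := (F β - F α) / (β - α)
  have key : interp F a b p ≥ F α + s * (p - α) + ε * (p - a) * (b - p) / 2
      - ε * (p - α) * (β - p) / 2 := by
    unfold interp
    rw [ge_iff_le, le_div_iff₀ hba]
    have h1 := mul_le_mul_of_nonneg_left ha (sub_nonneg.2 hpb.le)
    have h2 := mul_le_mul_of_nonneg_left hb (sub_nonneg.2 hap.le)
    nlinarith [h1, h2]
  linarith

/-- the slice -/
lemma slice_def {ε : ℝ} {G : ℝ → ℝ → ℝ} (y : ℝ) :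
    {p | (p, y) ∈ BadSet 4 ε G} = {p | Bad 4 ε (fun p => G p y) p} := rfl

section
variable {l : ℝ} {G Gp w Gy φ : ℝ → ℝ → ℝ} {ε : ℝ}

noncomputable def al (ε : ℝ) (G : ℝ → ℝ → ℝ) (z : ℝ × ℝ) : ℝ :=
  lft {p | (p, z.2) ∈ BadSet 4 ε G} z.1
noncomputable def be (ε : ℝ) (G : ℝ → ℝ → ℝ) (z : ℝ × ℝ) : ℝ :=
  rgt {p | (p, z.2) ∈ BadSet 4 ε G} z.1

open Classical in
noncomputable def Psi (ε : ℝ) (G : ℝ → ℝ → ℝ) : ℝ × ℝ → ℝ :=
  (BadSet 4 ε G).indicator fun z =>
    ε * (z.1 - al ε G z) * (be ε G z - z.1) / 2 -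
      (interp (fun x => G x z.2) (al ε G z) (be ε G z) z.1 - G z.1 z.2)

lemma cont_slice (hS : Sol l 50 G Gp w Gy φ) (y : ℝ) : Continuous (fun p => G p y) :=
  hS.cG.comp (by fun_prop : Continuous fun p : ℝ => (p, y))

lemma sub_window : BadSet 4 ε G ⊆ Ioo (-4) 4 ×ˢ univ := by
  intro z hz
  exact ⟨Bad.mem hz, mem_univ _⟩

lemma comp_of_mem (hS : Sol l 50 G Gp w Gy φ) {z : ℝ × ℝ} (hz : z ∈ BadSet 4 ε G) :
    IsComp {p | Bad 4 ε (fun p => G p z.2) p} (al ε G z) (be ε G z) ∧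
      z.1 ∈ Ioo (al ε G z) (be ε G z) := by
  have h1 : IsOpen {p | Bad 4 ε (fun p => G p z.2) p} := isOpen_bad (cont_slice hS z.2)
  have h2 : {p | Bad 4 ε (fun p => G p z.2) p} ⊆ Ioo (-4) 4 := fun p hp => Bad.mem hp
  exact isComp_lft_rgt h1 h2 hz

lemma Psi_nonneg (hS : Sol l 50 G Gp w Gy φ) (z : ℝ × ℝ) : 0 ≤ Psi ε G z := by
  unfold Psi
  by_cases hz : z ∈ BadSet 4 ε G
  · rw [indicator_of_mem hz]
    obtain ⟨hc, hp⟩ := comp_of_mem hS hz
    have hm := comp_mem hc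
    have := comp_support (cont_slice hS z.2) hc z.1 ⟨by linarith [hp.1], by linarith [hp.2]⟩
    linarith
  · rw [indicator_of_notMem hz]

lemma Psi_chord (hS : Sol l 50 G Gp w Gy φ) {p y a b : ℝ} (ha : -4 ≤ a) (hap : a < p)
    (hpb : p < b) (hb : b ≤ 4) :
    ε * (p - a) * (b - p) / 2 - (interp (fun x => G x y) a b p - G p y) ≤ Psi ε G (p, y) := by
  unfold Psi
  by_cases hz : (p, y) ∈ BadSet 4 ε G
  · rw [indicator_of_mem hz]
    obtain ⟨hc, hp⟩ := comp_of_mem hS hz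
    have hs := comp_support (cont_slice hS y) hc
    have h1 := hs a ⟨ha, by linarith⟩
    have h2 := hs b ⟨by linarith, hb⟩
    exact chord_compare (F := fun x => G x y) hc.lt hap hpb h1 h2
  · rw [indicator_of_notMem hz]
    have h : ¬ (interp (fun x => G x y) a b p - G p y < ε * (p - a) * (b - p) / 2) := by
      intro h
      exact hz ⟨a, b, ha, hap, hpb, hb, h⟩
    push Not at h
    linarith

lemma Psi_le (hS : Sol l 50 G Gp w Gy φ) (hε : 0 < ε) {z : ℝ × ℝ} (hz : z ∈ BadSet 4 ε G)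
    (hy : |z.2| ≤ 50) : Psi ε G z ≤ ε * (be ε G z - al ε G z) ^ 2 / 8 := by
  unfold Psi
  rw [indicator_of_mem hz]
  obtain ⟨hc, hp⟩ := comp_of_mem hS hz
  have hm := comp_mem hc
  have h1 : G z.1 z.2 ≤ interp (fun x => G x z.2) (al ε G z) (be ε G z) z.1 := by
    refine le_interp (F := fun x => G x z.2) (F' := fun x => Gp x z.2) (w := fun x => w x z.2)
      (fun x _ => hS.dG x z.2) (fun x _ => hS.dGp x z.2) (fun x hx => ?_) hp
    refine (hS.pos x z.2 ?_ hy).le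
    rw [abs_le]
    constructor <;> linarith [hx.1, hx.2, hm.1, hm.2]
  have h2 : 0 ≤ (z.1 - al ε G z - (be ε G z - z.1)) ^ 2 := sq_nonneg _
  nlinarith [h1, h2]

lemma Psi_le' (hS : Sol l 50 G Gp w Gy φ) (hε : 0 < ε) (z : ℝ × ℝ)
    (hy : |z.2| ≤ 50) : Psi ε G z ≤ ε * 8 := by
  by_cases hz : z ∈ BadSet 4 ε G
  · refine (Psi_le hS hε hz hy).trans ?_
    obtain ⟨hc, hp⟩ := comp_of_mem hS hz
    have hm := comp_mem hc
    have h0 := hc.lt
    have h1 : (be ε G z - al ε G z) ^ 2 ≤ 64 := by nlinarith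
    nlinarith
  · unfold Psi
    rw [indicator_of_notMem hz]
    positivity

lemma meas_al (hS : Sol l 50 G Gp w Gy φ) : Measurable (al ε G) :=
  measurable_lft (A := 4) (isOpen_badSet hS.cG) sub_window

lemma meas_be (hS : Sol l 50 G Gp w Gy φ) : Measurable (be ε G) :=
  measurable_rgt (A := 4) (isOpen_badSet hS.cG) sub_window

lemma meas_interp {F : ℝ × ℝ → ℝ} (hF : Measurable F) {a b : ℝ × ℝ → ℝ} (ha : Measurable a)
    (hb : Measurable b) :
    Measurable fun z : ℝ × ℝ => interp (fun x => F (x, z.2)) (a z) (b z) z.1 := by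
  unfold interp
  have h1 : Measurable fun z : ℝ × ℝ => F (a z, z.2) := hF.comp (ha.prodMk measurable_snd)
  have h2 : Measurable fun z : ℝ × ℝ => F (b z, z.2) := hF.comp (hb.prodMk measurable_snd)
  exact (((hb.sub measurable_fst).mul h1).add ((measurable_fst.sub ha).mul h2)).div (hb.sub ha)

lemma meas_Psi (hS : Sol l 50 G Gp w Gy φ) : Measurable (Psi ε G) := by
  unfold Psi
  refine Measurable.indicator ?_ (isOpen_badSet hS.cG).measurableSet
  have h1 := meas_al (ε := ε) hS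
  have h2 := meas_be (ε := ε) hS
  have h3 := meas_interp (F := fun z => G z.1 z.2) hS.cG.measurable h1 h2
  have h4 : Measurable fun z : ℝ × ℝ => G z.1 z.2 := hS.cG.measurable
  exact ((((measurable_const.mul (measurable_fst.sub h1)).mul (h2.sub measurable_fst)).div_const
    2)).sub (h3.sub h4)

end

/-- bounded measurable functions supported in the box are integrable -/
lemma int_of_bdd {f : ℝ × ℝ → ℝ} (hm : Measurable f) {M : ℝ} (hb : ∀ z, |f z| ≤ M)
    (h0 : ∀ z, z ∉ Icc (-5 : ℝ) 5 ×ˢ Icc (-5 : ℝ) 5 → f z = 0) : Integrable f := by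
  have hK : IsCompact (Icc (-5 : ℝ) 5 ×ˢ Icc (-5 : ℝ) 5) := isCompact_Icc.prod isCompact_Icc
  have h1 : IntegrableOn f (Icc (-5 : ℝ) 5 ×ˢ Icc (-5 : ℝ) 5) := by
    refine Measure.integrableOn_of_bounded (M := M) hK.measure_lt_top.ne
      hm.aestronglyMeasurable ?_
    exact Eventually.of_forall fun z => hb z
  refine (integrableOn_iff_integrable_of_support_subset ?_).1 h1
  intro z hz
  by_contra h
  exact hz (h0 z h)

section
variable {ρ1 ρ2 C : ℝ} {a a1 a2 : ℝ → ℝ}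

lemma cut_cont (ha : Cut ρ1 ρ2 C a a1 a2) : Continuous a :=
  continuous_iff_continuousAt.2 fun t => (ha.d1 t).continuousAt

lemma cut_a1_zero (ha : Cut ρ1 ρ2 C a a1 a2) {t : ℝ} (ht : ρ2 < |t|) : a1 t = 0 := by
  have h1 : a =ᶠ[𝓝 t] fun _ => (0 : ℝ) := by
    have : ∀ᶠ s in 𝓝 t, ρ2 < |s| := (continuous_abs.tendsto t).eventually (lt_mem_nhds ht)
    filter_upwards [this] with s hs
    exact ha.eq_zero s hs.le
  have h2 : HasDerivAt a 0 t := (hasDerivAt_const t (0 : ℝ)).congr_of_eventuallyEq h1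
  exact (ha.d1 t).unique h2

lemma cut_a2_zero' (ha : Cut ρ1 ρ2 C a a1 a2) {t : ℝ} (ht : ρ2 < |t|) : a2 t = 0 := by
  have h1 : a1 =ᶠ[𝓝 t] fun _ => (0 : ℝ) := by
    have : ∀ᶠ s in 𝓝 t, ρ2 < |s| := (continuous_abs.tendsto t).eventually (lt_mem_nhds ht)
    filter_upwards [this] with s hs
    exact cut_a1_zero ha hs
  have h2 : HasDerivAt a1 0 t := (hasDerivAt_const t (0 : ℝ)).congr_of_eventuallyEq h1
  exact (ha.d2 t).unique h2

lemma cut_a2_zero (ha : Cut ρ1 ρ2 C a a1 a2) {t : ℝ} (ht : ρ2 ≤ |t|) : a2 t = 0 := by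
  rcases le_total 0 t with h | h
  · have h1 : Tendsto a2 (𝓝[>] t) (𝓝 (a2 t)) := (ha.c2.tendsto t).mono_left nhdsWithin_le_nhds
    have h2 : Tendsto a2 (𝓝[>] t) (𝓝 0) := by
      refine tendsto_const_nhds.congr' ?_
      filter_upwards [self_mem_nhdsWithin] with s hs
      have hs' : t < s := hs
      refine (cut_a2_zero' ha ?_).symm
      rw [abs_of_nonneg h] at ht
      rw [abs_of_nonneg (h.trans hs'.le)]
      linarith
    exact tendsto_nhds_unique h1 h2
  · have h1 : Tendsto a2 (𝓝[<] t) (𝓝 (a2 t)) := (ha.c2.tendsto t).mono_left nhdsWithin_le_nhds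
    have h2 : Tendsto a2 (𝓝[<] t) (𝓝 0) := by
      refine tendsto_const_nhds.congr' ?_
      filter_upwards [self_mem_nhdsWithin] with s hs
      have hs' : s < t := hs
      refine (cut_a2_zero' ha ?_).symm
      rw [abs_of_nonpos h] at ht
      rw [abs_of_nonpos (hs'.le.trans h)]
      linarith
    exact tendsto_nhds_unique h1 h2

lemma cut_C_nonneg (ha : Cut ρ1 ρ2 C a a1 a2) : 0 ≤ C := (abs_nonneg _).trans (ha.b2 0)

variable {l : ℝ} {G Gp w Gy φ : ℝ → ℝ → ℝ} {ε : ℝ}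

lemma zero_of_notMem_box {z : ℝ × ℝ} (hz : z ∉ Icc (-5 : ℝ) 5 ×ˢ Icc (-5 : ℝ) 5) :
    z ∉ BadSet 4 ε G ∨ 5 < |z.2| := by
  by_contra h
  push Not at h
  obtain ⟨h1, h2⟩ := h
  have h3 := (sub_window h1).1
  apply hz
  rw [abs_le] at h2
  exact ⟨⟨by linarith [h3.1], by linarith [h3.2]⟩, h2⟩

/-- the shifted products -/
noncomputable def Fs (ε : ℝ) (G : ℝ → ℝ → ℝ) (a : ℝ → ℝ) (s : ℝ) (z : ℝ × ℝ) : ℝ :=
  Psi ε G z * (a z.1 * a (z.2 - s))

lemma abs_Psi_mul_le (hS : Sol l 50 G Gp w Gy φ) (hε : 0 < ε) {z : ℝ × ℝ} {q M : ℝ}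
    (hM : 0 ≤ M) (hq : |q| ≤ M) (h0 : 5 < |z.2| → q = 0) : |Psi ε G z * q| ≤ ε * 8 * M := by
  by_cases h : 5 < |z.2|
  · rw [h0 h]; simp; positivity
  · push Not at h
    rw [abs_mul, abs_of_nonneg (Psi_nonneg hS z)]
    exact mul_le_mul (Psi_le' hS hε z (by linarith)) hq (abs_nonneg _) (by positivity)

lemma Psi_mul_eq_zero {z : ℝ × ℝ} {q : ℝ} (hz : z ∉ Icc (-5 : ℝ) 5 ×ˢ Icc (-5 : ℝ) 5)
    (h0 : 5 < |z.2| → q = 0) : Psi ε G z * q = 0 := by
  rcases zero_of_notMem_box (ε := ε) (G := G) hz with h | h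
  · unfold Psi
    rw [indicator_of_notMem h, zero_mul]
  · rw [h0 h, mul_zero]

lemma abs_cut_mul_le (ha : Cut ρ1 ρ2 C a a1 a2) (s t : ℝ) : |a s * a t| ≤ 1 := by
  rw [abs_of_nonneg (mul_nonneg (ha.nonneg s) (ha.nonneg t))]
  nlinarith [ha.nonneg s, ha.nonneg t, ha.le_one s, ha.le_one t]

lemma int_Fs (hS : Sol l 50 G Gp w Gy φ) (hε : 0 < ε) (hρ : ρ2 ≤ 3) (ha : Cut ρ1 ρ2 C a a1 a2)
    {s : ℝ} (hs : |s| ≤ 1) : Integrable (Fs ε G a s) := by
  have h0 : ∀ z : ℝ × ℝ, 5 < |z.2| → a z.1 * a (z.2 - s) = 0 := by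
    intro z hz
    have : ρ2 ≤ |z.2 - s| := by
      have := abs_sub_abs_le_abs_sub z.2 s
      linarith
    rw [ha.eq_zero _ this, mul_zero]
  refine int_of_bdd (M := ε * 8 * 1) ?_ ?_ ?_
  · unfold Fs
    have hc := (cut_cont ha).measurable
    exact (meas_Psi hS).mul ((hc.comp measurable_fst).mul
      (hc.comp (measurable_snd.sub_const s)))
  · intro z
    exact abs_Psi_mul_le hS hε zero_le_one (abs_cut_mul_le ha _ _) (h0 z)
  · intro z hz
    exact Psi_mul_eq_zero hz (h0 z)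

/-- second differences of `G` minus the interpolated ones -/
noncomputable def Dh (ε : ℝ) (G : ℝ → ℝ → ℝ) (h : ℝ) (z : ℝ × ℝ) : ℝ :=
  sd (fun y => G z.1 y) z.2 h - interp (fun x => sd (fun y => G x y) z.2 h) (al ε G z) (be ε G z) z.1

lemma pointwise (hS : Sol l 50 G Gp w Gy φ) (ha : Cut ρ1 ρ2 C a a1 a2) (h : ℝ) (z : ℝ × ℝ) :
    (BadSet 4 ε G).indicator (fun z => Dh ε G h z * (a z.1 * a z.2)) z ≤
      Fs ε G a h (z + (0, h)) + Fs ε G a (-h) (z + (0, -h)) - 2 * Fs ε G a 0 z := by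
  have e1 : Fs ε G a h (z + (0, h)) = Psi ε G (z.1, z.2 + h) * (a z.1 * a z.2) := by
    unfold Fs
    have : z + (0, h) = (z.1, z.2 + h) := by ext <;> simp
    rw [this]; simp
  have e2 : Fs ε G a (-h) (z + (0, -h)) = Psi ε G (z.1, z.2 - h) * (a z.1 * a z.2) := by
    unfold Fs
    have : z + (0, -h) = (z.1, z.2 - h) := by ext <;> simp [sub_eq_add_neg]
    rw [this]; simp
  have e3 : Fs ε G a 0 z = Psi ε G z * (a z.1 * a z.2) := by
    unfold Fs; simp
  rw [e1, e2, e3]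
  have hz0 : 0 ≤ a z.1 * a z.2 := mul_nonneg (ha.nonneg _) (ha.nonneg _)
  by_cases hz : z ∈ BadSet 4 ε G
  · rw [indicator_of_mem hz]
    obtain ⟨hc, hp⟩ := comp_of_mem hS hz
    have hm := comp_mem hc
    have h1 := Psi_chord (ε := ε) hS (y := z.2 + h) hm.1 hp.1 hp.2 hm.2
    have h2 := Psi_chord (ε := ε) hS (y := z.2 - h) hm.1 hp.1 hp.2 hm.2
    have h3 : Psi ε G z = ε * (z.1 - al ε G z) * (be ε G z - z.1) / 2 -
      (interp (fun x => G x z.2) (al ε G z) (be ε G z) z.1 - G z.1 z.2) := by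
      unfold Psi
      rw [indicator_of_mem hz]
    have h4 : Dh ε G h z ≤ Psi ε G (z.1, z.2 + h) + Psi ε G (z.1, z.2 - h) - 2 * Psi ε G z := by
      rw [h3]
      have h5 : Dh ε G h z =
          (ε * (z.1 - al ε G z) * (be ε G z - z.1) / 2 -
            (interp (fun x => G x (z.2 + h)) (al ε G z) (be ε G z) z.1 - G z.1 (z.2 + h))) +
          (ε * (z.1 - al ε G z) * (be ε G z - z.1) / 2 -
            (interp (fun x => G x (z.2 - h)) (al ε G z) (be ε G z) z.1 - G z.1 (z.2 - h))) -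
          2 * (ε * (z.1 - al ε G z) * (be ε G z - z.1) / 2 -
            (interp (fun x => G x z.2) (al ε G z) (be ε G z) z.1 - G z.1 z.2)) := by
        unfold Dh sd interp
        ring
      rw [h5]
      linarith
    nlinarith [mul_le_mul_of_nonneg_right h4 hz0]
  · rw [indicator_of_notMem hz]
    have h3 : Psi ε G z = 0 := by
      unfold Psi
      rw [indicator_of_notMem hz]
    rw [h3]
    have h1 := mul_nonneg (Psi_nonneg (ε := ε) hS (z.1, z.2 + h)) hz0
    have h2 := mul_nonneg (Psi_nonneg (ε := ε) hS (z.1, z.2 - h)) hz0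
    linarith

lemma interp_div (F : ℝ → ℝ) (c a b p : ℝ) :
    interp (fun x => F x / c) a b p = interp F a b p / c := by
  unfold interp
  ring

lemma abs_interp_le {F : ℝ → ℝ} {a b p M : ℝ} (hap : a < p) (hpb : p < b) (h1 : |F a| ≤ M)
    (h2 : |F b| ≤ M) : |interp F a b p| ≤ M := by
  have hba : 0 < b - a := by linarith
  unfold interp
  rw [abs_div, abs_of_pos hba, div_le_iff₀ hba]
  refine (abs_add_le _ _).trans ?_
  rw [abs_mul, abs_mul, abs_of_pos (sub_pos.2 hpb), abs_of_pos (sub_pos.2 hap)]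
  nlinarith [mul_le_mul_of_nonneg_left h1 (sub_pos.2 hpb).le,
    mul_le_mul_of_nonneg_left h2 (sub_pos.2 hap).le]

lemma exists_phi_bound (hS : Sol l 50 G Gp w Gy φ) :
    ∃ M, 0 ≤ M ∧ ∀ x y, |x| ≤ 5 → |y| ≤ 5 → |φ x y| ≤ M := by
  have hK : IsCompact (Icc (-5 : ℝ) 5 ×ˢ Icc (-5 : ℝ) 5) := isCompact_Icc.prod isCompact_Icc
  obtain ⟨M, hM⟩ := hK.exists_bound_of_continuousOn hS.cφ.continuousOn
  refine ⟨max M 0, le_max_right _ _, fun x y hx hy => ?_⟩
  exact (hM (x, y) ⟨abs_le.1 hx, abs_le.1 hy⟩).trans (le_max_left _ _)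

lemma sdG_bound (hS : Sol l 50 G Gp w Gy φ) {M : ℝ}
    (hM : ∀ x y, |x| ≤ 5 → |y| ≤ 5 → |φ x y| ≤ M) {x y h : ℝ} (hx : |x| ≤ 5) (hy : |y| ≤ 3)
    (hh : 0 < h) (hh1 : h ≤ 1) : |sd (fun y => G x y) y h / h ^ 2| ≤ M := by
  refine sd_abs_le (g1 := fun y => Gy x y) (g2 := fun y => -φ x y) (fun t => hS.dGy x t)
    (fun t => hS.dGyy x t) hh ?_
  intro t ht
  rw [abs_neg]
  refine hM x t hx ?_
  rw [abs_le] at hy ⊢
  constructor <;> linarith [ht.1, ht.2]

lemma Dh_bound (hS : Sol l 50 G Gp w Gy φ) {M : ℝ}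
    (hM : ∀ x y, |x| ≤ 5 → |y| ≤ 5 → |φ x y| ≤ M) {z : ℝ × ℝ} (hz : z ∈ BadSet 4 ε G) {h : ℝ}
    (hy : |z.2| ≤ 3) (hh : 0 < h) (hh1 : h ≤ 1) : |Dh ε G h z / h ^ 2| ≤ 2 * M := by
  obtain ⟨hc, hp⟩ := comp_of_mem hS hz
  have hm := comp_mem hc
  have hlt := hc.lt
  have h1 : |z.1| ≤ 5 := by rw [abs_le]; constructor <;> linarith [hp.1, hp.2]
  have h2 : |al ε G z| ≤ 5 := by rw [abs_le]; constructor <;> linarith [hp.1, hp.2]
  have h3 : |be ε G z| ≤ 5 := by rw [abs_le]; constructor <;> linarith [hp.1, hp.2]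
  unfold Dh
  rw [sub_div, ← interp_div]
  refine (abs_sub _ _).trans ?_
  have e1 := sdG_bound hS hM h1 hy hh hh1
  have e2 : |interp (fun x => sd (fun y => G x y) z.2 h / h ^ 2) (al ε G z) (be ε G z) z.1| ≤ M :=
    abs_interp_le hp.1 hp.2 (sdG_bound hS hM h2 hy hh hh1) (sdG_bound hS hM h3 hy hh hh1)
  linarith

lemma Dh_tendsto (hS : Sol l 50 G Gp w Gy φ) (z : ℝ × ℝ)
    {h : ℕ → ℝ} (hh : ∀ n, 0 < h n) (hl : Tendsto h atTop (𝓝 0)) :
    Tendsto (fun n => Dh ε G (h n) z / h n ^ 2) atTop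
      (𝓝 (hat2 (BadSet 4 ε G) φ z - φ z.1 z.2)) := by
  have key : ∀ x, Tendsto (fun n => sd (fun y => G x y) z.2 (h n) / h n ^ 2) atTop
      (𝓝 (-φ x z.2)) := by
    intro x
    refine sd_tendsto (g1 := fun y => Gy x y) (g2 := fun y => -φ x y) (fun t => hS.dGy x t)
      (fun t => hS.dGyy x t) ?_ z.2 hh hl
    exact (hS.cφ.comp (by fun_prop : Continuous fun y : ℝ => (x, y))).neg
  have h1 : ∀ n, Dh ε G (h n) z / h n ^ 2 = sd (fun y => G z.1 y) z.2 (h n) / h n ^ 2 -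
      interp (fun x => sd (fun y => G x y) z.2 (h n) / h n ^ 2) (al ε G z) (be ε G z) z.1 := by
    intro n
    unfold Dh
    rw [sub_div, ← interp_div]
  simp_rw [h1]
  have h2 : hat2 (BadSet 4 ε G) φ z - φ z.1 z.2 =
      -φ z.1 z.2 - interp (fun x => -φ x z.2) (al ε G z) (be ε G z) z.1 := by
    unfold hat2 hat al be interp
    ring
  rw [h2]
  refine (key z.1).sub ?_
  unfold interp
  exact (((key _).const_mul _).add ((key _).const_mul _)).div_const _

lemma meas_Dh (hS : Sol l 50 G Gp w Gy φ) (h : ℝ) : Measurable (Dh ε G h) := by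
  have hF : Measurable fun z : ℝ × ℝ => sd (fun y => G z.1 y) z.2 h := by
    unfold sd
    have h1 : Measurable fun z : ℝ × ℝ => G z.1 (z.2 + h) :=
      (hS.cG.comp (by fun_prop : Continuous fun z : ℝ × ℝ => (z.1, z.2 + h))).measurable
    have h2 : Measurable fun z : ℝ × ℝ => G z.1 (z.2 - h) :=
      (hS.cG.comp (by fun_prop : Continuous fun z : ℝ × ℝ => (z.1, z.2 - h))).measurable
    have h3 : Measurable fun z : ℝ × ℝ => G z.1 z.2 := hS.cG.measurable
    exact (h1.add h2).sub (h3.const_mul 2)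
  unfold Dh
  exact hF.sub (meas_interp (F := fun z => sd (fun y => G z.1 y) z.2 h) hF (meas_al hS)
    (meas_be hS))

/-- the left-hand functions -/
noncomputable def Lf (ε : ℝ) (G : ℝ → ℝ → ℝ) (a : ℝ → ℝ) (h : ℝ) : ℝ × ℝ → ℝ :=
  (BadSet 4 ε G).indicator fun z => Dh ε G h z / h ^ 2 * (a z.1 * a z.2)

lemma meas_Lf (hS : Sol l 50 G Gp w Gy φ) (ha : Cut ρ1 ρ2 C a a1 a2) (h : ℝ) :
    Measurable (Lf ε G a h) := by
  unfold Lf
  refine Measurable.indicator ?_ (isOpen_badSet hS.cG).measurableSet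
  have hc := (cut_cont ha).measurable
  exact ((meas_Dh hS h).div_const _).mul ((hc.comp measurable_fst).mul (hc.comp measurable_snd))

lemma abs_Lf_le (hS : Sol l 50 G Gp w Gy φ) (hρ : ρ2 ≤ 3) (ha : Cut ρ1 ρ2 C a a1 a2) {M : ℝ}
    (hM0 : 0 ≤ M) (hM : ∀ x y, |x| ≤ 5 → |y| ≤ 5 → |φ x y| ≤ M) {h : ℝ} (hh : 0 < h)
    (hh1 : h ≤ 1) (z : ℝ × ℝ) :
    |Lf ε G a h z| ≤ (Icc (-5 : ℝ) 5 ×ˢ Icc (-5 : ℝ) 5).indicator (fun _ => 2 * M) z := by
  unfold Lf
  by_cases hz : z ∈ BadSet 4 ε G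
  · rw [indicator_of_mem hz]
    by_cases hy : |z.2| ≤ 3
    · have hz' : z ∈ (Icc (-5 : ℝ) 5 ×ˢ Icc (-5 : ℝ) 5) := by
        have h3 := (sub_window hz).1
        rw [abs_le] at hy
        exact ⟨⟨by linarith [h3.1], by linarith [h3.2]⟩, by linarith [hy.1], by linarith [hy.2]⟩
      rw [indicator_of_mem hz', abs_mul]
      have h1 := Dh_bound hS hM hz hy hh hh1
      have h2 := abs_cut_mul_le ha z.1 z.2
      calc _ ≤ 2 * M * 1 := mul_le_mul h1 h2 (abs_nonneg _) (by positivity)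
        _ = 2 * M := by ring
    · push Not at hy
      rw [ha.eq_zero z.2 (by linarith), mul_zero, mul_zero, abs_zero]
      exact indicator_nonneg (fun _ _ => by positivity) _
  · rw [indicator_of_notMem hz, abs_zero]
    exact indicator_nonneg (fun _ _ => by positivity) _

lemma int_box (M : ℝ) :
    Integrable ((Icc (-5 : ℝ) 5 ×ˢ Icc (-5 : ℝ) 5).indicator (fun _ : ℝ × ℝ => M)) := by
  have hK : IsCompact (Icc (-5 : ℝ) 5 ×ˢ Icc (-5 : ℝ) 5) := isCompact_Icc.prod isCompact_Icc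
  exact (integrable_indicator_iff hK.measurableSet).2 (integrableOn_const hK.measure_lt_top.ne)

/-- the right-hand functions -/
noncomputable def Rf (ε : ℝ) (G : ℝ → ℝ → ℝ) (a : ℝ → ℝ) (h : ℝ) (z : ℝ × ℝ) : ℝ :=
  Psi ε G z * (a z.1 * (sd a z.2 h / h ^ 2))

lemma main_ineq (hS : Sol l 50 G Gp w Gy φ) (hε : 0 < ε) (hρ : ρ2 ≤ 3)
    (ha : Cut ρ1 ρ2 C a a1 a2) {h : ℝ} (hh : 0 < h) (hh1 : h ≤ 1) :
    ∫ z, Lf ε G a h z ≤ ∫ z, Rf ε G a h z := by
  obtain ⟨M, hM0, hM⟩ := exists_phi_bound hS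
  have hL : Integrable (Lf ε G a h) := by
    refine (int_box (2 * M)).mono' (meas_Lf hS ha h).aestronglyMeasurable ?_
    exact Eventually.of_forall fun z => abs_Lf_le hS hρ ha hM0 hM hh hh1 z
  have i1 : Integrable (Fs ε G a h) := int_Fs hS hε hρ ha (by rw [abs_of_pos hh]; exact hh1)
  have i2 : Integrable (Fs ε G a (-h)) :=
    int_Fs hS hε hρ ha (by rw [abs_neg, abs_of_pos hh]; exact hh1)
  have i3 : Integrable (Fs ε G a 0) := int_Fs hS hε hρ ha (by simp)
  have i1' : Integrable fun z : ℝ × ℝ => Fs ε G a h (z + (0, h)) := i1.comp_add_right _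
  have i2' : Integrable fun z : ℝ × ℝ => Fs ε G a (-h) (z + (0, -h)) := i2.comp_add_right _
  have h2 : (0 : ℝ) < h ^ 2 := by positivity
  calc ∫ z, Lf ε G a h z ≤ ∫ z, (Fs ε G a h (z + (0, h)) + Fs ε G a (-h) (z + (0, -h))
          - 2 * Fs ε G a 0 z) / h ^ 2 := by
        refine integral_mono hL (((i1'.add i2').sub (i3.const_mul 2)).div_const _) ?_
        intro z
        have := pointwise (ε := ε) hS ha h z
        have e : Lf ε G a h z =
            (BadSet 4 ε G).indicator (fun z => Dh ε G h z * (a z.1 * a z.2)) z / h ^ 2 := by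
          unfold Lf
          by_cases hz : z ∈ BadSet 4 ε G
          · rw [indicator_of_mem hz, indicator_of_mem hz]; ring
          · rw [indicator_of_notMem hz, indicator_of_notMem hz]; simp
        rw [e]
        exact div_le_div_of_nonneg_right this h2.le
    _ = ((∫ z, Fs ε G a h z) + (∫ z, Fs ε G a (-h) z) - 2 * ∫ z, Fs ε G a 0 z) / h ^ 2 := by
        rw [integral_div]
        have e1 : ∫ z : ℝ × ℝ, (Fs ε G a h (z + (0, h)) + Fs ε G a (-h) (z + (0, -h))
          - 2 * Fs ε G a 0 z) = (∫ z : ℝ × ℝ, (Fs ε G a h (z + (0, h)) +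
            Fs ε G a (-h) (z + (0, -h)))) - ∫ z, 2 * Fs ε G a 0 z :=
          integral_sub (i1'.add i2') (i3.const_mul 2)
        rw [e1, integral_add i1' i2', integral_const_mul,
          integral_add_right_eq_self (Fs ε G a h) ((0, h) : ℝ × ℝ),
          integral_add_right_eq_self (Fs ε G a (-h)) ((0, -h) : ℝ × ℝ)]
    _ = ∫ z, Rf ε G a h z := by
        have e2 : (∫ z, Fs ε G a h z) + (∫ z, Fs ε G a (-h) z) - 2 * ∫ z, Fs ε G a 0 z =
            ∫ z, (Fs ε G a h z + Fs ε G a (-h) z - 2 * Fs ε G a 0 z) := by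
          have e3 : ∫ z, (Fs ε G a h z + Fs ε G a (-h) z - 2 * Fs ε G a 0 z) =
              (∫ z, (Fs ε G a h z + Fs ε G a (-h) z)) - ∫ z, 2 * Fs ε G a 0 z :=
            integral_sub (i1.add i2) (i3.const_mul 2)
          rw [e3, integral_add i1 i2, integral_const_mul]
        rw [e2, ← integral_div]
        refine integral_congr_ae (Eventually.of_forall fun z => ?_)
        simp only [Fs, Rf, sd]
        have : z.2 - -h = z.2 + h := by ring
        rw [this, sub_zero]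
        ring

end

end T14aux

open T14aux in
/-- [T14] Convexity in `y` of the defect: on the bad set the interpolated `φ` is at most `φ` on
average, up to `ε r²`. -/
theorem hat_average {l : ℝ} (hl0 : 0 < l) (hl1 : l < 1) {G Gp w Gy φ : ℝ → ℝ → ℝ}
    (hS : Sol l 50 G Gp w Gy φ) {ε r : ℝ} (hε : 0 < ε) (hr : 0 < r)
    {ρ1 ρ2 C : ℝ} {a a1 a2 : ℝ → ℝ} (hρ : ρ2 ≤ 3) (ha : Cut ρ1 ρ2 C a a1 a2)
    (hshort : ∀ y, |y| ≤ 3 → ∀ α β, IsComp {p | Bad 4 ε (fun p => G p y) p} α β → β - α ≤ r) :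
    ∫ z in BadSet 4 ε G, (hat2 (BadSet 4 ε G) φ z - φ z.1 z.2) * (a z.1 * a z.2) ≤
      C * ε * r ^ 2 * (volume (BadSet 4 ε G ∩ Sq ρ2)).toReal := by
  have hC := cut_C_nonneg ha
  obtain ⟨M, hM0, hM⟩ := exists_phi_bound hS
  have hVm : MeasurableSet (BadSet 4 ε G) := (isOpen_badSet hS.cG).measurableSet
  -- the sequence of steps
  obtain ⟨h, hh⟩ : ∃ h : ℕ → ℝ, h = fun n : ℕ => 1 / ((n : ℝ) + 1) := ⟨_, rfl⟩
  have hpos : ∀ n, 0 < h n := fun n => by rw [hh]; positivity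
  have hle : ∀ n, h n ≤ 1 := fun n => by
    rw [hh]
    simp only
    rw [div_le_one (by positivity)]
    have : (0 : ℝ) ≤ n := Nat.cast_nonneg n
    linarith
  have hlim : Tendsto h atTop (𝓝 0) := by rw [hh]; exact tendsto_one_div_add_atTop_nhds_zero_nat
  -- limits
  have l1 : Tendsto (fun n => ∫ z, Lf ε G a (h n) z) atTop
      (𝓝 (∫ z, (BadSet 4 ε G).indicator
        (fun z => (hat2 (BadSet 4 ε G) φ z - φ z.1 z.2) * (a z.1 * a z.2)) z)) := by
    refine tendsto_integral_of_dominated_convergence _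
      (fun n => (meas_Lf hS ha (h n)).aestronglyMeasurable) (int_box (2 * M))
      (fun n => Eventually.of_forall fun z => abs_Lf_le hS hρ ha hM0 hM (hpos n) (hle n) z)
      (Eventually.of_forall fun z => ?_)
    unfold Lf
    by_cases hz : z ∈ BadSet 4 ε G
    · simp only [indicator_of_mem hz]
      exact (Dh_tendsto hS z hpos hlim).mul_const _
    · simp only [indicator_of_notMem hz]
      exact tendsto_const_nhds
  have l2 : Tendsto (fun n => ∫ z, Rf ε G a (h n) z) atTop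
      (𝓝 (∫ z, Psi ε G z * (a z.1 * a2 z.2))) := by
    have hc := (cut_cont ha).measurable
    have hzero : ∀ n, ∀ z : ℝ × ℝ, 5 < |z.2| → a z.1 * (sd a z.2 (h n) / h n ^ 2) = 0 := by
      intro n z hz
      have h0 : ∀ t, |t - z.2| ≤ 1 → a t = 0 := by
        intro t ht
        refine ha.eq_zero t ?_
        have h1 := abs_sub_abs_le_abs_sub z.2 t
        rw [abs_sub_comm] at ht
        linarith
      have e1 : a (z.2 + h n) = 0 := h0 _ (by simpa [abs_of_pos (hpos n)] using hle n)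
      have e2 : a (z.2 - h n) = 0 := h0 _ (by
        have : z.2 - h n - z.2 = -h n := by ring
        rw [this, abs_neg, abs_of_pos (hpos n)]; exact hle n)
      have e3 : a z.2 = 0 := h0 _ (by simp)
      unfold sd
      rw [e1, e2, e3]
      simp
    have hsd : ∀ n, ∀ z : ℝ × ℝ, |a z.1 * (sd a z.2 (h n) / h n ^ 2)| ≤ C := by
      intro n z
      rw [abs_mul, abs_of_nonneg (ha.nonneg _)]
      have e1 := sd_abs_le ha.d1 ha.d2 (y := z.2) (M := C) (hpos n) (fun t _ => ha.b2 t)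
      calc a z.1 * |sd a z.2 (h n) / h n ^ 2| ≤ 1 * C :=
            mul_le_mul (ha.le_one _) e1 (abs_nonneg _) zero_le_one
        _ = C := one_mul _
    refine tendsto_integral_of_dominated_convergence _ (fun n => ?_) (int_box (ε * 8 * C))
      (fun n => Eventually.of_forall fun z => ?_) (Eventually.of_forall fun z => ?_)
    · have h1 : Measurable fun z : ℝ × ℝ => sd a z.2 (h n) := by
        unfold sd
        exact ((hc.comp (measurable_snd.add_const _)).add (hc.comp (measurable_snd.sub_const _))).sub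
          ((hc.comp measurable_snd).const_mul 2)
      exact ((meas_Psi hS).mul ((hc.comp measurable_fst).mul (h1.div_const _))).aestronglyMeasurable
    · unfold Rf
      by_cases hz : z ∈ Icc (-5 : ℝ) 5 ×ˢ Icc (-5 : ℝ) 5
      · rw [indicator_of_mem hz]
        exact abs_Psi_mul_le hS hε hC (hsd n z) (hzero n z)
      · rw [indicator_of_notMem hz, Psi_mul_eq_zero hz (hzero n z)]
        simp
    · unfold Rf
      exact ((sd_tendsto ha.d1 ha.d2 ha.c2 z.2 hpos hlim).const_mul _).const_mul _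
  have l3 := le_of_tendsto_of_tendsto' l1 l2
    (fun n => main_ineq hS hε hρ ha (hpos n) (hle n))
  rw [integral_indicator hVm] at l3
  refine l3.trans ?_
  -- final estimate
  have hSq : MeasurableSet (Sq ρ2) := measurableSet_Ioo.prod measurableSet_Ioo
  have hfin : volume (BadSet 4 ε G ∩ Sq ρ2) < ⊤ := by
    refine (measure_mono (inter_subset_right.trans
      (Set.prod_mono Ioo_subset_Icc_self Ioo_subset_Icc_self))).trans_lt
      (isCompact_Icc.prod isCompact_Icc : IsCompact (Icc (-ρ2) ρ2 ×ˢ Icc (-ρ2) ρ2)).measure_lt_top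
  have hpt : ∀ z : ℝ × ℝ, Psi ε G z * (a z.1 * a2 z.2) ≤
      (BadSet 4 ε G ∩ Sq ρ2).indicator (fun _ => C * ε * r ^ 2) z := by
    intro z
    by_cases hz : z ∈ BadSet 4 ε G
    · by_cases h1 : ρ2 ≤ |z.1|
      · rw [ha.eq_zero _ h1, zero_mul, mul_zero]
        exact indicator_nonneg (fun _ _ => by positivity) _
      by_cases h2 : ρ2 ≤ |z.2|
      · rw [cut_a2_zero ha h2, mul_zero, mul_zero]
        exact indicator_nonneg (fun _ _ => by positivity) _
      push Not at h1 h2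
      have hz' : z ∈ BadSet 4 ε G ∩ Sq ρ2 := ⟨hz, abs_lt.1 h1, abs_lt.1 h2⟩
      rw [indicator_of_mem hz']
      obtain ⟨hc, hp⟩ := comp_of_mem hS hz
      have hlen := hshort z.2 (by linarith) _ _ hc
      have hlt := hc.lt
      have e1 := Psi_le hS hε hz (by linarith)
      have e2 : (be ε G z - al ε G z) ^ 2 ≤ r ^ 2 := by
        apply pow_le_pow_left₀ (by linarith) hlen
      have e3 : Psi ε G z ≤ ε * r ^ 2 / 8 := by
        refine e1.trans ?_
        have := mul_le_mul_of_nonneg_left e2 hε.le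
        linarith
      have e4 : a z.1 * a2 z.2 ≤ C := by
        calc a z.1 * a2 z.2 ≤ |a z.1 * a2 z.2| := le_abs_self _
          _ = a z.1 * |a2 z.2| := by rw [abs_mul, abs_of_nonneg (ha.nonneg _)]
          _ ≤ 1 * C := mul_le_mul (ha.le_one _) (ha.b2 _) (abs_nonneg _) zero_le_one
          _ = C := one_mul _
      have e0 := Psi_nonneg (ε := ε) hS z
      calc Psi ε G z * (a z.1 * a2 z.2) ≤ Psi ε G z * C := mul_le_mul_of_nonneg_left e4 e0
        _ ≤ ε * r ^ 2 / 8 * C := mul_le_mul_of_nonneg_right e3 hC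
        _ ≤ C * ε * r ^ 2 := by
          have : 0 ≤ C * ε * r ^ 2 := by positivity
          linarith
    · have : Psi ε G z = 0 := by
        unfold Psi
        rw [indicator_of_notMem hz]
      rw [this, zero_mul]
      exact indicator_nonneg (fun _ _ => by positivity) _
  have hint : Integrable ((BadSet 4 ε G ∩ Sq ρ2).indicator
      (fun _ : ℝ × ℝ => C * ε * r ^ 2)) :=
    (integrable_indicator_iff (hVm.inter hSq)).2 (integrableOn_const hfin.ne)
  calc ∫ z, Psi ε G z * (a z.1 * a2 z.2)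
      ≤ ∫ z, (BadSet 4 ε G ∩ Sq ρ2).indicator (fun _ : ℝ × ℝ => C * ε * r ^ 2) z := by
        refine integral_mono ?_ hint hpt
        have h0 : ∀ z : ℝ × ℝ, 5 < |z.2| → a z.1 * a2 z.2 = 0 := fun z hz => by
          rw [cut_a2_zero ha (by linarith), mul_zero]
        have h1 : ∀ z : ℝ × ℝ, |a z.1 * a2 z.2| ≤ C := by
          intro z
          rw [abs_mul, abs_of_nonneg (ha.nonneg _)]
          calc a z.1 * |a2 z.2| ≤ 1 * C :=
              mul_le_mul (ha.le_one _) (ha.b2 _) (abs_nonneg _) zero_le_one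
            _ = C := one_mul _
        refine int_of_bdd (M := ε * 8 * C) ?_ (fun z => abs_Psi_mul_le hS hε hC (h1 z) (h0 z))
          (fun z hz => Psi_mul_eq_zero hz (h0 z))
        exact (meas_Psi hS).mul (((cut_cont ha).measurable.comp measurable_fst).mul
          (ha.c2.measurable.comp measurable_snd))
    _ = C * ε * r ^ 2 * (volume (BadSet 4 ε G ∩ Sq ρ2)).toReal := by
        rw [integral_indicator (hVm.inter hSq), setIntegral_const]
        simp [Measure.real, mul_comm]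

end Pool.Agent.MP_4aaa5f_an
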