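import Pool.Agent.MP_4aaa5f_an.Defs
import Pool.Agent.MP_4aaa5f_an.T10
import Pool.Agent.MP_4aaa5f_an.T11

set_option autoImplicit false

namespace Pool.Agent.MP_4aaa5f_an

open MeasureTheory Set Filter Topology

namespace T15aux

theorem comp_int_affine {A ε : ℝ} {F F' w : ℝ → ℝ}
    (hF : ∀ p, HasDerivAt F (F' p) p) (hF' : ∀ p, HasDerivAt F' (w p) p) (hw : Continuous w)
    {a b : ℝ} (h : IsComp {p | Bad A ε F p} a b) (ha : -A < a) (hb : b < A) (m c : ℝ) :
    ∫ p in Ioo a b, (w p - ε) * (m * p + c) = 0 := by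
  have hab : a < b := h.lt
  have hFc : Continuous F := continuous_iff_continuousAt.2 fun x => (hF x).continuousAt
  rw [← integral_Ioc_eq_integral_Ioo, ← intervalIntegral.integral_of_le hab.le]
  have hd : ∀ p ∈ uIcc a b, HasDerivAt
      (fun p => (F' p - ε * p) * (m * p + c) - m * (F p - ε * p ^ 2 / 2))
      ((w p - ε) * (m * p + c)) p := by
    intro p _
    have h1 : HasDerivAt (fun p => F' p - ε * p) (w p - ε * 1) p :=
      (hF' p).sub ((hasDerivAt_id p).const_mul ε)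
    have h2 : HasDerivAt (fun p => m * p + c) (m * 1) p :=
      ((hasDerivAt_id p).const_mul m).add_const c
    have h3 : HasDerivAt (fun p : ℝ => ε * p ^ 2 / 2) (ε * (2 * p) / 2) p := by
      have := ((hasDerivAt_pow 2 p).const_mul ε).div_const 2
      simpa using this
    have h4 := (h1.mul h2).sub (((hF p).sub h3).const_mul m)
    refine h4.congr_deriv ?_
    ring
  rw [intervalIntegral.integral_eq_sub_of_hasDerivAt hd
    (Continuous.intervalIntegrable (by fun_prop) _ _)]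
  have e1 := comp_tangent_left hFc h ha (hF a)
  have e2 := comp_tangent_right hFc h hb (hF b)
  have hne : b - a ≠ 0 := by linarith
  rw [e1, e2]
  field_simp
  ring

theorem inter_isComp {V V' : Set ℝ} (hVV : V' ⊆ V) {a b a' b' : ℝ} (h : IsComp V a b)
    (h' : IsComp (V' ∩ Ioo a b) a' b') : IsComp V' a' b' ∧ a ≤ a' ∧ b' ≤ b := by
  have h1 : a ≤ a' := by
    by_contra hc
    push Not at hc
    obtain ⟨x, hx1, hx2⟩ := exists_between (lt_min hc h'.lt)
    have := (h'.sub ⟨hx1, hx2.trans_le (min_le_right _ _)⟩).2.1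
    exact absurd (hx2.trans_le (min_le_left _ _)) (not_lt.2 this.le)
  have h2 : b' ≤ b := by
    by_contra hc
    push Not at hc
    obtain ⟨x, hx1, hx2⟩ := exists_between (max_lt hc h'.lt)
    have := (h'.sub ⟨(le_max_right _ _).trans_lt hx1, hx2⟩).2.2
    exact absurd ((le_max_left _ _).trans_lt hx1) (not_lt.2 this.le)
  refine ⟨⟨h'.lt, fun x hx => (h'.sub hx).1, ?_, ?_⟩, h1, h2⟩
  · intro hm
    rcases h1.eq_or_lt with he | hl
    · exact h.left (he ▸ hVV hm)
    · exact h'.left ⟨hm, hl, h'.lt.trans_le h2⟩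
  · intro hm
    rcases h2.eq_or_lt with he | hl
    · exact h.right (he ▸ hVV hm)
    · exact h'.right ⟨hm, h1.trans_lt h'.lt, hl⟩

theorem integrableOn_of_cont {f : ℝ → ℝ} (hf : Continuous f) {s : Set ℝ} {a b : ℝ}
    (hs : s ⊆ Icc a b) : IntegrableOn f s :=
  (hf.integrableOn_Icc).mono_set hs

theorem int_inter_affine {A ε : ℝ} {F F' w : ℝ → ℝ}
    (hF : ∀ p, HasDerivAt F (F' p) p) (hF' : ∀ p, HasDerivAt F' (w p) p) (hw : Continuous w)
    {η : ℝ} (hη : 0 < η)
    {a b : ℝ} (h : IsComp {p | Bad A ε F p} a b) (ha : -A < a) (hb : b < A) (m c : ℝ) :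
    ∫ p in {p | Bad A (ε - η) F p} ∩ Ioo a b, (w p - ε) * (m * p + c) =
      ∫ p in {p | Bad A (ε - η) F p} ∩ Ioo a b, -η * (m * p + c) := by
  have hFc : Continuous F := continuous_iff_continuousAt.2 fun x => (hF x).continuousAt
  have hVV : {p | Bad A (ε - η) F p} ⊆ {p | Bad A ε F p} := fun p hp =>
    Bad.mono (by linarith) hp
  have hsub : {p | Bad A (ε - η) F p} ∩ Ioo a b ⊆ Icc a b := fun x hx =>
    Ioo_subset_Icc_self hx.2
  refine setIntegral_eq_of_comp (A := A) ((isOpen_bad hFc).inter isOpen_Ioo)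
    (fun x hx => Bad.mem hx.1) (integrableOn_of_cont (by fun_prop) hsub)
    (integrableOn_of_cont (by fun_prop) hsub) ?_
  intro a' b' h'
  obtain ⟨h1, h2, h3⟩ := inter_isComp hVV h h'
  have h4 := comp_int_affine hF hF' hw h1 (ha.trans_le h2) (h3.trans_lt hb) m c
  have hi1 : IntegrableOn (fun p => (w p - (ε - η)) * (m * p + c)) (Ioo a' b') :=
    integrableOn_of_cont (by fun_prop) Ioo_subset_Icc_self
  have hi2 : IntegrableOn (fun p => -η * (m * p + c)) (Ioo a' b') :=
    integrableOn_of_cont (by fun_prop) Ioo_subset_Icc_self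
  have h5 : ∀ p, (w p - ε) * (m * p + c) =
      (w p - (ε - η)) * (m * p + c) + -η * (m * p + c) := by
    intro p; ring
  simp_rw [h5]
  rw [integral_add hi1 hi2, h4, zero_add]

theorem int_diff_affine {A ε : ℝ} {F F' w : ℝ → ℝ}
    (hF : ∀ p, HasDerivAt F (F' p) p) (hF' : ∀ p, HasDerivAt F' (w p) p) (hw : Continuous w)
    {η : ℝ} (hη : 0 < η)
    {a b : ℝ} (h : IsComp {p | Bad A ε F p} a b) (ha : -A < a) (hb : b < A) (m c : ℝ) :
    ∫ p in Ioo a b \ {p | Bad A (ε - η) F p}, (w p - ε) * (m * p + c) =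
      η * ∫ p in {p | Bad A (ε - η) F p} ∩ Ioo a b, (m * p + c) := by
  have hFc : Continuous F := continuous_iff_continuousAt.2 fun x => (hF x).continuousAt
  have hmeas : MeasurableSet {p | Bad A (ε - η) F p} := (isOpen_bad hFc).measurableSet
  have h1 := comp_int_affine hF hF' hw h ha hb m c
  have h2 := int_inter_affine hF hF' hw hη h ha hb m c
  have hi : IntegrableOn (fun p => (w p - ε) * (m * p + c)) (Ioo a b) :=
    integrableOn_of_cont (by fun_prop) Ioo_subset_Icc_self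
  have h3 := integral_inter_add_sdiff hmeas hi
  rw [h1, inter_comm, h2, integral_const_mul] at h3
  linarith

theorem abs_diff_le {A ε : ℝ} {F F' w : ℝ → ℝ}
    (hF : ∀ p, HasDerivAt F (F' p) p) (hF' : ∀ p, HasDerivAt F' (w p) p) (hw : Continuous w)
    {η : ℝ} (hη : 0 < η)
    {a b : ℝ} (h : IsComp {p | Bad A ε F p} a b) (ha : -A < a) (hb : b < A) :
    ∫ p in Ioo a b \ {p | Bad A (ε - η) F p}, |w p - ε| ≤ 2 * η * (b - a) := by
  have hFc : Continuous F := continuous_iff_continuousAt.2 fun x => (hF x).continuousAt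
  have hmeas : MeasurableSet {p | Bad A (ε - η) F p} := (isOpen_bad hFc).measurableSet
  have hsub : Ioo a b \ {p | Bad A (ε - η) F p} ⊆ Icc a b := fun x hx =>
    Ioo_subset_Icc_self hx.1
  have hsub2 : Ioo a b ∩ {p | Bad A (ε - η) F p} ⊆ Icc a b := fun x hx =>
    Ioo_subset_Icc_self hx.1
  have h1 := int_diff_affine hF hF' hw hη h ha hb 0 1
  simp only [zero_mul, zero_add, mul_one] at h1
  have h2 : ∫ p in Ioo a b \ {p | Bad A (ε - η) F p}, |w p - ε| ≤
      ∫ p in Ioo a b \ {p | Bad A (ε - η) F p}, ((w p - ε) + 2 * η) := by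
    refine setIntegral_mono_on (integrableOn_of_cont (by fun_prop) hsub)
      (integrableOn_of_cont (by fun_prop) hsub) (measurableSet_Ioo.diff hmeas) ?_
    intro p hp
    have h3 : ε - η ≤ w p := second_ge (A := A) hF (hF' p)
      ⟨ha.trans hp.1.1, hp.1.2.trans hb⟩ hp.2
    rw [abs_le]
    constructor <;> linarith
  have hi1 : IntegrableOn (fun p => w p - ε) (Ioo a b \ {p | Bad A (ε - η) F p}) :=
    integrableOn_of_cont (by fun_prop) hsub
  have hi2 : IntegrableOn (fun _ : ℝ => 2 * η) (Ioo a b \ {p | Bad A (ε - η) F p}) :=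
    integrableOn_of_cont (by fun_prop) hsub
  rw [integral_add hi1 hi2, h1] at h2
  -- total length
  have hi3 : IntegrableOn (fun _ : ℝ => (1 : ℝ)) (Ioo a b) :=
    integrableOn_of_cont (by fun_prop) Ioo_subset_Icc_self
  have h4 := integral_inter_add_sdiff hmeas hi3
  have h5 : ∫ _ in Ioo a b, (1 : ℝ) = b - a := by
    rw [← integral_Ioc_eq_integral_Ioo, ← intervalIntegral.integral_of_le h.lt.le]
    simp
  rw [h5] at h4
  have h6 : ∫ _ in Ioo a b \ {p | Bad A (ε - η) F p}, 2 * η =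
      2 * η * ∫ _ in Ioo a b \ {p | Bad A (ε - η) F p}, (1 : ℝ) := by
    rw [← integral_const_mul]; simp
  rw [h6] at h2
  have h7 : 0 ≤ ∫ _ in Ioo a b ∩ {p | Bad A (ε - η) F p}, (1 : ℝ) :=
    integral_nonneg fun _ => zero_le_one
  rw [inter_comm] at h4 h7
  set X := ∫ _ in {p | Bad A (ε - η) F p} ∩ Ioo a b, (1 : ℝ) with hX
  set Y := ∫ _ in Ioo a b \ {p | Bad A (ε - η) F p}, (1 : ℝ) with hY
  have h8 : 0 ≤ η * X := mul_nonneg hη.le h7
  have h9 : 2 * η * (b - a) = 2 * η * X + 2 * η * Y := by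
    rw [← h4]; ring
  linarith

/-- bound on one component -/
theorem comp_bound {A ε M : ℝ} {F F' w : ℝ → ℝ}
    (hF : ∀ p, HasDerivAt F (F' p) p) (hF' : ∀ p, HasDerivAt F' (w p) p) (hw : Continuous w)
    {Φ : ℝ → ℝ} (hΦ : Continuous Φ) {η : ℝ} (hη : 0 < η)
    {a b : ℝ} (h : IsComp {p | Bad A ε F p} a b)
    (hM : ∀ p ∈ Ioo a b \ {p | Bad A (ε - η) F p}, |Φ p| ≤ M) (hM0 : 0 ≤ M)
    (hend : (a = -A ∨ b = A) → ∀ p ∈ Icc a b, Φ p = 0) :
    |η⁻¹ * ∫ p in Ioo a b \ {p | Bad A (ε - η) F p}, (w p - ε) * Φ p| ≤ 2 * M * (b - a) := by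
  have hFc : Continuous F := continuous_iff_continuousAt.2 fun x => (hF x).continuousAt
  have hmeas : MeasurableSet {p | Bad A (ε - η) F p} := (isOpen_bad hFc).measurableSet
  have hsub : Ioo a b \ {p | Bad A (ε - η) F p} ⊆ Icc a b := fun x hx =>
    Ioo_subset_Icc_self hx.1
  have hm := comp_mem h
  have hba : 0 ≤ b - a := by linarith [h.lt]
  by_cases hc : a = -A ∨ b = A
  · have h0 : ∫ p in Ioo a b \ {p | Bad A (ε - η) F p}, (w p - ε) * Φ p = 0 := by
      rw [setIntegral_congr_fun (g := fun _ => (0 : ℝ)) (measurableSet_Ioo.diff hmeas)]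
      · simp
      · intro p hp
        simp [hend hc p (hsub hp)]
    rw [h0, mul_zero, abs_zero]
    positivity
  · push Not at hc
    have ha : -A < a := lt_of_le_of_ne hm.1 (Ne.symm hc.1)
    have hb : b < A := lt_of_le_of_ne hm.2 hc.2
    have h1 : |∫ p in Ioo a b \ {p | Bad A (ε - η) F p}, (w p - ε) * Φ p| ≤
        ∫ p in Ioo a b \ {p | Bad A (ε - η) F p}, |w p - ε| * M := by
      refine (abs_integral_le_integral_abs).trans ?_
      refine setIntegral_mono_on (integrableOn_of_cont (by fun_prop) hsub)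
        (integrableOn_of_cont (by fun_prop) hsub) (measurableSet_Ioo.diff hmeas) ?_
      intro p hp
      rw [abs_mul]
      exact mul_le_mul_of_nonneg_left (hM p hp) (abs_nonneg _)
    rw [integral_mul_const] at h1
    have h2 := abs_diff_le hF hF' hw hη h ha hb
    rw [abs_mul, abs_inv, abs_of_pos hη]
    have h3 : |∫ p in Ioo a b \ {p | Bad A (ε - η) F p}, (w p - ε) * Φ p| ≤
        2 * η * (b - a) * M := h1.trans (mul_le_mul_of_nonneg_right h2 hM0)
    calc η⁻¹ * |∫ p in Ioo a b \ {p | Bad A (ε - η) F p}, (w p - ε) * Φ p|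
        ≤ η⁻¹ * (2 * η * (b - a) * M) := mul_le_mul_of_nonneg_left h3 (inv_nonneg.2 hη.le)
      _ = 2 * M * (b - a) := by field_simp

theorem interp_left {Φ : ℝ → ℝ} {a b : ℝ} (hab : a < b) : interp Φ a b a = Φ a := by
  have : b - a ≠ 0 := by linarith
  simp only [interp, sub_self, zero_mul, add_zero]
  field_simp

theorem interp_right {Φ : ℝ → ℝ} {a b : ℝ} (hab : a < b) : interp Φ a b b = Φ b := by
  have : b - a ≠ 0 := by linarith
  simp only [interp, sub_self, zero_mul, zero_add]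
  field_simp

theorem interp_affine {Φ : ℝ → ℝ} {a b : ℝ} (hab : a < b) (p : ℝ) :
    interp Φ a b p = ((Φ b - Φ a) / (b - a)) * p + (b * Φ a - a * Φ b) / (b - a) := by
  have : b - a ≠ 0 := by linarith
  simp only [interp]
  field_simp
  ring

/-- convergence on one component -/
theorem comp_tendsto {A ε : ℝ} {F F' w : ℝ → ℝ}
    (hF : ∀ p, HasDerivAt F (F' p) p) (hF' : ∀ p, HasDerivAt F' (w p) p) (hw : Continuous w)
    {Φ : ℝ → ℝ} (hΦ : Continuous Φ)
    {a b : ℝ} (h : IsComp {p | Bad A ε F p} a b)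
    (hend : (a = -A ∨ b = A) → ∀ p ∈ Icc a b, Φ p = 0) :
    Tendsto (fun η : ℝ => η⁻¹ *
        ∫ p in Ioo a b \ {p | Bad A (ε - η) F p}, (w p - ε) * Φ p)
      (𝓝[>] 0) (𝓝 (∫ p in Ioo a b, interp Φ a b p)) := by
  have hFc : Continuous F := continuous_iff_continuousAt.2 fun x => (hF x).continuousAt
  have hmeas : ∀ η, MeasurableSet {p | Bad A (ε - η) F p} := fun η =>
    (isOpen_bad hFc).measurableSet
  have hsub : ∀ η, Ioo a b \ {p | Bad A (ε - η) F p} ⊆ Icc a b := fun η x hx =>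
    Ioo_subset_Icc_self hx.1
  have hm := comp_mem h
  have hba : 0 < b - a := by linarith [h.lt]
  by_cases hc : a = -A ∨ b = A
  · have h0 : ∀ η : ℝ, ∫ p in Ioo a b \ {p | Bad A (ε - η) F p}, (w p - ε) * Φ p = 0 := by
      intro η
      rw [setIntegral_congr_fun (g := fun _ => (0 : ℝ)) (measurableSet_Ioo.diff (hmeas η))]
      · simp
      · intro p hp
        simp [hend hc p (hsub η hp)]
    have h1 : ∫ p in Ioo a b, interp Φ a b p = 0 := by
      rw [setIntegral_congr_fun (g := fun _ => (0 : ℝ)) measurableSet_Ioo]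
      · simp
      · intro p _
        simp [interp, hend hc a (left_mem_Icc.2 h.lt.le), hend hc b (right_mem_Icc.2 h.lt.le)]
    simp_rw [h0, h1]
    simp
  push Not at hc
  have ha : -A < a := lt_of_le_of_ne hm.1 (Ne.symm hc.1)
  have hb : b < A := lt_of_le_of_ne hm.2 hc.2
  have hIc : Continuous (interp Φ a b) := by
    have : (interp Φ a b) = fun p =>
        ((Φ b - Φ a) / (b - a)) * p + (b * Φ a - a * Φ b) / (b - a) := by
      funext p; exact interp_affine h.lt p
    rw [this]; fun_prop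
  -- a bound for `interp`
  obtain ⟨M, hM⟩ : ∃ M, ∀ p ∈ Icc a b, |interp Φ a b p| ≤ M := by
    obtain ⟨M, hM⟩ := isCompact_Icc.exists_bound_of_continuousOn (s := Icc a b)
      (f := interp Φ a b) hIc.continuousOn
    exact ⟨M, fun p hp => by simpa using hM p hp⟩
  have hM0 : 0 ≤ M := (abs_nonneg _).trans (hM a (left_mem_Icc.2 h.lt.le))
  rw [Metric.tendsto_nhds]
  intro e he
  -- choose δ
  set δ : ℝ := e / (4 * (b - a)) with hδ
  have hδ0 : 0 < δ := by positivity
  have hD : Continuous fun p => Φ p - interp Φ a b p := hΦ.sub hIc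
  have hDa : Φ a - interp Φ a b a = 0 := by rw [interp_left h.lt]; ring
  have hDb : Φ b - interp Φ a b b = 0 := by rw [interp_right h.lt]; ring
  obtain ⟨τ1, hτ1, hτ1'⟩ : ∃ τ > 0, ∀ p, |p - a| < τ → |Φ p - interp Φ a b p| < δ := by
    have := Metric.continuous_iff.1 hD a δ hδ0
    obtain ⟨τ, hτ, h1⟩ := this
    refine ⟨τ, hτ, fun p hp => ?_⟩
    have := h1 p (by rwa [Real.dist_eq])
    rwa [hDa, Real.dist_eq, sub_zero] at this
  obtain ⟨τ2, hτ2, hτ2'⟩ : ∃ τ > 0, ∀ p, |p - b| < τ → |Φ p - interp Φ a b p| < δ := by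
    have := Metric.continuous_iff.1 hD b δ hδ0
    obtain ⟨τ, hτ, h1⟩ := this
    refine ⟨τ, hτ, fun p hp => ?_⟩
    have := h1 p (by rwa [Real.dist_eq])
    rwa [hDb, Real.dist_eq, sub_zero] at this
  set τ : ℝ := min (min τ1 τ2) (min (e / (8 * (M + 1))) ((b - a) / 2)) with hτ
  have hτ0 : 0 < τ := by
    refine lt_min (lt_min hτ1 hτ2) (lt_min (by positivity) (by linarith))
  have hτa : τ ≤ τ1 := (min_le_left _ _).trans (min_le_left _ _)
  have hτb : τ ≤ τ2 := (min_le_left _ _).trans (min_le_right _ _)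
  have hτe : τ ≤ e / (8 * (M + 1)) := (min_le_right _ _).trans (min_le_left _ _)
  obtain ⟨ε', hε', hK⟩ := bad_compact (A := A) (ε := ε) (F := F) hFc
    (isCompact_Icc (a := a + τ) (b := b - τ))
    (fun p hp => h.sub ⟨by linarith [hp.1], by linarith [hp.2]⟩)
  have hev : ∀ᶠ η in 𝓝[>] (0 : ℝ), η < ε - ε' := by
    have : Iio (ε - ε') ∈ 𝓝 (0 : ℝ) := Iio_mem_nhds (by linarith)
    exact mem_nhdsWithin_of_mem_nhds this
  filter_upwards [hev, self_mem_nhdsWithin] with η hη1 hη0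
  have hη0 : 0 < η := hη0
  -- points of the complement are near the ends
  have hnear : ∀ p ∈ Ioo a b \ {p | Bad A (ε - η) F p}, p < a + τ ∨ b - τ < p := by
    intro p hp
    by_contra hcon
    push Not at hcon
    exact hp.2 (Bad.mono (by linarith) (hK p ⟨hcon.1, hcon.2⟩))
  have hsmall : ∀ p ∈ Ioo a b \ {p | Bad A (ε - η) F p}, |Φ p - interp Φ a b p| ≤ δ := by
    intro p hp
    rcases hnear p hp with h1 | h1
    · refine (hτ1' p ?_).le
      rw [abs_lt]; constructor <;> linarith [hp.1.1]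
    · refine (hτ2' p ?_).le
      rw [abs_lt]; constructor <;> linarith [hp.1.2]
  have hi1 : IntegrableOn (fun p => (w p - ε) * (Φ p - interp Φ a b p))
      (Ioo a b \ {p | Bad A (ε - η) F p}) := integrableOn_of_cont (by fun_prop) (hsub η)
  have hi2 : IntegrableOn (fun p => (w p - ε) * interp Φ a b p)
      (Ioo a b \ {p | Bad A (ε - η) F p}) := integrableOn_of_cont (by fun_prop) (hsub η)
  have h1 : ∫ p in Ioo a b \ {p | Bad A (ε - η) F p}, (w p - ε) * Φ p =
      (∫ p in Ioo a b \ {p | Bad A (ε - η) F p}, (w p - ε) * (Φ p - interp Φ a b p)) +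
      ∫ p in Ioo a b \ {p | Bad A (ε - η) F p}, (w p - ε) * interp Φ a b p := by
    rw [← integral_add hi1 hi2]
    congr 1
    funext p; ring
  have h2 : ∫ p in Ioo a b \ {p | Bad A (ε - η) F p}, (w p - ε) * interp Φ a b p =
      η * ∫ p in {p | Bad A (ε - η) F p} ∩ Ioo a b, interp Φ a b p := by
    simp_rw [interp_affine (Φ := Φ) h.lt]
    exact int_diff_affine hF hF' hw hη0 h ha hb _ _
  have hi3 : IntegrableOn (interp Φ a b) (Ioo a b) :=
    integrableOn_of_cont hIc Ioo_subset_Icc_self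
  have h3 := integral_inter_add_sdiff (hmeas η) hi3
  rw [inter_comm] at h3
  -- first error term: use `abs_diff_le`
  have h4 : |∫ p in Ioo a b \ {p | Bad A (ε - η) F p}, (w p - ε) * (Φ p - interp Φ a b p)| ≤
      2 * η * (b - a) * δ := by
    have h5 : |∫ p in Ioo a b \ {p | Bad A (ε - η) F p}, (w p - ε) * (Φ p - interp Φ a b p)| ≤
        ∫ p in Ioo a b \ {p | Bad A (ε - η) F p}, |w p - ε| * δ := by
      refine (abs_integral_le_integral_abs).trans ?_
      refine setIntegral_mono_on (integrableOn_of_cont (by fun_prop) (hsub η))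
        (integrableOn_of_cont (by fun_prop) (hsub η)) (measurableSet_Ioo.diff (hmeas η)) ?_
      intro p hp
      rw [abs_mul]
      exact mul_le_mul_of_nonneg_left (hsmall p hp) (abs_nonneg _)
    rw [integral_mul_const] at h5
    exact h5.trans (mul_le_mul_of_nonneg_right (abs_diff_le hF hF' hw hη0 h ha hb) hδ0.le)
  -- second error term
  have h6 : |∫ p in Ioo a b \ {p | Bad A (ε - η) F p}, interp Φ a b p| ≤ M * (2 * τ) := by
    have hsub3 : Ioo a b \ {p | Bad A (ε - η) F p} ⊆ Ioc a (a + τ) ∪ Ico (b - τ) b := by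
      intro p hp
      rcases hnear p hp with h1 | h1
      · exact Or.inl ⟨hp.1.1, h1.le⟩
      · exact Or.inr ⟨h1.le, hp.1.2⟩
    have hvol : (volume (Ioo a b \ {p | Bad A (ε - η) F p})).toReal ≤ 2 * τ := by
      have h7 : volume (Ioo a b \ {p | Bad A (ε - η) F p}) ≤ ENNReal.ofReal (2 * τ) := by
        refine (measure_mono hsub3).trans ((measure_union_le _ _).trans ?_)
        rw [Real.volume_Ioc, Real.volume_Ico, ← ENNReal.ofReal_add (by linarith) (by linarith)]
        apply ENNReal.ofReal_le_ofReal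
        linarith
      have := ENNReal.toReal_mono ENNReal.ofReal_ne_top h7
      rwa [ENNReal.toReal_ofReal (by linarith)] at this
    have hfin : volume (Ioo a b \ {p | Bad A (ε - η) F p}) < ⊤ :=
      (measure_mono (hsub η)).trans_lt (by rw [Real.volume_Icc]; exact ENNReal.ofReal_lt_top)
    have h8 := norm_setIntegral_le_of_norm_le_const (μ := volume) (f := interp Φ a b) (C := M)
      hfin (fun p hp => by simpa using hM p (hsub η hp))
    rw [Real.norm_eq_abs] at h8
    refine h8.trans ?_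
    exact mul_le_mul_of_nonneg_left (by simpa [Measure.real] using hvol) hM0
  rw [Real.dist_eq]
  have h9 : η⁻¹ * ∫ p in Ioo a b \ {p | Bad A (ε - η) F p}, (w p - ε) * Φ p =
      η⁻¹ * (∫ p in Ioo a b \ {p | Bad A (ε - η) F p}, (w p - ε) * (Φ p - interp Φ a b p)) +
      ∫ p in {p | Bad A (ε - η) F p} ∩ Ioo a b, interp Φ a b p := by
    rw [h1, h2, mul_add, ← mul_assoc, inv_mul_cancel₀ hη0.ne', one_mul]
  rw [h9, ← h3]
  have h10 : |η⁻¹ * ∫ p in Ioo a b \ {p | Bad A (ε - η) F p},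
      (w p - ε) * (Φ p - interp Φ a b p)| ≤ 2 * (b - a) * δ := by
    rw [abs_mul, abs_inv, abs_of_pos hη0]
    calc η⁻¹ * _ ≤ η⁻¹ * (2 * η * (b - a) * δ) :=
          mul_le_mul_of_nonneg_left h4 (inv_nonneg.2 hη0.le)
      _ = 2 * (b - a) * δ := by field_simp
  have h11 : 2 * (b - a) * δ = e / 2 := by
    rw [hδ]; field_simp; norm_num
  have h12 : M * (2 * τ) ≤ e / 4 := by
    calc M * (2 * τ) ≤ M * (2 * (e / (8 * (M + 1)))) := by gcongr
      _ = (e / 4) * (M / (M + 1)) := by field_simp; ring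
      _ ≤ (e / 4) * 1 := by
          apply mul_le_mul_of_nonneg_left _ (by positivity)
          rw [div_le_one (by linarith)]; linarith
      _ = e / 4 := mul_one _
  rw [abs_le] at h10 h6
  rw [abs_lt]
  constructor <;> linarith [h10.1, h10.2, h6.1, h6.2]

end T15aux

open T15aux

/-- decomposition of the integral over `V \ V'` -/
theorem T15aux.decomp {A : ℝ} {V V' : Set ℝ} (hV' : MeasurableSet V')
    {S : Set (ℝ × ℝ)} (hS : S.Countable)
    (hd : S.PairwiseDisjoint (fun I => Ioo I.1 I.2)) (hVS : V = ⋃ I ∈ S, Ioo I.1 I.2)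
    (hb : V ⊆ Ioo (-A) A) {f : ℝ → ℝ} (hf : Continuous f) :
    HasSum (fun I : S => ∫ p in Ioo I.1.1 I.1.2 \ V', f p) (∫ p in V \ V', f p) := by
  have : Countable S := hS.to_subtype
  have e : V \ V' = ⋃ I : S, (Ioo I.1.1 I.1.2 \ V') := by
    rw [hVS, biUnion_eq_iUnion, iUnion_sdiff]
  rw [e]
  apply hasSum_integral_iUnion
  · intro I; exact measurableSet_Ioo.diff hV'
  · intro I J hIJ
    have := hd I.2 J.2 (fun h => hIJ (Subtype.ext h))
    exact this.mono sdiff_subset sdiff_subset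
  · rw [← e]
    exact T15aux.integrableOn_of_cont hf
      (fun x hx => Ioo_subset_Icc_self (hb hx.1) : V \ V' ⊆ Icc (-A) A)

/-- [T15] Growth of the bad set in one dimension. -/
theorem growth_1d {A ε : ℝ} (hA : 0 < A) (hε : 0 < ε) {F F' w : ℝ → ℝ}
    (hF : ∀ p, HasDerivAt F (F' p) p) (hF' : ∀ p, HasDerivAt F' (w p) p) (hw : Continuous w)
    {Φ : ℝ → ℝ} (hΦ : Continuous Φ)
    (hend : ∀ a b, IsComp {p | Bad A ε F p} a b → (a = -A ∨ b = A) → ∀ p ∈ Icc a b, Φ p = 0) :
    Tendsto (fun η : ℝ => η⁻¹ *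
        ∫ p in {p | Bad A ε F p} \ {p | Bad A (ε - η) F p}, (w p - ε) * Φ p)
      (𝓝[>] 0) (𝓝 (∫ p in {p | Bad A ε F p}, hat {p | Bad A ε F p} Φ p)) := by
  have hFc : Continuous F := continuous_iff_continuousAt.2 fun x => (hF x).continuousAt
  have hV : IsOpen {p | Bad A ε F p} := isOpen_bad hFc
  have hb : {p | Bad A ε F p} ⊆ Ioo (-A) A := fun p hp => Bad.mem hp
  have hmeas : ∀ η, MeasurableSet {p | Bad A (ε - η) F p} := fun η =>
    (isOpen_bad hFc).measurableSet
  obtain ⟨S, hS, hSc, hSd, hSV⟩ := exists_comps hV hb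
  obtain ⟨M, hM⟩ : ∃ M, ∀ p ∈ Icc (-A) A, |Φ p| ≤ M := by
    obtain ⟨M, hM⟩ := isCompact_Icc.exists_bound_of_continuousOn (s := Icc (-A) A)
      (f := Φ) hΦ.continuousOn
    exact ⟨M, fun p hp => by simpa using hM p hp⟩
  have hM0 : 0 ≤ M := (abs_nonneg _).trans (hM 0 ⟨by linarith, by linarith⟩)
  -- lengths are summable
  have hlen : HasSum (fun I : S => ∫ _ in Ioo I.1.1 I.1.2 \ (∅ : Set ℝ), (1 : ℝ))
      (∫ _ in {p | Bad A ε F p} \ (∅ : Set ℝ), (1 : ℝ)) :=
    T15aux.decomp (A := A) MeasurableSet.empty hS hSd hSV hb continuous_const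
  have hlen' : ∀ I : S, ∫ _ in Ioo I.1.1 I.1.2 \ (∅ : Set ℝ), (1 : ℝ) = I.1.2 - I.1.1 := by
    intro I
    rw [sdiff_empty, ← integral_Ioc_eq_integral_Ioo,
      ← intervalIntegral.integral_of_le (hSc I.1 I.2).lt.le]
    simp
  have hsum : Summable fun I : S => 2 * M * (I.1.2 - I.1.1) := by
    have := hlen.summable
    simp_rw [hlen'] at this
    exact this.mul_left _
  -- limit integral as a sum
  have hlim : ∫ p in {p | Bad A ε F p}, hat {p | Bad A ε F p} Φ p =
      ∑' I : S, ∫ p in Ioo I.1.1 I.1.2, interp Φ I.1.1 I.1.2 p := by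
    have hcount : Countable S := hS.to_subtype
    have e : {p | Bad A ε F p} = ⋃ I : S, Ioo I.1.1 I.1.2 := by
      rw [hSV, biUnion_eq_iUnion]
    have hcongr : ∀ I : S, ∫ p in Ioo I.1.1 I.1.2, hat {p | Bad A ε F p} Φ p =
        ∫ p in Ioo I.1.1 I.1.2, interp Φ I.1.1 I.1.2 p := by
      intro I
      refine setIntegral_congr_fun measurableSet_Ioo ?_
      intro p hp
      simp only [hat]
      rw [(hSc I.1 I.2).lft_eq hp, (hSc I.1 I.2).rgt_eq hp]
    have hmh : ∀ I : S, AEStronglyMeasurable (hat {p | Bad A ε F p} Φ)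
        (volume.restrict (Ioo I.1.1 I.1.2)) := by
      intro I
      have hc : Continuous (interp Φ I.1.1 I.1.2) := by
        have : (interp Φ I.1.1 I.1.2) = fun p => ((Φ I.1.2 - Φ I.1.1) / (I.1.2 - I.1.1)) * p +
            (I.1.2 * Φ I.1.1 - I.1.1 * Φ I.1.2) / (I.1.2 - I.1.1) := by
          funext p; exact T15aux.interp_affine (hSc I.1 I.2).lt p
        rw [this]; fun_prop
      refine (hc.aestronglyMeasurable).congr ?_
      rw [Filter.EventuallyEq, ae_restrict_iff' measurableSet_Ioo]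
      refine Eventually.of_forall fun p hp => ?_
      simp only [hat]
      rw [(hSc I.1 I.2).lft_eq hp, (hSc I.1 I.2).rgt_eq hp]
    have hint : IntegrableOn (hat {p | Bad A ε F p} Φ) (⋃ I : S, Ioo I.1.1 I.1.2) := by
      have hae : AEStronglyMeasurable (hat {p | Bad A ε F p} Φ)
          (volume.restrict (⋃ I : S, Ioo I.1.1 I.1.2)) :=
        (aestronglyMeasurable_iUnion_iff).2 hmh
      have hfin : volume (⋃ I : S, Ioo I.1.1 I.1.2) < ⊤ := by
        rw [← e]
        exact (measure_mono hb).trans_lt (by rw [Real.volume_Ioo]; exact ENNReal.ofReal_lt_top)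
      have : IsFiniteMeasure (volume.restrict (⋃ I : S, Ioo I.1.1 I.1.2)) :=
        ⟨by rwa [Measure.restrict_apply_univ]⟩
      refine Integrable.of_bound hae M ?_
      rw [← e, ae_restrict_iff' hV.measurableSet]
      refine Eventually.of_forall fun p hp => ?_
      rw [Real.norm_eq_abs]
      exact abs_hat_le hV hb hM hp
    have h1 := integral_iUnion (μ := volume) (s := fun I : S => Ioo I.1.1 I.1.2)
      (f := hat {p | Bad A ε F p} Φ) (fun I => measurableSet_Ioo)
      (fun I J hIJ => hSd I.2 J.2 (fun h => hIJ (Subtype.ext h))) hint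
    rw [← e] at h1
    rw [h1]
    exact tsum_congr hcongr
  rw [hlim]
  have hdec : ∀ η : ℝ, η⁻¹ *
      ∫ p in {p | Bad A ε F p} \ {p | Bad A (ε - η) F p}, (w p - ε) * Φ p =
      ∑' I : S, η⁻¹ * ∫ p in Ioo I.1.1 I.1.2 \ {p | Bad A (ε - η) F p}, (w p - ε) * Φ p := by
    intro η
    have := T15aux.decomp (A := A) (hmeas η) hS hSd hSV hb
      (f := fun p => (w p - ε) * Φ p) (by fun_prop)
    exact ((this.mul_left η⁻¹).tsum_eq).symm
  simp_rw [hdec]
  refine tendsto_tsum_of_dominated_convergence hsum ?_ ?_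
  · intro I
    exact T15aux.comp_tendsto hF hF' hw hΦ (hSc I.1 I.2) (hend _ _ (hSc I.1 I.2))
  · filter_upwards [self_mem_nhdsWithin] with η hη I
    rw [Real.norm_eq_abs]
    have hc := hSc I.1 I.2
    exact T15aux.comp_bound hF hF' hw hΦ hη hc
      (fun p hp => hM p ⟨(comp_mem hc).1.trans hp.1.1.le, hp.1.2.le.trans (comp_mem hc).2⟩) hM0
      (hend _ _ hc)

theorem growth_1d_bound {A ε M : ℝ} (hA : 0 < A) (hε : 0 < ε) {F F' w : ℝ → ℝ}
    (hF : ∀ p, HasDerivAt F (F' p) p) (hF' : ∀ p, HasDerivAt F' (w p) p) (hw : Continuous w)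
    {Φ : ℝ → ℝ} (hΦ : Continuous Φ) (hM : ∀ p ∈ Icc (-A) A, |Φ p| ≤ M)
    (hend : ∀ a b, IsComp {p | Bad A ε F p} a b → (a = -A ∨ b = A) → ∀ p ∈ Icc a b, Φ p = 0)
    {η : ℝ} (hη : 0 < η) :
    |η⁻¹ * ∫ p in {p | Bad A ε F p} \ {p | Bad A (ε - η) F p}, (w p - ε) * Φ p| ≤ 4 * A * M := by
  have hFc : Continuous F := continuous_iff_continuousAt.2 fun x => (hF x).continuousAt
  have hV : IsOpen {p | Bad A ε F p} := isOpen_bad hFc
  have hb : {p | Bad A ε F p} ⊆ Ioo (-A) A := fun p hp => Bad.mem hp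
  have hmeas : ∀ η, MeasurableSet {p | Bad A (ε - η) F p} := fun η =>
    (isOpen_bad hFc).measurableSet
  obtain ⟨S, hS, hSc, hSd, hSV⟩ := exists_comps hV hb
  have hM0 : 0 ≤ M := (abs_nonneg _).trans (hM 0 ⟨by linarith, by linarith⟩)
  have hlen : HasSum (fun I : S => ∫ _ in Ioo I.1.1 I.1.2 \ (∅ : Set ℝ), (1 : ℝ))
      (∫ _ in {p | Bad A ε F p} \ (∅ : Set ℝ), (1 : ℝ)) :=
    T15aux.decomp (A := A) MeasurableSet.empty hS hSd hSV hb continuous_const
  have hlen' : ∀ I : S, ∫ _ in Ioo I.1.1 I.1.2 \ (∅ : Set ℝ), (1 : ℝ) = I.1.2 - I.1.1 := by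
    intro I
    rw [sdiff_empty, ← integral_Ioc_eq_integral_Ioo,
      ← intervalIntegral.integral_of_le (hSc I.1 I.2).lt.le]
    simp
  have htot : ∫ _ in {p | Bad A ε F p} \ (∅ : Set ℝ), (1 : ℝ) ≤ 2 * A := by
    rw [sdiff_empty]
    have h1 : ∫ _ in {p | Bad A ε F p}, (1 : ℝ) ≤ ∫ _ in Ioo (-A) A, (1 : ℝ) := by
      refine setIntegral_mono_set ?_ ?_ ?_
      · exact T15aux.integrableOn_of_cont continuous_const Ioo_subset_Icc_self
      · exact Eventually.of_forall fun _ => zero_le_one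
      · exact Eventually.of_forall hb
    have h2 : ∫ _ in Ioo (-A) A, (1 : ℝ) = 2 * A := by
      rw [← integral_Ioc_eq_integral_Ioo, ← intervalIntegral.integral_of_le (by linarith)]
      simp; ring
    linarith
  have hsum : Summable fun I : S => 2 * M * (I.1.2 - I.1.1) := by
    have := hlen.summable
    simp_rw [hlen'] at this
    exact this.mul_left _
  have hbd : ∀ I : S, ‖η⁻¹ * ∫ p in Ioo I.1.1 I.1.2 \ {p | Bad A (ε - η) F p},
      (w p - ε) * Φ p‖ ≤ 2 * M * (I.1.2 - I.1.1) := by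
    intro I
    rw [Real.norm_eq_abs]
    have hc := hSc I.1 I.2
    exact T15aux.comp_bound hF hF' hw hΦ hη hc
      (fun p hp => hM p ⟨(comp_mem hc).1.trans hp.1.1.le, hp.1.2.le.trans (comp_mem hc).2⟩) hM0
      (hend _ _ hc)
  have hdec := T15aux.decomp (A := A) (hmeas η) hS hSd hSV hb
      (f := fun p => (w p - ε) * Φ p) (by fun_prop)
  rw [← (hdec.mul_left η⁻¹).tsum_eq, ← Real.norm_eq_abs]
  refine (tsum_of_norm_bounded hsum.hasSum hbd).trans ?_
  have h3 : ∑' I : S, 2 * M * (I.1.2 - I.1.1) =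
      2 * M * ∫ _ in {p | Bad A ε F p} \ (∅ : Set ℝ), (1 : ℝ) := by
    rw [tsum_mul_left, ← hlen.tsum_eq]
    congr 1
    exact tsum_congr fun I => (hlen' I).symm
  rw [h3]
  calc 2 * M * ∫ _ in {p | Bad A ε F p} \ (∅ : Set ℝ), (1 : ℝ) ≤ 2 * M * (2 * A) := by
        exact mul_le_mul_of_nonneg_left htot (by positivity)
    _ = 4 * A * M := by ring

end Pool.Agent.MP_4aaa5f_an
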