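import Pool.Agent.MP_4aaa5f_an.Defs
import Pool.Agent.MP_4aaa5f_an.T10
import Pool.Agent.MP_4aaa5f_an.T11
import Pool.Agent.MP_4aaa5f_an.T15

set_option autoImplicit false

namespace Pool.Agent.MP_4aaa5f_an

open MeasureTheory Set Filter Topology

/-- [T16] Growth of the bad set in two dimensions. -/
theorem growth {l : ℝ} (hl0 : 0 < l) (hl1 : l < 1) {G Gp w Gy φ : ℝ → ℝ → ℝ}
    (hS : Sol l 50 G Gp w Gy φ) {ε : ℝ} (hε : 0 < ε) {Φ : ℝ → ℝ → ℝ}
    (hΦ : Continuous fun z : ℝ × ℝ => Φ z.1 z.2) (hΦ0 : ∀ p y, 3 ≤ |p| ∨ 3 ≤ |y| → Φ p y = 0)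
    (hshort : ∀ y, |y| ≤ 3 → ∀ α β, IsComp {p | Bad 4 ε (fun p => G p y) p} α β → β - α ≤ 1 / 2) :
    Tendsto (fun η : ℝ => η⁻¹ *
        ∫ z in BadSet 4 ε G \ BadSet 4 (ε - η) G, (w z.1 z.2 - ε) * Φ z.1 z.2)
      (𝓝[>] 0) (𝓝 (∫ z in BadSet 4 ε G, hat2 (BadSet 4 ε G) Φ z)) := by
  -- basic facts
  have hop : ∀ e, IsOpen (BadSet 4 e G) := fun e => isOpen_badSet hS.cG
  have hsubV : ∀ e, BadSet 4 e G ⊆ Ioo (-4) 4 ×ˢ univ := fun e z hz =>
    ⟨Bad.mem hz, mem_univ _⟩
  -- a bound for Φ
  have hcpt : IsCompact (Icc (-4:ℝ) 4 ×ˢ Icc (-4:ℝ) 4) := isCompact_Icc.prod isCompact_Icc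
  obtain ⟨M0, hM0⟩ := hcpt.exists_bound_of_continuousOn hΦ.continuousOn
  set M := max M0 0 with hMdef
  have hMnn : 0 ≤ M := le_max_right _ _
  have hM : ∀ p y, |Φ p y| ≤ M := by
    intro p y
    by_cases hp : 3 ≤ |p| ∨ 3 ≤ |y|
    · rw [hΦ0 p y hp]; simpa using hMnn
    · push Not at hp
      have h1 := abs_lt.1 hp.1
      have h2 := abs_lt.1 hp.2
      have := hM0 (p, y) ⟨⟨by linarith [h1.1], by linarith [h1.2]⟩,
        ⟨by linarith [h2.1], by linarith [h2.2]⟩⟩
      exact le_trans this (le_max_left _ _)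
  -- the function (w-ε)Φ is integrable
  set f : ℝ × ℝ → ℝ := fun z => (w z.1 z.2 - ε) * Φ z.1 z.2 with hf
  have hfc : Continuous f := (hS.cw.sub continuous_const).mul hΦ
  have hfint : Integrable f := by
    refine hfc.integrable_of_hasCompactSupport ?_
    refine HasCompactSupport.intro hcpt ?_
    intro z hz
    have : 3 ≤ |z.1| ∨ 3 ≤ |z.2| := by
      by_contra hcon
      push Not at hcon
      have h1 := abs_lt.1 hcon.1
      have h2 := abs_lt.1 hcon.2
      exact hz ⟨⟨by linarith [h1.1], by linarith [h1.2]⟩, ⟨by linarith [h2.1], by linarith [h2.2]⟩⟩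
    simp [hf, hΦ0 _ _ this]
  -- hat2 V Φ
  set V := BadSet 4 ε G with hV
  have hVm : MeasurableSet V := (hop ε).measurableSet
  have hslice_open : ∀ e y, IsOpen {p | Bad 4 e (fun p => G p y) p} := by
    intro e y
    exact isOpen_bad (hS.cG.comp (by fun_prop : Continuous fun p : ℝ => (p, y)))
  have hslice_sub : ∀ e y, {p | Bad 4 e (fun p => G p y) p} ⊆ Ioo (-4) 4 := fun e y p hp =>
    Bad.mem hp
  have hhat_le : ∀ z ∈ V, |hat2 V Φ z| ≤ M := by
    intro z hz
    exact abs_hat_le (A := 4) (hslice_open ε z.2) (hslice_sub ε z.2) (fun x _ => hM x z.2) hz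
  have hhat_zero : ∀ z : ℝ × ℝ, 3 ≤ |z.2| → hat2 V Φ z = 0 := by
    intro z hz
    unfold hat2 hat interp
    simp [hΦ0 _ z.2 (Or.inr hz)]
  have hhat_int : IntegrableOn (hat2 V Φ) V := by
    have hb : Integrable (indicator (Icc (-4:ℝ) 4 ×ˢ Icc (-4:ℝ) 4) (fun _ : ℝ × ℝ => M)) := by
      refine (integrable_indicator_iff (measurableSet_Icc.prod measurableSet_Icc)).2 ?_
      exact (continuousOn_const).integrableOn_compact hcpt
    refine Integrable.mono' hb.integrableOn ?_ ?_
    · exact (measurable_hat2 (A := 4) (hop ε) (hsubV ε) hΦ).aestronglyMeasurable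
    · refine (ae_restrict_iff' hVm).2 (Eventually.of_forall ?_)
      intro z hz
      by_cases h3 : 3 ≤ |z.2|
      · rw [hhat_zero z h3]
        simp only [norm_zero]
        exact indicator_nonneg (fun _ _ => hMnn) _
      · push Not at h3
        have h2 := abs_lt.1 h3
        have h1 := (hsubV ε hz).1
        rw [indicator_of_mem]
        · exact hhat_le z hz
        · exact ⟨⟨h1.1.le, h1.2.le⟩, ⟨by linarith [h2.1], by linarith [h2.2]⟩⟩
  -- slices
  have hD : ∀ η : ℝ, MeasurableSet (V \ BadSet 4 (ε - η) G) := fun η =>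
    hVm.diff (hop _).measurableSet
  have e1 : ∀ η : ℝ, η⁻¹ * ∫ z in V \ BadSet 4 (ε - η) G, (w z.1 z.2 - ε) * Φ z.1 z.2
      = ∫ y, η⁻¹ * ∫ p in {p | (p, y) ∈ V \ BadSet 4 (ε - η) G}, f (p, y) := by
    intro η
    rw [integral_const_mul, ← setIntegral_slices (hD η) hfint.integrableOn]
  have e2 : ∫ z in V, hat2 V Φ z = ∫ y, ∫ p in {p | (p, y) ∈ V}, hat2 V Φ (p, y) :=
    setIntegral_slices hVm hhat_int
  rw [e2]
  refine Tendsto.congr (fun η => (e1 η).symm) ?_
  have hsl : ∀ (S : Set (ℝ × ℝ)), MeasurableSet S → ∀ y,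
      MeasurableSet {p : ℝ | (p, y) ∈ S} := fun S hS y =>
    hS.preimage (by fun_prop : Measurable fun p : ℝ => (p, y))
  refine tendsto_integral_filter_of_dominated_convergence
    (indicator (Icc (-3:ℝ) 3) (fun _ => 16 * M)) ?_ ?_ ?_ ?_
  · refine Eventually.of_forall fun η => ?_
    have hint : Integrable (fun z : ℝ × ℝ => (indicator (V \ BadSet 4 (ε - η) G) f) z.swap) := by
      have := (integrable_indicator_iff (hD η)).2 (hfint.integrableOn (s := V \ BadSet 4 (ε - η) G))
      exact this.swap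
    have h1 := hint.integral_prod_left
    have h2 := (h1.aestronglyMeasurable).const_mul η⁻¹
    refine h2.congr ?_
    refine Eventually.of_forall fun y => ?_
    simp only
    congr 1
    rw [← integral_indicator (hsl _ (hD η) y)]
    rfl
  · refine eventually_nhdsWithin_of_forall fun η hη => ?_
    refine Eventually.of_forall fun y => ?_
    by_cases hy : |y| < 3
    · have h2 := abs_lt.1 hy
      have hyI : y ∈ Icc (-3:ℝ) 3 := ⟨h2.1.le, h2.2.le⟩
      rw [indicator_of_mem hyI]
      have := growth_1d_bound (A := 4) (M := M) (by norm_num) hε (F := fun p => G p y)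
        (F' := fun p => Gp p y) (w := fun p => w p y) (fun p => hS.dG p y) (fun p => hS.dGp p y)
        (hS.cw.comp (by fun_prop : Continuous fun p : ℝ => (p, y)))
        (Φ := fun p => Φ p y) (hΦ.comp (by fun_prop : Continuous fun p : ℝ => (p, y)))
        (fun p _ => hM p y) ?_ (η := η) hη
      · rw [Real.norm_eq_abs]
        refine le_trans (le_of_eq ?_) (le_trans this (le_of_eq (by norm_num)))
        rfl
      · intro a b hab hor p hp
        have hlen := hshort y hy.le a b hab
        have hmem := comp_mem hab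
        refine hΦ0 p y (Or.inl ?_)
        rcases hor with h | h
        · rw [le_abs]; right; linarith [hp.2]
        · rw [le_abs]; left; linarith [hp.1]
    · push Not at hy
      have : ∀ p, f (p, y) = 0 := by
        intro p
        simp [hf, hΦ0 p y (Or.inr hy)]
      simp only [this, integral_zero, mul_zero, norm_zero]
      exact indicator_nonneg (fun _ _ => by positivity) _
  · refine (integrable_indicator_iff measurableSet_Icc).2 ?_
    exact (continuousOn_const).integrableOn_compact isCompact_Icc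
  · refine Eventually.of_forall fun y => ?_
    by_cases hy : |y| < 3
    · exact growth_1d (A := 4) (by norm_num) hε (F := fun p => G p y)
        (F' := fun p => Gp p y) (w := fun p => w p y) (fun p => hS.dG p y) (fun p => hS.dGp p y)
        (hS.cw.comp (by fun_prop : Continuous fun p : ℝ => (p, y)))
        (Φ := fun p => Φ p y) (hΦ.comp (by fun_prop : Continuous fun p : ℝ => (p, y)))
        (fun a b hab hor p hp => by
          have hlen := hshort y hy.le a b hab
          have hmem := comp_mem hab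
          refine hΦ0 p y (Or.inl ?_)
          rcases hor with h | h
          · rw [le_abs]; right; linarith [hp.2]
          · rw [le_abs]; left; linarith [hp.1])
    · push Not at hy
      have h0 : ∀ p, f (p, y) = 0 := by
        intro p
        simp [hf, hΦ0 p y (Or.inr hy)]
      have h1 : ∀ p, hat2 V Φ (p, y) = 0 := fun p => hhat_zero (p, y) hy
      simp only [h0, h1, integral_zero, mul_zero]
      exact tendsto_const_nhds

end Pool.Agent.MP_4aaa5f_an
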