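import Pool.Agent.MP_4aaa5f_an.Defs

set_option autoImplicit false

namespace Pool.Agent.MP_4aaa5f_an

open MeasureTheory Set Filter Topology

/-- [T17] Pointwise inequality. -/
theorem pointwise_ineq {l t ε w φ : ℝ} (hl0 : 0 < l) (hl1 : l < 1) (ht0 : 0 < t) (ht1 : t < l)
    (hε : 0 < ε) (hw : 0 < w) (h1 : l * w ≤ φ) (h2 : φ ≤ l⁻¹ * w) :
    (1 + t) / (1 - t) / ε * ((w - ε) * (ε - t ^ 2 / l * φ)) ≤ w - t ^ 2 / l * φ := by
  have h1t : 0 < 1 - t := by linarith
  set P := t ^ 2 / l * φ with hP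
  have hP1 : t ^ 2 * w ≤ P := by
    have : t ^ 2 / l * (l * w) ≤ t ^ 2 / l * φ :=
      mul_le_mul_of_nonneg_left h1 (by positivity)
    have e : t ^ 2 / l * (l * w) = t ^ 2 * w := by field_simp
    rw [e] at this
    exact this
  have hP2 : P < w := by
    have h3 : t ^ 2 / l * φ ≤ t ^ 2 / l * (l⁻¹ * w) :=
      mul_le_mul_of_nonneg_left h2 (by positivity)
    have e : t ^ 2 / l * (l⁻¹ * w) = (t / l) ^ 2 * w := by field_simp
    have h4 : t / l < 1 := (div_lt_one hl0).2 ht1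
    have h5 : 0 < t / l := div_pos ht0 hl0
    have h6 : (t / l) ^ 2 < 1 := by nlinarith
    have h7 : (t / l) ^ 2 * w < w := by nlinarith
    linarith
  have hP0 : 0 < P := lt_of_lt_of_le (by positivity) hP1
  have ha0 : 0 < Real.sqrt w := Real.sqrt_pos.2 hw
  have hb0 : 0 < Real.sqrt P := Real.sqrt_pos.2 hP0
  have haw : Real.sqrt w ^ 2 = w := Real.sq_sqrt hw.le
  have hbP : Real.sqrt P ^ 2 = P := Real.sq_sqrt hP0.le
  have hab : Real.sqrt P < Real.sqrt w := Real.sqrt_lt_sqrt hP0.le hP2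
  have hta : t * Real.sqrt w ≤ Real.sqrt P := by
    apply Real.le_sqrt_of_sq_le
    rw [mul_pow, haw]
    exact hP1
  set a := Real.sqrt w with ha
  set b := Real.sqrt P with hb
  have k1 : (w - ε) * (ε - P) ≤ ε * (a - b) ^ 2 := by
    rw [← haw, ← hbP]
    nlinarith [sq_nonneg (a * b - ε)]
  have k2 : (1 + t) / (1 - t) * (a - b) ^ 2 ≤ w - P := by
    rw [← haw, ← hbP, div_mul_eq_mul_div, div_le_iff₀ h1t]
    nlinarith [mul_nonneg (sub_nonneg.2 hab.le) (sub_nonneg.2 hta)]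
  have k3 : 0 ≤ (1 + t) / (1 - t) / ε := by positivity
  calc (1 + t) / (1 - t) / ε * ((w - ε) * (ε - P))
      ≤ (1 + t) / (1 - t) / ε * (ε * (a - b) ^ 2) := mul_le_mul_of_nonneg_left k1 k3
    _ = (1 + t) / (1 - t) * (a - b) ^ 2 := by field_simp
    _ ≤ w - P := k2

/-- the comparison function in the barrier lemma is nondecreasing -/
theorem barrier_mono {q s B ε0 K : ℝ} (hs0 : 0 < s) (hsq : s < q) (hK : 0 < K)
    {Y : ℝ → ℝ} (hmono : MonotoneOn Y (Ioo 0 ε0))
    (hgrow : ∀ ε ∈ Ioo 0 ε0, ∀ c, c < q / ε * (Y ε - B * ε ^ s) →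
      ∀ᶠ η in 𝓝[>] (0 : ℝ), c * η ≤ Y ε - Y (ε - η)) {a b : ℝ} (ha : 0 < a) (hab : a < b)
    (hb : b < ε0) :
    Y a * a ^ (-q) - q * B / (q - s) * a ^ (s - q) + K * a
      ≤ Y b * b ^ (-q) - q * B / (q - s) * b ^ (s - q) + K * b := by
  by_contra hcon
  push Not at hcon
  set κ := q * B / (q - s) with hκ
  have hqs : 0 < q - s := by linarith
  set h : ℝ → ℝ := fun x => Y x * x ^ (-q) - κ * x ^ (s - q) + K * x with hh
  have hcon' : h b < h a := hcon
  set S : Set ℝ := {x | x ∈ Icc a b ∧ h x ≤ h b} with hS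
  have hbS : b ∈ S := ⟨right_mem_Icc.2 hab.le, le_rfl⟩
  have hSbdd : BddBelow S := ⟨a, fun x hx => hx.1.1⟩
  set c := sInf S with hc
  have hac : a ≤ c := le_csInf ⟨b, hbS⟩ fun x hx => hx.1.1
  have hcb : c ≤ b := csInf_le hSbdd hbS
  have hc0 : 0 < c := by linarith
  have hcmem : c ∈ Ioo 0 ε0 := ⟨hc0, by linarith⟩
  set R : ℝ → ℝ := fun x => Y c * x ^ (-q) - κ * x ^ (s - q) + K * x with hR
  have hRd : HasDerivAt R (Y c * (-q * c ^ (-q - 1)) - κ * ((s - q) * c ^ (s - q - 1)) + K) c := by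
    have e1 : HasDerivAt (fun x : ℝ => x ^ (-q)) (-q * c ^ (-q - 1)) c :=
      Real.hasDerivAt_rpow_const (Or.inl hc0.ne')
    have e2 : HasDerivAt (fun x : ℝ => x ^ (s - q)) ((s - q) * c ^ (s - q - 1)) c :=
      Real.hasDerivAt_rpow_const (Or.inl hc0.ne')
    have e3 : HasDerivAt (fun x : ℝ => K * x) K c := by
      simpa using (hasDerivAt_id c).const_mul K
    exact ((e1.const_mul (Y c)).sub (e2.const_mul κ)).add e3
  have hRc : ContinuousOn R (Icc a b) := by
    intro x hx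
    have hx0 : x ≠ 0 := by
      have := hx.1
      intro h
      linarith
    have e1 : ContinuousAt (fun x : ℝ => x ^ (-q)) x := Real.continuousAt_rpow_const x _ (Or.inl hx0)
    have e2 : ContinuousAt (fun x : ℝ => x ^ (s - q)) x :=
      Real.continuousAt_rpow_const x _ (Or.inl hx0)
    have e3 : ContinuousAt (fun x : ℝ => K * x) x := by fun_prop
    exact ((((continuousAt_const (y := Y c)).mul e1).sub
      ((continuousAt_const (y := κ)).mul e2)).add e3).continuousWithinAt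
  -- `c ∈ S`
  have hcS : h c ≤ h b := by
    have hT : IsClosed {x | x ∈ Icc a b ∧ R x ≤ h b} := by
      exact hRc.preimage_isClosed_of_isClosed isClosed_Icc (isClosed_Iic (a := h b))
    have hST : S ⊆ {x | x ∈ Icc a b ∧ R x ≤ h b} := by
      intro x hx
      refine ⟨hx.1, le_trans ?_ hx.2⟩
      have hcx : c ≤ x := csInf_le hSbdd hx
      have hx0 : 0 < x := by linarith
      have hY : Y c ≤ Y x := hmono hcmem ⟨hx0, by linarith [hx.1.2]⟩ hcx
      have hp : 0 ≤ x ^ (-q) := Real.rpow_nonneg hx0.le _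
      simp only [hR, hh]
      have := mul_le_mul_of_nonneg_right hY hp
      linarith
    have hcc : c ∈ closure S := csInf_mem_closure ⟨b, hbS⟩ hSbdd
    have := (closure_minimal hST hT) hcc
    exact this.2
  have hac' : a < c := by
    refine lt_of_le_of_ne hac ?_
    intro hEq
    rw [← hEq] at hcS
    linarith
  -- left growth
  set c1 := q / c * (Y c - B * c ^ s) - K / 2 * c ^ q with hc1
  have hcq : 0 < c ^ q := Real.rpow_pos_of_pos hc0 q
  have hg := hgrow c hcmem c1 (by rw [hc1]; nlinarith)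
  set Φ : ℝ → ℝ := fun η => R c - R (c - η) + c1 * η * (c - η) ^ (-q) with hΦ
  have hΦd : HasDerivAt Φ (K / 2) 0 := by
    have e1 : HasDerivAt (fun η => R (c - η))
        (-(Y c * (-q * c ^ (-q - 1)) - κ * ((s - q) * c ^ (s - q - 1)) + K)) 0 :=
      HasDerivAt.comp_const_sub c 0 (by simpa using hRd)
    have e2 : HasDerivAt (fun η : ℝ => (c - η) ^ (-q)) (-(-q * c ^ (-q - 1))) 0 := by
      refine HasDerivAt.comp_const_sub (f := fun x : ℝ => x ^ (-q)) c 0 ?_
      simp only [sub_zero]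
      exact Real.hasDerivAt_rpow_const (Or.inl hc0.ne')
    have e3 : HasDerivAt (fun η : ℝ => c1 * η) c1 0 := by
      simpa using (hasDerivAt_id (0 : ℝ)).const_mul c1
    have e4 := (e1.const_sub (R c)).add (e3.mul e2)
    refine e4.congr_deriv ?_
    have p1 : c ^ (-q - 1) = c ^ (-q) / c := by
      rw [Real.rpow_sub_one hc0.ne']
    have p2 : c ^ (s - q - 1) = c ^ s * c ^ (-q) / c := by
      rw [Real.rpow_sub_one hc0.ne', sub_eq_add_neg, Real.rpow_add hc0]
    have p3 : c ^ (-q) = (c ^ q)⁻¹ := Real.rpow_neg hc0.le q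
    have p4 : κ * (s - q) = -(q * B) := by
      rw [hκ]
      field_simp
      ring
    simp only [sub_zero, mul_zero, zero_mul, add_zero, neg_neg]
    rw [p1, p2, hc1, p3]
    have p5 : κ * ((s - q) * (c ^ s * (c ^ q)⁻¹ / c)) = -(q * B) * (c ^ s * (c ^ q)⁻¹ / c) := by
      rw [← mul_assoc, p4]
    rw [p5]
    field_simp
    ring
  have hΦ0 : Φ 0 = 0 := by simp [hΦ]
  have hpos : ∀ᶠ η in 𝓝[>] (0 : ℝ), 0 < Φ η := by
    have h1 := (hasDerivAt_iff_tendsto_slope.1 hΦd).mono_left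
      (nhdsWithin_mono 0 (fun x (hx : x ∈ Ioi (0 : ℝ)) => ne_of_gt hx))
    have h2 := h1.eventually (lt_mem_nhds (show 0 < K / 2 by linarith))
    filter_upwards [h2, self_mem_nhdsWithin] with η hη hη0
    have hη0' : (0 : ℝ) < η := hη0
    rw [slope_def_field, hΦ0, sub_zero, sub_zero] at hη
    by_contra hcon2
    push Not at hcon2
    exact absurd hη (not_lt.2 (div_nonpos_of_nonpos_of_nonneg hcon2 hη0'.le))
  have hsmall : ∀ᶠ η in 𝓝[>] (0 : ℝ), η ∈ Ioo 0 (c - a) :=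
    Ioo_mem_nhdsGT (by linarith)
  obtain ⟨η, h1, h2, h3⟩ := (hg.and (hpos.and hsmall)).exists
  have hx0 : 0 < c - η := by linarith [h3.2]
  have hxp : 0 ≤ (c - η) ^ (-q) := Real.rpow_nonneg hx0.le _
  have hlt : h (c - η) < h c := by
    have e : h (c - η) = R (c - η) - (Y c - Y (c - η)) * (c - η) ^ (-q) := by
      simp only [hh, hR]
      ring
    have e' : h c = R c := by simp only [hh, hR]
    have := mul_le_mul_of_nonneg_right h1 hxp
    simp only [hΦ] at h2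
    rw [e, e']
    linarith
  have hmem : c - η ∈ S := ⟨⟨by linarith [h3.2], by linarith [h3.1]⟩, by linarith⟩
  have := csInf_le hSbdd hmem
  rw [← hc] at this
  linarith [h3.1]

/-- Barrier lemma. -/
theorem barrier {q s B ε0 M : ℝ} (hs0 : 0 < s) (hsq : s < q) (hB : 0 ≤ B) (hε0 : 0 < ε0)
    {Y : ℝ → ℝ} (hmono : MonotoneOn Y (Ioo 0 ε0)) (hY0 : ∀ ε ∈ Ioo 0 ε0, 0 ≤ Y ε)
    (hYM : ∀ ε ∈ Ioo 0 ε0, Y ε ≤ M)
    (hgrow : ∀ ε ∈ Ioo 0 ε0, ∀ c, c < q / ε * (Y ε - B * ε ^ s) →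
      ∀ᶠ η in 𝓝[>] (0 : ℝ), c * η ≤ Y ε - Y (ε - η)) :
    ∀ ε ∈ Ioo 0 ε0, Y ε ≤ (M * ε0 ^ (-s) + q * B / (q - s)) * ε ^ s := by
  intro a ha
  have ha0 : 0 < a := ha.1
  have hqs : 0 < q - s := by linarith
  have hM : 0 ≤ M := (hY0 a ha).trans (hYM a ha)
  have hκ0 : 0 ≤ q * B / (q - s) := div_nonneg (mul_nonneg (by linarith) hB) hqs.le
  set κ := q * B / (q - s) with hκ
  -- compare with `b`
  have h1 : ∀ b ∈ Ioo a ε0, Y a * a ^ (-q) - κ * a ^ (s - q) ≤ M * b ^ (-q) := by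
    intro b hb
    have hb0 : 0 < b := ha0.trans hb.1
    have h2 : ∀ K > 0, Y a * a ^ (-q) - κ * a ^ (s - q) ≤ M * b ^ (-q) + K := by
      intro K hK
      have hba : 0 < b - a := by linarith [hb.1]
      have h3 := barrier_mono (K := K / (b - a)) hs0 hsq (div_pos hK hba) hmono hgrow ha0 hb.1 hb.2
      have h4 : Y b * b ^ (-q) ≤ M * b ^ (-q) :=
        mul_le_mul_of_nonneg_right (hYM b ⟨hb0, hb.2⟩) (Real.rpow_nonneg hb0.le _)
      have h5 : 0 ≤ κ * b ^ (s - q) := mul_nonneg hκ0 (Real.rpow_nonneg hb0.le _)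
      have h6 : K / (b - a) * b - K / (b - a) * a = K := by
        field_simp
      rw [← hκ] at h3
      linarith
    exact le_of_forall_pos_le_add h2
  have h2 : Y a * a ^ (-q) - κ * a ^ (s - q) ≤ M * ε0 ^ (-q) := by
    have hlim : Tendsto (fun b : ℝ => M * b ^ (-q)) (𝓝[<] ε0) (𝓝 (M * ε0 ^ (-q))) := by
      have : ContinuousAt (fun b : ℝ => M * b ^ (-q)) ε0 :=
        continuousAt_const.mul (Real.continuousAt_rpow_const _ _ (Or.inl hε0.ne'))
      exact this.tendsto.mono_left nhdsWithin_le_nhds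
    refine ge_of_tendsto hlim ?_
    filter_upwards [Ioo_mem_nhdsLT ha.2] with b hb
    exact h1 b hb
  have haq : 0 < a ^ q := Real.rpow_pos_of_pos ha0 q
  have h3 : Y a ≤ M * ε0 ^ (-q) * a ^ q + κ * a ^ s := by
    have h4 := mul_le_mul_of_nonneg_right h2 haq.le
    have e1 : a ^ (-q) * a ^ q = 1 := by
      rw [← Real.rpow_add ha0]
      simp
    have e2 : a ^ (s - q) * a ^ q = a ^ s := by
      rw [← Real.rpow_add ha0]
      congr 1
      ring
    have e3 : (Y a * a ^ (-q) - κ * a ^ (s - q)) * a ^ q = Y a - κ * a ^ s := by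
      calc (Y a * a ^ (-q) - κ * a ^ (s - q)) * a ^ q
          = Y a * (a ^ (-q) * a ^ q) - κ * (a ^ (s - q) * a ^ q) := by ring
        _ = Y a - κ * a ^ s := by rw [e1, e2, mul_one]
    rw [e3] at h4
    linarith
  have h5 : ε0 ^ (-q) * a ^ q ≤ ε0 ^ (-s) * a ^ s := by
    rw [Real.rpow_neg hε0.le, Real.rpow_neg hε0.le, inv_mul_eq_div, inv_mul_eq_div,
      ← Real.div_rpow ha0.le hε0.le, ← Real.div_rpow ha0.le hε0.le]
    exact Real.rpow_le_rpow_of_exponent_ge (div_pos ha0 hε0) ((div_le_one hε0).2 ha.2.le) hsq.le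
  have h6 := mul_le_mul_of_nonneg_left h5 hM
  calc Y a ≤ M * ε0 ^ (-q) * a ^ q + κ * a ^ s := h3
    _ ≤ (M * ε0 ^ (-s) + κ) * a ^ s := by
      rw [add_mul]
      linarith

theorem exists_cut {ρ1 ρ2 : ℝ} (h1 : 0 < ρ1) (h2 : ρ1 < ρ2) :
    ∃ (C : ℝ) (a a1 a2 : ℝ → ℝ), 0 < C ∧ Cut ρ1 ρ2 C a a1 a2 := by
  have hd : 0 < ρ2 ^ 2 - ρ1 ^ 2 := by nlinarith
  set a : ℝ → ℝ := fun t => Real.smoothTransition ((ρ2 ^ 2 - t ^ 2) / (ρ2 ^ 2 - ρ1 ^ 2)) with ha
  have hsm : ContDiff ℝ 2 a := by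
    have : ContDiff ℝ 2 fun t : ℝ => (ρ2 ^ 2 - t ^ 2) / (ρ2 ^ 2 - ρ1 ^ 2) := by fun_prop
    exact Real.smoothTransition.contDiff.comp this
  have hzero : ∀ t, ρ2 ≤ |t| → a t = 0 := by
    intro t ht
    apply Real.smoothTransition.zero_of_nonpos
    apply div_nonpos_of_nonpos_of_nonneg _ hd.le
    have : ρ2 ^ 2 ≤ t ^ 2 := by
      rw [← sq_abs t]
      nlinarith
    linarith
  have hone : ∀ t, |t| ≤ ρ1 → a t = 1 := by
    intro t ht
    apply Real.smoothTransition.one_of_one_le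
    rw [one_le_div hd]
    have : t ^ 2 ≤ ρ1 ^ 2 := by
      rw [← sq_abs t]
      have := abs_nonneg t
      nlinarith
    linarith
  have hcs : HasCompactSupport a := by
    refine HasCompactSupport.intro (isCompact_Icc (a := -ρ2) (b := ρ2)) fun x hx => hzero x ?_
    by_contra hcon
    push Not at hcon
    exact hx ⟨(abs_lt.1 hcon).1.le, (abs_lt.1 hcon).2.le⟩
  have h11 : ContDiff ℝ (1 + 1) a := by simpa [one_add_one_eq_two] using hsm
  have hd1 : ContDiff ℝ 1 (deriv a) := ((contDiff_succ_iff_deriv (n := 1)).1 h11).2.2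
  have hda : Differentiable ℝ a := hsm.differentiable (by norm_num)
  have hdd : Differentiable ℝ (deriv a) := hd1.differentiable (by norm_num)
  have hc1 : Continuous (deriv a) := hd1.continuous
  have hc2 : Continuous (deriv (deriv a)) := hd1.continuous_deriv le_rfl
  have hs1 : HasCompactSupport (deriv a) := hcs.deriv
  have hs2 : HasCompactSupport (deriv (deriv a)) := hs1.deriv
  obtain ⟨C1, hC1⟩ := hs1.exists_bound_of_continuous hc1
  obtain ⟨C2, hC2⟩ := hs2.exists_bound_of_continuous hc2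
  refine ⟨max 1 (max C1 C2), a, deriv a, deriv (deriv a), lt_of_lt_of_le one_pos (le_max_left _ _),
    ?_⟩
  exact
    { d1 := fun t => (hda t).hasDerivAt
      d2 := fun t => (hdd t).hasDerivAt
      c2 := hc2
      nonneg := fun t => Real.smoothTransition.nonneg _
      le_one := fun t => Real.smoothTransition.le_one _
      eq_one := hone
      eq_zero := hzero
      b1 := fun t => (hC1 t).trans ((le_max_left _ _).trans (le_max_right _ _))
      b2 := fun t => (hC2 t).trans ((le_max_right _ _).trans (le_max_right _ _)) }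

end Pool.Agent.MP_4aaa5f_an
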