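import Pool.Agent.MP_4aaa5f_an.Defs
import Pool.Agent.MP_4aaa5f_an.T10
import Pool.Agent.MP_4aaa5f_an.T11
import Pool.Agent.MP_4aaa5f_an.T12
import Pool.Agent.MP_4aaa5f_an.T13
import Pool.Agent.MP_4aaa5f_an.T14
import Pool.Agent.MP_4aaa5f_an.T16
import Pool.Agent.MP_4aaa5f_an.T17

set_option autoImplicit false

namespace Pool.Agent.MP_4aaa5f_an

open MeasureTheory Set Filter Topology

namespace S18

/-- bounded measurable functions vanishing outside a square are integrable -/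
theorem integrableOn_of_bdd {V : Set (ℝ × ℝ)} (hV : MeasurableSet V) {f : ℝ × ℝ → ℝ}
    (hf : Measurable f) {M : ℝ} (hM : ∀ z ∈ V, |f z| ≤ M)
    (h0 : ∀ z ∈ V, z ∉ Icc (-4 : ℝ) 4 ×ˢ Icc (-4 : ℝ) 4 → f z = 0) : IntegrableOn f V := by
  set K : Set (ℝ × ℝ) := Icc (-4 : ℝ) 4 ×ˢ Icc (-4 : ℝ) 4 with hK
  have hKc : IsCompact K := isCompact_Icc.prod isCompact_Icc
  have h1 : Integrable (K.indicator (fun _ => M)) volume := by
    refine (integrable_indicator_iff hKc.measurableSet).2 ?_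
    exact integrableOn_const (hKc.measure_lt_top.ne)
  have h2 : IntegrableOn (K.indicator (fun _ => M)) V := h1.integrableOn
  refine h2.mono' hf.aestronglyMeasurable ?_
  refine (ae_restrict_iff' hV).2 (ae_of_all _ fun z hz => ?_)
  by_cases hzK : z ∈ K
  · rw [indicator_of_mem hzK, Real.norm_eq_abs]; exact hM z hz
  · rw [indicator_of_notMem hzK, Real.norm_eq_abs, h0 z hz hzK, abs_zero]

variable {l : ℝ} {G Gp w Gy φ : ℝ → ℝ → ℝ}

theorem badSet_sub {ε : ℝ} : BadSet 4 ε G ⊆ Ioo (-4) 4 ×ˢ univ := fun _ hz =>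
  ⟨Bad.mem hz, mem_univ _⟩

theorem cut_prod_zero {ρ1 ρ2 C : ℝ} {a a1 a2 : ℝ → ℝ} (ha : Cut ρ1 ρ2 C a a1 a2) {z : ℝ × ℝ}
    (hz : z ∉ Sq ρ2) : a z.1 * a z.2 = 0 := by
  by_contra h
  apply hz
  have h1 : a z.1 ≠ 0 := left_ne_zero_of_mul h
  have h2 : a z.2 ≠ 0 := right_ne_zero_of_mul h
  have h3 : |z.1| < ρ2 := by
    by_contra hh; exact h1 (ha.eq_zero _ (not_lt.1 hh))
  have h4 : |z.2| < ρ2 := by
    by_contra hh; exact h2 (ha.eq_zero _ (not_lt.1 hh))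
  exact ⟨abs_lt.1 h3, abs_lt.1 h4⟩

theorem exists_bdd {f : ℝ → ℝ → ℝ} (hf : Continuous fun z : ℝ × ℝ => f z.1 z.2) :
    ∃ M : ℝ, 0 ≤ M ∧ ∀ p y, |p| ≤ 4 → |y| ≤ 4 → |f p y| ≤ M := by
  have hKc : IsCompact (Icc (-4 : ℝ) 4 ×ˢ Icc (-4 : ℝ) 4) := isCompact_Icc.prod isCompact_Icc
  obtain ⟨M, hM⟩ := hKc.exists_bound_of_continuousOn hf.continuousOn
  refine ⟨M, le_trans (norm_nonneg _) (hM (0, 0) (by constructor <;> simp)), fun p y hp hy => ?_⟩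
  exact hM (p, y) ⟨abs_le.1 hp, abs_le.1 hy⟩

theorem slice_isOpen {V : Set (ℝ × ℝ)} (hV : IsOpen V) (y : ℝ) : IsOpen {p | (p, y) ∈ V} :=
  hV.preimage (Continuous.prodMk continuous_id continuous_const)

theorem hat2_bdd {V : Set (ℝ × ℝ)} (hV : IsOpen V) (hb : V ⊆ Ioo (-4) 4 ×ˢ univ)
    {f : ℝ → ℝ → ℝ} {M : ℝ} (hM : ∀ p y, |p| ≤ 4 → |y| ≤ 4 → |f p y| ≤ M) {z : ℝ × ℝ} (hz : z ∈ V)
    (hy : |z.2| ≤ 4) : |hat2 V f z| ≤ M :=
  abs_hat_le (slice_isOpen hV z.2) (fun _ hp => (hb hp).1)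
    (fun x hx => hM x z.2 (abs_le.2 hx) hy) hz

theorem interp_eq {F : ℝ → ℝ} {a b p : ℝ} (hab : a < b) :
    interp F a b p = (b - p) / (b - a) * F a + (1 - (b - p) / (b - a)) * F b := by
  have : b - a ≠ 0 := by linarith
  unfold interp; field_simp; ring

theorem cut_lip {ρ1 ρ2 C : ℝ} {a a1 a2 : ℝ → ℝ} (ha : Cut ρ1 ρ2 C a a1 a2) (x p : ℝ) :
    |a x - a p| ≤ C * |x - p| := by
  have := Convex.norm_image_sub_le_of_norm_hasDerivWithin_le (f := a) (f' := a1) (s := univ)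
    (C := C) (fun t _ => (ha.d1 t).hasDerivWithinAt) (fun t _ => ha.b1 t) convex_univ
    (mem_univ p) (mem_univ x)
  simpa [Real.norm_eq_abs] using this

theorem cut_diff {ρ1 ρ2 ρ2' ρ3 Ca Cb r : ℝ} {a a1 a2 b b1 b2 : ℝ → ℝ}
    (ha : Cut ρ1 ρ2 Ca a a1 a2) (hb : Cut ρ2' ρ3 Cb b b1 b2) (hr : r ≤ ρ2' - ρ2) {x p : ℝ}
    (hx : |x - p| ≤ r) : |a x - a p| ≤ Ca * r * b p := by
  have hCa : 0 ≤ Ca := le_trans (abs_nonneg _) (ha.b1 0)
  have hr0 : 0 ≤ r := le_trans (abs_nonneg _) hx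
  by_cases h : |p| ≤ ρ2'
  · rw [hb.eq_one p h, mul_one]
    exact (cut_lip ha x p).trans (mul_le_mul_of_nonneg_left hx hCa)
  · push Not at h
    have h1 : a p = 0 := ha.eq_zero p (by linarith)
    have h2 : a x = 0 := by
      apply ha.eq_zero x
      have : |p| ≤ |x| + r := by
        have h3 : |p| ≤ |x| + |x - p| := by
          have := abs_sub_abs_le_abs_sub p x
          rw [abs_sub_comm p x] at this
          linarith
        linarith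
      linarith
    rw [h1, h2, sub_zero, abs_zero]
    exact mul_nonneg (mul_nonneg hCa hr0) (hb.nonneg p)

/-- pointwise lower bound of the interpolated weight -/
theorem hat2_Phi_ge (hl0 : 0 < l) (hS : Sol l 50 G Gp w Gy φ) {β ε r : ℝ} (hβ : 0 ≤ β)
    (hε : 0 < ε) {ρ1 ρ2 ρ2' ρ3 Ca Cb : ℝ} {a a1 a2 b b1 b2 : ℝ → ℝ}
    (ha : Cut ρ1 ρ2 Ca a a1 a2) (hb : Cut ρ2' ρ3 Cb b b1 b2) (hρ : ρ2 ≤ 3) (hr : r ≤ ρ2' - ρ2)
    (hshort : ∀ y, |y| ≤ 3 → ∀ α β, IsComp {p | Bad 4 ε (fun p => G p y) p} α β → β - α ≤ r)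
    {z : ℝ × ℝ} (hz : z ∈ BadSet 4 ε G) :
    a z.2 * (ε * (a z.1 - Ca * r * b z.1) -
      β * (a z.1 + Ca * r * b z.1) * hat2 (BadSet 4 ε G) φ z) ≤
    hat2 (BadSet 4 ε G) (fun p y => (ε - β * φ p y) * (a p * a y)) z := by
  obtain ⟨p, y⟩ := z
  simp only
  set V := {p | (p, y) ∈ BadSet 4 ε G} with hVdef
  have hVo : IsOpen V := slice_isOpen (isOpen_badSet hS.cG) y
  have hVb : V ⊆ Ioo (-4) 4 := fun q hq => Bad.mem hq
  have hpV : p ∈ V := hz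
  obtain ⟨hI, hpI⟩ := isComp_lft_rgt hVo hVb hpV
  have e1 : hat2 (BadSet 4 ε G) φ (p, y) = interp (fun p => φ p y) (lft V p) (rgt V p) p := rfl
  have e2 : hat2 (BadSet 4 ε G) (fun p y => (ε - β * φ p y) * (a p * a y)) (p, y) =
    interp (fun p => (ε - β * φ p y) * (a p * a y)) (lft V p) (rgt V p) p := rfl
  rw [e1, e2]
  set α := lft V p
  set γ := rgt V p
  rw [interp_eq hI.lt, interp_eq hI.lt]
  set θ := (γ - p) / (γ - α) with hθ
  have hγα : 0 < γ - α := sub_pos.2 hI.lt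
  have hθ0 : 0 ≤ θ := div_nonneg (sub_nonneg.2 hpI.2.le) hγα.le
  have hθ1 : θ ≤ 1 := by rw [hθ, div_le_one hγα]; linarith [hpI.1]
  by_cases hy : |y| ≤ 3
  · have hlen : γ - α ≤ r := hshort y hy α γ hI
    have hI' : IsComp {p | Bad 4 ε (fun p => G p y) p} α γ := hI
    have hα4 : -4 ≤ α ∧ γ ≤ 4 := comp_mem hI'
    have k1 : |α - p| ≤ r := by rw [abs_le]; constructor <;> linarith [hpI.1, hpI.2]
    have k2 : |γ - p| ≤ r := by rw [abs_le]; constructor <;> linarith [hpI.1, hpI.2]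
    have d1 := abs_le.1 (cut_diff ha hb hr k1)
    have d2 := abs_le.1 (cut_diff ha hb hr k2)
    have hφ : ∀ x, -4 ≤ x → x ≤ 4 → 0 ≤ φ x y := fun x h1 h2 => by
      have h3 : |x| ≤ 50 := by rw [abs_le]; constructor <;> linarith
      have h4 : |y| ≤ 50 := by linarith
      have := hS.lo x y h3 h4
      have := hS.pos x y h3 h4
      nlinarith
    have hφα := hφ α hα4.1 (by linarith [hpI.1, hpI.2])
    have hφγ := hφ γ (by linarith [hpI.1, hpI.2]) hα4.2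
    have hay := ha.nonneg y
    have key : ∀ x, 0 ≤ φ x y → -(Ca * r * b p) ≤ a x - a p ∧ a x - a p ≤ Ca * r * b p →
        a y * (ε * (a p - Ca * r * b p) - β * (a p + Ca * r * b p) * φ x y) ≤
        (ε - β * φ x y) * (a x * a y) := by
      intro x hx hd
      have e3 : (ε - β * φ x y) * (a x * a y) = a y * (ε * a x - β * a x * φ x y) := by ring
      rw [e3]
      apply mul_le_mul_of_nonneg_left _ hay
      have h5 : ε * (a p - Ca * r * b p) ≤ ε * a x := mul_le_mul_of_nonneg_left (by linarith) hε.le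
      have h6 : β * a x * φ x y ≤ β * (a p + Ca * r * b p) * φ x y :=
        mul_le_mul_of_nonneg_right (mul_le_mul_of_nonneg_left (by linarith) hβ) hx
      linarith
    have m1 := mul_le_mul_of_nonneg_left (key α hφα d1) hθ0
    have m2 := mul_le_mul_of_nonneg_left (key γ hφγ d2) (sub_nonneg.2 hθ1)
    calc _ = θ * (a y * (ε * (a p - Ca * r * b p) - β * (a p + Ca * r * b p) * φ α y)) +
        (1 - θ) * (a y * (ε * (a p - Ca * r * b p) - β * (a p + Ca * r * b p) * φ γ y)) := by ring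
      _ ≤ _ := add_le_add m1 m2
  · push Not at hy
    have hay : a y = 0 := ha.eq_zero y (by linarith)
    rw [hay]; simp

/-- measure of the bad set in a square, as a real number -/
noncomputable def vol (V : Set (ℝ × ℝ)) (ρ : ℝ) : ℝ := (volume (V ∩ Sq ρ)).toReal

theorem measurableSet_Sq (ρ : ℝ) : MeasurableSet (Sq ρ) := measurableSet_Ioo.prod measurableSet_Ioo

theorem vol_Sq_lt_top (ρ : ℝ) : volume (Sq ρ) < ⊤ := by
  unfold Sq
  rw [Measure.volume_eq_prod, Measure.prod_prod]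
  exact ENNReal.mul_lt_top measure_Ioo_lt_top measure_Ioo_lt_top

theorem vol_lt_top (V : Set (ℝ × ℝ)) (ρ : ℝ) : volume (V ∩ Sq ρ) < ⊤ :=
  lt_of_le_of_lt (measure_mono inter_subset_right) (vol_Sq_lt_top ρ)

theorem Sq_mono {ρ ρ' : ℝ} (h : ρ ≤ ρ') : Sq ρ ⊆ Sq ρ' := by
  intro z hz
  simp only [Sq, mem_prod, mem_Ioo] at hz ⊢
  exact ⟨⟨by linarith, by linarith⟩, ⟨by linarith, by linarith⟩⟩

theorem vol_mono {V : Set (ℝ × ℝ)} {ρ ρ' : ℝ} (h : ρ ≤ ρ') : vol V ρ ≤ vol V ρ' :=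
  ENNReal.toReal_mono (vol_lt_top V ρ').ne (measure_mono (inter_subset_inter_right V (Sq_mono h)))

theorem vol_nonneg (V : Set (ℝ × ℝ)) (ρ : ℝ) : 0 ≤ vol V ρ := ENNReal.toReal_nonneg

theorem setIntegral_le_vol {V : Set (ℝ × ℝ)} (hV : MeasurableSet V) {ρ : ℝ} {f : ℝ × ℝ → ℝ}
    (hf : IntegrableOn f V) (h1 : ∀ z ∈ V, z ∈ Sq ρ → f z ≤ 1) (h0 : ∀ z ∈ V, z ∉ Sq ρ → f z ≤ 0) :
    ∫ z in V, f z ≤ vol V ρ := by
  have e : vol V ρ = ∫ z in V, (Sq ρ).indicator (fun _ => (1 : ℝ)) z := by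
    rw [setIntegral_indicator (measurableSet_Sq ρ), setIntegral_const]
    simp [vol, Measure.real]
  rw [e]
  refine setIntegral_mono_on hf ?_ hV fun z hz => ?_
  · exact ((integrable_indicator_iff (measurableSet_Sq ρ)).2
      (integrableOn_const (vol_Sq_lt_top ρ).ne)).integrableOn
  · by_cases hzs : z ∈ Sq ρ
    · rw [indicator_of_mem hzs]; exact h1 z hz hzs
    · rw [indicator_of_notMem hzs]; exact h0 z hz hzs

theorem Sq3_sub : Sq 3 ⊆ Icc (-4 : ℝ) 4 ×ˢ Icc (-4 : ℝ) 4 := by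
  intro z hz
  simp only [Sq, mem_prod, mem_Ioo, mem_Icc] at hz ⊢
  exact ⟨⟨by linarith, by linarith⟩, ⟨by linarith, by linarith⟩⟩

theorem int_cont {V : Set (ℝ × ℝ)} (hV : MeasurableSet V) {f : ℝ × ℝ → ℝ} (hf : Continuous f)
    (h0 : ∀ z, z ∉ Sq 3 → f z = 0) : IntegrableOn f V := by
  have hKc : IsCompact (Icc (-4 : ℝ) 4 ×ˢ Icc (-4 : ℝ) 4) := isCompact_Icc.prod isCompact_Icc
  obtain ⟨M, hM⟩ := hKc.exists_bound_of_continuousOn hf.continuousOn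
  have hM0 : 0 ≤ M := le_trans (norm_nonneg _) (hM (0, 0) (by constructor <;> simp))
  refine integrableOn_of_bdd hV hf.measurable (M := M) (fun z _ => ?_) (fun z _ hz => ?_)
  · by_cases hz : z ∈ Sq 3
    · exact hM z (Sq3_sub hz)
    · rw [h0 z hz, abs_zero]; exact hM0
  · exact h0 z fun h => hz (Sq3_sub h)

theorem int_hat {V : Set (ℝ × ℝ)} (hV : IsOpen V) (hb : V ⊆ Ioo (-4) 4 ×ˢ univ)
    {F : ℝ → ℝ → ℝ} (hF : Continuous fun z : ℝ × ℝ => F z.1 z.2) {g : ℝ × ℝ → ℝ}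
    (hg : Continuous g) (h0 : ∀ z, z ∉ Sq 3 → g z = 0) :
    IntegrableOn (fun z => hat2 V F z * g z) V := by
  have hKc : IsCompact (Icc (-4 : ℝ) 4 ×ˢ Icc (-4 : ℝ) 4) := isCompact_Icc.prod isCompact_Icc
  obtain ⟨M, hM⟩ := hKc.exists_bound_of_continuousOn hg.continuousOn
  have hM0 : 0 ≤ M := le_trans (norm_nonneg _) (hM (0, 0) (by constructor <;> simp))
  obtain ⟨N, hN0, hN⟩ := exists_bdd hF
  refine integrableOn_of_bdd hV.measurableSet ((measurable_hat2 hV hb hF).mul hg.measurable)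
    (M := N * M) (fun z hzV => ?_) (fun z _ hz => ?_)
  · by_cases hz : z ∈ Sq 3
    · rw [abs_mul]
      have h2 : |z.2| ≤ 4 := abs_le.2 (Sq3_sub hz).2
      exact mul_le_mul (hat2_bdd hV hb hN hzV h2) (hM z (Sq3_sub hz)) (abs_nonneg _) hN0
    · rw [h0 z hz, mul_zero, abs_zero]; positivity
  · rw [h0 z fun h => hz (Sq3_sub h), mul_zero]

theorem Cut.cont {ρ1 ρ2 C : ℝ} {a a1 a2 : ℝ → ℝ} (ha : Cut ρ1 ρ2 C a a1 a2) : Continuous a :=
  continuous_iff_continuousAt.2 fun t => (ha.d1 t).continuousAt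

theorem int_hat_Phi {V : Set (ℝ × ℝ)} (hV : IsOpen V) (hb : V ⊆ Ioo (-4) 4 ×ˢ univ)
    {F : ℝ → ℝ → ℝ} (hF : Continuous fun z : ℝ × ℝ => F z.1 z.2)
    (h0 : ∀ p y, 3 ≤ |y| → F p y = 0) : IntegrableOn (hat2 V F) V := by
  obtain ⟨N, hN0, hN⟩ := exists_bdd hF
  have hz0 : ∀ z : ℝ × ℝ, 3 ≤ |z.2| → hat2 V F z = 0 := fun z hz => by
    unfold hat2 hat interp
    simp only [h0 _ _ hz]; simp
  refine integrableOn_of_bdd hV.measurableSet (measurable_hat2 hV hb hF)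
    (M := N) (fun z hzV => ?_) (fun z hzV hz => ?_)
  · by_cases h : |z.2| ≤ 4
    · exact hat2_bdd hV hb hN hzV h
    · rw [hz0 z (by linarith [not_le.1 h]), abs_zero]; exact hN0
  · apply hz0
    by_contra h
    push Not at h
    apply hz
    have h1 := (hb hzV).1
    have h2 := abs_lt.1 h
    exact ⟨⟨h1.1.le, h1.2.le⟩, ⟨by linarith, by linarith⟩⟩

theorem K1_arith {l β ε r Ca Cb v2 v3 I1 I2 I3 I4 I5 I6 W2 W3 Φ2 Φ3 T : ℝ} (hl0 : 0 < l)
    (hβ : 0 ≤ β) (hβ1 : β ≤ 1) (hε : 0 < ε) (hCa : 0 ≤ Ca) (hCb : 0 ≤ Cb) (hr0 : 0 < r) (hr1 : r ≤ 1)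
    (hv3 : 0 ≤ v3) (hv2 : 0 ≤ v2) (v23 : v2 ≤ v3) (c_ba : I2 ≤ v3) (c_bb : I6 ≤ v3)
    (c_h : I4 ≤ I5) (c_f : Φ3 ≤ l⁻¹ * W3) (w2 : W2 - ε * I1 ≤ Ca * ε * r ^ 2 * v2)
    (w3 : W3 - ε * I6 ≤ Cb * ε * r ^ 2 * v3) (f2 : I3 - Φ2 ≤ Ca * ε * r ^ 2 * v2)
    (f3 : I5 - Φ3 ≤ Cb * ε * r ^ 2 * v3)
    (h_low : ε * I1 - ε * Ca * r * I2 - β * I3 - β * Ca * r * I4 ≤ T) :
    W2 - β * Φ2 - Ca * (3 + l⁻¹ * (1 + Cb) + Cb) * r * (ε * v3) ≤ T := by
  have hl' : 0 < l⁻¹ := inv_pos.2 hl0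
  have hE : 0 ≤ ε * v3 := mul_nonneg hε.le hv3
  have hr2 : r ^ 2 ≤ r := by nlinarith
  have q1 : Ca * ε * r ^ 2 * v2 ≤ Ca * r * (ε * v3) := by
    have : Ca * ε * r ^ 2 * v2 = Ca * (r ^ 2 * (ε * v2)) := by ring
    rw [this, mul_assoc]
    refine mul_le_mul_of_nonneg_left ?_ hCa
    exact mul_le_mul hr2 (mul_le_mul_of_nonneg_left v23 hε.le) (mul_nonneg hε.le hv2)
      hr0.le
  have q2 : Cb * ε * r ^ 2 * v3 ≤ Cb * (ε * v3) := by
    have : Cb * ε * r ^ 2 * v3 = Cb * (ε * v3) * r ^ 2 := by ring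
    rw [this]
    have h1 : r ^ 2 ≤ 1 := by nlinarith
    have h2 : 0 ≤ Cb * (ε * v3) := mul_nonneg hCb hE
    nlinarith
  have q3 : I4 ≤ (l⁻¹ * (1 + Cb) + Cb) * (ε * v3) := by
    have s1 : W3 ≤ (1 + Cb) * (ε * v3) := by
      have : ε * I6 ≤ ε * v3 := mul_le_mul_of_nonneg_left c_bb hε.le
      linarith
    have s2 : Φ3 ≤ l⁻¹ * ((1 + Cb) * (ε * v3)) :=
      c_f.trans (mul_le_mul_of_nonneg_left s1 hl'.le)
    have s3 : I4 ≤ l⁻¹ * ((1 + Cb) * (ε * v3)) + Cb * (ε * v3) := by linarith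
    linarith
  have q4 : β * Ca * r * I4 ≤ Ca * r * ((l⁻¹ * (1 + Cb) + Cb) * (ε * v3)) := by
    have s1 : β * Ca * r * I4 ≤ β * Ca * r * ((l⁻¹ * (1 + Cb) + Cb) * (ε * v3)) :=
      mul_le_mul_of_nonneg_left q3 (by positivity)
    have s2 : β * Ca * r * ((l⁻¹ * (1 + Cb) + Cb) * (ε * v3)) =
      β * (Ca * r * ((l⁻¹ * (1 + Cb) + Cb) * (ε * v3))) := by ring
    have s3 : 0 ≤ Ca * r * ((l⁻¹ * (1 + Cb) + Cb) * (ε * v3)) := by positivity
    have s4 := mul_le_mul_of_nonneg_right hβ1 s3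
    linarith
  have q5 : ε * Ca * r * I2 ≤ Ca * r * (ε * v3) := by
    have s1 : ε * Ca * r * I2 ≤ ε * Ca * r * v3 :=
      mul_le_mul_of_nonneg_left c_ba (by positivity)
    linarith
  have q6 : β * I3 ≤ β * Φ2 + Ca * r * (ε * v3) := by
    have s1 : I3 ≤ Φ2 + Ca * r * (ε * v3) := by linarith
    have s2 := mul_le_mul_of_nonneg_left s1 hβ
    have s3 : 0 ≤ Ca * r * (ε * v3) := by positivity
    have s4 := mul_le_mul_of_nonneg_right hβ1 s3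
    linarith
  have q7 : W2 - Ca * r * (ε * v3) ≤ ε * I1 := by linarith
  have : Ca * (3 + l⁻¹ * (1 + Cb) + Cb) * r * (ε * v3) =
      3 * (Ca * r * (ε * v3)) + Ca * r * ((l⁻¹ * (1 + Cb) + Cb) * (ε * v3)) := by ring
  rw [this]
  linarith

theorem K1 (hl0 : 0 < l) (hl1 : l < 1) (hS : Sol l 50 G Gp w Gy φ) {β ε r : ℝ} (hβ : 0 ≤ β)
    (hβ1 : β ≤ 1) (hε : 0 < ε) {ρ1 ρ2 ρ2' ρ3 Ca Cb : ℝ} {a a1 a2 b b1 b2 : ℝ → ℝ}
    (ha : Cut ρ1 ρ2 Ca a a1 a2) (hb : Cut ρ2' ρ3 Cb b b1 b2) (hρ12 : ρ2 < ρ2') (hρ23 : ρ2' < ρ3)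
    (hρ3 : ρ3 ≤ 3) (hr0 : 0 < r) (hr1 : r ≤ 1) (hr : r ≤ ρ2' - ρ2)
    (hshort : ∀ y, |y| ≤ 3 → ∀ α β, IsComp {p | Bad 4 ε (fun p => G p y) p} α β → β - α ≤ r) :
    (∫ z in BadSet 4 ε G, (w z.1 z.2 - β * φ z.1 z.2) * (a z.1 * a z.2)) -
      Ca * (3 + l⁻¹ * (1 + Cb) + Cb) * r * (ε * vol (BadSet 4 ε G) ρ3) ≤
    ∫ z in BadSet 4 ε G,
      hat2 (BadSet 4 ε G) (fun p y => (ε - β * φ p y) * (a p * a y)) z := by
  have hCa : 0 ≤ Ca := le_trans (abs_nonneg _) (ha.b1 0)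
  have hCb : 0 ≤ Cb := le_trans (abs_nonneg _) (hb.b1 0)
  have hVo : IsOpen (BadSet 4 ε G) := isOpen_badSet hS.cG
  have hVb : BadSet 4 ε G ⊆ Ioo (-4) 4 ×ˢ univ := badSet_sub
  have hVm := hVo.measurableSet
  have w2 := w_average hl0 hl1 hS hε hr0 (by linarith) ha hshort
  have w3 := w_average hl0 hl1 hS hε hr0 hρ3 hb hshort
  have f2 := hat_average hl0 hl1 hS hε hr0 (by linarith) ha hshort
  have f3 := hat_average hl0 hl1 hS hε hr0 hρ3 hb hshort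
  have pt := fun z (hz : z ∈ BadSet 4 ε G) => hat2_Phi_ge hl0 hS hβ hε ha hb (by linarith) hr hshort hz
  have v23 : vol (BadSet 4 ε G) ρ2 ≤ vol (BadSet 4 ε G) ρ3 := vol_mono (by linarith)
  have v3 := vol_nonneg (BadSet 4 ε G) ρ3
  change _ ≤ Ca * ε * r ^ 2 * vol (BadSet 4 ε G) ρ2 at w2
  change _ ≤ Cb * ε * r ^ 2 * vol (BadSet 4 ε G) ρ3 at w3
  change _ ≤ Ca * ε * r ^ 2 * vol (BadSet 4 ε G) ρ2 at f2
  change _ ≤ Cb * ε * r ^ 2 * vol (BadSet 4 ε G) ρ3 at f3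
  set V := BadSet 4 ε G with hV
  have ca : Continuous a := Cut.cont ha
  have cb : Continuous b := Cut.cont hb
  have caa : Continuous fun z : ℝ × ℝ => a z.1 * a z.2 := by fun_prop
  have cba : Continuous fun z : ℝ × ℝ => b z.1 * a z.2 := by fun_prop
  have cbb : Continuous fun z : ℝ × ℝ => b z.1 * b z.2 := by fun_prop
  have zaa : ∀ z : ℝ × ℝ, z ∉ Sq 3 → a z.1 * a z.2 = 0 := fun z hz =>
    cut_prod_zero ha fun h => hz (Sq_mono (by linarith) h)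
  have zbb' : ∀ z : ℝ × ℝ, z ∉ Sq ρ3 → b z.1 * b z.2 = 0 := fun z hz => cut_prod_zero hb hz
  have zbb : ∀ z : ℝ × ℝ, z ∉ Sq 3 → b z.1 * b z.2 = 0 := fun z hz =>
    cut_prod_zero hb fun h => hz (Sq_mono (by linarith) h)
  have leab : ∀ t, a t ≤ b t := fun t => by
    by_cases h : |t| ≤ ρ2'
    · rw [hb.eq_one t h]; exact ha.le_one t
    · push Not at h
      rw [ha.eq_zero t (by linarith)]; exact hb.nonneg t
  have zba' : ∀ z : ℝ × ℝ, z ∉ Sq ρ3 → b z.1 * a z.2 = 0 := fun z hz => by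
    have h1 := zbb' z hz
    have h2 : b z.1 * a z.2 ≤ b z.1 * b z.2 := mul_le_mul_of_nonneg_left (leab _) (hb.nonneg _)
    have h3 : 0 ≤ b z.1 * a z.2 := mul_nonneg (hb.nonneg _) (ha.nonneg _)
    linarith
  have zba : ∀ z : ℝ × ℝ, z ∉ Sq 3 → b z.1 * a z.2 = 0 := fun z hz =>
    zba' z fun h => hz (Sq_mono (by linarith) h)
  -- integrabilities
  have i_aa : IntegrableOn (fun z : ℝ × ℝ => a z.1 * a z.2) V := int_cont hVm caa zaa
  have i_ba : IntegrableOn (fun z : ℝ × ℝ => b z.1 * a z.2) V := int_cont hVm cba zba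
  have i_bb : IntegrableOn (fun z : ℝ × ℝ => b z.1 * b z.2) V := int_cont hVm cbb zbb
  have i_waa : IntegrableOn (fun z : ℝ × ℝ => w z.1 z.2 * (a z.1 * a z.2)) V :=
    int_cont hVm (hS.cw.mul caa) fun z hz => by rw [zaa z hz, mul_zero]
  have i_wbb : IntegrableOn (fun z : ℝ × ℝ => w z.1 z.2 * (b z.1 * b z.2)) V :=
    int_cont hVm (hS.cw.mul cbb) fun z hz => by rw [zbb z hz, mul_zero]
  have i_faa : IntegrableOn (fun z : ℝ × ℝ => φ z.1 z.2 * (a z.1 * a z.2)) V :=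
    int_cont hVm (hS.cφ.mul caa) fun z hz => by rw [zaa z hz, mul_zero]
  have i_fbb : IntegrableOn (fun z : ℝ × ℝ => φ z.1 z.2 * (b z.1 * b z.2)) V :=
    int_cont hVm (hS.cφ.mul cbb) fun z hz => by rw [zbb z hz, mul_zero]
  have i_haa : IntegrableOn (fun z : ℝ × ℝ => hat2 V φ z * (a z.1 * a z.2)) V :=
    int_hat hVo hVb hS.cφ caa zaa
  have i_hba : IntegrableOn (fun z : ℝ × ℝ => hat2 V φ z * (b z.1 * a z.2)) V :=
    int_hat hVo hVb hS.cφ cba zba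
  have i_hbb : IntegrableOn (fun z : ℝ × ℝ => hat2 V φ z * (b z.1 * b z.2)) V :=
    int_hat hVo hVb hS.cφ cbb zbb
  have i_Φ : IntegrableOn (hat2 V (fun p y => (ε - β * φ p y) * (a p * a y))) V := by
    refine int_hat_Phi hVo hVb ?_ fun p y hy => ?_
    · exact (continuous_const.sub (continuous_const.mul hS.cφ)).mul caa
    · rw [ha.eq_zero y (by linarith)]; simp
  -- the integral of the lower bound
  have i_low : IntegrableOn (fun z : ℝ × ℝ => ε * (a z.1 * a z.2) - (ε * Ca * r) * (b z.1 * a z.2)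
      - β * (hat2 V φ z * (a z.1 * a z.2)) - (β * Ca * r) * (hat2 V φ z * (b z.1 * a z.2))) V :=
    (((i_aa.const_mul _).sub (i_ba.const_mul _)).sub (i_haa.const_mul _)).sub (i_hba.const_mul _)
  have e_low : ∫ z in V, (ε * (a z.1 * a z.2) - (ε * Ca * r) * (b z.1 * a z.2)
      - β * (hat2 V φ z * (a z.1 * a z.2)) - (β * Ca * r) * (hat2 V φ z * (b z.1 * a z.2))) =
      ε * (∫ z in V, a z.1 * a z.2) - (ε * Ca * r) * (∫ z in V, b z.1 * a z.2)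
      - β * (∫ z in V, hat2 V φ z * (a z.1 * a z.2))
      - (β * Ca * r) * (∫ z in V, hat2 V φ z * (b z.1 * a z.2)) := by
    rw [integral_sub, integral_sub, integral_sub, integral_const_mul, integral_const_mul,
      integral_const_mul, integral_const_mul]
    · exact i_aa.const_mul _
    · exact i_ba.const_mul _
    · exact (i_aa.const_mul _).sub (i_ba.const_mul _)
    · exact i_haa.const_mul _
    · exact ((i_aa.const_mul _).sub (i_ba.const_mul _)).sub (i_haa.const_mul _)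
    · exact i_hba.const_mul _
  have h_low : ∫ z in V, (ε * (a z.1 * a z.2) - (ε * Ca * r) * (b z.1 * a z.2)
      - β * (hat2 V φ z * (a z.1 * a z.2)) - (β * Ca * r) * (hat2 V φ z * (b z.1 * a z.2))) ≤
      ∫ z in V, hat2 V (fun p y => (ε - β * φ p y) * (a p * a y)) z := by
    refine setIntegral_mono_on i_low i_Φ hVm fun z hz => ?_
    refine le_trans (le_of_eq ?_) (pt z hz)
    ring
  -- expand the known averages
  have e_w2 : ∫ z in V, (w z.1 z.2 - ε) * (a z.1 * a z.2) =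
      (∫ z in V, w z.1 z.2 * (a z.1 * a z.2)) - ε * ∫ z in V, a z.1 * a z.2 := by
    rw [← integral_const_mul, ← integral_sub i_waa (i_aa.const_mul _)]
    exact setIntegral_congr_fun hVm fun z _ => by ring
  have e_w3 : ∫ z in V, (w z.1 z.2 - ε) * (b z.1 * b z.2) =
      (∫ z in V, w z.1 z.2 * (b z.1 * b z.2)) - ε * ∫ z in V, b z.1 * b z.2 := by
    rw [← integral_const_mul, ← integral_sub i_wbb (i_bb.const_mul _)]
    exact setIntegral_congr_fun hVm fun z _ => by ring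
  have e_f2 : ∫ z in V, (hat2 V φ z - φ z.1 z.2) * (a z.1 * a z.2) =
      (∫ z in V, hat2 V φ z * (a z.1 * a z.2)) - ∫ z in V, φ z.1 z.2 * (a z.1 * a z.2) := by
    rw [← integral_sub i_haa i_faa]
    exact setIntegral_congr_fun hVm fun z _ => by ring
  have e_f3 : ∫ z in V, (hat2 V φ z - φ z.1 z.2) * (b z.1 * b z.2) =
      (∫ z in V, hat2 V φ z * (b z.1 * b z.2)) - ∫ z in V, φ z.1 z.2 * (b z.1 * b z.2) := by
    rw [← integral_sub i_hbb i_fbb]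
    exact setIntegral_congr_fun hVm fun z _ => by ring
  have e_Y : ∫ z in V, (w z.1 z.2 - β * φ z.1 z.2) * (a z.1 * a z.2) =
      (∫ z in V, w z.1 z.2 * (a z.1 * a z.2)) - β * ∫ z in V, φ z.1 z.2 * (a z.1 * a z.2) := by
    rw [← integral_const_mul, ← integral_sub i_waa (i_faa.const_mul _)]
    exact setIntegral_congr_fun hVm fun z _ => by ring
  -- comparison of integrals
  have c_ba : ∫ z in V, b z.1 * a z.2 ≤ vol V ρ3 := by
    refine setIntegral_le_vol hVm i_ba (fun z _ _ => ?_) (fun z _ hz => (zba' z hz).le)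
    have := hb.le_one z.1; have := ha.le_one z.2; have := hb.nonneg z.1; have := ha.nonneg z.2
    nlinarith
  have c_bb : ∫ z in V, b z.1 * b z.2 ≤ vol V ρ3 := by
    refine setIntegral_le_vol hVm i_bb (fun z _ _ => ?_) (fun z _ hz => (zbb' z hz).le)
    have := hb.le_one z.1; have := hb.le_one z.2; have := hb.nonneg z.1; have := hb.nonneg z.2
    nlinarith
  have hatpos : ∀ z ∈ V, |z.2| ≤ 3 → 0 ≤ hat2 V φ z := fun z hz hy => by
    have := pt z hz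
    obtain ⟨hI, hpI⟩ := isComp_lft_rgt (slice_isOpen hVo z.2) (fun p hp => (hVb hp).1) hz
    have hI' : IsComp {p | Bad 4 ε (fun p => G p z.2) p} (lft {p | (p, z.2) ∈ V} z.1)
      (rgt {p | (p, z.2) ∈ V} z.1) := hI
    have h4 := comp_mem hI'
    have hφ : ∀ x, -4 ≤ x → x ≤ 4 → 0 ≤ φ x z.2 := fun x h1 h2 => by
      have h3 : |x| ≤ 50 := by rw [abs_le]; constructor <;> linarith
      have h4 : |z.2| ≤ 50 := by linarith
      have := hS.lo x z.2 h3 h4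
      have := hS.pos x z.2 h3 h4
      nlinarith
    have e1 : hat2 V φ z = interp (fun p => φ p z.2) (lft {p | (p, z.2) ∈ V} z.1)
      (rgt {p | (p, z.2) ∈ V} z.1) z.1 := rfl
    rw [e1, interp_eq hI.lt]
    have hγα := sub_pos.2 hI.lt
    have t0 : 0 ≤ (rgt {p | (p, z.2) ∈ V} z.1 - z.1) /
      (rgt {p | (p, z.2) ∈ V} z.1 - lft {p | (p, z.2) ∈ V} z.1) :=
      div_nonneg (sub_nonneg.2 hpI.2.le) hγα.le
    have t1 : (rgt {p | (p, z.2) ∈ V} z.1 - z.1) /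
      (rgt {p | (p, z.2) ∈ V} z.1 - lft {p | (p, z.2) ∈ V} z.1) ≤ 1 := by
      rw [div_le_one hγα]; linarith [hpI.1]
    exact add_nonneg (mul_nonneg t0 (hφ _ h4.1 (by linarith [hpI.1, hpI.2])))
      (mul_nonneg (sub_nonneg.2 t1) (hφ _ (by linarith [hpI.1, hpI.2]) h4.2))
  have c_h : ∫ z in V, hat2 V φ z * (b z.1 * a z.2) ≤ ∫ z in V, hat2 V φ z * (b z.1 * b z.2) := by
    refine setIntegral_mono_on i_hba i_hbb hVm fun z hz => ?_
    by_cases hy : |z.2| ≤ 3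
    · exact mul_le_mul_of_nonneg_left (mul_le_mul_of_nonneg_left (leab _) (hb.nonneg _))
        (hatpos z hz hy)
    · push Not at hy
      rw [ha.eq_zero z.2 (by linarith), hb.eq_zero z.2 (by linarith)]
  have c_f : ∫ z in V, φ z.1 z.2 * (b z.1 * b z.2) ≤ l⁻¹ * ∫ z in V, w z.1 z.2 * (b z.1 * b z.2) := by
    rw [← integral_const_mul]
    refine setIntegral_mono_on i_fbb (i_wbb.const_mul _) hVm fun z hz => ?_
    by_cases h : z ∈ Sq 3
    · have h4 := Sq3_sub h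
      have h1 : |z.1| ≤ 50 := (abs_le.2 h4.1).trans (by norm_num)
      have h2 : |z.2| ≤ 50 := (abs_le.2 h4.2).trans (by norm_num)
      have := hS.hi z.1 z.2 h1 h2
      have h5 := mul_le_mul_of_nonneg_right this (mul_nonneg (hb.nonneg z.1) (hb.nonneg z.2))
      linarith
    · rw [zbb z h]; simp
  rw [e_w2] at w2
  rw [e_w3] at w3
  rw [e_f2] at f2
  rw [e_f3] at f3
  rw [e_low] at h_low
  rw [e_Y]
  have w2' := (abs_le.1 w2).2
  have w3' := (abs_le.1 w3).2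
  exact K1_arith hl0 hβ hβ1 hε hCa hCb hr0 hr1 v3 (vol_nonneg V ρ2) v23 c_ba c_bb c_h c_f w2' w3' f2 f3 h_low

/-- the weighted mass of the bad set -/
noncomputable def YY (β : ℝ) (G w φ : ℝ → ℝ → ℝ) (a : ℝ → ℝ) (ε : ℝ) : ℝ :=
  ∫ z in BadSet 4 ε G, (w z.1 z.2 - β * φ z.1 z.2) * (a z.1 * a z.2)

theorem sol_bounds (hl0 : 0 < l) (hS : Sol l 50 G Gp w Gy φ) {z : ℝ × ℝ} (hz : z ∈ Sq 3) :
    0 < w z.1 z.2 ∧ l * w z.1 z.2 ≤ φ z.1 z.2 ∧ φ z.1 z.2 ≤ l⁻¹ * w z.1 z.2 ∧ 0 < φ z.1 z.2 := by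
  have h4 := Sq3_sub hz
  have h1 : |z.1| ≤ 50 := (abs_le.2 h4.1).trans (by norm_num)
  have h2 : |z.2| ≤ 50 := (abs_le.2 h4.2).trans (by norm_num)
  have hw := hS.pos z.1 z.2 h1 h2
  have hlo := hS.lo z.1 z.2 h1 h2
  exact ⟨hw, hlo, hS.hi z.1 z.2 h1 h2, lt_of_lt_of_le (mul_pos hl0 hw) hlo⟩

theorem vol_le {V : Set (ℝ × ℝ)} {ρ : ℝ} (hρ : ρ ≤ 3) : vol V ρ ≤ 36 := by
  refine (vol_mono hρ).trans ?_
  unfold vol
  refine ENNReal.toReal_le_of_le_ofReal (by norm_num) ((measure_mono inter_subset_right).trans ?_)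
  unfold Sq
  rw [Measure.volume_eq_prod, Measure.prod_prod, Real.volume_Ioo, ← ENNReal.ofReal_mul (by norm_num)]
  exact ENNReal.ofReal_le_ofReal (by norm_num)

theorem YY_mono {β : ℝ} (hl0 : 0 < l) (hS : Sol l 50 G Gp w Gy φ) (hβ : 0 ≤ β) (hβl : β ≤ l)
    {ρ1 ρ2 C : ℝ} {a a1 a2 : ℝ → ℝ} (hρ : ρ2 ≤ 3) (ha : Cut ρ1 ρ2 C a a1 a2) {ε ε' : ℝ}
    (h : ε ≤ ε') : YY β G w φ a ε ≤ YY β G w φ a ε' := by
  have ca : Continuous a := Cut.cont ha
  have caa : Continuous fun z : ℝ × ℝ => a z.1 * a z.2 := by fun_prop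
  have zaa : ∀ z : ℝ × ℝ, z ∉ Sq 3 → a z.1 * a z.2 = 0 := fun z hz =>
    cut_prod_zero ha fun h => hz (Sq_mono (by linarith) h)
  refine setIntegral_mono_set ?_ ?_ (badSet_mono h).eventuallyLE
  · exact int_cont (isOpen_badSet hS.cG).measurableSet
      ((hS.cw.sub (continuous_const.mul hS.cφ)).mul caa) fun z hz => by rw [zaa z hz, mul_zero]
  · refine ae_of_all _ fun z => ?_
    simp only [Pi.zero_apply]
    by_cases hz : z ∈ Sq 3
    · obtain ⟨h1, h2, h3, h4⟩ := sol_bounds hl0 hS hz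
      refine mul_nonneg ?_ (mul_nonneg (ha.nonneg _) (ha.nonneg _))
      have h5 : β * φ z.1 z.2 ≤ l * φ z.1 z.2 := mul_le_mul_of_nonneg_right hβl h4.le
      have h6 : l * φ z.1 z.2 ≤ l * (l⁻¹ * w z.1 z.2) := mul_le_mul_of_nonneg_left h3 hl0.le
      rw [← mul_assoc, mul_inv_cancel₀ hl0.ne', one_mul] at h6
      linarith
    · rw [zaa z hz, mul_zero]

theorem YY_nonneg {β : ℝ} (hl0 : 0 < l) (hS : Sol l 50 G Gp w Gy φ) (hβ : 0 ≤ β) (hβl : β ≤ l)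
    {ρ1 ρ2 C : ℝ} {a a1 a2 : ℝ → ℝ} (hρ : ρ2 ≤ 3) (ha : Cut ρ1 ρ2 C a a1 a2) (ε : ℝ) :
    0 ≤ YY β G w φ a ε := by
  refine setIntegral_nonneg (isOpen_badSet hS.cG).measurableSet fun z _ => ?_
  by_cases hz : z ∈ Sq 3
  · obtain ⟨h1, h2, h3, h4⟩ := sol_bounds hl0 hS hz
    refine mul_nonneg ?_ (mul_nonneg (ha.nonneg _) (ha.nonneg _))
    have h5 : β * φ z.1 z.2 ≤ l * φ z.1 z.2 := mul_le_mul_of_nonneg_right hβl h4.le
    have h6 : l * φ z.1 z.2 ≤ l * (l⁻¹ * w z.1 z.2) := mul_le_mul_of_nonneg_left h3 hl0.le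
    rw [← mul_assoc, mul_inv_cancel₀ hl0.ne', one_mul] at h6
    linarith
  · rw [cut_prod_zero ha fun h => hz (Sq_mono (by linarith) h), mul_zero]

/-- lower and upper bounds of the weighted mass -/
theorem K2 (hl0 : 0 < l) (hl1 : l < 1) (hS : Sol l 50 G Gp w Gy φ) {β ε r : ℝ} (hβ : 0 ≤ β)
    (hβl : β ≤ l) (hε : 0 < ε) {ρ1 ρ2 C : ℝ} {a a1 a2 : ℝ → ℝ} (hρ12 : ρ1 < ρ2) (hρ : ρ2 ≤ 3)
    (ha : Cut ρ1 ρ2 C a a1 a2) (hr0 : 0 < r) (hr1 : r ≤ 1)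
    (hshort : ∀ y, |y| ≤ 3 → ∀ α β, IsComp {p | Bad 4 ε (fun p => G p y) p} α β → β - α ≤ r) :
    (1 - β / l) * (ε * vol (BadSet 4 ε G) ρ1 - C * r * (ε * vol (BadSet 4 ε G) ρ2)) ≤
      YY β G w φ a ε ∧ YY β G w φ a ε ≤ (1 + C) * (ε * vol (BadSet 4 ε G) ρ2) := by
  have hC : 0 ≤ C := le_trans (abs_nonneg _) (ha.b1 0)
  have hVo : IsOpen (BadSet 4 ε G) := isOpen_badSet hS.cG
  have hVm := hVo.measurableSet
  have w2 := w_average hl0 hl1 hS hε hr0 hρ ha hshort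
  have v2 := vol_nonneg (BadSet 4 ε G) ρ2
  change _ ≤ C * ε * r ^ 2 * vol (BadSet 4 ε G) ρ2 at w2
  unfold YY
  set V := BadSet 4 ε G with hV
  have ca : Continuous a := Cut.cont ha
  have caa : Continuous fun z : ℝ × ℝ => a z.1 * a z.2 := by fun_prop
  have zaa : ∀ z : ℝ × ℝ, z ∉ Sq 3 → a z.1 * a z.2 = 0 := fun z hz =>
    cut_prod_zero ha fun h => hz (Sq_mono (by linarith) h)
  have i_aa : IntegrableOn (fun z : ℝ × ℝ => a z.1 * a z.2) V := int_cont hVm caa zaa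
  have i_waa : IntegrableOn (fun z : ℝ × ℝ => w z.1 z.2 * (a z.1 * a z.2)) V :=
    int_cont hVm (hS.cw.mul caa) fun z hz => by rw [zaa z hz, mul_zero]
  have i_Y : IntegrableOn (fun z : ℝ × ℝ => (w z.1 z.2 - β * φ z.1 z.2) * (a z.1 * a z.2)) V :=
    int_cont hVm ((hS.cw.sub (continuous_const.mul hS.cφ)).mul caa) fun z hz => by
      rw [zaa z hz, mul_zero]
  have e_w2 : ∫ z in V, (w z.1 z.2 - ε) * (a z.1 * a z.2) =
      (∫ z in V, w z.1 z.2 * (a z.1 * a z.2)) - ε * ∫ z in V, a z.1 * a z.2 := by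
    rw [← integral_const_mul, ← integral_sub i_waa (i_aa.const_mul _)]
    exact setIntegral_congr_fun hVm fun z _ => by ring
  have c1 : ∫ z in V, a z.1 * a z.2 ≤ vol V ρ2 := by
    refine setIntegral_le_vol hVm i_aa (fun z _ _ => ?_) (fun z _ hz => (cut_prod_zero ha hz).le)
    have := ha.le_one z.1; have := ha.le_one z.2; have := ha.nonneg z.1; have := ha.nonneg z.2
    nlinarith
  have c2 : vol V ρ1 ≤ ∫ z in V, a z.1 * a z.2 := by
    have e : vol V ρ1 = ∫ z in V, (Sq ρ1).indicator (fun _ => (1 : ℝ)) z := by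
      rw [setIntegral_indicator (measurableSet_Sq ρ1), setIntegral_const]
      simp [vol, Measure.real]
    rw [e]
    refine setIntegral_mono_on ?_ i_aa hVm fun z hz => ?_
    · exact ((integrable_indicator_iff (measurableSet_Sq ρ1)).2
        (integrableOn_const (vol_Sq_lt_top ρ1).ne)).integrableOn
    · by_cases hzs : z ∈ Sq ρ1
      · rw [indicator_of_mem hzs, ha.eq_one z.1 (abs_lt.2 hzs.1).le,
          ha.eq_one z.2 (abs_lt.2 hzs.2).le]; norm_num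
      · rw [indicator_of_notMem hzs]; exact mul_nonneg (ha.nonneg _) (ha.nonneg _)
  have c3 : (1 - β / l) * ∫ z in V, w z.1 z.2 * (a z.1 * a z.2) ≤
      ∫ z in V, (w z.1 z.2 - β * φ z.1 z.2) * (a z.1 * a z.2) := by
    rw [← integral_const_mul]
    refine setIntegral_mono_on (i_waa.const_mul _) i_Y hVm fun z _ => ?_
    by_cases hz : z ∈ Sq 3
    · obtain ⟨h1, h2, h3, h4⟩ := sol_bounds hl0 hS hz
      rw [← mul_assoc]
      refine mul_le_mul_of_nonneg_right ?_ (mul_nonneg (ha.nonneg _) (ha.nonneg _))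
      have h5 : β * φ z.1 z.2 ≤ β * (l⁻¹ * w z.1 z.2) := mul_le_mul_of_nonneg_left h3 hβ
      have h6 : (1 - β / l) * w z.1 z.2 = w z.1 z.2 - β * (l⁻¹ * w z.1 z.2) := by
        rw [div_eq_mul_inv]; ring
      linarith
    · rw [zaa z hz]; simp
  have c4 : ∫ z in V, (w z.1 z.2 - β * φ z.1 z.2) * (a z.1 * a z.2) ≤
      ∫ z in V, w z.1 z.2 * (a z.1 * a z.2) := by
    refine setIntegral_mono_on i_Y i_waa hVm fun z _ => ?_
    by_cases hz : z ∈ Sq 3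
    · obtain ⟨h1, h2, h3, h4⟩ := sol_bounds hl0 hS hz
      refine mul_le_mul_of_nonneg_right ?_ (mul_nonneg (ha.nonneg _) (ha.nonneg _))
      have h5 : 0 ≤ β * φ z.1 z.2 := mul_nonneg hβ h4.le
      linarith
    · rw [zaa z hz]; simp
  rw [e_w2] at w2
  have w2' := abs_le.1 w2
  have hr2 : r ^ 2 ≤ r := by nlinarith
  have hr3 : r ^ 2 ≤ 1 := by nlinarith
  have hE : 0 ≤ C * (ε * vol V ρ2) := mul_nonneg hC (mul_nonneg hε.le v2)
  have q1 : C * ε * r ^ 2 * vol V ρ2 ≤ C * r * (ε * vol V ρ2) := by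
    have := mul_le_mul_of_nonneg_right hr2 hE
    linarith
  have q2 : C * ε * r ^ 2 * vol V ρ2 ≤ C * (ε * vol V ρ2) := by
    have := mul_le_mul_of_nonneg_right hr3 hE
    linarith
  have hκ : 0 ≤ 1 - β / l := by
    rw [sub_nonneg, div_le_one hl0]; exact hβl
  have m1 := mul_le_mul_of_nonneg_left c1 hε.le
  have m2 := mul_le_mul_of_nonneg_left c2 hε.le
  constructor
  · refine le_trans (mul_le_mul_of_nonneg_left ?_ hκ) c3
    linarith
  · refine c4.trans ?_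
    linarith

/-- growth of the weighted mass -/
theorem K5 (hl0 : 0 < l) (hl1 : l < 1) (hS : Sol l 50 G Gp w Gy φ) {t ε : ℝ} (ht0 : 0 < t)
    (htl : t < l) (hε : 0 < ε) {ρ1 ρ2 C : ℝ} {a a1 a2 : ℝ → ℝ} (hρ : ρ2 ≤ 3)
    (ha : Cut ρ1 ρ2 C a a1 a2)
    (hshort : ∀ y, |y| ≤ 3 → ∀ α β, IsComp {p | Bad 4 ε (fun p => G p y) p} α β → β - α ≤ 1 / 2)
    {c : ℝ} (hc : c < (1 + t) / (1 - t) / ε * ∫ z in BadSet 4 ε G,
      hat2 (BadSet 4 ε G) (fun p y => (ε - t ^ 2 / l * φ p y) * (a p * a y)) z) :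
    ∀ᶠ η in 𝓝[>] (0 : ℝ), c * η ≤ YY (t ^ 2 / l) G w φ a ε - YY (t ^ 2 / l) G w φ a (ε - η) := by
  have ca : Continuous a := Cut.cont ha
  have caa : Continuous fun z : ℝ × ℝ => a z.1 * a z.2 := by fun_prop
  have zaa : ∀ z : ℝ × ℝ, z ∉ Sq 3 → a z.1 * a z.2 = 0 := fun z hz =>
    cut_prod_zero ha fun h => hz (Sq_mono (by linarith) h)
  have hq : 0 < (1 + t) / (1 - t) / ε := div_pos (div_pos (by linarith) (by linarith)) hε
  set q := (1 + t) / (1 - t) / ε with hqd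
  have hgr := growth (Φ := fun p y => (ε - t ^ 2 / l * φ p y) * (a p * a y)) hl0 hl1 hS hε
    ((continuous_const.sub (continuous_const.mul hS.cφ)).mul caa) (fun p y h => by
      have : a p * a y = 0 := by
        apply zaa (p, y)
        rintro ⟨h1, h2⟩
        rcases h with h | h
        · exact absurd (abs_lt.2 h1) (not_lt.2 h)
        · exact absurd (abs_lt.2 h2) (not_lt.2 h)
      rw [this, mul_zero]) hshort
  have hgr2 := hgr.const_mul q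
  have hev := hgr2.eventually (lt_mem_nhds hc)
  filter_upwards [hev, self_mem_nhdsWithin] with η hη1 hη0
  have hη0 : 0 < η := hη0
  have hVo : ∀ ε, IsOpen (BadSet 4 ε G) := fun ε => isOpen_badSet hS.cG
  have hsub : BadSet 4 (ε - η) G ⊆ BadSet 4 ε G := badSet_mono (by linarith)
  have cY : Continuous fun z : ℝ × ℝ => (w z.1 z.2 - t ^ 2 / l * φ z.1 z.2) * (a z.1 * a z.2) :=
    (hS.cw.sub (continuous_const.mul hS.cφ)).mul caa
  have zY : ∀ z : ℝ × ℝ, z ∉ Sq 3 →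
      (w z.1 z.2 - t ^ 2 / l * φ z.1 z.2) * (a z.1 * a z.2) = 0 := fun z hz => by
    rw [zaa z hz, mul_zero]
  have e1 : YY (t ^ 2 / l) G w φ a ε - YY (t ^ 2 / l) G w φ a (ε - η) =
      ∫ z in BadSet 4 ε G \ BadSet 4 (ε - η) G,
        (w z.1 z.2 - t ^ 2 / l * φ z.1 z.2) * (a z.1 * a z.2) := by
    unfold YY
    rw [setIntegral_sdiff (hVo (ε - η)).measurableSet (int_cont (hVo ε).measurableSet cY zY) hsub]
  have hDm : MeasurableSet (BadSet 4 ε G \ BadSet 4 (ε - η) G) :=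
    (hVo ε).measurableSet.diff (hVo (ε - η)).measurableSet
  have c2 : Continuous fun z : ℝ × ℝ =>
      (w z.1 z.2 - ε) * ((ε - t ^ 2 / l * φ z.1 z.2) * (a z.1 * a z.2)) :=
    (hS.cw.sub continuous_const).mul ((continuous_const.sub (continuous_const.mul hS.cφ)).mul caa)
  have e2 : q * ∫ z in BadSet 4 ε G \ BadSet 4 (ε - η) G,
        (w z.1 z.2 - ε) * ((ε - t ^ 2 / l * φ z.1 z.2) * (a z.1 * a z.2)) ≤
      ∫ z in BadSet 4 ε G \ BadSet 4 (ε - η) G,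
        (w z.1 z.2 - t ^ 2 / l * φ z.1 z.2) * (a z.1 * a z.2) := by
    rw [← integral_const_mul]
    refine setIntegral_mono_on ((int_cont hDm c2 fun z hz => by
      rw [zaa z hz, mul_zero, mul_zero]).const_mul _) (int_cont hDm cY zY) hDm fun z _ => ?_
    by_cases hz : z ∈ Sq 3
    · obtain ⟨h1, h2, h3, h4⟩ := sol_bounds hl0 hS hz
      have h5 := pointwise_ineq hl0 hl1 ht0 htl hε h1 h2 h3
      have h6 := mul_le_mul_of_nonneg_right h5 (mul_nonneg (ha.nonneg z.1) (ha.nonneg z.2))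
      rw [← hqd] at h6
      linarith
    · rw [zaa z hz]; simp
  rw [e1]
  refine le_trans ?_ e2
  have h7 : c ≤ q * (η⁻¹ * ∫ z in BadSet 4 ε G \ BadSet 4 (ε - η) G,
        (w z.1 z.2 - ε) * ((ε - t ^ 2 / l * φ z.1 z.2) * (a z.1 * a z.2))) := le_of_lt hη1
  calc c * η ≤ (q * (η⁻¹ * ∫ z in BadSet 4 ε G \ BadSet 4 (ε - η) G,
        (w z.1 z.2 - ε) * ((ε - t ^ 2 / l * φ z.1 z.2) * (a z.1 * a z.2)))) * η :=
        mul_le_mul_of_nonneg_right h7 hη0.le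
    _ = _ := by field_simp

/-- the statement proved by induction -/
def Pst (l c0 s ρ : ℝ) : Prop :=
  ∃ C ε0 : ℝ, 0 < C ∧ 0 < ε0 ∧ ∀ G Gp w Gy φ : ℝ → ℝ → ℝ, Sol l 50 G Gp w Gy φ →
    c0 ≤ mass w 0 0 1 → ∀ ε : ℝ, 0 < ε → ε < ε0 → ε * vol (BadSet 4 ε G) ρ ≤ C * ε ^ s

theorem Pst_base (l c0 : ℝ) : Pst l c0 1 3 := by
  refine ⟨36, 1, by norm_num, by norm_num, fun G Gp w Gy φ _ _ ε hε _ => ?_⟩
  rw [Real.rpow_one, mul_comm]
  exact mul_le_mul_of_nonneg_right (vol_le le_rfl) hε.le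

theorem rpow_small {C δ m : ℝ} (hC : 0 < C) (hδ : 0 < δ) (hm : 0 < m) :
    ∃ ε0 : ℝ, 0 < ε0 ∧ ∀ ε : ℝ, 0 < ε → ε < ε0 → C * ε ^ δ ≤ m := by
  refine ⟨(m / C) ^ (1 / δ), Real.rpow_pos_of_pos (div_pos hm hC) _, fun ε hε h => ?_⟩
  have h1 : ε ^ δ ≤ ((m / C) ^ (1 / δ)) ^ δ := Real.rpow_le_rpow hε.le h.le hδ.le
  rw [← Real.rpow_mul (div_pos hm hC).le, one_div, inv_mul_cancel₀ hδ.ne', Real.rpow_one] at h1
  calc C * ε ^ δ ≤ C * (m / C) := mul_le_mul_of_nonneg_left h1 hC.le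
    _ = m := by field_simp

theorem step {l c0 δ : ℝ} (hl0 : 0 < l) (hl1 : l < 1) (hδ : 0 < δ)
    (hshort : ∃ C : ℝ, 0 < C ∧ ∀ G Gp w Gy φ : ℝ → ℝ → ℝ, Sol l 50 G Gp w Gy φ →
      c0 ≤ mass w 0 0 1 → ∀ ε : ℝ, 0 < ε → ∀ y : ℝ, |y| ≤ 4 → ∀ a b : ℝ,
        IsComp {p | Bad 4 ε (fun p => G p y) p} a b → b - a ≤ C * ε ^ δ)
    {t s s' ρ ρ' : ℝ} (ht0 : 0 < t) (htl : t < l) (hs' : 0 < s') (hss : s' ≤ s + δ)
    (hsq : s' < (1 + t) / (1 - t)) (hρ' : 0 < ρ') (hρρ : ρ' < ρ) (hρ3 : ρ ≤ 3)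
    (h : Pst l c0 s ρ) : Pst l c0 s' ρ' := by
  obtain ⟨Cr, hCr, hsh⟩ := hshort
  obtain ⟨C, ε0, hC, hε0, hP⟩ := h
  obtain ⟨Ca, a, a1, a2, hCa, ha⟩ := exists_cut (ρ1 := ρ') (ρ2 := (2 * ρ' + ρ) / 3) hρ' (by linarith)
  obtain ⟨Cb, b, b1, b2, hCb, hb⟩ := exists_cut (ρ1 := (ρ' + 2 * ρ) / 3) (ρ2 := ρ) (by linarith)
    (by linarith)
  have hm : 0 < min (1 / 2) ((ρ - ρ') / 3) := lt_min (by norm_num) (by linarith)
  obtain ⟨ε2, hε2, hsm⟩ := rpow_small hCr hδ hm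
  set ε1 := min 1 (min ε0 ε2) with hε1
  have hε1p : 0 < ε1 := lt_min one_pos (lt_min hε0 hε2)
  set q := (1 + t) / (1 - t) with hq
  set β := t ^ 2 / l with hβ
  have hβ0 : 0 ≤ β := by positivity
  have hβl : β ≤ l := by
    rw [hβ, div_le_iff₀ hl0]; nlinarith
  have hβl' : β < l := by
    rw [hβ, div_lt_iff₀ hl0]; nlinarith
  have hβ1 : β ≤ 1 := hβl.trans hl1.le
  have hκ : 0 < 1 - β / l := by
    rw [sub_pos, div_lt_one hl0]; exact hβl'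
  have hq0 : 0 < q := div_pos (by linarith) (by linarith)
  set C1 := Ca * (3 + l⁻¹ * (1 + Cb) + Cb) with hC1
  have hl' : 0 < l⁻¹ := inv_pos.2 hl0
  have hC1p : 0 < C1 := by positivity
  set B := C1 * Cr * C with hB
  have hBp : 0 < B := by positivity
  set M := 36 * (1 + Ca) with hM
  set A := M * ε1 ^ (-s') + q * B / (q - s') with hA
  have hAp : 0 < A := by
    have h1 : 0 < M * ε1 ^ (-s') := mul_pos (by positivity) (Real.rpow_pos_of_pos hε1p _)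
    have h2 : 0 < q * B / (q - s') := div_pos (mul_pos hq0 hBp) (by linarith)
    linarith
  refine ⟨A / (1 - β / l) + Ca * Cr * C, ε1, by positivity, hε1p, fun G Gp w Gy φ hS hmass => ?_⟩
  have hsh' := hsh G Gp w Gy φ hS hmass
  have hP' := hP G Gp w Gy φ hS hmass
  -- facts at each level
  have lev : ∀ ε ∈ Ioo 0 ε1, 0 < Cr * ε ^ δ ∧ Cr * ε ^ δ ≤ 1 / 2 ∧ Cr * ε ^ δ ≤ (ρ - ρ') / 3 ∧
      (∀ y, |y| ≤ 3 → ∀ α γ, IsComp {p | Bad 4 ε (fun p => G p y) p} α γ → γ - α ≤ Cr * ε ^ δ) ∧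
      ε * vol (BadSet 4 ε G) ρ ≤ C * ε ^ s ∧ Cr * ε ^ δ * (C * ε ^ s) ≤ Cr * C * ε ^ s' := by
    intro ε hε
    have h1 : ε < 1 := lt_of_lt_of_le hε.2 (min_le_left _ _)
    have h2 : ε < ε0 := lt_of_lt_of_le hε.2 ((min_le_right _ _).trans (min_le_left _ _))
    have h3 : ε < ε2 := lt_of_lt_of_le hε.2 ((min_le_right _ _).trans (min_le_right _ _))
    have h4 := hsm ε hε.1 h3
    refine ⟨mul_pos hCr (Real.rpow_pos_of_pos hε.1 _), h4.trans (min_le_left _ _),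
      h4.trans (min_le_right _ _), fun y hy α γ hI => hsh' ε hε.1 y (by linarith) α γ hI,
      hP' ε hε.1 h2, ?_⟩
    have h5 : ε ^ δ * ε ^ s = ε ^ (δ + s) := (Real.rpow_add hε.1 _ _).symm
    have h6 : ε ^ (δ + s) ≤ ε ^ s' :=
      Real.rpow_le_rpow_of_exponent_ge hε.1 h1.le (by linarith)
    calc Cr * ε ^ δ * (C * ε ^ s) = Cr * C * (ε ^ δ * ε ^ s) := by ring
      _ ≤ Cr * C * ε ^ s' := by rw [h5]; exact mul_le_mul_of_nonneg_left h6 (by positivity)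
  have hρ2 : (2 * ρ' + ρ) / 3 ≤ 3 := by linarith
  -- K2 at each level
  have k2 : ∀ ε ∈ Ioo 0 ε1, _ := fun ε hε =>
    K2 hl0 hl1 hS hβ0 hβl hε.1 (by linarith) hρ2 ha (lev ε hε).1
      ((lev ε hε).2.1.trans (by norm_num)) (lev ε hε).2.2.2.1
  have bar := barrier (q := q) (s := s') (B := B) (ε0 := ε1) (M := M) hs' hsq hBp.le hε1p
    (Y := YY β G w φ a)
    (fun x _ y _ hxy => YY_mono hl0 hS hβ0 hβl hρ2 ha hxy)
    (fun ε _ => YY_nonneg hl0 hS hβ0 hβl hρ2 ha ε)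
    (fun ε hε => by
      refine (k2 ε hε).2.trans ?_
      have h1 : ε ≤ 1 := (lt_of_lt_of_le hε.2 (min_le_left _ _)).le
      have h2 : vol (BadSet 4 ε G) ((2 * ρ' + ρ) / 3) ≤ 36 := vol_le hρ2
      have h3 := vol_nonneg (BadSet 4 ε G) ((2 * ρ' + ρ) / 3)
      have h4 : ε * vol (BadSet 4 ε G) ((2 * ρ' + ρ) / 3) ≤ 1 * 36 :=
        mul_le_mul h1 h2 h3 (by norm_num)
      have h5 := mul_le_mul_of_nonneg_left h4 (by linarith : (0 : ℝ) ≤ 1 + Ca)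
      linarith)
    (fun ε hε c hc => by
      obtain ⟨r0, r1, r2, r3, r4, r5⟩ := lev ε hε
      refine K5 hl0 hl1 hS ht0 htl hε.1 hρ2 ha
        (fun y hy α γ hI => (r3 y hy α γ hI).trans r1) (lt_of_lt_of_le hc ?_)
      refine mul_le_mul_of_nonneg_left ?_ (div_pos hq0 hε.1).le
      have k1 := K1 hl0 hl1 hS hβ0 hβ1 hε.1 ha hb (by linarith) (by linarith) hρ3 r0
        (r1.trans (by norm_num)) (by linarith) r3
      refine le_trans ?_ k1
      have h1 : C1 * (Cr * ε ^ δ) * (ε * vol (BadSet 4 ε G) ρ) ≤ B * ε ^ s' := by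
        have h2 : Cr * ε ^ δ * (ε * vol (BadSet 4 ε G) ρ) ≤ Cr * ε ^ δ * (C * ε ^ s) :=
          mul_le_mul_of_nonneg_left r4 r0.le
        have h3 := mul_le_mul_of_nonneg_left (h2.trans r5) hC1p.le
        calc _ = C1 * (Cr * ε ^ δ * (ε * vol (BadSet 4 ε G) ρ)) := by ring
          _ ≤ _ := h3
          _ = _ := by rw [hB]; ring
      have : YY β G w φ a ε =
        ∫ z in BadSet 4 ε G, (w z.1 z.2 - β * φ z.1 z.2) * (a z.1 * a z.2) := rfl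
      linarith)
  intro ε hε hεlt
  have hεI : ε ∈ Ioo 0 ε1 := ⟨hε, hεlt⟩
  obtain ⟨r0, r1, r2, r3, r4, r5⟩ := lev ε hεI
  have b1' := bar ε hεI
  have k2' := (k2 ε hεI).1
  have h1 : (1 - β / l) * (ε * vol (BadSet 4 ε G) ρ' - Ca * (Cr * ε ^ δ) *
      (ε * vol (BadSet 4 ε G) ((2 * ρ' + ρ) / 3))) ≤ A * ε ^ s' := k2'.trans b1'
  have h2 : ε * vol (BadSet 4 ε G) ρ' - Ca * (Cr * ε ^ δ) *
      (ε * vol (BadSet 4 ε G) ((2 * ρ' + ρ) / 3)) ≤ A / (1 - β / l) * ε ^ s' := by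
    rw [div_mul_eq_mul_div, le_div_iff₀ hκ]
    linarith
  have h3 : ε * vol (BadSet 4 ε G) ((2 * ρ' + ρ) / 3) ≤ C * ε ^ s :=
    (mul_le_mul_of_nonneg_left (vol_mono (by linarith)) hε.le).trans r4
  have h4 : Ca * (Cr * ε ^ δ) * (ε * vol (BadSet 4 ε G) ((2 * ρ' + ρ) / 3)) ≤
      Ca * Cr * C * ε ^ s' := by
    have h5 := mul_le_mul_of_nonneg_left h3 r0.le
    have h6 := mul_le_mul_of_nonneg_left (h5.trans r5) hCa.le
    linarith
  linarith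

end S18

/-- [T18] The main estimate for smooth solutions. -/
theorem smooth_main (l : ℝ) (hl0 : 0 < l) (hl1 : l < 1) (c0 : ℝ) (hc0 : 0 < c0) :
    ∃ C ε0 : ℝ, 0 < C ∧ 0 < ε0 ∧ ∀ G Gp w Gy φ : ℝ → ℝ → ℝ, Sol l 50 G Gp w Gy φ →
      c0 ≤ mass w 0 0 1 → ∀ ε : ℝ, 0 < ε → ε < ε0 →
        volume (BadSet 4 ε G ∩ Sq 2) ≤
          ENNReal.ofReal (C * ε ^ ((1 + l ^ 2) / (1 - l ^ 2) - 1)) := by
  obtain ⟨δ, hδ, hδ1, hsh⟩ := short l hl0 hl1
  have hsh' := hsh c0 hc0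
  set p := (1 + l ^ 2) / (1 - l ^ 2) with hp
  set t := (l ^ 2 + l) / 2 with ht
  have hl2 : l ^ 2 < l := by nlinarith
  have ht0 : 0 < t := by positivity
  have htl : t < l := by rw [ht]; linarith
  have hl2t : l ^ 2 < t := by rw [ht]; linarith
  have hpq : p < (1 + t) / (1 - t) := by
    rw [hp, div_lt_div_iff₀ (by nlinarith) (by linarith)]
    nlinarith
  have hp1 : 1 < p := by
    rw [hp, lt_div_iff₀ (by nlinarith)]
    nlinarith [pow_pos hl0 2]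
  have ind : ∀ n : ℕ, S18.Pst l c0 (min (1 + n * δ) p) (2 + 1 / ((n : ℝ) + 1)) := by
    intro n
    induction n with
    | zero =>
      have h1 : min (1 + ((0 : ℕ) : ℝ) * δ) p = 1 := by
        rw [Nat.cast_zero, zero_mul, add_zero]; exact min_eq_left hp1.le
      have h2 : (2 : ℝ) + 1 / (((0 : ℕ) : ℝ) + 1) = 3 := by norm_num
      rw [h1, h2]
      exact S18.Pst_base l c0
    | succ n ih =>
      have hn : (0 : ℝ) ≤ n := Nat.cast_nonneg n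
      refine S18.step hl0 hl1 hδ hsh' ht0 htl ?_ ?_ ?_ ?_ ?_ ?_ ih
      · push_cast
        exact lt_min (by positivity) (by linarith)
      · push_cast
        rcases le_total (1 + (n : ℝ) * δ) p with h | h
        · rw [min_eq_left h]
          exact (min_le_left _ _).trans (by linarith)
        · rw [min_eq_right h]
          exact (min_le_right _ _).trans (by linarith)
      · exact lt_of_le_of_lt (min_le_right _ _) hpq
      · positivity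
      · push_cast
        have : 1 / ((n : ℝ) + 1 + 1) < 1 / ((n : ℝ) + 1) :=
          one_div_lt_one_div_of_lt (by linarith) (by linarith)
        linarith
      · have : 1 / ((n : ℝ) + 1) ≤ 1 := by
          rw [div_le_one (by linarith)]; linarith
        linarith
  obtain ⟨n, hn⟩ := exists_nat_gt ((p - 1) / δ)
  have hn' : p ≤ 1 + n * δ := by
    rw [div_lt_iff₀ hδ] at hn; linarith
  have h := ind n
  rw [min_eq_right hn'] at h
  obtain ⟨C, ε0, hC, hε0, hP⟩ := h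
  refine ⟨C, ε0, hC, hε0, fun G Gp w Gy φ hS hm ε hε hlt => ?_⟩
  have h1 := hP G Gp w Gy φ hS hm ε hε hlt
  have h2 : S18.vol (BadSet 4 ε G) 2 ≤ S18.vol (BadSet 4 ε G) (2 + 1 / ((n : ℝ) + 1)) :=
    S18.vol_mono (by
      have : (0 : ℝ) < 1 / ((n : ℝ) + 1) := by positivity
      linarith)
  have h3 : ε * S18.vol (BadSet 4 ε G) 2 ≤ C * ε ^ p :=
    (mul_le_mul_of_nonneg_left h2 hε.le).trans h1
  have h4 : S18.vol (BadSet 4 ε G) 2 ≤ C * ε ^ (p - 1) := by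
    rw [Real.rpow_sub_one hε.ne', ← mul_div_assoc, le_div_iff₀ hε]
    linarith
  rw [← ENNReal.ofReal_toReal (S18.vol_lt_top (BadSet 4 ε G) 2).ne]
  exact ENNReal.ofReal_le_ofReal h4

end Pool.Agent.MP_4aaa5f_an
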