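import Pool.Agent.MP_4aaa5f_an.Defs
import Pool.Agent.MP_4aaa5f_an.T10
import Pool.Agent.MP_4aaa5f_an.T18

set_option autoImplicit false

namespace Pool.Agent.MP_4aaa5f_an

open MeasureTheory Set Filter Topology

namespace Moll

/-- tent averaging -/
noncomputable def tent (h : ℝ) (f : ℝ → ℝ) (x : ℝ) : ℝ := ∫ s in (-h)..h, (h - |s|) * f (x + s)

/-- primitive -/
noncomputable def prim (f : ℝ → ℝ) (x : ℝ) : ℝ := ∫ t in (0 : ℝ)..x, f t

/-- derivative of the tent average -/
noncomputable def tent1 (h : ℝ) (f : ℝ → ℝ) (x : ℝ) : ℝ :=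
  prim f (x + h) + prim f (x - h) - 2 * prim f x

theorem hasDerivAt_prim {f : ℝ → ℝ} (hf : Continuous f) (x : ℝ) :
    HasDerivAt (prim f) (f x) x :=
  intervalIntegral.integral_hasDerivAt_right (hf.intervalIntegrable _ _)
    (hf.stronglyMeasurableAtFilter _ _) hf.continuousAt

theorem continuous_prim {f : ℝ → ℝ} (hf : Continuous f) : Continuous (prim f) :=
  continuous_iff_continuousAt.2 fun x => (hasDerivAt_prim hf x).continuousAt

theorem tent_second {h : ℝ} (hh : 0 ≤ h) {F F1 f : ℝ → ℝ} (hF : ∀ x, HasDerivAt F (F1 x) x)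
    (hF1 : ∀ x, HasDerivAt F1 (f x) x) (hf : Continuous f) (x : ℝ) :
    tent h f x = F (x + h) + F (x - h) - 2 * F x := by
  have hc : Continuous fun s : ℝ => (h - |s|) * f (x + s) := by fun_prop
  unfold tent
  rw [← intervalIntegral.integral_add_adjacent_intervals (b := 0) (hc.intervalIntegrable _ _)
    (hc.intervalIntegrable _ _)]
  have hFs : ∀ s, HasDerivAt (fun s => F (x + s)) (F1 (x + s)) s := fun s => by
    simpa using (hF (x + s)).comp_const_add x s
  have hF1s : ∀ s, HasDerivAt (fun s => F1 (x + s)) (f (x + s)) s := fun s => by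
    simpa using (hF1 (x + s)).comp_const_add x s
  have e1 : ∫ s in (0 : ℝ)..h, (h - |s|) * f (x + s) = F (x + h) - (h * F1 x + F x) := by
    have e : ∫ s in (0 : ℝ)..h, (h - |s|) * f (x + s) = ∫ s in (0 : ℝ)..h, (h - s) * f (x + s) := by
      apply intervalIntegral.integral_congr
      intro s hs
      rw [uIcc_of_le hh] at hs
      simp only
      rw [abs_of_nonneg hs.1]
    rw [e]
    have hd : ∀ s ∈ uIcc 0 h, HasDerivAt (fun s => (h - s) * F1 (x + s) + F (x + s))
        ((h - s) * f (x + s)) s := by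
      intro s _
      have h1 := (((hasDerivAt_id s).const_sub h).mul (hF1s s)).add (hFs s)
      refine h1.congr_deriv ?_
      simp
    rw [intervalIntegral.integral_eq_sub_of_hasDerivAt hd (by
      apply Continuous.intervalIntegrable; fun_prop)]
    simp
  have e2 : ∫ s in (-h)..(0 : ℝ), (h - |s|) * f (x + s) = h * F1 x - F x + F (x - h) := by
    have e : ∫ s in (-h)..(0 : ℝ), (h - |s|) * f (x + s) =
        ∫ s in (-h)..(0 : ℝ), (h + s) * f (x + s) := by
      apply intervalIntegral.integral_congr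
      intro s hs
      rw [uIcc_of_le (by linarith)] at hs
      simp only
      rw [abs_of_nonpos hs.2, sub_neg_eq_add]
    rw [e]
    have hd : ∀ s ∈ uIcc (-h) 0, HasDerivAt (fun s => (h + s) * F1 (x + s) - F (x + s))
        ((h + s) * f (x + s)) s := by
      intro s _
      have h1 := (((hasDerivAt_id s).const_add h).mul (hF1s s)).sub (hFs s)
      refine h1.congr_deriv ?_
      simp
    rw [intervalIntegral.integral_eq_sub_of_hasDerivAt hd (by
      apply Continuous.intervalIntegrable; fun_prop)]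
    simp [sub_eq_add_neg]
  rw [e1, e2]
  ring

theorem tent_eq {h : ℝ} (hh : 0 ≤ h) {f : ℝ → ℝ} (hf : Continuous f) (x : ℝ) :
    tent h f x = prim (prim f) (x + h) + prim (prim f) (x - h) - 2 * prim (prim f) x :=
  tent_second hh (hasDerivAt_prim (continuous_prim hf)) (hasDerivAt_prim hf) hf x

theorem hasDerivAt_second {F F1 : ℝ → ℝ} (hF : ∀ x, HasDerivAt F (F1 x) x) (h x : ℝ) :
    HasDerivAt (fun x => F (x + h) + F (x - h) - 2 * F x) (F1 (x + h) + F1 (x - h) - 2 * F1 x) x := by
  have h1 : HasDerivAt (fun x => F (x + h)) (F1 (x + h)) x := (hF (x + h)).comp_add_const x h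
  have h2 : HasDerivAt (fun x => F (x - h)) (F1 (x - h)) x := (hF (x - h)).comp_sub_const x h
  exact (h1.add h2).sub ((hF x).const_mul 2)

theorem hasDerivAt_tent {h : ℝ} (hh : 0 ≤ h) {f : ℝ → ℝ} (hf : Continuous f) (x : ℝ) :
    HasDerivAt (tent h f) (tent1 h f x) x := by
  have e : tent h f = fun x => prim (prim f) (x + h) + prim (prim f) (x - h) -
      2 * prim (prim f) x := funext fun x => tent_eq hh hf x
  rw [e]
  exact hasDerivAt_second (hasDerivAt_prim (continuous_prim hf)) h x

theorem hasDerivAt_tent1 {f : ℝ → ℝ} (hf : Continuous f) (h x : ℝ) :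
    HasDerivAt (tent1 h f) (f (x + h) + f (x - h) - 2 * f x) x :=
  hasDerivAt_second (hasDerivAt_prim hf) h x

theorem tent_const {h : ℝ} (hh : 0 ≤ h) (c x : ℝ) : tent h (fun _ => c) x = h ^ 2 * c := by
  have h1 : ∀ x : ℝ, HasDerivAt (fun x : ℝ => c * x ^ 2 / 2) (c * x) x := fun x => by
    have := ((hasDerivAt_pow 2 x).const_mul c).div_const 2
    refine this.congr_deriv ?_
    push_cast
    ring
  have h2 : ∀ x : ℝ, HasDerivAt (fun x : ℝ => c * x) c x := fun x => by
    simpa using (hasDerivAt_id x).const_mul c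
  rw [tent_second hh h1 h2 continuous_const x]
  ring

theorem tent_mono {h : ℝ} (hh : 0 ≤ h) {f g : ℝ → ℝ} (hf : Continuous f) (hg : Continuous g)
    {x : ℝ} (H : ∀ s, |s| ≤ h → f (x + s) ≤ g (x + s)) : tent h f x ≤ tent h g x := by
  unfold tent
  apply intervalIntegral.integral_mono_on (by linarith)
  · apply Continuous.intervalIntegrable; fun_prop
  · apply Continuous.intervalIntegrable; fun_prop
  · intro s hs
    have hs' : |s| ≤ h := abs_le.2 hs
    exact mul_le_mul_of_nonneg_left (H s hs') (by linarith)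

theorem tent_close {h : ℝ} (hh : 0 ≤ h) {f : ℝ → ℝ} (hf : Continuous f) {c η x : ℝ}
    (H : ∀ s, |s| ≤ h → |f (x + s) - c| ≤ η) : |tent h f x - h ^ 2 * c| ≤ h ^ 2 * η := by
  have h1 : tent h (fun _ => c - η) x ≤ tent h f x :=
    tent_mono hh continuous_const hf fun s hs => by
      have := abs_le.1 (H s hs)
      linarith
  have h2 : tent h f x ≤ tent h (fun _ => c + η) x :=
    tent_mono hh hf continuous_const fun s hs => by
      have := abs_le.1 (H s hs)
      linarith
  rw [tent_const hh] at h1 h2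
  rw [abs_le]
  constructor <;> linarith

section two
variable {G : ℝ → ℝ → ℝ} (hG : Continuous fun z : ℝ × ℝ => G z.1 z.2)
include hG

theorem cont_left (y : ℝ) : Continuous fun x => G x y :=
  hG.comp (Continuous.prodMk_left y)

theorem cont_right (x : ℝ) : Continuous fun y => G x y :=
  hG.comp (Continuous.prodMk_right x)

theorem cont_tent_y (h : ℝ) : Continuous fun z : ℝ × ℝ => tent h (fun y => G z.1 y) z.2 := by
  unfold tent
  apply intervalIntegral.continuous_parametric_intervalIntegral_of_continuous'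
  have : Continuous fun q : (ℝ × ℝ) × ℝ => G q.1.1 (q.1.2 + q.2) :=
    hG.comp (f := fun q : (ℝ × ℝ) × ℝ => (q.1.1, q.1.2 + q.2)) (by fun_prop)
  have h2 : Continuous fun q : (ℝ × ℝ) × ℝ => h - |q.2| := by fun_prop
  exact h2.mul this

theorem cont_tent_x (h : ℝ) : Continuous fun z : ℝ × ℝ => tent h (fun x => G x z.2) z.1 := by
  unfold tent
  apply intervalIntegral.continuous_parametric_intervalIntegral_of_continuous'
  have : Continuous fun q : (ℝ × ℝ) × ℝ => G (q.1.1 + q.2) q.1.2 :=
    hG.comp (f := fun q : (ℝ × ℝ) × ℝ => (q.1.1 + q.2, q.1.2)) (by fun_prop)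
  have h2 : Continuous fun q : (ℝ × ℝ) × ℝ => h - |q.2| := by fun_prop
  exact h2.mul this

theorem tent_swap (h p y : ℝ) : tent h (fun x => tent h (fun y' => G x y') y) p =
    tent h (fun y' => tent h (fun x => G x y') p) y := by
  unfold tent
  have e1 : ∀ s : ℝ, (h - |s|) * ∫ t in (-h)..h, (h - |t|) * G (p + s) (y + t) =
      ∫ t in (-h)..h, (h - |s|) * ((h - |t|) * G (p + s) (y + t)) := fun s => by
    rw [intervalIntegral.integral_const_mul]
  have e2 : ∀ t : ℝ, (h - |t|) * ∫ s in (-h)..h, (h - |s|) * G (p + s) (y + t) =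
      ∫ s in (-h)..h, (h - |s|) * ((h - |t|) * G (p + s) (y + t)) := fun t => by
    rw [← intervalIntegral.integral_const_mul]
    apply intervalIntegral.integral_congr
    intro s _
    simp only
    ring
  simp_rw [e1, e2]
  apply intervalIntegral_intervalIntegral_swap
  have hc : Continuous (Function.uncurry fun s t : ℝ =>
      (h - |s|) * ((h - |t|) * G (p + s) (y + t))) := by
    have : Continuous fun q : ℝ × ℝ => G (p + q.1) (y + q.2) :=
      hG.comp (f := fun q : ℝ × ℝ => (p + q.1, y + q.2)) (by fun_prop)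
    have h2 : Continuous fun q : ℝ × ℝ => h - |q.1| := by fun_prop
    have h3 : Continuous fun q : ℝ × ℝ => h - |q.2| := by fun_prop
    exact h2.mul (h3.mul this)
  apply (hc.continuousOn.integrableOn_compact (isCompact_uIcc.prod isCompact_uIcc)).mono_set
  exact prod_mono uIoc_subset_uIcc uIoc_subset_uIcc

theorem starA_eq (p y h : ℝ) : starA G p y h = tent h (fun y => G (p + h) y) y +
    tent h (fun y => G (p - h) y) y - 2 * tent h (fun y => G p y) y := by
  unfold starA tent
  have hi : ∀ x, IntervalIntegrable (fun t => (h - |t|) * G x (y + t)) volume (-h) h := fun x => by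
    have := cont_right hG x
    apply Continuous.intervalIntegrable
    fun_prop
  rw [← intervalIntegral.integral_const_mul, ← intervalIntegral.integral_add (hi _) (hi _),
    ← intervalIntegral.integral_sub ((hi _).add (hi _)) ((hi _).const_mul 2)]
  apply intervalIntegral.integral_congr
  intro t _
  simp only
  ring

theorem starB_eq (p y h : ℝ) : starB G p y h = 2 * tent h (fun x => G x y) p -
    tent h (fun x => G x (y + h)) p - tent h (fun x => G x (y - h)) p := by
  unfold starB tent
  have hi : ∀ y, IntervalIntegrable (fun s => (h - |s|) * G (p + s) y) volume (-h) h := fun y => by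
    have := cont_left hG y
    apply Continuous.intervalIntegrable
    fun_prop
  rw [← intervalIntegral.integral_const_mul,
    ← intervalIntegral.integral_sub ((hi _).const_mul 2) (hi _),
    ← intervalIntegral.integral_sub (((hi _).const_mul 2).sub (hi _)) (hi _)]
  apply intervalIntegral.integral_congr
  intro t _
  simp only
  ring

omit hG in
/-- the mollification -/
noncomputable def Gh (G : ℝ → ℝ → ℝ) (h p y : ℝ) : ℝ :=
  (h ^ 4)⁻¹ * tent h (fun x => tent h (fun y' => G x y') y) p + h * (p ^ 2 - y ^ 2) / 2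

theorem sol {l : ℝ} (hl0 : 0 < l) (hl1 : l < 1) (hS : Star l 50 1 G) {h : ℝ} (hh : 0 < h)
    (hh1 : h ≤ 1) :
    Sol l 50 (Gh G h)
      (fun p y => (h ^ 4)⁻¹ * tent1 h (fun x => tent h (fun y' => G x y') y) p + h * p)
      (fun p y => (h ^ 4)⁻¹ * starA G p y h + h)
      (fun p y => (h ^ 4)⁻¹ * tent1 h (fun y' => tent h (fun x => G x y') p) y - h * y)
      (fun p y => (h ^ 4)⁻¹ * starB G p y h + h) := by
  have hcy := cont_tent_y hG h
  have hcx := cont_tent_x hG h
  have hcy1 : ∀ y, Continuous fun x => tent h (fun y' => G x y') y := fun y =>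
    hcy.comp (Continuous.prodMk_left y)
  have hcx1 : ∀ x, Continuous fun y' => tent h (fun x => G x y') x := fun x =>
    hcx.comp (Continuous.prodMk_right x)
  have hinv : 0 < (h ^ 4)⁻¹ := by positivity
  have hA : ∀ p y, |p| ≤ 50 → |y| ≤ 50 → 0 ≤ starA G p y h := by
    intro p y hp hy
    obtain ⟨h1, h2⟩ := hS p y h hp hy hh hh1
    have h3 : l < l⁻¹ := hl1.trans ((one_lt_inv₀ hl0).2 hl1)
    by_contra hcon
    push Not at hcon
    have h4 : l⁻¹ * starA G p y h < l * starA G p y h := mul_lt_mul_of_neg_right h3 hcon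
    linarith
  refine ⟨?_, ?_, ?_, ?_, ?_, ?_, ?_, ?_, ?_, ?_⟩
  · intro p y
    unfold Gh
    have h1 := (hasDerivAt_tent hh.le (hcy1 y) p).const_mul (h ^ 4)⁻¹
    have h2 : HasDerivAt (fun p : ℝ => h * (p ^ 2 - y ^ 2) / 2) (h * p) p := by
      have := ((((hasDerivAt_pow 2 p).sub_const (y ^ 2)).const_mul h).div_const 2)
      refine this.congr_deriv ?_
      push_cast
      ring
    exact h1.add h2
  · intro p y
    have h1 := (hasDerivAt_tent1 (hcy1 y) h p).const_mul (h ^ 4)⁻¹
    have h2 : HasDerivAt (fun p : ℝ => h * p) h p := by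
      simpa using (hasDerivAt_id p).const_mul h
    simp only [starA_eq hG]
    exact h1.add h2
  · intro p y
    unfold Gh
    simp only [tent_swap hG]
    have h1 := (hasDerivAt_tent hh.le (hcx1 p) y).const_mul (h ^ 4)⁻¹
    have h2 : HasDerivAt (fun y : ℝ => h * (p ^ 2 - y ^ 2) / 2) (-(h * y)) y := by
      have := ((((hasDerivAt_pow 2 y).const_sub (p ^ 2)).const_mul h).div_const 2)
      refine this.congr_deriv ?_
      push_cast
      ring
    exact h1.add h2
  · intro p y
    have h1 := (hasDerivAt_tent1 (hcx1 p) h y).const_mul (h ^ 4)⁻¹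
    have h2 : HasDerivAt (fun y : ℝ => h * y) h y := by
      simpa using (hasDerivAt_id y).const_mul h
    have h3 := h1.sub h2
    refine h3.congr_deriv ?_
    rw [starB_eq hG]
    ring
  · unfold Gh
    have hc : Continuous fun z : ℝ × ℝ => tent h (fun x => tent h (fun y' => G x y') z.2) z.1 :=
      cont_tent_x (G := fun x y => tent h (fun y' => G x y') y) hcy h
    fun_prop
  · have e : (fun z : ℝ × ℝ => (h ^ 4)⁻¹ * starA G z.1 z.2 h + h) = fun z : ℝ × ℝ =>
        (h ^ 4)⁻¹ * (tent h (fun y => G (z.1 + h) y) z.2 + tent h (fun y => G (z.1 - h) y) z.2 -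
          2 * tent h (fun y => G z.1 y) z.2) + h := by
      funext z; rw [starA_eq hG]
    rw [e]
    have h1 : Continuous fun z : ℝ × ℝ => tent h (fun y => G (z.1 + h) y) z.2 :=
      hcy.comp (f := fun z : ℝ × ℝ => (z.1 + h, z.2)) (by fun_prop)
    have h2 : Continuous fun z : ℝ × ℝ => tent h (fun y => G (z.1 - h) y) z.2 :=
      hcy.comp (f := fun z : ℝ × ℝ => (z.1 - h, z.2)) (by fun_prop)
    exact (continuous_const.mul ((h1.add h2).sub (continuous_const.mul hcy))).add continuous_const
  · have e : (fun z : ℝ × ℝ => (h ^ 4)⁻¹ * starB G z.1 z.2 h + h) = fun z : ℝ × ℝ =>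
        (h ^ 4)⁻¹ * (2 * tent h (fun x => G x z.2) z.1 - tent h (fun x => G x (z.2 + h)) z.1 -
          tent h (fun x => G x (z.2 - h)) z.1) + h := by
      funext z; rw [starB_eq hG]
    rw [e]
    have h1 : Continuous fun z : ℝ × ℝ => tent h (fun x => G x (z.2 + h)) z.1 :=
      hcx.comp (f := fun z : ℝ × ℝ => (z.1, z.2 + h)) (by fun_prop)
    have h2 : Continuous fun z : ℝ × ℝ => tent h (fun x => G x (z.2 - h)) z.1 :=
      hcx.comp (f := fun z : ℝ × ℝ => (z.1, z.2 - h)) (by fun_prop)
    exact (continuous_const.mul (((continuous_const.mul hcx).sub h1).sub h2)).add continuous_const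
  · intro p y hp hy
    have := mul_nonneg hinv.le (hA p y hp hy)
    linarith
  · intro p y hp hy
    obtain ⟨h1, h2⟩ := hS p y h hp hy hh hh1
    have h3 := mul_le_mul_of_nonneg_left h1 hinv.le
    have h4 : l * h ≤ 1 * h := mul_le_mul_of_nonneg_right hl1.le hh.le
    nlinarith
  · intro p y hp hy
    obtain ⟨h1, h2⟩ := hS p y h hp hy hh hh1
    have h3 := mul_le_mul_of_nonneg_left h2 hinv.le
    have h5 : 1 < l⁻¹ := (one_lt_inv₀ hl0).2 hl1
    have h4 : 1 * h ≤ l⁻¹ * h := mul_le_mul_of_nonneg_right h5.le hh.le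
    nlinarith

/-- locally uniform convergence -/
theorem close {η : ℝ} (hη : 0 < η) : ∃ δ > 0, ∀ h, 0 < h → h < δ → ∀ p y : ℝ, |p| ≤ 4 → |y| ≤ 4 →
    |Gh G h p y - G p y| ≤ η := by
  have hK : IsCompact (Icc (-5 : ℝ) 5 ×ˢ Icc (-5 : ℝ) 5) := isCompact_Icc.prod isCompact_Icc
  have hu := hK.uniformContinuousOn_of_continuous hG.continuousOn
  rw [Metric.uniformContinuousOn_iff] at hu
  obtain ⟨δ, hδ, H⟩ := hu (η / 2) (by linarith)
  refine ⟨min (min δ 1) (η / 16), by positivity, fun h hh hhδ p y hp hy => ?_⟩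
  have hhδ1 : h < δ := hhδ.trans_le ((min_le_left _ _).trans (min_le_left _ _))
  have hhδ2 : h < 1 := hhδ.trans_le ((min_le_left _ _).trans (min_le_right _ _))
  have hhδ3 : h < η / 16 := hhδ.trans_le (min_le_right _ _)
  rw [abs_le] at hp hy
  have hin : ∀ s t : ℝ, |s| ≤ h → |t| ≤ h → |G (p + s) (y + t) - G p y| ≤ η / 2 := by
    intro s t hs ht
    have hs' := abs_le.1 hs
    have ht' := abs_le.1 ht
    have := H (p + s, y + t) ⟨⟨by simp only; linarith, by simp only; linarith⟩,
      ⟨by simp only; linarith, by simp only; linarith⟩⟩ (p, y)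
      ⟨⟨by simp only; linarith, by simp only; linarith⟩,
      ⟨by simp only; linarith, by simp only; linarith⟩⟩ ?_
    · rw [Real.dist_eq] at this
      exact this.le
    · rw [Prod.dist_eq]
      simp only [Real.dist_eq, add_sub_cancel_left]
      exact max_lt (hs.trans_lt hhδ1) (ht.trans_lt hhδ1)
  have hcy := cont_tent_y hG h
  have hcy1 : Continuous fun x => tent h (fun y' => G x y') y :=
    hcy.comp (Continuous.prodMk_left y)
  have h1 : ∀ s, |s| ≤ h → |tent h (fun y' => G (p + s) y') y - h ^ 2 * G p y| ≤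
      h ^ 2 * (η / 2) := fun s hs =>
    tent_close hh.le (cont_right hG _) fun t ht => hin s t hs ht
  have h2 := tent_close hh.le hcy1 h1
  have h4 : 0 < h ^ 4 := by positivity
  have h5 : |(h ^ 4)⁻¹ * tent h (fun x => tent h (fun y' => G x y') y) p - G p y| ≤ η / 2 := by
    have e : (h ^ 4)⁻¹ * tent h (fun x => tent h (fun y' => G x y') y) p - G p y =
        (h ^ 4)⁻¹ * (tent h (fun x => tent h (fun y' => G x y') y) p - h ^ 2 * (h ^ 2 * G p y)) := by
      field_simp
    rw [e, abs_mul, abs_of_pos (inv_pos.2 h4)]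
    calc (h ^ 4)⁻¹ * |tent h (fun x => tent h (fun y' => G x y') y) p - h ^ 2 * (h ^ 2 * G p y)|
        ≤ (h ^ 4)⁻¹ * (h ^ 2 * (h ^ 2 * (η / 2))) :=
          mul_le_mul_of_nonneg_left h2 (inv_nonneg.2 h4.le)
      _ = η / 2 := by field_simp
  have h6 : |h * (p ^ 2 - y ^ 2) / 2| ≤ η / 2 := by
    have h7 : |p ^ 2 - y ^ 2| ≤ 16 := by
      rw [abs_le]
      constructor <;> nlinarith
    rw [abs_div, abs_mul, abs_of_pos hh, abs_two]
    have h8 : h * |p ^ 2 - y ^ 2| ≤ h * 16 := mul_le_mul_of_nonneg_left h7 hh.le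
    linarith
  unfold Gh
  rw [abs_le] at h5 h6 ⊢
  constructor <;> linarith

end two

end Moll

open Moll in
/-- [T19] Mollification: the estimate for continuous `G` satisfying the weak inequality. -/
theorem limit_main (l : ℝ) (hl0 : 0 < l) (hl1 : l < 1) (c0 : ℝ) (hc0 : 0 < c0) :
    ∃ C ε0 : ℝ, 0 < C ∧ 0 < ε0 ∧ ∀ G : ℝ → ℝ → ℝ, Continuous (fun z : ℝ × ℝ => G z.1 z.2) →
      Star l 50 1 G → (∀ y, |y| ≤ 1 → c0 ≤ G 1 y + G (-1) y - 2 * G 0 y) →
      ∀ ε : ℝ, 0 < ε → ε < ε0 →
        volume (BadSet 4 ε G ∩ Sq 2) ≤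
          ENNReal.ofReal (C * ε ^ ((1 + l ^ 2) / (1 - l ^ 2) - 1)) := by
  obtain ⟨C, ε0, hC, hε0, H⟩ := smooth_main l hl0 hl1 c0 hc0
  refine ⟨C, ε0, hC, hε0, fun G hG hS hc ε hε hεε => ?_⟩
  -- good radius for the mass
  obtain ⟨δ, hδ, hcl⟩ := close hG (η := c0 / 8) (by linarith)
  have key : ∀ h, 0 < h → h < δ → h ≤ 1 → volume (BadSet 4 ε (Gh G h) ∩ Sq 2) ≤
      ENNReal.ofReal (C * ε ^ ((1 + l ^ 2) / (1 - l ^ 2) - 1)) := by
    intro h hh hhδ hh1
    have hsol := sol hG hl0 hl1 hS hh hh1
    refine H _ _ _ _ _ hsol ?_ ε hε hεε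
    have hsec : ∀ y, |y| ≤ 1 → c0 / 2 ≤ ∫ p in (0 - 1 : ℝ)..(0 + 1), ((h ^ 4)⁻¹ * starA G p y h + h) := by
      intro y hy
      have hy4 : |y| ≤ 4 := hy.trans (by norm_num)
      have e1 := tent_second (h := 1) zero_le_one (fun x => hsol.dG x y) (fun x => hsol.dGp x y)
        (hsol.cw.comp (Continuous.prodMk_left y)) 0
      have h1 := abs_le.1 (hcl h hh hhδ 1 y (by norm_num) hy4)
      have h2 := abs_le.1 (hcl h hh hhδ (-1) y (by norm_num) hy4)
      have h3 := abs_le.1 (hcl h hh hhδ 0 y (by norm_num) hy4)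
      have h4 := hc y hy
      have h5 : tent 1 (fun x => (h ^ 4)⁻¹ * starA G x y h + h) 0 ≤
          ∫ p in (0 - 1 : ℝ)..(0 + 1), ((h ^ 4)⁻¹ * starA G p y h + h) := by
        unfold tent
        rw [zero_sub, zero_add]
        have hcw : Continuous fun p => (h ^ 4)⁻¹ * starA G p y h + h :=
          hsol.cw.comp (Continuous.prodMk_left y)
        apply intervalIntegral.integral_mono_on (by norm_num)
        · apply Continuous.intervalIntegrable
          simp only [zero_add]
          fun_prop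
        · exact hcw.intervalIntegrable _ _
        · intro s hs
          have hpos := hsol.pos s y ((abs_le.2 hs).trans (by norm_num)) (hy.trans (by norm_num))
          rw [zero_add]
          have := abs_nonneg s
          nlinarith
      rw [e1] at h5
      norm_num at h5
      norm_num
      linarith
    have hcw2 : Continuous fun y => ∫ p in (0 - 1 : ℝ)..(0 + 1), ((h ^ 4)⁻¹ * starA G p y h + h) := by
      apply intervalIntegral.continuous_parametric_intervalIntegral_of_continuous'
      exact hsol.cw.comp continuous_swap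
    unfold mass
    calc c0 = ∫ y in (0 - 1 : ℝ)..(0 + 1), c0 / 2 := by
          rw [intervalIntegral.integral_const, smul_eq_mul]; ring
      _ ≤ _ := by
          apply intervalIntegral.integral_mono_on (by norm_num)
          · exact continuous_const.intervalIntegrable _ _
          · exact hcw2.intervalIntegrable _ _
          · intro y hy
            exact hsec y (abs_le.2 (by simpa using hy))
  -- a sequence
  obtain ⟨N0, hN0⟩ := exists_nat_gt (max δ⁻¹ 1)
  set hs : ℕ → ℝ := fun n => 1 / ((n : ℝ) + N0 + 1) with hhs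
  have hspos : ∀ n, 0 < hs n := fun n => by rw [hhs]; positivity
  have hslim : Tendsto hs atTop (𝓝 0) := by
    have h1 : Tendsto (fun n : ℕ => 1 / (((n + N0 : ℕ) : ℝ) + 1)) atTop (𝓝 0) :=
      (tendsto_add_atTop_iff_nat N0).2 tendsto_one_div_add_atTop_nhds_zero_nat
    refine h1.congr fun n => ?_
    rw [hhs]; push_cast; rfl
  have hs1 : ∀ n, hs n ≤ 1 := fun n => by
    rw [hhs]
    simp only
    rw [div_le_one (by positivity)]
    have : (0 : ℝ) ≤ (n : ℝ) + N0 := by positivity
    linarith
  have hsδ : ∀ n, hs n < δ := fun n => by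
    rw [hhs]
    simp only
    rw [div_lt_iff₀ (by positivity)]
    have h1 : δ⁻¹ < (n : ℝ) + N0 + 1 := by
      have := (le_max_left δ⁻¹ 1).trans_lt hN0
      have h2 : (0 : ℝ) ≤ n := by positivity
      linarith
    have h3 := mul_lt_mul_of_pos_left h1 hδ
    rwa [mul_inv_cancel₀ hδ.ne'] at h3
  set B : ℕ → Set (ℝ × ℝ) := fun n => BadSet 4 ε (Gh G (hs n)) ∩ Sq 2 with hB
  set D : ℕ → Set (ℝ × ℝ) := fun N => ⋂ n, B (N + n) with hD
  have hDmono : Monotone D := by
    intro N M hNM z hz
    rw [hD] at hz ⊢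
    simp only [mem_iInter] at hz ⊢
    intro n
    have := hz (M - N + n)
    rwa [show N + (M - N + n) = M + n by omega] at this
  have hpt : ∀ p y : ℝ, |p| ≤ 4 → |y| ≤ 4 → Tendsto (fun n => Gh G (hs n) p y) atTop (𝓝 (G p y)) := by
    intro p y hp hy
    rw [Metric.tendsto_atTop]
    intro η hη
    obtain ⟨δ', hδ', hcl'⟩ := close hG (η := η / 2) (by linarith)
    have := (hslim.eventually (gt_mem_nhds hδ'))
    rw [eventually_atTop] at this
    obtain ⟨N, hN⟩ := this
    refine ⟨N, fun n hn => ?_⟩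
    rw [Real.dist_eq]
    exact (hcl' _ (hspos n) (hN n hn) p y hp hy).trans_lt (by linarith)
  have hsub : BadSet 4 ε G ∩ Sq 2 ⊆ ⋃ N, D N := by
    rintro ⟨p, y⟩ ⟨⟨a, b, ha, hap, hpb, hb, hlt⟩, hq⟩
    have hy : |y| ≤ 4 := by
      have := hq.2
      simp only [mem_Ioo] at this
      rw [abs_le]; constructor <;> linarith
    simp only at hap hpb hlt
    have ta := hpt a y (abs_le.2 ⟨ha, by linarith⟩) hy
    have tb := hpt b y (abs_le.2 ⟨by linarith, hb⟩) hy
    have tp := hpt p y (abs_le.2 ⟨by linarith, by linarith⟩) hy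
    have tt : Tendsto (fun n => interp (fun p => Gh G (hs n) p y) a b p - Gh G (hs n) p y) atTop
        (𝓝 (interp (fun p => G p y) a b p - G p y)) := by
      unfold interp
      exact ((((ta.const_mul (b - p)).add (tb.const_mul (p - a))).div_const (b - a)).sub tp)
    have hev := tt.eventually (gt_mem_nhds hlt)
    rw [eventually_atTop] at hev
    obtain ⟨N, hN⟩ := hev
    refine mem_iUnion.2 ⟨N, ?_⟩
    rw [hD]
    simp only [mem_iInter]
    intro n
    exact ⟨⟨a, b, ha, hap, hpb, hb, hN (N + n) (by omega)⟩, hq⟩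
  calc volume (BadSet 4 ε G ∩ Sq 2) ≤ volume (⋃ N, D N) := measure_mono hsub
    _ = ⨆ N, volume (D N) := hDmono.measure_iUnion
    _ ≤ _ := by
        apply iSup_le
        intro N
        refine (measure_mono ?_).trans (key (hs N) (hspos N) (hsδ N) (hs1 N))
        rw [hD]
        intro z hz
        simp only [mem_iInter] at hz
        have := hz 0
        rwa [add_zero] at this

end Pool.Agent.MP_4aaa5f_an
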