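import Pool.Agent.MP_4aaa5f_an.Defs
import Pool.Agent.MP_4aaa5f_an.T10
import Pool.Agent.MP_4aaa5f_an.T11

set_option autoImplicit false

namespace Pool.Agent.MP_4aaa5f_an

open MeasureTheory Set Filter Topology

/-- [T20] The derivative maps the bad part of `(-1,1)` to a small set. -/
theorem image_measure {ε : ℝ} (hε : 0 < ε) {F F' : ℝ → ℝ} (hFc : Continuous F)
    (hF : ∀ p ∈ Icc (-4 : ℝ) 4, HasDerivAt F (F' p) p) (hmono : MonotoneOn F' (Icc (-4) 4)) :
    volume (F' '' ({p | Bad 4 ε F p} ∩ Ioo (-1) 1)) ≤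
      ENNReal.ofReal (8 * ε) * volume ({p | Bad 4 ε F p} ∩ Ioo (-2) 2) := by
  classical
  set V : Set ℝ := {p | Bad 4 ε F p} with hVdef
  have hVo : IsOpen V := isOpen_bad hFc
  have hVs : V ⊆ Ioo (-4) 4 := fun p hp => Bad.mem hp
  obtain ⟨S, hSc, hScomp, hSd, hSU⟩ := exists_comps hVo hVs
  -- one component
  have hone : ∀ I ∈ S, volume (F' '' (Ioo I.1 I.2 ∩ Ioo (-1) 1)) ≤
      ENNReal.ofReal (8 * ε) * volume (Ioo I.1 I.2 ∩ Ioo (-2) 2) := by
    intro I hI
    have hc := hScomp I hI
    obtain ⟨ha, hb⟩ := comp_mem hc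
    have hlt := hc.lt
    have haI : I.1 ∈ Icc (-4 : ℝ) 4 := ⟨ha, by linarith⟩
    have hbI : I.2 ∈ Icc (-4 : ℝ) 4 := ⟨by linarith, hb⟩
    by_cases hne : (Ioo I.1 I.2 ∩ Ioo (-1 : ℝ) 1).Nonempty
    · obtain ⟨q, ⟨hq1, hq2⟩, hq3, hq4⟩ := hne
      have h1 : F' '' (Ioo I.1 I.2 ∩ Ioo (-1) 1) ⊆ Icc (F' I.1) (F' I.2) := by
        rintro _ ⟨p, ⟨⟨hp1, hp2⟩, -⟩, rfl⟩
        have hpI : p ∈ Icc (-4 : ℝ) 4 := ⟨by linarith, by linarith⟩
        exact ⟨hmono haI hpI hp1.le, hmono hpI hbI hp2.le⟩
      have h2 := comp_slope_left hFc hc (hF _ haI)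
      have h3 := comp_slope_right hFc hc (hF _ hbI)
      have h4 : F' I.2 - F' I.1 ≤ ε * (I.2 - I.1) := by linarith
      -- length of the part in the window
      have h5 : I.2 - I.1 ≤ 8 * (min I.2 2 - max I.1 (-2)) := by
        rcases min_cases I.2 2 with ⟨hm, hm'⟩ | ⟨hm, hm'⟩ <;>
        rcases max_cases I.1 (-2) with ⟨hM, hM'⟩ | ⟨hM, hM'⟩ <;>
        rw [hm, hM] <;> linarith
      have h6 : Ioo I.1 I.2 ∩ Ioo (-2) 2 = Ioo (max I.1 (-2)) (min I.2 2) := Ioo_inter_Ioo
      calc volume (F' '' (Ioo I.1 I.2 ∩ Ioo (-1) 1)) ≤ volume (Icc (F' I.1) (F' I.2)) :=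
            measure_mono h1
        _ = ENNReal.ofReal (F' I.2 - F' I.1) := Real.volume_Icc
        _ ≤ ENNReal.ofReal ((8 * ε) * (min I.2 2 - max I.1 (-2))) := by
            apply ENNReal.ofReal_le_ofReal
            have := mul_le_mul_of_nonneg_left h5 hε.le
            nlinarith
        _ = ENNReal.ofReal (8 * ε) * ENNReal.ofReal (min I.2 2 - max I.1 (-2)) :=
            ENNReal.ofReal_mul (by positivity)
        _ = ENNReal.ofReal (8 * ε) * volume (Ioo I.1 I.2 ∩ Ioo (-2) 2) := by
            rw [h6, Real.volume_Ioo]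
    · rw [not_nonempty_iff_eq_empty] at hne
      rw [hne, image_empty, measure_empty]
      exact zero_le
  have hVi : ∀ T : Set ℝ, V ∩ T = ⋃ I ∈ S, (Ioo I.1 I.2 ∩ T) := by
    intro T
    rw [hSU, iUnion₂_inter]
  have hmeas : ∀ I ∈ S, MeasurableSet (Ioo I.1 I.2 ∩ Ioo (-2 : ℝ) 2) := fun I _ =>
    measurableSet_Ioo.inter measurableSet_Ioo
  have hdisj : S.PairwiseDisjoint (fun I => Ioo I.1 I.2 ∩ Ioo (-2 : ℝ) 2) := by
    intro I hI J hJ hIJ
    exact (hSd hI hJ hIJ).mono inter_subset_left inter_subset_left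
  calc volume (F' '' (V ∩ Ioo (-1) 1))
      = volume (⋃ I ∈ S, F' '' (Ioo I.1 I.2 ∩ Ioo (-1) 1)) := by
        rw [hVi, image_iUnion₂]
    _ ≤ ∑' I : S, volume (F' '' (Ioo I.1.1 I.1.2 ∩ Ioo (-1) 1)) := measure_biUnion_le _ hSc _
    _ ≤ ∑' I : S, ENNReal.ofReal (8 * ε) * volume (Ioo I.1.1 I.1.2 ∩ Ioo (-2) 2) :=
        ENNReal.tsum_le_tsum fun I => hone I.1 I.2
    _ = ENNReal.ofReal (8 * ε) * ∑' I : S, volume (Ioo I.1.1 I.1.2 ∩ Ioo (-2) 2) :=
        ENNReal.tsum_mul_left
    _ = ENNReal.ofReal (8 * ε) * volume (V ∩ Ioo (-2) 2) := by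
        rw [hVi, measure_biUnion hSc hdisj hmeas]

/-- If `u1'' > 1/ε` at `x` then the Legendre transform has a small second difference at `u1' x`. -/
theorem legendre_second {a b x d ε : ℝ} {u1 P1 : ℝ → ℝ} (hx : x ∈ Ioo a b)
    (hu : ConvexOn ℝ (Icc a b) u1) (hd : ∀ t ∈ Ioo a b, HasDerivAt u1 (P1 t) t)
    (hP : HasDerivAt P1 d x) (hε : 0 < ε) (hdε : ε⁻¹ < d) :
    ∀ᶠ h in 𝓝[>] (0 : ℝ),
      sSup ((fun t => (P1 x + h) * t - u1 t) '' Icc a b) +
        sSup ((fun t => (P1 x - h) * t - u1 t) '' Icc a b) -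
        2 * sSup ((fun t => P1 x * t - u1 t) '' Icc a b) < ε * h ^ 2 := by
  obtain ⟨d', hd'1, hd'2⟩ := exists_between hdε
  have hεi : 0 < ε⁻¹ := inv_pos.2 hε
  have hd'0 : 0 < d' := hεi.trans hd'1
  have hxab : x ∈ Icc a b := ⟨hx.1.le, hx.2.le⟩
  set p := P1 x with hp
  -- a radius on which the derivative grows at least like d'
  have hlo : ∀ᶠ t in 𝓝 x, ‖P1 t - P1 x - (t - x) • d‖ ≤ (d - d') * ‖t - x‖ :=
    (hasDerivAt_iff_isLittleO.1 hP).def (by linarith)
  obtain ⟨r0, hr0, hr0'⟩ := Metric.eventually_nhds_iff.1 hlo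
  set r : ℝ := min (r0 / 2) (min ((x - a) / 2) ((b - x) / 2)) with hr
  have hrpos : 0 < r := by
    rw [hr]
    refine lt_min (by linarith) (lt_min ?_ ?_)
    · have := hx.1; linarith
    · have := hx.2; linarith
  have hr1 : r ≤ r0 / 2 := min_le_left _ _
  have hr2 : r ≤ (x - a) / 2 := (min_le_right _ _).trans (min_le_left _ _)
  have hr3 : r ≤ (b - x) / 2 := (min_le_right _ _).trans (min_le_right _ _)
  have hxa := hx.1
  have hxb := hx.2
  have hder : ∀ t, |t - x| ≤ r → ‖P1 t - P1 x - (t - x) • d‖ ≤ (d - d') * ‖t - x‖ := by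
    intro t ht
    apply hr0'
    rw [Real.dist_eq]
    linarith
  set g : ℝ → ℝ := fun t => u1 t - u1 x - p * (t - x) with hg
  have hgx : g x = 0 := by simp [hg]
  -- quadratic growth on [x, x + r] and [x - r, x]
  have hin : ∀ t, |t - x| ≤ r → t ∈ Ioo a b := by
    intro t ht
    rw [abs_le] at ht
    constructor <;> linarith [ht.1, ht.2]
  have hφd : ∀ t, |t - x| ≤ r →
      HasDerivAt (fun t => g t - d' * (t - x) ^ 2 / 2) (P1 t - p - d' * (t - x)) t := by
    intro t ht
    have h1 := hd t (hin t ht)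
    have h2 : HasDerivAt (fun t => g t) (P1 t - p) t := by
      have := (h1.sub_const (u1 x)).fun_sub (((hasDerivAt_id t).sub_const x).const_mul p)
      exact this.congr_deriv (by ring)
    have h3 : HasDerivAt (fun t => d' * (t - x) ^ 2 / 2) (d' * (t - x)) t := by
      have := ((((hasDerivAt_id t).sub_const x).pow 2).const_mul d').div_const 2
      refine this.congr_deriv ?_
      simp
      ring
    exact h2.sub h3
  have hright : ∀ t ∈ Icc x (x + r), d' * (t - x) ^ 2 / 2 ≤ g t := by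
    have hmono : MonotoneOn (fun t => g t - d' * (t - x) ^ 2 / 2) (Icc x (x + r)) := by
      refine monotoneOn_of_deriv_nonneg (convex_Icc _ _) ?_ ?_ ?_
      · intro t ht
        have h1 : |t - x| ≤ r := by rw [abs_le]; constructor <;> linarith [ht.1, ht.2]
        exact (hφd t h1).continuousAt.continuousWithinAt
      · intro t ht
        rw [interior_Icc] at ht
        have h1 : |t - x| ≤ r := by rw [abs_le]; constructor <;> linarith [ht.1, ht.2]
        exact (hφd t h1).differentiableAt.differentiableWithinAt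
      · intro t ht
        rw [interior_Icc] at ht
        have h1 : |t - x| ≤ r := by rw [abs_le]; constructor <;> linarith [ht.1, ht.2]
        rw [(hφd t h1).deriv]
        have h2 := hder t h1
        rw [Real.norm_eq_abs, Real.norm_eq_abs, smul_eq_mul, abs_of_nonneg (by linarith [ht.1] : 0 ≤ t - x),
          abs_le] at h2
        nlinarith [h2.1]
    intro t ht
    have := hmono ⟨le_rfl, by linarith⟩ ht ht.1
    simp only [hgx, sub_self] at this
    linarith
  have hleft : ∀ t ∈ Icc (x - r) x, d' * (t - x) ^ 2 / 2 ≤ g t := by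
    have hanti : AntitoneOn (fun t => g t - d' * (t - x) ^ 2 / 2) (Icc (x - r) x) := by
      refine antitoneOn_of_deriv_nonpos (convex_Icc _ _) ?_ ?_ ?_
      · intro t ht
        have h1 : |t - x| ≤ r := by rw [abs_le]; constructor <;> linarith [ht.1, ht.2]
        exact (hφd t h1).continuousAt.continuousWithinAt
      · intro t ht
        rw [interior_Icc] at ht
        have h1 : |t - x| ≤ r := by rw [abs_le]; constructor <;> linarith [ht.1, ht.2]
        exact (hφd t h1).differentiableAt.differentiableWithinAt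
      · intro t ht
        rw [interior_Icc] at ht
        have h1 : |t - x| ≤ r := by rw [abs_le]; constructor <;> linarith [ht.1, ht.2]
        rw [(hφd t h1).deriv]
        have h2 := hder t h1
        rw [Real.norm_eq_abs, Real.norm_eq_abs, smul_eq_mul, abs_of_nonpos (by linarith [ht.2] : t - x ≤ 0),
          abs_le] at h2
        nlinarith [h2.2]
    intro t ht
    have := hanti ht ⟨by linarith, le_rfl⟩ ht.2
    simp only [hgx, sub_self] at this
    linarith
  -- convexity of g
  have hgc : ConvexOn ℝ (Icc a b) g := by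
    refine ⟨convex_Icc _ _, fun s hs t ht α β hα hβ hαβ => ?_⟩
    have h1 := hu.2 hs ht hα hβ hαβ
    simp only [smul_eq_mul] at h1 ⊢
    have hβ' : β = 1 - α := by linarith
    subst hβ'
    simp only [hg]
    nlinarith
  have hg0 : ∀ t ∈ Icc a b, 0 ≤ g t := by
    intro t ht
    rcases lt_trichotomy t x with h | h | h
    · have h1 := hu.slope_le_of_hasDerivAt ht hxab h (hd x hx)
      rw [slope_def_field, div_le_iff₀ (by linarith)] at h1
      simp only [hg]
      nlinarith
    · rw [h, hgx]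
    · have h1 := hu.le_slope_of_hasDerivAt hxab ht h (hd x hx)
      rw [slope_def_field, le_div_iff₀ (by linarith)] at h1
      simp only [hg]
      nlinarith
  -- linear growth outside
  have hout : ∀ t ∈ Icc a b, r ≤ |t - x| → |t - x| * (d' * r / 2) ≤ g t := by
    intro t ht htr
    have key : ∀ s : ℝ, s ∈ Icc a b → |s - x| = r → d' * r ^ 2 / 2 ≤ g s →
        (s - x) * |t - x| = r * (t - x) → |t - x| * (d' * r / 2) ≤ g t := by
      intro s hs hsr hgs hcol
      have hT : 0 < |t - x| := hrpos.trans_le htr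
      -- s is a convex combination of x and t
      have hα : 0 ≤ 1 - r / |t - x| := by
        rw [sub_nonneg, div_le_one hT]; exact htr
      have hβ : 0 ≤ r / |t - x| := by positivity
      have h1 := hgc.2 hxab ht hα hβ (by ring)
      simp only [smul_eq_mul, hgx, mul_zero, zero_add] at h1
      have h2 : (1 - r / |t - x|) * x + r / |t - x| * t = s := by
        field_simp
        nlinarith
      rw [h2] at h1
      have h3 : d' * r ^ 2 / 2 ≤ r / |t - x| * g t := hgs.trans h1
      rw [div_mul_eq_mul_div, le_div_iff₀ hT] at h3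
      have h4 : r * (|t - x| * (d' * r / 2)) ≤ r * g t := by nlinarith
      exact le_of_mul_le_mul_left h4 hrpos
    rcases le_total x t with h | h
    · have hab : |t - x| = t - x := abs_of_nonneg (by linarith)
      refine key (x + r) ⟨by linarith, by linarith⟩ ?_ ?_ ?_
      · rw [add_sub_cancel_left, abs_of_pos hrpos]
      · have := hright (x + r) ⟨by linarith, le_rfl⟩
        rwa [add_sub_cancel_left] at this
      · rw [hab]; ring
    · have hab : |t - x| = -(t - x) := abs_of_nonpos (by linarith)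
      refine key (x - r) ⟨by linarith, by linarith⟩ ?_ ?_ ?_
      · rw [show x - r - x = -r by ring, abs_neg, abs_of_pos hrpos]
      · have := hleft (x - r) ⟨le_rfl, by linarith⟩
        rwa [show x - r - x = -r by ring, neg_sq] at this
      · rw [hab]; ring
  -- the bound
  have hbound : ∀ h : ℝ, 0 < h → h ≤ d' * r / 2 → ∀ t ∈ Icc a b,
      h * |t - x| - g t ≤ h ^ 2 / (2 * d') := by
    intro h hh hhr t ht
    have hpos : 0 ≤ h ^ 2 / (2 * d') := by positivity
    by_cases htr : r ≤ |t - x|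
    · have h1 := hout t ht htr
      have h2 : h * |t - x| ≤ |t - x| * (d' * r / 2) := by
        rw [mul_comm]
        exact mul_le_mul_of_nonneg_left hhr (abs_nonneg _)
      linarith
    · rw [not_le] at htr
      have h1 : d' * (t - x) ^ 2 / 2 ≤ g t := by
        rw [abs_lt] at htr
        rcases le_total x t with h | h
        · exact hright t ⟨h, by linarith [htr.2]⟩
        · exact hleft t ⟨by linarith [htr.1], h⟩
      have h2 : h * |t - x| ≤ h ^ 2 / (2 * d') + d' * (t - x) ^ 2 / 2 := by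
        rw [← sq_abs (t - x)]
        have h3 : 0 ≤ (h - d' * |t - x|) ^ 2 / (2 * d') := by positivity
        have h4 : (h - d' * |t - x|) ^ 2 / (2 * d')
            = h ^ 2 / (2 * d') + d' * |t - x| ^ 2 / 2 - h * |t - x| := by
          field_simp
          ring
        linarith
      linarith
  have hne : (Icc a b).Nonempty := ⟨x, hxab⟩
  have hmid : p * x - u1 x ≤ sSup ((fun t => p * t - u1 t) '' Icc a b) := by
    refine le_csSup ⟨p * x - u1 x, ?_⟩ ⟨x, hxab, rfl⟩
    rintro _ ⟨t, ht, rfl⟩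
    have := hg0 t ht
    simp only [hg] at this
    show p * t - u1 t ≤ p * x - u1 x
    nlinarith
  filter_upwards [Ioc_mem_nhdsGT (by positivity : (0 : ℝ) < d' * r / 2)] with h hh
  have hh0 : 0 < h := hh.1
  have h1 : sSup ((fun t => (p + h) * t - u1 t) '' Icc a b)
      ≤ p * x - u1 x + h * x + h ^ 2 / (2 * d') := by
    refine csSup_le (hne.image _) ?_
    rintro _ ⟨t, ht, rfl⟩
    have h2 := hbound h hh0 hh.2 t ht
    have h3 : h * (t - x) ≤ h * |t - x| := mul_le_mul_of_nonneg_left (le_abs_self _) hh0.le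
    simp only [hg] at h2
    show (p + h) * t - u1 t ≤ _
    nlinarith
  have h2 : sSup ((fun t => (p - h) * t - u1 t) '' Icc a b)
      ≤ p * x - u1 x - h * x + h ^ 2 / (2 * d') := by
    refine csSup_le (hne.image _) ?_
    rintro _ ⟨t, ht, rfl⟩
    have h2 := hbound h hh0 hh.2 t ht
    have h3 : -(h * (t - x)) ≤ h * |t - x| := by
      have := mul_le_mul_of_nonneg_left (neg_abs_le (t - x)) hh0.le
      nlinarith
    simp only [hg] at h2
    show (p - h) * t - u1 t ≤ _
    nlinarith
  have h3 : h ^ 2 / (2 * d') + h ^ 2 / (2 * d') < ε * h ^ 2 := by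
    have h4 : 1 < ε * d' := by
      have := mul_lt_mul_of_pos_left hd'1 hε
      rwa [mul_inv_cancel₀ hε.ne'] at this
    have h5 : h ^ 2 / (2 * d') + h ^ 2 / (2 * d') = h ^ 2 / d' := by
      field_simp
      ring
    rw [h5, div_lt_iff₀ hd'0]
    have h6 : 0 < h ^ 2 := by positivity
    nlinarith
  linarith

end Pool.Agent.MP_4aaa5f_an
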