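import Pool.Agent.MP_4aaa5f_an.Defs
import Pool.Agent.MP_4aaa5f_an.T05
import Pool.Agent.MP_4aaa5f_an.T06
import Pool.Agent.MP_4aaa5f_an.T07
import Pool.Agent.MP_4aaa5f_an.T10
import Pool.Agent.MP_4aaa5f_an.T19
import Pool.Agent.MP_4aaa5f_an.T20

set_option autoImplicit false

namespace Pool.Agent.MP_4aaa5f_an

open MeasureTheory Set Filter Topology
open scoped Pointwise

namespace T21

/-- clamping to `[-52,52]` -/
noncomputable def clamp (t : ℝ) : ℝ := max (-52) (min 52 t)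

theorem clamp_cont : Continuous clamp := by
  unfold clamp
  exact continuous_const.max (continuous_const.min continuous_id)

theorem clamp_abs (t : ℝ) : |clamp t| ≤ 52 := by
  unfold clamp
  rw [abs_le]
  constructor
  · exact le_max_left _ _
  · exact max_le (by norm_num) (min_le_left _ _)

theorem clamp_eq {t : ℝ} (h : |t| ≤ 52) : clamp t = t := by
  unfold clamp
  rw [abs_le] at h
  rw [min_eq_right h.2, max_eq_right h.1]

theorem clamp_eventuallyEq {t : ℝ} (h : |t| < 52) : clamp =ᶠ[𝓝 t] id := by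
  have : ∀ᶠ s in 𝓝 t, |s| < 52 := (continuous_abs.tendsto t).eventually (gt_mem_nhds h)
  filter_upwards [this] with s hs
  exact clamp_eq hs.le

/-- the rescaled partial Legendre transform -/
noncomputable def Gt (u : ℝ × ℝ → ℝ) (a b p0 y0 ρ : ℝ) (p y : ℝ) : ℝ :=
  PL u a b (p0 + ρ * clamp p) (y0 + ρ * clamp y) / ρ ^ 2

section
variable {l : ℝ} {U : Set (ℝ × ℝ)} {u P Q : ℝ × ℝ → ℝ} {a b c d p0 y0 ρ : ℝ}

theorem Gt_cont (hN : Nice U u P Q) (hab : a < b) (hR : Icc a b ×ˢ Icc c d ⊆ U)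
    (hD : ∀ p y, |p| ≤ 52 → |y| ≤ 52 → (p0 + ρ * p, y0 + ρ * y) ∈ Dom P a b c d) :
    Continuous (fun z : ℝ × ℝ => Gt u a b p0 y0 ρ z.1 z.2) := by
  unfold Gt
  refine Continuous.div_const ?_ _
  have h1 := PL_continuousOn hN hab hR
  have h2 : Continuous (fun z : ℝ × ℝ => (p0 + ρ * clamp z.1, y0 + ρ * clamp z.2)) := by
    refine Continuous.prodMk ?_ ?_
    · exact continuous_const.add (continuous_const.mul (clamp_cont.comp continuous_fst))
    · exact continuous_const.add (continuous_const.mul (clamp_cont.comp continuous_snd))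
  have h3 := h1.comp_continuous h2 (fun z => by
    refine ⟨mem_univ _, ?_⟩
    have := (hD 0 (clamp z.2) (by norm_num) (clamp_abs _)).1
    exact Ioo_subset_Icc_self this)
  exact h3

theorem Gt_dp (hN : Nice U u P Q) (hab : a < b) (hR : Icc a b ×ˢ Icc c d ⊆ U) (hρ : 0 < ρ)
    (hD : ∀ p y, |p| ≤ 52 → |y| ≤ 52 → (p0 + ρ * p, y0 + ρ * y) ∈ Dom P a b c d)
    {p y : ℝ} (hp : |p| < 52) (hy : |y| ≤ 52) :
    HasDerivAt (fun t => Gt u a b p0 y0 ρ t y) (Xm u a b (p0 + ρ * p) (y0 + ρ * y) / ρ) p := by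
  have h1 := PL_hasDerivAt_p hN hab hR (hD p y hp.le hy)
  have h2 : HasDerivAt (fun t : ℝ => p0 + ρ * t) ρ p := by
    simpa using ((hasDerivAt_id p).const_mul ρ).const_add p0
  have h3 : HasDerivAt (fun t : ℝ => PL u a b (p0 + ρ * t) (y0 + ρ * y))
      (Xm u a b (p0 + ρ * p) (y0 + ρ * y) * ρ) p :=
    HasDerivAt.comp p (h₂ := fun q => PL u a b q (y0 + ρ * y)) (h := fun t : ℝ => p0 + ρ * t)
      h1 h2
  have h4 := h3.div_const (ρ ^ 2)
  have h5 : Xm u a b (p0 + ρ * p) (y0 + ρ * y) * ρ / ρ ^ 2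
      = Xm u a b (p0 + ρ * p) (y0 + ρ * y) / ρ := by
    field_simp
  rw [h5] at h4
  refine h4.congr_of_eventuallyEq ?_
  filter_upwards [clamp_eventuallyEq hp] with t ht
  simp only [Gt]
  rw [ht, clamp_eq hy]
  rfl

theorem Gt_dy (hN : Nice U u P Q) (hab : a < b) (hR : Icc a b ×ˢ Icc c d ⊆ U) (hρ : 0 < ρ)
    (hD : ∀ p y, |p| ≤ 52 → |y| ≤ 52 → (p0 + ρ * p, y0 + ρ * y) ∈ Dom P a b c d)
    {p y : ℝ} (hp : |p| ≤ 52) (hy : |y| < 52) :
    HasDerivAt (fun t => Gt u a b p0 y0 ρ p t) (-(Hm u a b (p0 + ρ * p) (y0 + ρ * y) / ρ)) y := by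
  have h1 := PL_hasDerivAt_y hN hab hR (hD p y hp hy.le)
  have h2 : HasDerivAt (fun t : ℝ => y0 + ρ * t) ρ y := by
    simpa using ((hasDerivAt_id y).const_mul ρ).const_add y0
  have h3 : HasDerivAt (fun t : ℝ => PL u a b (p0 + ρ * p) (y0 + ρ * t))
      (-Hm u a b (p0 + ρ * p) (y0 + ρ * y) * ρ) y :=
    HasDerivAt.comp y (h₂ := fun q => PL u a b (p0 + ρ * p) q) (h := fun t : ℝ => y0 + ρ * t)
      h1 h2
  have h4 := h3.div_const (ρ ^ 2)
  have h5 : -Hm u a b (p0 + ρ * p) (y0 + ρ * y) * ρ / ρ ^ 2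
      = -(Hm u a b (p0 + ρ * p) (y0 + ρ * y) / ρ) := by
    field_simp
  rw [h5] at h4
  refine h4.congr_of_eventuallyEq ?_
  filter_upwards [clamp_eventuallyEq hy] with t ht
  simp only [Gt]
  rw [ht, clamp_eq hp]
  rfl

theorem finish {ρ h ε q A B D : ℝ} {F : ℝ → ℝ} (hρ : 0 < ρ) (hk0 : 0 < h / ρ)
    (hh : A + B - 2 * D < ε * h ^ 2) (g1 : F (q + h / ρ) = A / ρ ^ 2)
    (g2 : F (q - h / ρ) = B / ρ ^ 2) (g0 : F q = D / ρ ^ 2) {k : ℝ} (hk : h / ρ = k) :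
    interp F (q - h / ρ) (q + h / ρ) q - F q
      < ε * (q - (q - h / ρ)) * ((q + h / ρ) - q) / 2 := by
  unfold interp
  rw [g1, g2, g0, hk]
  rw [hk] at hk0
  have hρ2 : 0 < ρ ^ 2 := by positivity
  have e1 : ((q + k - q) * (B / ρ ^ 2) + (q - (q - k)) * (A / ρ ^ 2)) / (q + k - (q - k)) - D / ρ ^ 2
      = (A + B - 2 * D) / ρ ^ 2 / 2 := by
    have : q + k - (q - k) = 2 * k := by ring
    rw [this]
    field_simp
    ring
  have e2 : ε * (q - (q - k)) * (q + k - q) / 2 = ε * h ^ 2 / ρ ^ 2 / 2 := by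
    rw [← hk]
    field_simp
    ring
  rw [e1, e2]
  have := div_lt_div_of_pos_right hh hρ2
  linarith

theorem scale_int (F : ℝ → ℝ) (e r0 r1 : ℝ) (hρ : 0 < ρ) :
    ∫ y in r0..r1, F (e + ρ * y) / ρ = (1 / ρ ^ 2) * ∫ y in (e + ρ * r0)..(e + ρ * r1), F y := by
  rw [intervalIntegral.integral_div, intervalIntegral.integral_comp_add_mul _ hρ.ne',
    smul_eq_mul]
  field_simp

theorem scale_pair {k l A B m : ℝ} (hk : 0 ≤ k) (h : l * A ≤ B ∧ B ≤ m * A) :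
    l * (k * A) ≤ k * B ∧ k * B ≤ m * (k * A) := by
  constructor
  · have := mul_le_mul_of_nonneg_left h.1 hk
    linarith [mul_left_comm l k A]
  · have := mul_le_mul_of_nonneg_left h.2 hk
    linarith [mul_left_comm m k A]

theorem Gt_star (hl : 0 < l) (hM : MA l U u) (hN : Nice U u P Q) (hab : a < b)
    (hR : Icc a b ×ˢ Icc c d ⊆ U) (hρ : 0 < ρ)
    (hD : ∀ p y, |p| ≤ 52 → |y| ≤ 52 → (p0 + ρ * p, y0 + ρ * y) ∈ Dom P a b c d) :
    Star l 50 1 (Gt u a b p0 y0 ρ) := by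
  intro p y h hp hy hh hh1
  have hin : ∀ q t : ℝ, |t| ≤ 50 → q ∈ Icc (t - h) (t + h) → |q| < 52 := by
    intro q t ht hq
    rw [abs_le] at ht
    rw [abs_lt]
    constructor
    · linarith [hq.1, ht.1]
    · linarith [hq.2, ht.2]
  have hcont : ContinuousOn (fun z : ℝ × ℝ => (p0 + ρ * z.1, y0 + ρ * z.2))
      (Icc (p - h) (p + h) ×ˢ Icc (y - h) (y + h)) := by
    apply Continuous.continuousOn
    fun_prop
  have hmaps : MapsTo (fun z : ℝ × ℝ => (p0 + ρ * z.1, y0 + ρ * z.2))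
      (Icc (p - h) (p + h) ×ˢ Icc (y - h) (y + h)) (Dom P a b c d) := by
    intro z hz
    exact hD z.1 z.2 (hin z.1 p hp hz.1).le (hin z.2 y hy hz.2).le
  refine star_of_rect (X := fun p y => Xm u a b (p0 + ρ * p) (y0 + ρ * y) / ρ)
    (H := fun p y => Hm u a b (p0 + ρ * p) (y0 + ρ * y) / ρ) hl hh ?_ ?_ ?_ ?_ ?_
  · intro p' hp' y' hy'
    exact Gt_dp hN hab hR hρ hD (hin p' p hp hp') (hin y' y hy hy').le
  · intro p' hp' y' hy'
    exact Gt_dy hN hab hR hρ hD (hin p' p hp hp').le (hin y' y hy hy')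
  · exact ((Xm_continuousOn hN hab hR).comp hcont hmaps).div_const ρ
  · exact ((Hm_continuousOn hN hab hR).comp hcont hmaps).div_const ρ
  · intro q0 q1 r0 r1 h1 h2 h3 h4 h5 h6
    have hq : p0 + ρ * q0 < p0 + ρ * q1 := by
      have := mul_lt_mul_of_pos_left h2 hρ
      linarith
    have hr : y0 + ρ * r0 < y0 + ρ * r1 := by
      have := mul_lt_mul_of_pos_left h5 hρ
      linarith
    have hsub : Icc (p0 + ρ * q0) (p0 + ρ * q1) ×ˢ Icc (y0 + ρ * r0) (y0 + ρ * r1)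
        ⊆ Dom P a b c d := by
      rintro ⟨s, t⟩ ⟨hs, ht⟩
      simp only [mem_Icc] at hs ht
      have e1 : s = p0 + ρ * ((s - p0) / ρ) := by field_simp; ring
      have e2 : t = y0 + ρ * ((t - y0) / ρ) := by field_simp; ring
      rw [e1, e2]
      refine hD _ _ ?_ ?_
      · refine (hin ((s - p0) / ρ) p hp ⟨?_, ?_⟩).le
        · have : q0 ≤ (s - p0) / ρ := by
            rw [le_div_iff₀ hρ]; linarith [hs.1]
          linarith
        · have : (s - p0) / ρ ≤ q1 := by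
            rw [div_le_iff₀ hρ]; linarith [hs.2]
          linarith
      · refine (hin ((t - y0) / ρ) y hy ⟨?_, ?_⟩).le
        · have : r0 ≤ (t - y0) / ρ := by
            rw [le_div_iff₀ hρ]; linarith [ht.1]
          linarith
        · have : (t - y0) / ρ ≤ r1 := by
            rw [div_le_iff₀ hρ]; linarith [ht.2]
          linarith
    have key := rect_ineq hl hM hN hab hR hq hr hsub
    have i1 : ∫ y in r0..r1, (Xm u a b (p0 + ρ * q1) (y0 + ρ * y) / ρ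
          - Xm u a b (p0 + ρ * q0) (y0 + ρ * y) / ρ)
        = (1 / ρ ^ 2) * ∫ y in (y0 + ρ * r0)..(y0 + ρ * r1),
          (Xm u a b (p0 + ρ * q1) y - Xm u a b (p0 + ρ * q0) y) := by
      rw [← scale_int (fun y => Xm u a b (p0 + ρ * q1) y - Xm u a b (p0 + ρ * q0) y)
        y0 r0 r1 hρ]
      congr 1
      funext y
      ring
    have i2 : ∫ p in q0..q1, (Hm u a b (p0 + ρ * p) (y0 + ρ * r1) / ρ
          - Hm u a b (p0 + ρ * p) (y0 + ρ * r0) / ρ)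
        = (1 / ρ ^ 2) * ∫ p in (p0 + ρ * q0)..(p0 + ρ * q1),
          (Hm u a b p (y0 + ρ * r1) - Hm u a b p (y0 + ρ * r0)) := by
      rw [← scale_int (fun p => Hm u a b p (y0 + ρ * r1) - Hm u a b p (y0 + ρ * r0))
        p0 q0 q1 hρ]
      congr 1
      funext y
      ring
    rw [i1, i2]
    have hpos : 0 < 1 / ρ ^ 2 := by positivity
    exact scale_pair hpos.le key

theorem cont_snd {G : ℝ → ℝ → ℝ} (h : Continuous fun z : ℝ × ℝ => G z.1 z.2) (p : ℝ) :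
    Continuous (fun y => G p y) :=
  h.comp (Continuous.prodMk (continuous_const (y := p)) continuous_id)

theorem cont_fst {G : ℝ → ℝ → ℝ} (h : Continuous fun z : ℝ × ℝ => G z.1 z.2) (y : ℝ) :
    Continuous (fun p => G p y) :=
  h.comp (Continuous.prodMk continuous_id (continuous_const (y := y)))

theorem c0_gen {G X : ℝ → ℝ → ℝ} (h : Continuous fun z : ℝ × ℝ => G z.1 z.2)
    (hX : ∀ p y, |p| ≤ 1 → |y| ≤ 1 → HasDerivAt (fun t => G t y) (X p y) p)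
    (hlt : ∀ p p' y, |p| ≤ 1 → |p'| ≤ 1 → |y| ≤ 1 → p < p' → X p y < X p' y) :
    ∃ c0 : ℝ, 0 < c0 ∧ ∀ y, |y| ≤ 1 → c0 ≤ G 1 y + G (-1) y - 2 * G 0 y := by
  have hc : Continuous (fun y : ℝ => G 1 y + G (-1) y - 2 * G 0 y) :=
    ((cont_snd h 1).add (cont_snd h (-1))).sub (continuous_const.mul (cont_snd h 0))
  obtain ⟨y1, hy1, hmin⟩ := isCompact_Icc.exists_isMinOn (s := Icc (-1 : ℝ) 1)
    (nonempty_Icc.2 (by norm_num)) hc.continuousOn
  have hy : |y1| ≤ 1 := abs_le.2 hy1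
  refine ⟨_, ?_, fun y hy => hmin (abs_le.1 hy)⟩
  have hco : Continuous (fun t => G t y1) := cont_fst h y1
  obtain ⟨ξ1, hξ1, e1⟩ := exists_hasDerivAt_eq_slope (fun t => G t y1)
    (fun p => X p y1) (show (0 : ℝ) < 1 by norm_num)
    hco.continuousOn (fun x hx => hX x y1 (by rw [abs_le]; constructor <;> linarith [hx.1, hx.2]) hy)
  obtain ⟨ξ0, hξ0, e0⟩ := exists_hasDerivAt_eq_slope (fun t => G t y1)
    (fun p => X p y1) (show (-1 : ℝ) < 0 by norm_num)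
    hco.continuousOn (fun x hx => hX x y1 (by rw [abs_le]; constructor <;> linarith [hx.1, hx.2]) hy)
  have hlt' : X ξ0 y1 < X ξ1 y1 := by
    refine hlt _ _ _ ?_ ?_ hy ?_
    · rw [abs_le]; constructor <;> linarith [hξ0.1, hξ0.2]
    · rw [abs_le]; constructor <;> linarith [hξ1.1, hξ1.2]
    · linarith [hξ0.2, hξ1.1]
  rw [e1, e0] at hlt'
  norm_num at hlt'
  linarith

theorem Gt_c0 (hN : Nice U u P Q) (hab : a < b) (hR : Icc a b ×ˢ Icc c d ⊆ U) (hρ : 0 < ρ)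
    (hD : ∀ p y, |p| ≤ 52 → |y| ≤ 52 → (p0 + ρ * p, y0 + ρ * y) ∈ Dom P a b c d) :
    ∃ c0 : ℝ, 0 < c0 ∧ ∀ y, |y| ≤ 1 →
      c0 ≤ Gt u a b p0 y0 ρ 1 y + Gt u a b p0 y0 ρ (-1) y - 2 * Gt u a b p0 y0 ρ 0 y := by
  refine c0_gen (X := fun p y => Xm u a b (p0 + ρ * p) (y0 + ρ * y) / ρ)
    (Gt_cont hN hab hR hD) ?_ ?_
  · intro p y hp hy
    exact Gt_dp hN hab hR hρ hD (by linarith) (by linarith)
  · intro p p' y hp hp' hy hpp
    refine div_lt_div_of_pos_right ?_ hρ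
    refine Xm_lt hN hab hR (hD _ _ (by linarith) (by linarith))
      (hD _ _ (by linarith) (by linarith)) ?_
    have : ρ * p < ρ * p' := mul_lt_mul_of_pos_left hpp hρ
    linarith

theorem Gt_mono (hN : Nice U u P Q) (hab : a < b) (hR : Icc a b ×ˢ Icc c d ⊆ U) (hρ : 0 < ρ)
    (hD : ∀ p y, |p| ≤ 52 → |y| ≤ 52 → (p0 + ρ * p, y0 + ρ * y) ∈ Dom P a b c d)
    {y : ℝ} (hy : |y| ≤ 52) :
    MonotoneOn (fun p => Xm u a b (p0 + ρ * p) (y0 + ρ * y) / ρ) (Icc (-4) 4) := by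
  intro p hp p' hp' hpp
  rcases hpp.eq_or_lt with h | h
  · rw [h]
  · refine (div_lt_div_of_pos_right ?_ hρ).le
    refine Xm_lt hN hab hR (hD _ _ ?_ hy) (hD _ _ ?_ hy) ?_
    · rw [abs_le]; constructor <;> linarith [hp.1, hp.2]
    · rw [abs_le]; constructor <;> linarith [hp'.1, hp'.2]
    · have : ρ * p < ρ * p' := mul_lt_mul_of_pos_left h hρ
      linarith

/-- one horizontal slice -/
theorem slice_le (hN : Nice U u P Q) (hab : a < b) (hR : Icc a b ×ˢ Icc c d ⊆ U) (hρ : 0 < ρ)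
    (hD : ∀ p y, |p| ≤ 52 → |y| ≤ 52 → (p0 + ρ * p, y0 + ρ * y) ∈ Dom P a b c d)
    {x0 y ε : ℝ} (hy : |y| ≤ 52) (hε : 0 < ε) :
    volume {x : ℝ | x0 + ρ * x ∈ Ioo a b ∧
      (P (x0 + ρ * x, y0 + ρ * y) - p0) / ρ ∈
        {p | Bad 4 ε (fun p => Gt u a b p0 y0 ρ p y) p} ∩ Ioo (-1) 1} ≤
      ENNReal.ofReal (8 * ε) *
        volume ({p | Bad 4 ε (fun p => Gt u a b p0 y0 ρ p y) p} ∩ Ioo (-2) 2) := by
  have him := image_measure (F := fun p => Gt u a b p0 y0 ρ p y)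
    (F' := fun p => Xm u a b (p0 + ρ * p) (y0 + ρ * y) / ρ) hε
    (cont_fst (Gt_cont hN hab hR hD) y)
    (fun p hp => Gt_dp hN hab hR hρ hD
      (by rw [abs_lt]; constructor <;> linarith [hp.1, hp.2]) hy)
    (Gt_mono hN hab hR hρ hD hy)
  refine le_trans ?_ him
  rw [← measure_preimage_add_right volume (x0 / ρ)
    ((fun p => Xm u a b (p0 + ρ * p) (y0 + ρ * y) / ρ) ''
      ({p | Bad 4 ε (fun p => Gt u a b p0 y0 ρ p y) p} ∩ Ioo (-1) 1))]
  refine measure_mono ?_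
  rintro x ⟨hx, hxb⟩
  refine ⟨_, hxb, ?_⟩
  have hpin : |(P (x0 + ρ * x, y0 + ρ * y) - p0) / ρ| ≤ 52 := by
    rw [abs_le]; constructor <;> linarith [hxb.2.1, hxb.2.2]
  have hdom := hD _ _ hpin hy
  obtain ⟨h1, h2, -, -⟩ := PL_point hN hab hR hdom
  have hq : p0 + ρ * ((P (x0 + ρ * x, y0 + ρ * y) - p0) / ρ) = P (x0 + ρ * x, y0 + ρ * y) := by
    field_simp
    ring
  rw [hq] at h1 h2
  have hyI : y0 + ρ * y ∈ Icc c d := Ioo_subset_Icc_self hdom.1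
  have heq : Xm u a b (P (x0 + ρ * x, y0 + ρ * y)) (y0 + ρ * y) = x0 + ρ * x :=
    (P_strictMonoOn hN hab hR hyI).injOn (Ioo_subset_Icc_self h1) (Ioo_subset_Icc_self hx) h2
  show Xm u a b (p0 + ρ * ((P (x0 + ρ * x, y0 + ρ * y) - p0) / ρ)) (y0 + ρ * y) / ρ = x + x0 / ρ
  rw [hq, heq]
  field_simp
  ring

/-- the region in rescaled coordinates -/
def Reg (u P : ℝ × ℝ → ℝ) (a b p0 y0 ρ x0 ε : ℝ) : Set (ℝ × ℝ) :=
  {z | z.2 ∈ Ioo (-1) 1 ∧ x0 + ρ * z.1 ∈ Ioo a b ∧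
    (P (x0 + ρ * z.1, y0 + ρ * z.2) - p0) / ρ ∈
      {p | Bad 4 ε (fun p => Gt u a b p0 y0 ρ p z.2) p} ∩ Ioo (-1) 1}

theorem Reg_open (hN : Nice U u P Q) (hab : a < b) (hR : Icc a b ×ˢ Icc c d ⊆ U)
    (hD : ∀ p y, |p| ≤ 52 → |y| ≤ 52 → (p0 + ρ * p, y0 + ρ * y) ∈ Dom P a b c d) (x0 ε : ℝ) :
    IsOpen (Reg u P a b p0 y0 ρ x0 ε) := by
  have hW : IsOpen {z : ℝ × ℝ | z.2 ∈ Ioo (-1) 1 ∧ x0 + ρ * z.1 ∈ Ioo a b} := by
    refine IsOpen.inter ?_ ?_
    · exact isOpen_Ioo.preimage continuous_snd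
    · exact isOpen_Ioo.preimage (continuous_const.add (continuous_const.mul continuous_fst))
  have hg : ContinuousOn (fun z : ℝ × ℝ => ((P (x0 + ρ * z.1, y0 + ρ * z.2) - p0) / ρ, z.2))
      {z : ℝ × ℝ | z.2 ∈ Ioo (-1) 1 ∧ x0 + ρ * z.1 ∈ Ioo a b} := by
    refine ContinuousOn.prodMk ?_ continuous_snd.continuousOn
    refine ContinuousOn.div_const (ContinuousOn.sub ?_ continuousOn_const) ρ
    refine hN.cP.comp (Continuous.continuousOn (by fun_prop)) ?_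
    rintro z ⟨hz2, hz1⟩
    have hz : |z.2| ≤ 52 := by rw [abs_le]; constructor <;> linarith [hz2.1, hz2.2]
    exact hR ⟨Ioo_subset_Icc_self hz1, Ioo_subset_Icc_self (hD 0 z.2 (by norm_num) hz).1⟩
  have hO : IsOpen (BadSet 4 ε (Gt u a b p0 y0 ρ) ∩ (Ioo (-1) 1 ×ˢ (univ : Set ℝ))) :=
    (isOpen_badSet (Gt_cont hN hab hR hD)).inter (isOpen_Ioo.prod isOpen_univ)
  have := hg.isOpen_inter_preimage hW hO
  convert this using 1
  ext z
  simp only [Reg, BadSet, mem_ofPred_eq, mem_inter_iff, mem_preimage, mem_prod, mem_univ, and_true]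
  tauto

theorem Reg_le (hN : Nice U u P Q) (hab : a < b) (hR : Icc a b ×ˢ Icc c d ⊆ U) (hρ : 0 < ρ)
    (hD : ∀ p y, |p| ≤ 52 → |y| ≤ 52 → (p0 + ρ * p, y0 + ρ * y) ∈ Dom P a b c d)
    {x0 ε : ℝ} (hε : 0 < ε) :
    volume (Reg u P a b p0 y0 ρ x0 ε) ≤
      ENNReal.ofReal (8 * ε) * volume (BadSet 4 ε (Gt u a b p0 y0 ρ) ∩ Sq 2) := by
  have hB : MeasurableSet (BadSet 4 ε (Gt u a b p0 y0 ρ) ∩ Sq 2) :=
    ((isOpen_badSet (Gt_cont hN hab hR hD)).inter (isOpen_Ioo.prod isOpen_Ioo)).measurableSet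
  rw [Measure.volume_eq_prod, Measure.prod_apply_symm (Reg_open hN hab hR hD x0 ε).measurableSet,
    Measure.prod_apply_symm hB, ← lintegral_const_mul' _ _ ENNReal.ofReal_ne_top]
  refine lintegral_mono fun y => ?_
  by_cases hy : y ∈ Ioo (-1 : ℝ) 1
  · have hy52 : |y| ≤ 52 := by rw [abs_le]; constructor <;> linarith [hy.1, hy.2]
    have h1 : (fun x => (x, y)) ⁻¹' Reg u P a b p0 y0 ρ x0 ε = {x : ℝ | x0 + ρ * x ∈ Ioo a b ∧
      (P (x0 + ρ * x, y0 + ρ * y) - p0) / ρ ∈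
        {p | Bad 4 ε (fun p => Gt u a b p0 y0 ρ p y) p} ∩ Ioo (-1) 1} := by
      ext x
      simp only [Reg, mem_preimage, mem_ofPred_eq, hy, true_and]
    have h2 : (fun x => (x, y)) ⁻¹' (BadSet 4 ε (Gt u a b p0 y0 ρ) ∩ Sq 2) =
        {p | Bad 4 ε (fun p => Gt u a b p0 y0 ρ p y) p} ∩ Ioo (-2) 2 := by
      ext x
      simp only [BadSet, Sq, mem_preimage, mem_inter_iff, mem_ofPred_eq, mem_prod]
      have : y ∈ Ioo (-2 : ℝ) 2 := ⟨by linarith [hy.1], by linarith [hy.2]⟩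
      simp only [this, and_true]
    rw [h1, h2]
    exact slice_le hN hab hR hρ hD hy52 hε
  · have h1 : (fun x => (x, y)) ⁻¹' Reg u P a b p0 y0 ρ x0 ε = ∅ := by
      ext x
      simp only [Reg, mem_preimage, mem_ofPred_eq, hy, false_and, mem_empty_iff_false]
    rw [h1]
    simp

/-- the second derivative is large only in the region -/
theorem mem_Reg (hN : Nice U u P Q) (hab : a < b) (hR : Icc a b ×ˢ Icc c d ⊆ U) (hρ : 0 < ρ)
    (hD : ∀ p y, |p| ≤ 52 → |y| ≤ 52 → (p0 + ρ * p, y0 + ρ * y) ∈ Dom P a b c d)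
    {x0 ε x y e : ℝ} (hε : 0 < ε) (hx : x ∈ Ioo a b) (hy : |y - y0| < ρ)
    (hp : |P (x, y) - p0| < ρ) (he : ε⁻¹ < e) (hd : HasDerivAt (fun x => P (x, y)) e x) :
    ((x - x0) / ρ, (y - y0) / ρ) ∈ Reg u P a b p0 y0 ρ x0 ε := by
  have hy' := abs_lt.1 hy
  have hp' := abs_lt.1 hp
  have ey : y0 + ρ * ((y - y0) / ρ) = y := by field_simp; ring
  have ex : x0 + ρ * ((x - x0) / ρ) = x := by field_simp; ring
  have yI : (y - y0) / ρ ∈ Ioo (-1 : ℝ) 1 := by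
    constructor
    · rw [lt_div_iff₀ hρ]; linarith [hy'.1]
    · rw [div_lt_iff₀ hρ]; linarith [hy'.2]
  have pI : (P (x, y) - p0) / ρ ∈ Ioo (-1 : ℝ) 1 := by
    constructor
    · rw [lt_div_iff₀ hρ]; linarith [hp'.1]
    · rw [div_lt_iff₀ hρ]; linarith [hp'.2]
  have hyabs : |(y - y0) / ρ| ≤ 1 := abs_le.2 ⟨yI.1.le, yI.2.le⟩
  have hpabs : |(P (x, y) - p0) / ρ| ≤ 1 := abs_le.2 ⟨pI.1.le, pI.2.le⟩
  refine ⟨yI, ?_, ?_, ?_⟩
  · show x0 + ρ * ((x - x0) / ρ) ∈ Ioo a b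
    rw [ex]; exact hx
  · show Bad 4 ε (fun p => Gt u a b p0 y0 ρ p ((y - y0) / ρ))
      ((P (x0 + ρ * ((x - x0) / ρ), y0 + ρ * ((y - y0) / ρ)) - p0) / ρ)
    rw [ex, ey]
    have hyI : y ∈ Icc c d := by
      have := (hD 0 ((y - y0) / ρ) (by norm_num) (by linarith)).1
      rw [ey] at this
      exact Ioo_subset_Icc_self this
    -- convexity and derivative of the slice
    have hconv : ConvexOn ℝ (Icc a b) (fun t => u (t, y)) :=
      (hN.strict y).convexOn.subset (fun t ht => hR ⟨ht, hyI⟩) (convex_Icc a b)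
    have hder : ∀ t ∈ Ioo a b, HasDerivAt (fun t => u (t, y)) (P (t, y)) t := by
      intro t ht
      have h1 := hN.diff (t, y) (hR ⟨Ioo_subset_Icc_self ht, hyI⟩)
      have h2 : HasDerivAt (fun t : ℝ => (t, y)) ((1 : ℝ), (0 : ℝ)) t :=
        (hasDerivAt_id t).prodMk (hasDerivAt_const t y)
      have h3 := h1.comp_hasDerivAt t h2
      have e : (P (t, y) • ContinuousLinearMap.fst ℝ ℝ ℝ + Q (t, y) •
          ContinuousLinearMap.snd ℝ ℝ ℝ) ((1 : ℝ), (0 : ℝ)) = P (t, y) := by simp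
      rw [e] at h3
      exact h3
    have hev := legendre_second (u1 := fun t => u (t, y)) (P1 := fun t => P (t, y)) hx hconv hder
      hd hε he
    have hev2 : ∀ᶠ h in 𝓝[>] (0 : ℝ), h < ρ :=
      (tendsto_nhdsWithin_of_tendsto_nhds tendsto_id).eventually (gt_mem_nhds hρ)
    obtain ⟨h, ⟨hh, hhρ⟩, hh0⟩ := ((hev.and hev2).and self_mem_nhdsWithin).exists
    have hh0 : 0 < h := hh0
    have hk0 : 0 < h / ρ := div_pos hh0 hρ
    have hk1 : h / ρ < 1 := by rw [div_lt_iff₀ hρ]; linarith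
    set q := (P (x, y) - p0) / ρ with hq
    have eq0 : p0 + ρ * q = P (x, y) := by rw [hq]; field_simp; ring
    have eG : ∀ k, |k| ≤ 1 → Gt u a b p0 y0 ρ (q + k) ((y - y0) / ρ)
        = PL u a b (P (x, y) + ρ * k) y / ρ ^ 2 := by
      intro k hk
      unfold Gt
      rw [clamp_eq (t := q + k), clamp_eq (t := (y - y0) / ρ), ey]
      · congr 2
        rw [← eq0]; ring
      · linarith
      · rw [abs_le] at hk ⊢
        rw [abs_le] at hpabs
        constructor <;> linarith [hk.1, hk.2, hpabs.1, hpabs.2]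
    refine ⟨q - h / ρ, q + h / ρ, by linarith [pI.1], by linarith, by linarith, by linarith [pI.2], ?_⟩
    have g1 := eG (h / ρ) (abs_le.2 ⟨by linarith, by linarith⟩)
    have g2 := eG (-(h / ρ)) (abs_le.2 ⟨by linarith, by linarith⟩)
    have g0 := eG 0 (by norm_num)
    have m1 : ρ * (h / ρ) = h := by field_simp
    have m2 : ρ * (-(h / ρ)) = -h := by field_simp
    rw [m1] at g1
    rw [m2, ← sub_eq_add_neg, ← sub_eq_add_neg] at g2
    rw [mul_zero, add_zero, add_zero] at g0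
    have hh' : PL u a b (P (x, y) + h) y + PL u a b (P (x, y) - h) y - 2 * PL u a b (P (x, y)) y
        < ε * h ^ 2 := hh
    have hfin := finish (F := fun p => Gt u a b p0 y0 ρ p ((y - y0) / ρ)) hρ hk0 hh' g1 g2 g0 rfl
    exact hfin
  · show (P (x0 + ρ * ((x - x0) / ρ), y0 + ρ * ((y - y0) / ρ)) - p0) / ρ ∈ Ioo (-1) 1
    rw [ex, ey]
    exact pI

theorem kappa_pos {l : ℝ} (hl0 : 0 < l) (hl1 : l < 1) : 0 < (1 + l ^ 2) / (1 - l ^ 2) := by
  have : 0 < 1 - l ^ 2 := by nlinarith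
  positivity

theorem local_setup (hN : Nice U u P Q) {z0 : ℝ × ℝ} (hz : z0 ∈ U) :
    ∃ a b c d ρ : ℝ, a < z0.1 ∧ z0.1 < b ∧ Icc a b ×ˢ Icc c d ⊆ U ∧ 0 < ρ ∧
      ∀ p y, |p| ≤ 52 → |y| ≤ 52 → (P z0 + ρ * p, z0.2 + ρ * y) ∈ Dom P a b c d := by
  obtain ⟨r, hr, hball⟩ := Metric.isOpen_iff.1 hN.isOpen z0 hz
  have hR : Icc (z0.1 - r / 2) (z0.1 + r / 2) ×ˢ Icc (z0.2 - r / 2) (z0.2 + r / 2) ⊆ U := by
    rintro ⟨x, y⟩ ⟨hx, hy⟩
    simp only [mem_Icc] at hx hy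
    apply hball
    rw [Metric.mem_ball, Prod.dist_eq, max_lt_iff, Real.dist_eq, Real.dist_eq, abs_lt, abs_lt]
    refine ⟨⟨?_, ?_⟩, ⟨?_, ?_⟩⟩ <;> simp only <;> linarith [hx.1, hx.2, hy.1, hy.2]
  have hab : z0.1 - r / 2 < z0.1 + r / 2 := by linarith
  have hdom : (P z0, z0.2) ∈ Dom P (z0.1 - r / 2) (z0.1 + r / 2) (z0.2 - r / 2) (z0.2 + r / 2) := by
    have hy : z0.2 ∈ Icc (z0.2 - r / 2) (z0.2 + r / 2) := ⟨by linarith, by linarith⟩
    have hm := P_strictMonoOn hN hab hR hy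
    refine ⟨⟨by simp only; linarith, by simp only; linarith⟩, ?_, ?_⟩
    · exact hm (left_mem_Icc.2 hab.le) ⟨by linarith, by linarith⟩ (by linarith)
    · exact hm ⟨by linarith, by linarith⟩ (right_mem_Icc.2 hab.le) (by linarith)
  obtain ⟨δ, hδ, hb⟩ := Metric.isOpen_iff.1 (isOpen_Dom hN hab hR) _ hdom
  refine ⟨_, _, _, _, δ / 53, by linarith, by linarith, hR, by positivity, ?_⟩
  intro p y hp hy
  apply hb
  rw [Metric.mem_ball, Prod.dist_eq, max_lt_iff, Real.dist_eq, Real.dist_eq]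
  have h1 : P z0 + δ / 53 * p - P z0 = δ / 53 * p := by ring
  have h2 : z0.2 + δ / 53 * y - z0.2 = δ / 53 * y := by ring
  simp only
  rw [h1, h2, abs_mul, abs_mul, abs_of_pos (show 0 < δ / 53 by positivity)]
  constructor
  · have := mul_le_mul_of_nonneg_left hp (show 0 ≤ δ / 53 by positivity)
    linarith
  · have := mul_le_mul_of_nonneg_left hy (show 0 ≤ δ / 53 by positivity)
    linarith

theorem local_estimate (hl0 : 0 < l) (hl1 : l < 1) (hM : MA l U u) (hN : Nice U u P Q)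
    {z0 : ℝ × ℝ} (hz : z0 ∈ U) :
    ∃ N ∈ 𝓝 z0, ∃ C : ℝ, ∀ s : ℝ, 0 < s → ENNReal.ofReal (s ^ ((1 + l ^ 2) / (1 - l ^ 2))) *
      volume {z ∈ N | ∃ d, s < d ∧ HasDerivAt (fun x => P (x, z.2)) d z.1} ≤ ENNReal.ofReal C := by
  obtain ⟨a, b, c, d, ρ, ha, hb, hR, hρ, hD⟩ := local_setup hN hz
  have hab : a < b := ha.trans hb
  obtain ⟨c0, hc0, hc0'⟩ := Gt_c0 hN hab hR hρ hD
  obtain ⟨C, ε0, hC, hε0, hmain⟩ := limit_main l hl0 hl1 c0 hc0
  have hmain' := hmain _ (Gt_cont hN hab hR hD) (Gt_star hl0 hM hN hab hR hρ hD) hc0'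
  have hκ := kappa_pos hl0 hl1
  set κ := (1 + l ^ 2) / (1 - l ^ 2) with hκdef
  -- the neighbourhood
  set N : Set (ℝ × ℝ) := {z | z.1 ∈ Ioo a b ∧ |z.2 - z0.2| < ρ ∧ |P z - P z0| < ρ} with hNdef
  have hN0 : N ∈ 𝓝 z0 := by
    have h1 : ∀ᶠ z : ℝ × ℝ in 𝓝 z0, z.1 ∈ Ioo a b :=
      (isOpen_Ioo.preimage continuous_fst).mem_nhds ⟨ha, hb⟩
    have h2 : ∀ᶠ z : ℝ × ℝ in 𝓝 z0, |z.2 - z0.2| < ρ := by
      have : Continuous (fun z : ℝ × ℝ => |z.2 - z0.2|) := by fun_prop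
      exact (this.tendsto z0).eventually (gt_mem_nhds (by simpa using hρ))
    have h3 : ∀ᶠ z : ℝ × ℝ in 𝓝 z0, |P z - P z0| < ρ := by
      have hPc : ContinuousAt P z0 := hN.cP.continuousAt (hN.isOpen.mem_nhds hz)
      have : ContinuousAt (fun z => |P z - P z0|) z0 := (hPc.sub continuousAt_const).abs
      exact this.eventually (gt_mem_nhds (by simpa using hρ))
    filter_upwards [h1, h2, h3] with z e1 e2 e3
    exact ⟨e1, e2, e3⟩
  -- finite volume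
  have hNfin : volume N ≤ ENNReal.ofReal ((b - a) * (2 * ρ)) := by
    have hsub : N ⊆ Ioo a b ×ˢ Ioo (z0.2 - ρ) (z0.2 + ρ) := by
      rintro z ⟨e1, e2, -⟩
      rw [abs_lt] at e2
      exact ⟨e1, by linarith [e2.1], by linarith [e2.2]⟩
    refine (measure_mono hsub).trans ?_
    rw [Measure.volume_eq_prod, Measure.prod_prod, Real.volume_Ioo, Real.volume_Ioo,
      ← ENNReal.ofReal_mul (by linarith)]
    apply le_of_eq
    congr 1
    ring
  refine ⟨N, hN0, max ((ε0⁻¹) ^ κ * ((b - a) * (2 * ρ))) (ρ ^ 2 * (8 * C)), ?_⟩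
  intro s hs
  rcases le_or_gt ε0 s⁻¹ with hcase | hcase
  · -- small `s`
    have hs' : s ≤ ε0⁻¹ := by
      have := inv_anti₀ hε0 hcase
      rwa [inv_inv] at this
    refine le_trans ?_ (ENNReal.ofReal_le_ofReal (le_max_left _ _))
    rw [ENNReal.ofReal_mul (by positivity)]
    refine mul_le_mul' (ENNReal.ofReal_le_ofReal (Real.rpow_le_rpow hs.le hs' hκ.le)) ?_
    exact (measure_mono (sep_subset _ _)).trans hNfin
  · refine le_trans ?_ (ENNReal.ofReal_le_ofReal (le_max_right _ _))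
    have hε : 0 < s⁻¹ := inv_pos.2 hs
    have hReg := Reg_le hN hab hR hρ hD (x0 := z0.1) hε
    have hvol : volume {z ∈ N | ∃ d, s < d ∧ HasDerivAt (fun x => P (x, z.2)) d z.1} ≤
        ENNReal.ofReal (ρ ^ 2) * volume (Reg u P a b (P z0) z0.2 ρ z0.1 s⁻¹) := by
      have hsub : {z ∈ N | ∃ d, s < d ∧ HasDerivAt (fun x => P (x, z.2)) d z.1} ⊆
          (fun h => -z0 + h) ⁻¹' (ρ • Reg u P a b (P z0) z0.2 ρ z0.1 s⁻¹) := by
        rintro z ⟨⟨e1, e2, e3⟩, e, he, hde⟩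
        have := mem_Reg hN hab hR hρ hD (x0 := z0.1) hε e1 e2 e3 (by rwa [inv_inv]) hde
        refine ⟨_, this, ?_⟩
        ext
        · show ρ * ((z.1 - z0.1) / ρ) = -z0.1 + z.1
          field_simp
          ring
        · show ρ * ((z.2 - z0.2) / ρ) = -z0.2 + z.2
          field_simp
          ring
      refine (measure_mono hsub).trans ?_
      rw [measure_preimage_add, Measure.addHaar_smul]
      have : Module.finrank ℝ (ℝ × ℝ) = 2 := by simp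
      rw [this, abs_of_pos (by positivity)]
    calc ENNReal.ofReal (s ^ κ) *
          volume {z ∈ N | ∃ d, s < d ∧ HasDerivAt (fun x => P (x, z.2)) d z.1}
        ≤ ENNReal.ofReal (s ^ κ) * (ENNReal.ofReal (ρ ^ 2) * (ENNReal.ofReal (8 * s⁻¹) *
          ENNReal.ofReal (C * (s⁻¹) ^ (κ - 1)))) := by
          refine mul_le_mul' le_rfl (hvol.trans (mul_le_mul' le_rfl (hReg.trans ?_)))
          exact mul_le_mul' le_rfl (hmain' _ hε hcase)
      _ = ENNReal.ofReal (s ^ κ * (ρ ^ 2 * ((8 * s⁻¹) * (C * (s⁻¹) ^ (κ - 1))))) := by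
          rw [ENNReal.ofReal_mul (p := s ^ κ) (by positivity),
            ENNReal.ofReal_mul (p := ρ ^ 2) (by positivity),
            ENNReal.ofReal_mul (p := 8 * s⁻¹) (by positivity)]
      _ ≤ ENNReal.ofReal (ρ ^ 2 * (8 * C)) := by
          apply ENNReal.ofReal_le_ofReal
          apply le_of_eq
          have h1 : (s⁻¹) ^ (κ - 1) = (s⁻¹) ^ κ / s⁻¹ := by
            rw [Real.rpow_sub_one hε.ne']
          have h2 : s ^ κ * (s⁻¹) ^ κ = 1 := by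
            rw [← Real.mul_rpow hs.le hε.le, mul_inv_cancel₀ hs.ne', Real.one_rpow]
          rw [h1]
          calc s ^ κ * (ρ ^ 2 * ((8 * s⁻¹) * (C * ((s⁻¹) ^ κ / s⁻¹))))
              = (s ^ κ * (s⁻¹) ^ κ) * (s⁻¹ / s⁻¹) * (ρ ^ 2 * (8 * C)) := by ring
            _ = _ := by rw [h2, div_self hε.ne']; ring

end

end T21

/-- [T21] The estimate for the second `x`-derivative. -/
theorem dir_estimate {l : ℝ} (hl0 : 0 < l) (hl1 : l < 1) {U : Set (ℝ × ℝ)} {u P Q : ℝ × ℝ → ℝ}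
    (hM : MA l U u) (hN : Nice U u P Q) {K : Set (ℝ × ℝ)} (hK : IsCompact K) (hKU : K ⊆ U) :
    ∃ C : ℝ, ∀ s : ℝ, 0 < s → ENNReal.ofReal (s ^ ((1 + l ^ 2) / (1 - l ^ 2))) *
      volume {z ∈ K | ∃ d, s < d ∧ HasDerivAt (fun x => P (x, z.2)) d z.1} ≤ ENNReal.ofReal C := by
  refine hK.induction_on (p := fun K => ∃ C : ℝ, ∀ s : ℝ, 0 < s →
    ENNReal.ofReal (s ^ ((1 + l ^ 2) / (1 - l ^ 2))) *
      volume {z ∈ K | ∃ d, s < d ∧ HasDerivAt (fun x => P (x, z.2)) d z.1} ≤ ENNReal.ofReal C)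
    ?_ ?_ ?_ ?_
  · refine ⟨0, fun s _ => ?_⟩
    have : {z ∈ (∅ : Set (ℝ × ℝ)) | ∃ d, s < d ∧ HasDerivAt (fun x => P (x, z.2)) d z.1} = ∅ := by
      ext z; simp
    rw [this]
    simp
  · rintro S T hST ⟨C, hC⟩
    refine ⟨C, fun s hs => le_trans (mul_le_mul' le_rfl (measure_mono ?_)) (hC s hs)⟩
    rintro z ⟨hz, hz'⟩
    exact ⟨hST hz, hz'⟩
  · rintro S T ⟨C, hC⟩ ⟨C', hC'⟩
    refine ⟨|C| + |C'|, fun s hs => ?_⟩
    have hsub : {z ∈ S ∪ T | ∃ d, s < d ∧ HasDerivAt (fun x => P (x, z.2)) d z.1} ⊆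
        {z ∈ S | ∃ d, s < d ∧ HasDerivAt (fun x => P (x, z.2)) d z.1} ∪
        {z ∈ T | ∃ d, s < d ∧ HasDerivAt (fun x => P (x, z.2)) d z.1} := by
      rintro z ⟨hz | hz, hz'⟩
      · exact Or.inl ⟨hz, hz'⟩
      · exact Or.inr ⟨hz, hz'⟩
    refine (mul_le_mul' le_rfl ((measure_mono hsub).trans (measure_union_le _ _))).trans ?_
    rw [mul_add, ENNReal.ofReal_add (abs_nonneg _) (abs_nonneg _)]
    refine add_le_add ((hC s hs).trans (ENNReal.ofReal_le_ofReal (le_abs_self _)))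
      ((hC' s hs).trans (ENNReal.ofReal_le_ofReal (le_abs_self _)))
  · intro z hz
    obtain ⟨N, hN0, C, hC⟩ := T21.local_estimate hl0 hl1 hM hN (hKU hz)
    exact ⟨N, mem_nhdsWithin_of_mem_nhds hN0, C, hC⟩

end Pool.Agent.MP_4aaa5f_an
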