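import Pool.Agent.MP_4aaa5f_an.Defs
import Pool.Agent.MP_4aaa5f_an.T01
import Pool.Agent.MP_4aaa5f_an.T02
import Pool.Agent.MP_4aaa5f_an.T03
import Pool.Agent.MP_4aaa5f_an.T04

set_option autoImplicit false

namespace Pool.Agent.MP_4aaa5f_an

open MeasureTheory Set Filter Topology

namespace Nic

/-- three point inequality, cleared of denominators -/
theorem three_pt {f : ℝ → ℝ} {S : Set ℝ} (hf : ConvexOn ℝ S f) {p q r : ℝ} (hp : p ∈ S)
    (hr : r ∈ S) (hpq : p ≤ q) (hqr : q ≤ r) (hpr : p < r) :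
    (r - p) * f q ≤ (r - q) * f p + (q - p) * f r := by
  have hD : 0 < r - p := by linarith
  have ha : 0 ≤ (r - q) / (r - p) := div_nonneg (by linarith) hD.le
  have hb : 0 ≤ (q - p) / (r - p) := div_nonneg (by linarith) hD.le
  have h := hf.2 hp hr ha hb (by rw [← add_div, div_eq_one_iff_eq hD.ne']; ring)
  simp only [smul_eq_mul] at h
  have e : (r - q) / (r - p) * p + (q - p) / (r - p) * r = q := by
    field_simp
    ring
  rw [e] at h
  have h2 := mul_le_mul_of_nonneg_left h hD.le
  have e2 : (r - p) * ((r - q) / (r - p) * f p + (q - p) / (r - p) * f r) =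
      (r - q) * f p + (q - p) * f r := by
    field_simp
  rwa [e2] at h2

/-- a convex function touching its chord from above inside is affine -/
theorem flat_of_touch {f : ℝ → ℝ} {S : Set ℝ} (hf : ConvexOn ℝ S f) {x x' w : ℝ} (hx : x ∈ S)
    (hx' : x' ∈ S) (hxw : x < w) (hwx : w < x')
    (hw : (x' - w) * f x + (w - x) * f x' ≤ (x' - x) * f w) :
    ∀ t ∈ Icc x x', f t = f x + (f x' - f x) / (x' - x) * (t - x) := by
  intro t ht
  have hD : 0 < x' - x := by linarith
  have h1 := three_pt hf hx hx' ht.1 ht.2 (by linarith)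
  have htS : t ∈ S := by
    have := hf.1.ordConnected.out hx hx'
    exact this ht
  have h2 : (x' - t) * f x + (t - x) * f x' ≤ (x' - x) * f t := by
    rcases le_total t w with htw | htw
    · have h3 := three_pt hf htS hx' htw hwx.le (by linarith)
      have h4 : 0 < x' - w := by linarith
      refine le_of_mul_le_mul_left ?_ h4
      have h5 := mul_le_mul_of_nonneg_left h3 hD.le
      have h6 := mul_le_mul_of_nonneg_left hw (show 0 ≤ x' - t by linarith [ht.2])
      nlinarith
    · have h3 := three_pt hf hx htS hxw.le htw (by linarith)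
      have h4 : 0 < w - x := by linarith
      refine le_of_mul_le_mul_left ?_ h4
      have h5 := mul_le_mul_of_nonneg_left h3 hD.le
      have h6 := mul_le_mul_of_nonneg_left hw (show 0 ≤ t - x by linarith [ht.1])
      nlinarith
  have h3 : (x' - x) * f t = (x' - t) * f x + (t - x) * f x' := le_antisymm h1 h2
  field_simp
  linarith

theorem rot_inv {c s : ℝ} (hcs : c ^ 2 + s ^ 2 = 1) (z : ℝ × ℝ) : rot c s (rot c (-s) z) = z := by
  unfold rot
  ext
  · simp only
    linear_combination z.1 * hcs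
  · simp only
    linear_combination z.2 * hcs

/-- no vertical flat segments -/
theorem noflat_vert {l : ℝ} {U : Set (ℝ × ℝ)} {u : ℝ × ℝ → ℝ} (hl : 0 < l) (h : MA l U u) :
    ∀ x y1 y2 m : ℝ, y1 < y2 → (∀ y ∈ Icc y1 y2, (x, y) ∈ U) →
      (∀ y ∈ Icc y1 y2, u (x, y) = u (x, y1) + m * (y - y1)) → False := by
  intro x y1 y2 m hy hU hflat
  have hM := MA_rot (c := 0) (s := 1) (by norm_num) h
  have hrot : ∀ a : ℝ, rot 0 1 (a, -x) = (x, a) := fun a => by
    unfold rot; simp
  refine noflat hl hM (x1 := y1) (x2 := y2) (y := -x) (m := m) hy ?_ ?_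
  · intro a ha
    change rot 0 1 (a, -x) ∈ U
    rw [hrot]
    exact hU a ha
  · intro a ha
    simp only [hrot]
    exact hflat a ha

theorem unique {l : ℝ} {U : Set (ℝ × ℝ)} {u : ℝ × ℝ → ℝ} (hl : 0 < l) (h : MA l U u) {z : ℝ × ℝ}
    (hz : z ∈ U) : (sub U u z).Subsingleton := by
  intro P1 h1 P2 h2
  by_contra hne
  set r := Real.sqrt ((P2.1 - P1.1) ^ 2 + (P2.2 - P1.2) ^ 2) with hr
  have hpos : 0 < (P2.1 - P1.1) ^ 2 + (P2.2 - P1.2) ^ 2 := by
    by_contra hcon
    push Not at hcon
    have a1 : P2.1 - P1.1 = 0 := by nlinarith [sq_nonneg (P2.1 - P1.1), sq_nonneg (P2.2 - P1.2)]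
    have a2 : P2.2 - P1.2 = 0 := by nlinarith [sq_nonneg (P2.1 - P1.1), sq_nonneg (P2.2 - P1.2)]
    exact hne (Prod.ext (by linarith) (by linarith))
  have hr0 : 0 < r := Real.sqrt_pos.2 hpos
  have hr2 : r ^ 2 = (P2.1 - P1.1) ^ 2 + (P2.2 - P1.2) ^ 2 := Real.sq_sqrt hpos.le
  set c := (P2.1 - P1.1) / r with hc
  set s := (P2.2 - P1.2) / r with hs
  have hcs : c ^ 2 + s ^ 2 = 1 := by
    rw [hc, hs, div_pow, div_pow, ← add_div, hr2, div_self hpos.ne']
  have hM := MA_rot hcs h
  have hcr : c * r = P2.1 - P1.1 := div_mul_cancel₀ _ hr0.ne'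
  have hsr : s * r = P2.2 - P1.2 := div_mul_cancel₀ _ hr0.ne'
  have hmem : ∀ P ∈ sub U u z, rot c (-s) P ∈
      sub (rot c s ⁻¹' U) (fun v => u (rot c s v)) (rot c (-s) z) := by
    intro P hP
    rw [mem_sub_rot hcs, rot_inv hcs, rot_inv hcs]
    exact hP
  have m1 := hmem P1 h1
  have m2 := hmem P2 h2
  have hz' : rot c (-s) z ∈ rot c s ⁻¹' U := by
    change rot c s (rot c (-s) z) ∈ U
    rw [rot_inv hcs]
    exact hz
  have e1 : rot c (-s) P1 = (c * P1.1 + s * P1.2, c * P1.2 - s * P1.1) := by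
    unfold rot
    ext <;> simp only <;> ring
  have e2 : rot c (-s) P2 = (c * P1.1 + s * P1.2 + r, c * P1.2 - s * P1.1) := by
    unfold rot
    ext
    · simp only
      linear_combination (-c) * hcr + (-s) * hsr + r * hcs
    · simp only
      linear_combination s * hcr - c * hsr
  rw [e1] at m1
  rw [e2] at m2
  exact nokink hl hM (noflat_vert hl hM) hz' (by linarith) m1 m2

end Nic

open Nic in
/-- [T22] Solutions are `C¹` and strictly convex. -/
theorem MA.nice {l : ℝ} (hl0 : 0 < l) {U : Set (ℝ × ℝ)} {u : ℝ × ℝ → ℝ} (h : MA l U u) :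
    ∃ P Q : ℝ × ℝ → ℝ, Nice U u P Q := by
  obtain ⟨P, Q, h1, h2, h3, h4⟩ := c1_of_unique h.isOpen h.convexOn fun z hz => unique hl0 h hz
  refine ⟨P, Q, h.isOpen, h.convex, h.convexOn, h1, h2, h3, h4, fun y => ?_⟩
  have hconv : ConvexOn ℝ {x | (x, y) ∈ U} fun x => u (x, y) := by
    refine ⟨?_, ?_⟩
    · intro p hp q hq a b ha hb hab
      have := h.convex hp hq ha hb hab
      simpa [← add_mul, hab] using this
    · intro p hp q hq a b ha hb hab
      have := h.convexOn.2 hp hq ha hb hab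
      simpa [← add_mul, hab] using this
  refine ⟨hconv.1, ?_⟩
  have key : ∀ x x' : ℝ, (x, y) ∈ U → (x', y) ∈ U → x < x' → ∀ a b : ℝ, 0 < a → 0 < b →
      a + b = 1 → u (a * x + b * x', y) < a * u (x, y) + b * u (x', y) := by
    intro x x' hx hx' hxx a b ha hb hab
    by_contra hcon
    push Not at hcon
    have hb' : b = 1 - a := by linarith
    subst hb'
    have h5 : x < a * x + (1 - a) * x' := by nlinarith
    have h6 : a * x + (1 - a) * x' < x' := by nlinarith
    have h7 := flat_of_touch hconv hx hx' h5 h6 (by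
      have h8 := mul_le_mul_of_nonneg_left hcon (show 0 ≤ x' - x by linarith)
      nlinarith)
    exact noflat hl0 h hxx (fun t ht => hconv.1.ordConnected.out hx hx' ht) h7
  intro x hx x' hx' hne a b ha hb hab
  simp only [smul_eq_mul]
  rcases lt_or_gt_of_ne hne with hlt | hlt
  · exact key x x' hx hx' hlt a b ha hb hab
  · have := key x' x hx' hx hlt b a hb ha (by linarith)
    rw [add_comm (b * x'), add_comm (b * u (x', y))] at this
    exact this

end Pool.Agent.MP_4aaa5f_an
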