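import Pool.Agent.MP_4aaa5f_an.Defs
import Pool.Agent.MP_4aaa5f_an.T21
import Pool.Agent.MP_4aaa5f_an.T22

set_option autoImplicit false

namespace Pool.Agent.MP_4aaa5f_an

open MeasureTheory Set Filter Topology


/-- The Euclidean plane. -/
abbrev t23E : Type := EuclideanSpace ℝ (Fin 2)

/-- An isometric frame. -/
structure Fr (L : (ℝ × ℝ) ≃L[ℝ] t23E) : Prop where
  inn : ∀ p q, inner ℝ (L p) (L q) = p.1 * q.1 + p.2 * q.2
  mp : MeasurePreserving L volume volume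

/-- the standard frame -/
noncomputable def frA : (ℝ × ℝ) ≃L[ℝ] t23E :=
  (ContinuousLinearEquiv.finTwoArrow ℝ ℝ).symm.trans (PiLp.continuousLinearEquiv 2 ℝ (fun _ : Fin 2 => ℝ)).symm

/-- the swapped frame -/
noncomputable def frB : (ℝ × ℝ) ≃L[ℝ] t23E :=
  (ContinuousLinearEquiv.prodComm ℝ ℝ ℝ).trans frA

theorem frA_apply (p : ℝ × ℝ) : frA p = !₂[p.1, p.2] := rfl

theorem frB_apply (p : ℝ × ℝ) : frB p = !₂[p.2, p.1] := rfl

theorem fr_A : Fr frA where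
  inn p q := by
    rw [frA_apply, frA_apply, PiLp.inner_apply, Fin.sum_univ_two]
    simp [mul_comm]
  mp := by
    have h3 := PiLp.volume_preserving_toLp (Fin 2)
    have h4 := (volume_preserving_finTwoArrow ℝ).symm
    exact h3.comp h4

theorem fr_B : Fr frB where
  inn p q := by
    rw [frB_apply, frB_apply, PiLp.inner_apply, Fin.sum_univ_two]
    simp [mul_comm]
    ring
  mp := fr_A.mp.comp (Measure.measurePreserving_swap (μ := (volume : Measure ℝ))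
    (ν := (volume : Measure ℝ)))

section
variable {L : (ℝ × ℝ) ≃L[ℝ] t23E} {Ω : Set t23E} {u : t23E → ℝ} {l : ℝ}

theorem Fr.vol (hL : Fr L) (S : Set (ℝ × ℝ)) : volume (L '' S) = volume S := by
  have h := hL.mp
  have h2 := MeasurePreserving.measure_preimage_equiv (f := L.toHomeomorph.toMeasurableEquiv) h
    (L '' S)
  rw [← h2]
  congr 1
  exact preimage_image_eq _ L.injective

theorem Fr.sub_image (hL : Fr L) (z : ℝ × ℝ) :
    {p : t23E | ∀ y ∈ Ω, u (L z) + inner ℝ p (y - L z) ≤ u y} =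
      L '' (sub (L ⁻¹' Ω) (fun v => u (L v)) z) := by
  ext p
  constructor
  · intro hp
    refine ⟨L.symm p, ?_, L.apply_symm_apply p⟩
    intro v hv
    have := hp (L v) hv
    rw [← map_sub, ← L.apply_symm_apply p, hL.inn] at this
    simp only [Prod.fst_sub, Prod.snd_sub] at this
    linarith
  · rintro ⟨q, hq, rfl⟩ y hy
    have := hq (L.symm y) (by simpa using hy)
    have e : y - L z = L (L.symm y - z) := by simp
    rw [e, hL.inn]
    simp only [L.apply_symm_apply, Prod.fst_sub, Prod.snd_sub] at this ⊢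
    linarith

theorem Fr.subim_image (hL : Fr L) (B : Set (ℝ × ℝ)) :
    (⋃ x ∈ L '' B, {p : t23E | ∀ y ∈ Ω, u x + inner ℝ p (y - x) ≤ u y}) =
      L '' (subim (L ⁻¹' Ω) (fun v => u (L v)) B) := by
  unfold subim
  rw [biUnion_image, image_iUnion₂]
  refine iUnion₂_congr fun z _ => ?_
  exact hL.sub_image z

theorem Fr.MA (hL : Fr L) (hΩ : IsOpen Ω) (hΩc : Convex ℝ Ω) (hu : ConvexOn ℝ Ω u)
    (h : ∀ B : Set t23E, MeasurableSet B → B ⊆ Ω →
        ENNReal.ofReal l * volume B ≤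
            volume (⋃ x ∈ B, {p : t23E |
              ∀ y ∈ Ω, u x + inner ℝ p (y - x) ≤ u y}) ∧
        volume (⋃ x ∈ B, {p : t23E |
              ∀ y ∈ Ω, u x + inner ℝ p (y - x) ≤ u y}) ≤
            ENNReal.ofReal l⁻¹ * volume B) :
    MA l (L ⁻¹' Ω) (fun v => u (L v)) := by
  have key : ∀ B : Set (ℝ × ℝ), MeasurableSet B → B ⊆ L ⁻¹' Ω →
      MeasurableSet (L '' B) ∧ L '' B ⊆ Ω := by
    intro B hB hBU
    refine ⟨?_, by rintro _ ⟨z, hz, rfl⟩; exact hBU hz⟩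
    exact (L.toHomeomorph.toMeasurableEquiv.measurableSet_image).2 hB
  refine ⟨hΩ.preimage L.continuous, hΩc.linear_preimage L.toLinearEquiv.toLinearMap,
    hu.comp_linearMap L.toLinearEquiv.toLinearMap, ?_, ?_⟩
  · intro B hB hBU
    obtain ⟨h1, h2⟩ := key B hB hBU
    have := (h _ h1 h2).1
    rw [hL.subim_image, hL.vol, hL.vol] at this
    exact this
  · intro B hB hBU
    obtain ⟨h1, h2⟩ := key B hB hBU
    have := (h _ h1 h2).2
    rw [hL.subim_image, hL.vol, hL.vol] at this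
    exact this

theorem nice_fderiv {P Q : ℝ × ℝ → ℝ} (hN : Nice (L ⁻¹' Ω) (fun v => u (L v)) P Q) {z : ℝ × ℝ}
    (hz : L z ∈ Ω) : DifferentiableAt ℝ u (L z) ∧
      ∀ h : ℝ × ℝ, fderiv ℝ u (L z) (L h) = P z * h.1 + Q z * h.2 := by
  have h1 := hN.diff z hz
  have h2 : HasFDerivAt u ((P z • ContinuousLinearMap.fst ℝ ℝ ℝ +
      Q z • ContinuousLinearMap.snd ℝ ℝ ℝ).comp (L.symm : t23E →L[ℝ] (ℝ × ℝ))) (L z) := by
    have h3 : HasFDerivAt (fun v => u (L v)) (P z • ContinuousLinearMap.fst ℝ ℝ ℝ +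
      Q z • ContinuousLinearMap.snd ℝ ℝ ℝ) (L.symm (L z)) := by simpa using h1
    have h4 := h3.comp (L z) (L.symm : t23E →L[ℝ] (ℝ × ℝ)).hasFDerivAt
    have e : ((fun v => u (L v)) ∘ L.symm) = u := by
      ext x; simp
    rwa [e] at h4
  refine ⟨h2.differentiableAt, fun h => ?_⟩
  rw [h2.fderiv]
  simp

/-- The second derivative in the first frame direction. -/
theorem nice_second {P Q : ℝ × ℝ → ℝ} (hN : Nice (L ⁻¹' Ω) (fun v => u (L v)) P Q) {z : ℝ × ℝ}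
    (hz : L z ∈ Ω) (hd : DifferentiableAt ℝ (fderiv ℝ u) (L z)) :
    HasDerivAt (fun x => P (x, z.2))
      (fderiv ℝ (fderiv ℝ u) (L z) (L (1, 0)) (L (1, 0))) z.1 := by
  have h1 : HasDerivAt (fun t : ℝ => L (t, z.2)) (L (1, 0)) z.1 := by
    have h2 : HasDerivAt (fun t : ℝ => ((t, z.2) : ℝ × ℝ)) (1, 0) z.1 :=
      (hasDerivAt_id z.1).prodMk (hasDerivAt_const z.1 z.2)
    exact (L : (ℝ × ℝ) →L[ℝ] t23E).hasFDerivAt.comp_hasDerivAt z.1 h2
  have h2 : HasDerivAt (fun t : ℝ => fderiv ℝ u (L (t, z.2)))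
      (fderiv ℝ (fderiv ℝ u) (L z) (L (1, 0))) z.1 := by
    have h3 : HasFDerivAt (fderiv ℝ u) (fderiv ℝ (fderiv ℝ u) (L z)) (L (z.1, z.2)) :=
      hd.hasFDerivAt
    exact h3.comp_hasDerivAt z.1 h1
  have h3 : HasDerivAt (fun t : ℝ => fderiv ℝ u (L (t, z.2)) (L (1, 0)))
      (fderiv ℝ (fderiv ℝ u) (L z) (L (1, 0)) (L (1, 0))) z.1 := by
    have := h2.clm_apply (hasDerivAt_const z.1 (L (1, 0)))
    simpa using this
  refine h3.congr_of_eventuallyEq ?_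
  have ho : IsOpen ((fun t : ℝ => L (t, z.2)) ⁻¹' Ω) := by
    have : IsOpen (L ⁻¹' Ω) := hN.isOpen
    exact this.preimage (f := fun t : ℝ => ((t, z.2) : ℝ × ℝ)) (by fun_prop)
  filter_upwards [ho.mem_nhds (show z.1 ∈ _ from hz)] with t ht
  have := (nice_fderiv hN (z := (t, z.2)) ht).2 (1, 0)
  simp only [mul_one, mul_zero, add_zero] at this
  exact this.symm

/-- The second derivative is nonnegative. -/
theorem nice_psd {P Q : ℝ × ℝ → ℝ} (hN : Nice (L ⁻¹' Ω) (fun v => u (L v)) P Q) {z : ℝ × ℝ}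
    (hz : L z ∈ Ω) (hd : DifferentiableAt ℝ (fderiv ℝ u) (L z)) (h : ℝ × ℝ) :
    0 ≤ fderiv ℝ (fderiv ℝ u) (L z) (L h) (L h) := by
  have h1 : HasDerivAt (fun t : ℝ => L (z + t • h)) (L h) 0 := by
    have h2 : HasDerivAt (fun t : ℝ => z + t • h) h 0 := by
      have := ((hasDerivAt_id (0 : ℝ)).smul_const h).const_add z
      simpa using this
    have h3 := (L : (ℝ × ℝ) →L[ℝ] t23E).hasFDerivAt.comp_hasDerivAt 0 h2
    exact h3
  have h2 : HasDerivAt (fun t : ℝ => fderiv ℝ u (L (z + t • h)))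
      (fderiv ℝ (fderiv ℝ u) (L z) (L h)) 0 := by
    have h3 : HasFDerivAt (fderiv ℝ u) (fderiv ℝ (fderiv ℝ u) (L z)) (L (z + (0 : ℝ) • h)) := by
      simpa using hd.hasFDerivAt
    exact h3.comp_hasDerivAt 0 h1
  have h3 : HasDerivAt (fun t : ℝ => fderiv ℝ u (L (z + t • h)) (L h))
      (fderiv ℝ (fderiv ℝ u) (L z) (L h) (L h)) 0 := by
    have := h2.clm_apply (hasDerivAt_const 0 (L h))
    simpa using this
  have h4 := h3.hasDerivWithinAt (s := Ioi 0)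
  rw [hasDerivWithinAt_iff_tendsto_slope' (by simp)] at h4
  refine ge_of_tendsto h4 ?_
  have ho : IsOpen ((fun t : ℝ => z + t • h) ⁻¹' (L ⁻¹' Ω)) :=
    hN.isOpen.preimage (f := fun t : ℝ => z + t • h) (by fun_prop)
  have h0 : (0 : ℝ) ∈ (fun t : ℝ => z + t • h) ⁻¹' (L ⁻¹' Ω) := by simpa using hz
  filter_upwards [self_mem_nhdsWithin, mem_nhdsWithin_of_mem_nhds (ho.mem_nhds h0)] with t ht htU
  have ht0 : (0 : ℝ) < t := ht
  have e1 := (nice_fderiv hN (z := z + t • h) htU).2 h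
  have e2 := (nice_fderiv hN hz).2 h
  rw [slope_def_field]
  simp only [zero_smul, add_zero, sub_zero]
  rw [e1, e2]
  have s1 : (P z, Q z) ∈ sub (L ⁻¹' Ω) (fun v => u (L v)) z := by
    rw [hN.sub_eq z hz]; exact mem_singleton _
  have s2 : (P (z + t • h), Q (z + t • h)) ∈ sub (L ⁻¹' Ω) (fun v => u (L v)) (z + t • h) := by
    rw [hN.sub_eq _ htU]; exact mem_singleton _
  have i1 := s1 (z + t • h) htU
  have i2 := s2 z hz
  simp only [Prod.fst_add, Prod.snd_add, Prod.smul_fst, Prod.smul_snd, smul_eq_mul] at i1 i2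
  apply div_nonneg _ ht0.le
  have : 0 ≤ t * (P (z + t • h) * h.1 + Q (z + t • h) * h.2 - (P z * h.1 + Q z * h.2)) := by
    nlinarith
  exact nonneg_of_mul_nonneg_right this ht0


/-- The estimate in one frame direction. -/
theorem Fr.estimate (hL : Fr L) (hl0 : 0 < l) (hl1 : l < 1)
    (hM : Pool.Agent.MP_4aaa5f_an.MA l (L ⁻¹' Ω) (fun v => u (L v)))
    {P Q : ℝ × ℝ → ℝ} (hN : Nice (L ⁻¹' Ω) (fun v => u (L v)) P Q)
    {K : Set t23E} (hK : IsCompact K) (hKU : K ⊆ Ω) :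
    ∃ C : ℝ, ∀ s : ℝ, 0 < s → ENNReal.ofReal (s ^ ((1 + l ^ 2) / (1 - l ^ 2))) *
      volume {x ∈ K | DifferentiableAt ℝ (fderiv ℝ u) x ∧
        s < fderiv ℝ (fderiv ℝ u) x (L (1, 0)) (L (1, 0))} ≤ ENNReal.ofReal C := by
  have hK' : IsCompact (L ⁻¹' K) := L.toHomeomorph.isCompact_preimage.2 hK
  obtain ⟨C, hC⟩ := dir_estimate hl0 hl1 hM hN hK' (preimage_mono hKU)
  refine ⟨C, fun s hs => le_trans ?_ (hC s hs)⟩
  gcongr
  rw [← hL.vol]
  apply measure_mono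
  rintro x ⟨hx, hd, hsx⟩
  refine ⟨L.symm x, ⟨by simpa using hx, _, hsx, ?_⟩, L.apply_symm_apply x⟩
  have := nice_second hN (z := L.symm x) (by simpa using hKU hx) (by simpa using hd)
  simpa using this

end

theorem t23_decomp (v : t23E) : v = v 0 • frA (1, 0) + v 1 • frA (0, 1) := by
  ext i
  fin_cases i <;> simp [frA_apply]

theorem t23_abs_le (v : t23E) (i : Fin 2) : |v i| ≤ ‖v‖ := by
  have := PiLp.norm_apply_le v i
  simpa using this

/-- The norm of a symmetric nonnegative bilinear form. -/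
theorem t23_norm_le (B : t23E →L[ℝ] t23E →L[ℝ] ℝ) (hsymm : ∀ v w, B v w = B w v)
    (hpos : ∀ v, 0 ≤ B v v) :
    ‖B‖ ≤ 2 * (B (frA (1, 0)) (frA (1, 0)) + B (frA (0, 1)) (frA (0, 1))) := by
  have h1 := hpos (frA (1, 0))
  have h2 := hpos (frA (0, 1))
  have h3 := hpos (frA (1, 0) + frA (0, 1))
  have h4 := hpos (frA (1, 0) - frA (0, 1))
  have h5 := hsymm (frA (1, 0)) (frA (0, 1))
  simp only [map_add, map_sub, add_apply, sub_apply] at h3 h4
  generalize hb1 : B (frA (1, 0)) (frA (1, 0)) = b11 at *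
  generalize hb2 : B (frA (0, 1)) (frA (0, 1)) = b22 at *
  generalize hb3 : B (frA (1, 0)) (frA (0, 1)) = b12 at *
  have h12 : |b12| ≤ (b11 + b22) / 2 := by
    rw [abs_le]
    constructor <;> linarith
  refine ContinuousLinearMap.opNorm_le_bound₂ _ (by positivity) fun v w => ?_
  have e : B v w = v 0 * w 0 * b11 + (v 0 * w 1 + v 1 * w 0) * b12 + v 1 * w 1 * b22 := by
    conv_lhs => rw [t23_decomp v, t23_decomp w]
    simp only [map_add, map_smul, add_apply, smul_apply,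
      smul_eq_mul, hb1, hb2, hb3, ← h5]
    ring
  rw [e, Real.norm_eq_abs]
  have v0 := t23_abs_le v 0
  have v1 := t23_abs_le v 1
  have w0 := t23_abs_le w 0
  have w1 := t23_abs_le w 1
  have m : ∀ i j : Fin 2, |v i * w j| ≤ ‖v‖ * ‖w‖ := fun i j => by
    rw [abs_mul]
    exact mul_le_mul (t23_abs_le v i) (t23_abs_le w j) (abs_nonneg _) (norm_nonneg _)
  have hn : 0 ≤ ‖v‖ * ‖w‖ := by positivity
  have t1 : |v 0 * w 0 * b11| ≤ ‖v‖ * ‖w‖ * b11 := by
    rw [abs_mul, abs_of_nonneg h1]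
    exact mul_le_mul_of_nonneg_right (m 0 0) h1
  have t2 : |v 1 * w 1 * b22| ≤ ‖v‖ * ‖w‖ * b22 := by
    rw [abs_mul, abs_of_nonneg h2]
    exact mul_le_mul_of_nonneg_right (m 1 1) h2
  have t3 : |(v 0 * w 1 + v 1 * w 0) * b12| ≤ ‖v‖ * ‖w‖ * (b11 + b22) := by
    rw [abs_mul]
    have : |v 0 * w 1 + v 1 * w 0| ≤ 2 * (‖v‖ * ‖w‖) :=
      (abs_add_le _ _).trans (by linarith [m 0 1, m 1 0])
    calc _ ≤ (2 * (‖v‖ * ‖w‖)) * ((b11 + b22) / 2) :=
          mul_le_mul this h12 (abs_nonneg _) (by positivity)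
      _ = _ := by ring
  calc _ ≤ |v 0 * w 0 * b11| + |(v 0 * w 1 + v 1 * w 0) * b12| + |v 1 * w 1 * b22| :=
        (abs_add_le _ _).trans (by gcongr; exact abs_add_le _ _)
    _ ≤ _ := by linarith

/-- [T23] Final assembly: the statement of S04589. -/
theorem final : ∀ (Ω : Set (EuclideanSpace ℝ (Fin 2))) (u : EuclideanSpace ℝ (Fin 2) → ℝ) (l : ℝ),
      IsOpen Ω → Convex ℝ Ω → ConvexOn ℝ Ω u → 0 < l → l < 1 →
      (∀ B : Set (EuclideanSpace ℝ (Fin 2)), MeasurableSet B → B ⊆ Ω →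
        ENNReal.ofReal l * volume B ≤
            volume (⋃ x ∈ B, {p : EuclideanSpace ℝ (Fin 2) |
              ∀ y ∈ Ω, u x + inner ℝ p (y - x) ≤ u y}) ∧
        volume (⋃ x ∈ B, {p : EuclideanSpace ℝ (Fin 2) |
              ∀ y ∈ Ω, u x + inner ℝ p (y - x) ≤ u y}) ≤
            ENNReal.ofReal l⁻¹ * volume B) →
      ∀ K : Set (EuclideanSpace ℝ (Fin 2)), IsCompact K → K ⊆ Ω →
        ∃ C : ℝ, ∀ s : ℝ, 0 < s →
          ENNReal.ofReal (s ^ ((1 + l ^ 2) / (1 - l ^ 2))) *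
              volume {x ∈ K | s < ‖fderiv ℝ (fderiv ℝ u) x‖} ≤ ENNReal.ofReal C := by
  intro Ω u l hΩ hΩc hu hl0 hl1 hMA K hK hKΩ
  have MA1 := fr_A.MA hΩ hΩc hu hMA
  have MA2 := fr_B.MA hΩ hΩc hu hMA
  obtain ⟨P1, Q1, N1⟩ := MA.nice hl0 MA1
  obtain ⟨P2, Q2, N2⟩ := MA.nice hl0 MA2
  obtain ⟨C1, hC1⟩ := fr_A.estimate hl0 hl1 MA1 N1 hK hKΩ
  obtain ⟨C2, hC2⟩ := fr_B.estimate hl0 hl1 MA2 N2 hK hKΩ
  have hp : 0 < (1 + l ^ 2) / (1 - l ^ 2) := by
    apply div_pos (by positivity)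
    nlinarith
  generalize (1 + l ^ 2) / (1 - l ^ 2) = pp at *
  refine ⟨(4 : ℝ) ^ pp * (max C1 0 + max C2 0), fun s hs => ?_⟩
  have hsub : {x ∈ K | s < ‖fderiv ℝ (fderiv ℝ u) x‖} ⊆
      {x ∈ K | DifferentiableAt ℝ (fderiv ℝ u) x ∧
        s / 4 < fderiv ℝ (fderiv ℝ u) x (frA (1, 0)) (frA (1, 0))} ∪
      {x ∈ K | DifferentiableAt ℝ (fderiv ℝ u) x ∧
        s / 4 < fderiv ℝ (fderiv ℝ u) x (frB (1, 0)) (frB (1, 0))} := by
    rintro x ⟨hx, hsx⟩
    have hd : DifferentiableAt ℝ (fderiv ℝ u) x := by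
      by_contra hcon
      rw [fderiv_zero_of_not_differentiableAt hcon] at hsx
      have h0 : ‖(0 : t23E →L[ℝ] t23E →L[ℝ] ℝ)‖ = 0 := ContinuousLinearMap.opNorm_zero
      exact absurd (hsx.trans_eq h0) (by linarith)
    have hxΩ := hKΩ hx
    have hsymm : ∀ v w, fderiv ℝ (fderiv ℝ u) x v w = fderiv ℝ (fderiv ℝ u) x w v := by
      intro v w
      refine second_derivative_symmetric_of_eventually (f := u) (f' := fderiv ℝ u) ?_
        hd.hasFDerivAt v w
      filter_upwards [hΩ.mem_nhds hxΩ] with y hy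
      have := (nice_fderiv N1 (z := frA.symm y) (by simpa using hy)).1
      simp only [ContinuousLinearEquiv.apply_symm_apply] at this
      exact this.hasFDerivAt
    have hpos : ∀ v, 0 ≤ fderiv ℝ (fderiv ℝ u) x v v := by
      intro v
      have := nice_psd N1 (z := frA.symm x) (by simpa using hxΩ) (by simpa using hd) (frA.symm v)
      simpa using this
    have h1 := t23_norm_le _ hsymm hpos
    have e : frA (0, 1) = frB (1, 0) := rfl
    rw [e] at h1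
    by_cases hc : s / 4 < fderiv ℝ (fderiv ℝ u) x (frA (1, 0)) (frA (1, 0))
    · exact Or.inl ⟨hx, hd, hc⟩
    · refine Or.inr ⟨hx, hd, ?_⟩
      push Not at hc
      linarith
  have hs4 : 0 < s / 4 := by positivity
  have e1 : ENNReal.ofReal (s ^ pp) = ENNReal.ofReal ((4 : ℝ) ^ pp) *
      ENNReal.ofReal ((s / 4) ^ pp) := by
    rw [← ENNReal.ofReal_mul (by positivity), ← Real.mul_rpow (by norm_num) hs4.le]
    congr 2
    ring
  calc ENNReal.ofReal (s ^ pp) * volume {x ∈ K | s < ‖fderiv ℝ (fderiv ℝ u) x‖}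
      ≤ ENNReal.ofReal (s ^ pp) * (volume {x ∈ K | DifferentiableAt ℝ (fderiv ℝ u) x ∧
        s / 4 < fderiv ℝ (fderiv ℝ u) x (frA (1, 0)) (frA (1, 0))} +
      volume {x ∈ K | DifferentiableAt ℝ (fderiv ℝ u) x ∧
        s / 4 < fderiv ℝ (fderiv ℝ u) x (frB (1, 0)) (frB (1, 0))}) := by
        gcongr
        exact (measure_mono hsub).trans (measure_union_le _ _)
    _ = ENNReal.ofReal ((4 : ℝ) ^ pp) * (ENNReal.ofReal ((s / 4) ^ pp) *
        volume {x ∈ K | DifferentiableAt ℝ (fderiv ℝ u) x ∧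
        s / 4 < fderiv ℝ (fderiv ℝ u) x (frA (1, 0)) (frA (1, 0))} +
        ENNReal.ofReal ((s / 4) ^ pp) * volume {x ∈ K | DifferentiableAt ℝ (fderiv ℝ u) x ∧
        s / 4 < fderiv ℝ (fderiv ℝ u) x (frB (1, 0)) (frB (1, 0))}) := by
        rw [e1]; ring
    _ ≤ ENNReal.ofReal ((4 : ℝ) ^ pp) * (ENNReal.ofReal (max C1 0) + ENNReal.ofReal (max C2 0)) := by
        gcongr
        · exact (hC1 _ hs4).trans (ENNReal.ofReal_le_ofReal (le_max_left _ _))
        · exact (hC2 _ hs4).trans (ENNReal.ofReal_le_ofReal (le_max_left _ _))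
    _ = _ := by
        rw [← ENNReal.ofReal_add (le_max_right _ _) (le_max_right _ _),
          ← ENNReal.ofReal_mul (by positivity)]

end Pool.Agent.MP_4aaa5f_an
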